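import Mathlib
set_option autoImplicit false
open MeasureTheory Metric Set Filter Topology
open scoped ContDiff InnerProductSpace

namespace Pool.Agent.Helper546

section abstract_lemmas

variable {X L : Type} [NormedAddCommGroup X] [InnerProductSpace ℝ X] [CompleteSpace X]
  [NormedAddCommGroup L] [InnerProductSpace ℝ L] [CompleteSpace L]

/-- A maximiser of the Rayleigh quotient on a closed subspace, under a compactness hypothesis. -/
theorem exists_top (ι : X →L[ℝ] L) (K : Submodule ℝ X) (hK : IsClosed (K : Set X))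
    (hcpt : TotallyBounded (ι '' ((K : Set X) ∩ closedBall 0 1)))
    (hne : ∃ y ∈ K, ι y ≠ 0) :
    ∃ x ∈ K, ‖x‖ = 1 ∧ ∃ τ : ℝ, 0 < τ ∧ (∀ y ∈ K, ‖ι y‖ ^ 2 ≤ τ * ‖y‖ ^ 2) ∧
      ∀ y ∈ K, ⟪ι x, ι y⟫_ℝ = τ * ⟪x, y⟫_ℝ := by
  classical
  set S : Set ℝ := (fun y => ‖ι y‖ ^ 2) '' ((K : Set X) ∩ closedBall 0 1) with hS
  have hSb : BddAbove S := by
    refine ⟨‖ι‖ ^ 2, ?_⟩
    rintro _ ⟨y, ⟨-, hy⟩, rfl⟩
    have h1 : ‖ι y‖ ≤ ‖ι‖ := by
      have h0 : ‖y‖ ≤ 1 := by simpa using hy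
      calc ‖ι y‖ ≤ ‖ι‖ * ‖y‖ := ι.le_opNorm y
        _ ≤ ‖ι‖ * 1 := by gcongr
        _ = ‖ι‖ := mul_one _
    show ‖ι y‖ ^ 2 ≤ ‖ι‖ ^ 2
    gcongr
  have hSne : S.Nonempty := ⟨_, 0, ⟨K.zero_mem, by simp⟩, rfl⟩
  set s := sSup S with hs
  have hle1 : ∀ y ∈ K, ‖y‖ ≤ 1 → ‖ι y‖ ^ 2 ≤ s := fun y hy h1 =>
    le_csSup hSb ⟨y, ⟨hy, by simpa using h1⟩, rfl⟩
  have hle : ∀ y ∈ K, ‖ι y‖ ^ 2 ≤ s * ‖y‖ ^ 2 := by
    intro y hy
    by_cases h0 : y = 0
    · simp [h0]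
    have hn : 0 < ‖y‖ := norm_pos_iff.2 h0
    have := hle1 (‖y‖⁻¹ • y) (K.smul_mem _ hy) (by
      rw [norm_smul, norm_inv, norm_norm, inv_mul_cancel₀ hn.ne'])
    rw [map_smul, norm_smul, norm_inv, norm_norm, mul_pow, inv_pow] at this
    rw [inv_mul_le_iff₀ (by positivity)] at this
    linarith [mul_comm s (‖y‖ ^ 2)]
  have hspos : 0 < s := by
    obtain ⟨y, hy, hy0⟩ := hne
    have h1 := hle y hy
    have h2 : 0 < ‖ι y‖ ^ 2 := by positivity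
    have hyn : y ≠ 0 := by
      rintro rfl; simp at hy0
    have h3 : 0 < ‖y‖ ^ 2 := by
      have := norm_pos_iff.2 hyn
      positivity
    by_contra hcon
    push Not at hcon
    have := mul_nonpos_of_nonpos_of_nonneg hcon h3.le
    linarith
  -- maximising sequence
  have hseq : ∀ n : ℕ, ∃ y ∈ K, ‖y‖ ≤ 1 ∧ s - 1 / ((n : ℝ) + 1) < ‖ι y‖ ^ 2 := by
    intro n
    have : s - 1 / ((n : ℝ) + 1) < s := by
      have : (0 : ℝ) < 1 / ((n : ℝ) + 1) := by positivity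
      linarith
    obtain ⟨_, ⟨y, ⟨hy, hy1⟩, rfl⟩, h2⟩ := exists_lt_of_lt_csSup hSne this
    exact ⟨y, hy, by simpa using hy1, h2⟩
  choose y hyK hy1 hys using hseq
  -- convergent subsequence of images
  have hcl : IsCompact (closure (ι '' ((K : Set X) ∩ closedBall 0 1))) :=
    hcpt.closure.isCompact_of_isClosed isClosed_closure
  obtain ⟨a, -, φ, hφ, hlim⟩ := hcl.tendsto_subseq (x := fun n => ι (y n)) (fun n =>
    subset_closure ⟨y n, ⟨hyK n, by simpa using hy1 n⟩, rfl⟩)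
  have hCι : CauchySeq (fun n => ι (y (φ n))) := hlim.cauchySeq
  -- norms converge
  have hnorm : Tendsto (fun n => ‖ι (y (φ n))‖ ^ 2) atTop (𝓝 s) := by
    have h1 : Tendsto (fun n : ℕ => s - 1 / ((φ n : ℝ) + 1)) atTop (𝓝 (s - 0)) := by
      refine Tendsto.sub tendsto_const_nhds ?_
      exact tendsto_one_div_add_atTop_nhds_zero_nat.comp hφ.tendsto_atTop
    rw [sub_zero] at h1
    exact tendsto_of_tendsto_of_tendsto_of_le_of_le h1 tendsto_const_nhds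
      (fun n => (hys (φ n)).le) (fun n => hle1 _ (hyK _) (hy1 _))
  -- Cauchy in X
  have hkey : ∀ m n, s * ‖y (φ m) - y (φ n)‖ ^ 2 ≤
      4 * s - 2 * ‖ι (y (φ m))‖ ^ 2 - 2 * ‖ι (y (φ n))‖ ^ 2 + ‖ι (y (φ m)) - ι (y (φ n))‖ ^ 2 := by
    intro m n
    have h1 := hle _ (K.add_mem (hyK (φ m)) (hyK (φ n)))
    have h2 := parallelogram_law_with_norm ℝ (y (φ m)) (y (φ n))
    have h3 := parallelogram_law_with_norm ℝ (ι (y (φ m))) (ι (y (φ n)))
    rw [map_add] at h1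
    have h4 : ‖y (φ m)‖ ^ 2 ≤ 1 := by
      have := hy1 (φ m); nlinarith [norm_nonneg (y (φ m))]
    have h5 : ‖y (φ n)‖ ^ 2 ≤ 1 := by
      have := hy1 (φ n); nlinarith [norm_nonneg (y (φ n))]
    nlinarith [hspos]
  have hC : CauchySeq (fun n => y (φ n)) := by
    rw [Metric.cauchySeq_iff']
    intro ε hε
    rw [Metric.cauchySeq_iff] at hCι
    obtain ⟨N1, hN1⟩ := hCι (Real.sqrt (s * ε ^ 2 / 2)) (by positivity)
    have hη : 0 < s * ε ^ 2 / 8 := by positivity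
    obtain ⟨N2, hN2⟩ := (Metric.tendsto_atTop.1 hnorm) (s * ε ^ 2 / 8) hη
    refine ⟨max N1 N2, fun n hn => ?_⟩
    have a1 := hN1 n (le_trans (le_max_left _ _) hn) (max N1 N2) (le_max_left _ _)
    have a2 := hN2 n (le_trans (le_max_right _ _) hn)
    have a3 := hN2 (max N1 N2) (le_max_right _ _)
    rw [Real.dist_eq, abs_lt] at a2 a3
    rw [dist_eq_norm] at a1 ⊢
    have a1' : ‖ι (y (φ n)) - ι (y (φ (max N1 N2)))‖ ^ 2 < s * ε ^ 2 / 2 := by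
      have h := Real.lt_sqrt (norm_nonneg _) |>.1 a1
      exact h
    have hk := hkey n (max N1 N2)
    have : s * ‖y (φ n) - y (φ (max N1 N2))‖ ^ 2 < s * ε ^ 2 := by linarith
    have h6 : ‖y (φ n) - y (φ (max N1 N2))‖ ^ 2 < ε ^ 2 := lt_of_mul_lt_mul_left this hspos.le
    exact lt_of_pow_lt_pow_left₀ 2 hε.le h6
  obtain ⟨x, hx⟩ := cauchySeq_tendsto_of_complete hC
  have hxK : x ∈ K := hK.mem_of_tendsto hx (Eventually.of_forall fun n => hyK _)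
  have hx1 : ‖x‖ ≤ 1 := le_of_tendsto hx.norm (Eventually.of_forall fun n => hy1 _)
  have hxs : ‖ι x‖ ^ 2 = s := by
    have h1 : Tendsto (fun n => ‖ι (y (φ n))‖ ^ 2) atTop (𝓝 (‖ι x‖ ^ 2)) :=
      (((ι.continuous.tendsto x).comp hx).norm).pow 2
    exact tendsto_nhds_unique h1 hnorm
  have hx1' : ‖x‖ = 1 := by
    have h1 := hle x hxK
    rw [hxs] at h1
    have h2 : 1 ≤ ‖x‖ ^ 2 := by
      by_contra hcon
      push Not at hcon
      nlinarith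
    nlinarith [norm_nonneg x]
  refine ⟨x, hxK, hx1', s, hspos, hle, fun z hz => ?_⟩
  -- vanishing of the cross term
  have hq : ∀ t : ℝ, 0 ≤ 2 * t * (s * ⟪x, z⟫_ℝ - ⟪ι x, ι z⟫_ℝ) +
      t ^ 2 * (s * ‖z‖ ^ 2 - ‖ι z‖ ^ 2) := by
    intro t
    have h1 := hle (x + t • z) (K.add_mem hxK (K.smul_mem _ hz))
    rw [map_add, map_smul] at h1
    have e1 : ‖x + t • z‖ ^ 2 = ‖x‖ ^ 2 + 2 * (t * ⟪x, z⟫_ℝ) + t ^ 2 * ‖z‖ ^ 2 := by
      rw [norm_add_sq_real, real_inner_smul_right, norm_smul, mul_pow, Real.norm_eq_abs, sq_abs]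
    have e2 : ‖ι x + t • ι z‖ ^ 2 = ‖ι x‖ ^ 2 + 2 * (t * ⟪ι x, ι z⟫_ℝ) + t ^ 2 * ‖ι z‖ ^ 2 := by
      rw [norm_add_sq_real, real_inner_smul_right, norm_smul, mul_pow, Real.norm_eq_abs, sq_abs]
    rw [e1, e2, hxs, hx1'] at h1
    nlinarith
  set A := s * ⟪x, z⟫_ℝ - ⟪ι x, ι z⟫_ℝ with hA
  set B := s * ‖z‖ ^ 2 - ‖ι z‖ ^ 2 with hB
  have hBnn : 0 ≤ B := by have := hle z hz; linarith
  have hA0 : A = 0 := by
    by_contra hne0
    have h1 := hq (-(A / (B + 1)))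
    have hB1 : 0 < B + 1 := by linarith
    have h2 : 2 * -(A / (B + 1)) * A + (-(A / (B + 1))) ^ 2 * B =
        -(A ^ 2 / (B + 1)) * (2 - B / (B + 1)) := by
      field_simp
      ring
    rw [h2] at h1
    have h3 : 0 < A ^ 2 / (B + 1) := by positivity
    have h4 : B / (B + 1) < 1 := by rw [div_lt_one hB1]; linarith
    nlinarith
  linarith

/-- Total boundedness from almost finite rank estimates. -/
theorem totallyBounded_of_finrank (ι : X →L[ℝ] L) (K : Set X)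
    (h : ∀ ε > (0 : ℝ), ∃ (M : ℕ) (ℓ : X →L[ℝ] (Fin M → ℝ)), ∀ x ∈ K, ∀ y ∈ K,
      ‖ι (x - y)‖ ≤ ε * ‖x - y‖ + ‖ℓ (x - y)‖) :
    TotallyBounded (ι '' (K ∩ closedBall 0 1)) := by
  classical
  refine Metric.totallyBounded_of_finite_discretization (fun ε hε => ?_)
  obtain ⟨M, ℓ, hℓ⟩ := h (ε / 8) (by positivity)
  have hbd : TotallyBounded (ℓ '' (K ∩ closedBall 0 1)) := by
    have hb : Bornology.IsBounded (ℓ '' (K ∩ closedBall 0 1)) :=
      ℓ.lipschitz.isBounded_image (Metric.isBounded_closedBall.subset inter_subset_right)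
    exact hb.isCompact_closure.totallyBounded.subset subset_closure
  obtain ⟨t, htf, ht⟩ := Metric.totallyBounded_iff.1 hbd (ε / 8) (by positivity)
  have hpre : ∀ z : (ι '' (K ∩ closedBall 0 1)), ∃ x ∈ K ∩ closedBall (0 : X) 1, ι x = z :=
    fun z => z.2
  choose pre hpre1 hpre2 using hpre
  have hcov : ∀ z : (ι '' (K ∩ closedBall 0 1)), ∃ c ∈ t, dist (ℓ (pre z)) c < ε / 8 := by
    intro z
    have := ht ⟨pre z, hpre1 z, rfl⟩
    simpa using this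
  choose F hF1 hF2 using hcov
  have := htf.fintype
  refine ⟨t, inferInstance, fun z => ⟨F z, hF1 z⟩, fun z w hzw => ?_⟩
  have hFF : F z = F w := congrArg Subtype.val hzw
  have h1 : ‖ℓ (pre z - pre w)‖ < ε / 4 := by
    rw [map_sub, ← dist_eq_norm]
    calc dist (ℓ (pre z)) (ℓ (pre w)) ≤ dist (ℓ (pre z)) (F z) + dist (ℓ (pre w)) (F z) :=
          dist_triangle_right _ _ _
      _ < ε / 8 + ε / 8 := add_lt_add (hF2 z) (by rw [hFF]; exact hF2 w)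
      _ = ε / 4 := by ring
  have h2 : ‖pre z - pre w‖ ≤ 2 := by
    have a := (hpre1 z).2
    have b := (hpre1 w).2
    simp only [mem_closedBall, dist_zero_right] at a b
    calc ‖pre z - pre w‖ ≤ ‖pre z‖ + ‖pre w‖ := norm_sub_le _ _
      _ ≤ 2 := by linarith
  have h3 := hℓ _ (hpre1 z).1 _ (hpre1 w).1
  rw [← hpre2 z, ← hpre2 w, dist_eq_norm, ← map_sub]
  calc ‖ι (pre z - pre w)‖ ≤ ε / 8 * ‖pre z - pre w‖ + ‖ℓ (pre z - pre w)‖ := h3
    _ ≤ ε / 8 * 2 + ‖ℓ (pre z - pre w)‖ := by gcongr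
    _ < ε / 8 * 2 + ε / 4 := by linarith
    _ < ε := by linarith

end abstract_lemmas

end Pool.Agent.Helper546
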