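import Mathlib
set_option autoImplicit false
open MeasureTheory Metric Set Filter Topology
open scoped ContDiff InnerProductSpace

namespace Pool.Agent.Helper546

/-- the Euclidean plane -/
abbrev V := EuclideanSpace ℝ (Fin 2)

/-- standard basis vectors -/
noncomputable def ee (i : Fin 2) : V := EuclideanSpace.single i (1 : ℝ)

/-- first derivative in a coordinate direction -/
noncomputable def dd (i : Fin 2) (f : V → ℝ) (x : V) : ℝ := fderiv ℝ f x (ee i)

/-- Laplacian -/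
noncomputable def lap (f : V → ℝ) (x : V) : ℝ := dd 0 (dd 0 f) x + dd 1 (dd 1 f) x

/-- test functions -/
def Tst (Ω : Set V) (φ : V → ℝ) : Prop :=
  ContDiff ℝ ∞ φ ∧ HasCompactSupport φ ∧ tsupport φ ⊆ Ω

theorem contDiff_dd {f : V → ℝ} (i : Fin 2) (hf : ContDiff ℝ ∞ f) : ContDiff ℝ ∞ (dd i f) := by
  have h1 : ContDiff ℝ ∞ (fderiv ℝ f) := hf.fderiv_right (m := ∞) (by simp)
  exact h1.clm_apply contDiff_const

theorem contDiffOn_dd {f : V → ℝ} {Ω : Set V} (hΩ : IsOpen Ω) (i : Fin 2)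
    (hf : ContDiffOn ℝ ∞ f Ω) : ContDiffOn ℝ ∞ (dd i f) Ω := by
  have h1 : ContDiffOn ℝ ∞ (fderiv ℝ f) Ω := hf.fderiv_of_isOpen hΩ (m := ∞) (by simp)
  exact h1.clm_apply contDiffOn_const

theorem tsupport_dd (i : Fin 2) (f : V → ℝ) : tsupport (dd i f) ⊆ tsupport f := by
  refine (closure_mono ?_).trans (tsupport_fderiv_subset ℝ (f := f) |>.trans subset_rfl)
  intro x hx
  simp only [dd, Function.mem_support] at hx ⊢
  intro h
  exact hx (by rw [h]; simp)

theorem hasCompactSupport_dd {f : V → ℝ} (i : Fin 2) (hf : HasCompactSupport f) :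
    HasCompactSupport (dd i f) :=
  hf.of_isClosed_subset (isClosed_tsupport _) (tsupport_dd i f)

theorem Tst.dd {Ω : Set V} {φ : V → ℝ} (h : Tst Ω φ) (i : Fin 2) :
    Tst Ω (Pool.Agent.Helper546.dd i φ) :=
  ⟨contDiff_dd i h.1, hasCompactSupport_dd i h.2.1, (tsupport_dd i φ).trans h.2.2⟩

theorem contDiff_lap {f : V → ℝ} (hf : ContDiff ℝ ∞ f) : ContDiff ℝ ∞ (lap f) :=
  (contDiff_dd 0 (contDiff_dd 0 hf)).add (contDiff_dd 1 (contDiff_dd 1 hf))

theorem Tst.add {Ω : Set V} {φ ψ : V → ℝ} (h : Tst Ω φ) (h' : Tst Ω ψ) : Tst Ω (φ + ψ) := by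
  refine ⟨h.1.add h'.1, h.2.1.add h'.2.1, ?_⟩
  exact (tsupport_add φ ψ).trans (union_subset h.2.2 h'.2.2)

theorem Tst.smul {Ω : Set V} {φ : V → ℝ} (h : Tst Ω φ) (c : ℝ) : Tst Ω (c • φ) := by
  refine ⟨contDiff_const.smul h.1, h.2.1.smul_left (f := fun _ => c), ?_⟩
  exact (tsupport_smul_subset_right (fun _ => c) φ).trans h.2.2

theorem Tst.zero {Ω : Set V} : Tst Ω (0 : V → ℝ) := by
  refine ⟨contDiff_const, HasCompactSupport.zero, ?_⟩
  simp [tsupport]

theorem Tst.mono {Ω Ω' : Set V} {φ : V → ℝ} (h : Tst Ω φ) (hs : Ω ⊆ Ω') : Tst Ω' φ :=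
  ⟨h.1, h.2.1, h.2.2.trans hs⟩

theorem Tst.univ {Ω : Set V} {φ : V → ℝ} (h : Tst Ω φ) : Tst Set.univ φ :=
  h.mono (subset_univ _)

theorem norm_sq_V (x : V) : ‖x‖ ^ 2 = x 0 ^ 2 + x 1 ^ 2 := by
  rw [EuclideanSpace.norm_sq_eq]; simp [Fin.sum_univ_two]

theorem norm_fderiv_sq (f : V → ℝ) (x : V) : ‖fderiv ℝ f x‖ ^ 2 = dd 0 f x ^ 2 + dd 1 f x ^ 2 := by
  have h1 : ‖fderiv ℝ f x‖ = ‖gradient f x‖ := by
    rw [gradient, LinearIsometryEquiv.norm_map]
  rw [h1, norm_sq_V]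
  have h2 : ∀ i : Fin 2, gradient f x i = dd i f x := by
    intro i
    have h3 : ⟪gradient f x, ee i⟫_ℝ = fderiv ℝ f x (ee i) := by
      rw [gradient, InnerProductSpace.toDual_symm_apply]
    rw [dd, ← h3, ee, EuclideanSpace.inner_single_right]
    simp
  rw [h2, h2]

theorem iteratedFDeriv_two_eq {f : V → ℝ} {x : V} (hf : ContDiffAt ℝ 2 f x) (i : Fin 2) :
    iteratedFDeriv ℝ 2 f x (fun _ => EuclideanSpace.single i (1 : ℝ)) = dd i (dd i f) x := by
  rw [iteratedFDeriv_two_apply]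
  have h1 : DifferentiableAt ℝ (fderiv ℝ f) x :=
    (hf.fderiv_right (m := 1) (by norm_num)).differentiableAt (by norm_num)
  have h2 : dd i (dd i f) x = fderiv ℝ (fun y => fderiv ℝ f y (ee i)) x (ee i) := rfl
  rw [h2, fderiv_clm_apply h1 (by fun_prop)]
  simp [ee]

theorem sum_iteratedFDeriv_eq {f : V → ℝ} {x : V} (hf : ContDiffAt ℝ 2 f x) :
    ∑ i : Fin 2, iteratedFDeriv ℝ 2 f x (fun _ => EuclideanSpace.single i (1 : ℝ)) = lap f x := by
  rw [Fin.sum_univ_two, iteratedFDeriv_two_eq hf, iteratedFDeriv_two_eq hf, lap]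

/-- product of a function continuous on an open set with a continuous function supported there -/
theorem continuous_mul_of_tsupport {Ω : Set V} (hΩ : IsOpen Ω) {f g : V → ℝ}
    (hf : ContinuousOn f Ω) (hg : Continuous g) (hs : tsupport g ⊆ Ω) :
    Continuous (fun x => f x * g x) := by
  refine continuous_of_tsupport (fun x hx => ?_)
  have : x ∈ tsupport g := (tsupport_mul_subset_right (f := f) (g := g)) hx
  exact (hf.continuousAt (hΩ.mem_nhds (hs this))).mul hg.continuousAt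

theorem integrable_mul_of_tsupport {Ω : Set V} (hΩ : IsOpen Ω) {f g : V → ℝ}
    (hf : ContinuousOn f Ω) (hg : Continuous g) (hs : tsupport g ⊆ Ω) (hc : HasCompactSupport g) :
    Integrable (fun x => f x * g x) :=
  (continuous_mul_of_tsupport hΩ hf hg hs).integrable_of_hasCompactSupport (hc.mul_left (f := f))

/-- integration by parts -/
theorem ibp {Ω : Set V} (hΩ : IsOpen Ω) {f g : V → ℝ} (i : Fin 2)
    (hf : ContDiffOn ℝ ∞ f Ω) (hg : Tst Ω g) :
    ∫ x, f x * dd i g x = - ∫ x, dd i f x * g x := by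
  have hg' := hg.dd i
  refine integral_mul_fderiv_eq_neg_fderiv_mul_of_integrable (v := ee i) ?_ ?_ ?_ ?_ ?_
  · exact integrable_mul_of_tsupport hΩ (contDiffOn_dd hΩ i hf).continuousOn hg.1.continuous
      hg.2.2 hg.2.1
  · exact integrable_mul_of_tsupport hΩ hf.continuousOn hg'.1.continuous hg'.2.2 hg'.2.1
  · exact integrable_mul_of_tsupport hΩ hf.continuousOn hg.1.continuous hg.2.2 hg.2.1
  · intro x hx
    exact (hf.contDiffAt (hΩ.mem_nhds (hg.2.2 hx))).differentiableAt (by simp)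
  · intro x _
    exact hg.1.differentiable (by simp) x

theorem ibp_lap {Ω : Set V} (hΩ : IsOpen Ω) {f g : V → ℝ}
    (hf : ContDiffOn ℝ ∞ f Ω) (hg : Tst Ω g) :
    ∫ x, f x * lap g x = ∫ x, lap f x * g x := by
  have key : ∀ i : Fin 2, ∫ x, f x * dd i (dd i g) x = ∫ x, dd i (dd i f) x * g x := by
    intro i
    rw [ibp hΩ i hf (hg.dd i), ibp hΩ i (contDiffOn_dd hΩ i hf) hg, neg_neg]
  have i1 : ∀ i : Fin 2, Integrable (fun x => f x * dd i (dd i g) x) := fun i =>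
    integrable_mul_of_tsupport hΩ hf.continuousOn ((hg.dd i).dd i).1.continuous
      ((hg.dd i).dd i).2.2 ((hg.dd i).dd i).2.1
  have i2 : ∀ i : Fin 2, Integrable (fun x => dd i (dd i f) x * g x) := fun i =>
    integrable_mul_of_tsupport hΩ (contDiffOn_dd hΩ i (contDiffOn_dd hΩ i hf)).continuousOn
      hg.1.continuous hg.2.2 hg.2.1
  simp only [lap, mul_add, add_mul]
  rw [integral_add (i1 0) (i1 1), integral_add (i2 0) (i2 1), key, key]

end Pool.Agent.Helper546
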