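import Pool.Agent.Helper546.Domain
set_option autoImplicit false
open MeasureTheory Metric Set Filter Topology
open scoped ContDiff InnerProductSpace

namespace Pool.Agent.Helper546

theorem lap_comb {f g : V → ℝ} {x : V} (hf : ContDiffAt ℝ 2 f x) (hg : ContDiffAt ℝ 2 g x)
    (a b : ℝ) : lap (fun y => a * f y + b * g y) x = a * lap f x + b * lap g x := by
  have key : ∀ i, dd i (dd i (fun y => a * f y + b * g y)) x =
      a * dd i (dd i f) x + b * dd i (dd i g) x := by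
    intro i
    have h1 : dd i (fun y => a * f y + b * g y) =ᶠ[𝓝 x] fun y => a * dd i f y + b * dd i g y := by
      filter_upwards [hf.eventually (by simp), hg.eventually (by simp)] with y hy1 hy2
      rw [dd, (((hy1.differentiableAt (by norm_num)).hasFDerivAt.const_mul a).fun_add
        ((hy2.differentiableAt (by norm_num)).hasFDerivAt.const_mul b)).fderiv]
      simp [dd]
    have hd : ∀ {f : V → ℝ}, ContDiffAt ℝ 2 f x → DifferentiableAt ℝ (dd i f) x := by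
      intro f hf
      have h4 : DifferentiableAt ℝ (fderiv ℝ f) x :=
        (hf.fderiv_right (m := 1) (by norm_num)).differentiableAt (by norm_num)
      exact h4.clm_apply (differentiableAt_const _)
    rw [dd, h1.fderiv_eq, (((hd hf).hasFDerivAt.const_mul a).fun_add
      ((hd hg).hasFDerivAt.const_mul b)).fderiv]
    simp [dd]
  rw [lap, key, key, lap, lap]; ring

theorem lap_neg {f : V → ℝ} {x : V} (hf : ContDiffAt ℝ 2 f x) :
    lap (fun y => -f y) x = -lap f x := by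
  have h := lap_comb hf hf (-1) 0
  have h2 : (fun y => -1 * f y + 0 * f y) = fun y => -f y := by funext y; ring
  rw [h2] at h
  rw [h]; ring

theorem lap_comp_iso (L : V ≃ₗᵢ[ℝ] V) (p : V) {f : V → ℝ} {x : V}
    (hf : ContDiffAt ℝ 2 f (p + L x)) : lap (fun y => f (p + L y)) x = lap f (p + L x) := by
  have hA : ∀ y, HasFDerivAt (fun y => p + L y)
      (L.toContinuousLinearEquiv.toContinuousLinearMap) y := fun y =>
    (L.toContinuousLinearEquiv.toContinuousLinearMap.hasFDerivAt (x := y)).const_add p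
  have hAc : ContDiff ℝ ∞ (fun y => p + L y) :=
    contDiff_const.add L.toContinuousLinearEquiv.contDiff
  have hcomp : ContDiffAt ℝ 2 (fun y => f (p + L y)) x :=
    ContDiffAt.comp x hf (hAc.of_le two_le_infty).contDiffAt
  rw [← sum_iteratedFDeriv_eq hf, ← sum_iteratedFDeriv_eq hcomp]
  have hev : ∀ᶠ y in 𝓝 x, ContDiffAt ℝ 2 f (p + L y) :=
    (hAc.continuous.tendsto x).eventually (hf.eventually (by simp))
  have h1 : fderiv ℝ (fun y => f (p + L y)) =ᶠ[𝓝 x] fun y =>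
      (fderiv ℝ f (p + L y)).comp (L.toContinuousLinearEquiv.toContinuousLinearMap) := by
    filter_upwards [hev] with y hy
    exact ((hy.differentiableAt (by norm_num)).hasFDerivAt.comp y (hA y)).fderiv
  have hd : HasFDerivAt (fderiv ℝ f) (fderiv ℝ (fderiv ℝ f) (p + L x)) (p + L x) :=
    ((hf.fderiv_right (m := 1) (by norm_num)).differentiableAt (by norm_num)).hasFDerivAt
  have hd2 : HasFDerivAt (fun y => fderiv ℝ f (p + L y))
      ((fderiv ℝ (fderiv ℝ f) (p + L x)).comp (L.toContinuousLinearEquiv.toContinuousLinearMap)) x :=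
    hd.comp x (hA x)
  have key : ∀ w : V, iteratedFDeriv ℝ 2 (fun y => f (p + L y)) x (fun _ => w) =
      iteratedFDeriv ℝ 2 f (p + L x) (fun _ => L w) := by
    intro w
    rw [iteratedFDeriv_two_apply, iteratedFDeriv_two_apply, h1.fderiv_eq,
      (hd2.clm_comp (hasFDerivAt_const _ x)).fderiv]
    simp
  simp only [key]
  have e1 := congrFun (InnerProductSpace.laplacian_eq_iteratedFDeriv_orthonormalBasis f
    (EuclideanSpace.basisFun (Fin 2) ℝ)) (p + L x)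
  have e2 := congrFun (InnerProductSpace.laplacian_eq_iteratedFDeriv_orthonormalBasis f
    ((EuclideanSpace.basisFun (Fin 2) ℝ).map L)) (p + L x)
  rw [e1] at e2
  have e3 : ∀ u : V, (fun _ : Fin 2 => u) = ![u, u] := fun u => by
    funext i; fin_cases i <;> rfl
  simp only [e3]
  simpa using e2.symm

/-- local comparison at a flat piece of the boundary -/
theorem wall_local {p : V} {L : V ≃ₗᵢ[ℝ] V} {Λ : ℝ} (hΛ : 0 ≤ Λ) {S : Set V} (hS : IsOpen S)
    {v w : V → ℝ} (hvc : Continuous v) (hwc : Continuous w) (hv : ContDiffOn ℝ ∞ v S)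
    (hw : ContDiffOn ℝ ∞ w S) (hvH : Helm Λ v S) (hwH : Helm Λ w S) {δ0 : ℝ} (hδ0 : 0 < δ0)
    (hin : ∀ ξ : V, |ξ 0| ≤ 2 * δ0 → 0 < ξ 1 → ξ 1 ≤ 2 * δ0 → p + L ξ ∈ S ∧ 0 < v (p + L ξ))
    (hwall : ∀ ξ : V, |ξ 0| ≤ 2 * δ0 → ξ 1 ≤ 0 → -(2 * δ0) ≤ ξ 1 →
      v (p + L ξ) = 0 ∧ w (p + L ξ) = 0) :
    ∃ δ C : ℝ, 0 < δ ∧ 0 ≤ C ∧ ∀ ξ : V, |ξ 0| < δ → |ξ 1| < δ →
      |w (p + L ξ)| ≤ C * v (p + L ξ) := by
  set δ := min δ0 (1 / (1 + Λ)) with hδd
  have hδ : 0 < δ := lt_min hδ0 (by positivity)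
  have hδle : δ ≤ δ0 := min_le_left _ _
  have hδ1 : δ ≤ 1 := (min_le_right _ _).trans (by
    rw [div_le_one (by positivity)]; linarith)
  have hΛδ : Λ * δ ^ 2 ≤ 2 := by
    have h1 : Λ * δ ≤ 1 := by
      calc Λ * δ ≤ Λ * (1 / (1 + Λ)) := mul_le_mul_of_nonneg_left (min_le_right _ _) hΛ
        _ ≤ 1 := by rw [mul_one_div, div_le_one (by positivity)]; linarith
    calc Λ * δ ^ 2 = (Λ * δ) * δ := by ring
      _ ≤ 1 * 1 := mul_le_mul h1 hδ1 hδ.le (by norm_num)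
      _ ≤ 2 := by norm_num
  have hAc : Continuous (fun y => p + L y) := continuous_const.add L.continuous
  have hAs : ContDiff ℝ ∞ (fun y => p + L y) :=
    contDiff_const.add L.toContinuousLinearEquiv.contDiff
  set v' : V → ℝ := fun ξ => v (p + L ξ) with hv'
  set w' : V → ℝ := fun ξ => w (p + L ξ) with hw'
  have cv' : Continuous v' := hvc.comp hAc
  have cw' : Continuous w' := hwc.comp hAc
  -- the big box
  have hbig : ∀ ξ ∈ box (-(2 * δ)) (2 * δ) 0 (2 * δ), p + L ξ ∈ S := by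
    intro ξ hξ
    refine (hin ξ ?_ hξ.2.2.1 (by linarith [hξ.2.2.2])).1
    rw [abs_le]; constructor <;> linarith [hξ.1, hξ.2.1]
  have hsm : ∀ {f : V → ℝ}, ContDiffOn ℝ ∞ f S → ∀ ξ ∈ box (-(2 * δ)) (2 * δ) 0 (2 * δ),
      ContDiffAt ℝ 2 (fun ξ => f (p + L ξ)) ξ := by
    intro f hf ξ hξ
    have h1 : ContDiffAt ℝ 2 f (p + L ξ) :=
      (hf.contDiffAt (hS.mem_nhds (hbig ξ hξ))).of_le two_le_infty
    exact ContDiffAt.comp ξ h1 (hAs.of_le two_le_infty).contDiffAt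
  have hhelm : ∀ {f : V → ℝ}, ContDiffOn ℝ ∞ f S → Helm Λ f S →
      Helm Λ (fun ξ => f (p + L ξ)) (box (-(2 * δ)) (2 * δ) 0 (2 * δ)) := by
    intro f hf hfH ξ hξ
    rw [lap_comp_iso L p ((hf.contDiffAt (hS.mem_nhds (hbig ξ hξ))).of_le two_le_infty),
      hfH _ (hbig ξ hξ)]
  have hcpt : IsCompact (cbox (-(2 * δ)) (2 * δ) 0 (2 * δ)) := by
    refine Metric.isCompact_of_isClosed_isBounded (isClosed_cbox _ _ _ _) ?_
    refine (isBounded_box (-(3 * δ)) (3 * δ) (-δ) (3 * δ)).subset fun z hz => ?_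
    exact ⟨by linarith [hz.1], by linarith [hz.2.1], by linarith [hz.2.2.1],
      by linarith [hz.2.2.2]⟩
  -- bound for w
  obtain ⟨M, hM⟩ := (hcpt.image cw'.norm).bddAbove
  have hM' : ∀ ξ ∈ cbox (-(2 * δ)) (2 * δ) 0 (2 * δ), |w' ξ| ≤ M := fun ξ hξ =>
    hM ⟨ξ, hξ, rfl⟩
  have hM0 : 0 ≤ M := (abs_nonneg _).trans (hM' 0 (by
    refine ⟨?_, ?_, ?_, ?_⟩ <;> simp <;> linarith))
  -- lower bound on the far side
  have hcz : ∀ ξ ∈ cbox (-(2 * δ)) (2 * δ) 0 (2 * δ), |ξ 0| ≤ 2 * δ0 := fun ξ hξ => by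
    rw [abs_le]; constructor <;> linarith [hξ.1, hξ.2.1]
  obtain ⟨m, hm0, hm⟩ : ∃ m : ℝ, 0 < m ∧
      ∀ ξ ∈ cbox (-(2 * δ)) (2 * δ) 0 (2 * δ), ξ 1 = 2 * δ → m ≤ v' ξ := by
    have hcl : IsClosed {ξ : V | ξ 1 = 2 * δ} :=
      isClosed_eq (contDiff_coord 1).continuous continuous_const
    have hc2 := hcpt.inter_right hcl
    have hne : (cbox (-(2 * δ)) (2 * δ) 0 (2 * δ) ∩ {ξ : V | ξ 1 = 2 * δ}).Nonempty := by
      refine ⟨(2 * δ) • ee 1, ⟨?_, ?_, ?_, ?_⟩, ?_⟩ <;> simp [ee] <;> linarith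
    obtain ⟨ξ, hξ, hmin⟩ := hc2.exists_isMinOn hne cv'.continuousOn
    refine ⟨v' ξ, ?_, fun ζ h1 h2 => hmin ⟨h1, h2⟩⟩
    have h2 : ξ 1 = 2 * δ := hξ.2
    exact (hin ξ (hcz ξ hξ.1) (by rw [h2]; positivity) (by rw [h2]; linarith)).2
  have hv0 : ∀ ξ ∈ cbox (-(2 * δ)) (2 * δ) 0 (2 * δ), 0 ≤ v' ξ := by
    intro ξ hξ
    rcases hξ.2.2.1.lt_or_eq with h | h
    · exact (hin ξ (hcz ξ hξ) h (by linarith [hξ.2.2.2])).2.le
    · exact (hwall ξ (hcz ξ hξ) h.symm.le (by rw [← h]; linarith)).1.symm.le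
  have hw0 : ∀ ξ ∈ cbox (-(2 * δ)) (2 * δ) 0 (2 * δ), ξ 1 = 0 → w' ξ = 0 := fun ξ hξ h =>
    (hwall ξ (hcz ξ hξ) h.le (by rw [h]; linarith)).2
  refine ⟨δ, 192 * M / (5 * m), hδ, by positivity, fun ξ h0 h1 => ?_⟩
  show |w' ξ| ≤ 192 * M / (5 * m) * v' ξ
  rcases le_or_gt (ξ 1) 0 with hneg | hpos
  · have h2 := hwall ξ (by linarith) hneg (by linarith [(abs_lt.1 h1).1])
    have h3 : w' ξ = 0 := h2.2
    have h4 : v' ξ = 0 := h2.1
    rw [h3, h4]; simp
  · have h1' : ξ 1 < δ := (abs_lt.1 h1).2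
    have h0' := abs_lt.1 h0
    have hξb : ξ ∈ box (-(2 * δ)) (2 * δ) 0 (2 * δ) :=
      ⟨by linarith [h0'.1], by linarith [h0'.2], hpos, by linarith⟩
    have low := wall_lower hδ hΛ hm0.le cv'.continuousOn (hsm hv) (hhelm hv hvH) hv0 hm h0.le
      hpos.le (subset_closure hξb)
    -- small box
    have hsub : cbox (ξ 0 - δ) (ξ 0 + δ) 0 (2 * δ) ⊆ cbox (-(2 * δ)) (2 * δ) 0 (2 * δ) :=
      fun z hz => ⟨by linarith [hz.1, h0'.1], by linarith [hz.2.1, h0'.2], hz.2.2.1, hz.2.2.2⟩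
    have hsubo : box (ξ 0 - δ) (ξ 0 + δ) 0 (2 * δ) ⊆ box (-(2 * δ)) (2 * δ) 0 (2 * δ) :=
      fun z hz => ⟨by linarith [hz.1, h0'.1], by linarith [hz.2.1, h0'.2], hz.2.2.1, hz.2.2.2⟩
    have hξs : ξ ∈ closure (box (ξ 0 - δ) (ξ 0 + δ) 0 (2 * δ)) :=
      subset_closure ⟨by linarith, by linarith, hpos, by linarith⟩
    have up1 := wall_upper hδ hΛ hΛδ hM0 (x0 := ξ 0) cw'.continuousOn
      (fun z hz => hsm hw z (hsubo hz)) (fun z hz => hhelm hw hwH z (hsubo hz))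
      (fun z hz => (le_abs_self _).trans (hM' z (hsub hz)))
      (fun z hz h => (hw0 z (hsub hz) h).le) rfl hξs
    have up2 := wall_upper hδ hΛ hΛδ hM0 (x0 := ξ 0) (w := fun z => -w' z) cw'.neg.continuousOn
      (fun z hz => (hsm hw z (hsubo hz)).neg) (fun z hz => by
        rw [lap_neg (hsm hw z (hsubo hz)), hhelm hw hwH z (hsubo hz)]; ring)
      (fun z hz => (neg_le_abs _).trans (hM' z (hsub hz)))
      (fun z hz h => by rw [hw0 z (hsub hz) h]; simp) rfl hξs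
    have up : |w' ξ| ≤ 8 * M / δ * ξ 1 := abs_le.2 ⟨by linarith, up1⟩
    refine up.trans ?_
    have h5 : 8 * M / δ * ξ 1 = 192 * M / (5 * m) * (5 * m / (24 * δ) * ξ 1) := by
      field_simp
      ring
    rw [h5]
    exact mul_le_mul_of_nonneg_left low (by positivity)

/-- block of the first arm -/
def Bk (k : ℕ) : Set V := {x | aa k < ‖x‖ ∧ ‖x‖ < bb k ∧ 0 < (psi x).re ∧ |(psi x).im| < 1 / 4}
/-- deep part of the first arm -/
def Dk (k : ℕ) : Set V := {x | rr k < ‖x‖ ∧ ‖x‖ < 1 ∧ 0 < (psi x).re ∧ |(psi x).im| < 1 / 4}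

theorem aa_lt_rr {k : ℕ} (hk : 1 ≤ k) : aa k < rr k := by
  have hk0 : (1 : ℝ) ≤ k := by exact_mod_cast hk
  rw [aa, rr]
  have : 1 / ((k : ℝ) + 1 / 4) < 1 / k := one_div_lt_one_div_of_lt (by linarith) (by linarith)
  linarith

theorem rr_lt_bb (k : ℕ) : rr k < bb k := by
  have hk0 : (0 : ℝ) ≤ k := Nat.cast_nonneg k
  rw [bb, rr]
  have : 1 / ((k : ℝ) + 1 / 2) < 1 / ((k : ℝ) + 1 / 4) :=
    one_div_lt_one_div_of_lt (by linarith) (by linarith)
  linarith

theorem bb_lt_one (k : ℕ) : bb k < 1 := by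
  have hk0 : (0 : ℝ) ≤ k := Nat.cast_nonneg k
  rw [bb]
  have : 0 < 1 / ((k : ℝ) + 1 / 2) := by positivity
  linarith

theorem half_le_aa {k : ℕ} (hk : 2 ≤ k) : 1 / 2 ≤ aa k := by
  have hk0 : (2 : ℝ) ≤ k := by exact_mod_cast hk
  rw [aa]
  have : 1 / (k : ℝ) ≤ 1 / 2 := one_div_le_one_div_of_le (by norm_num) hk0
  linarith

theorem rr_lt_aa {j k : ℕ} (h : j < k) : rr j < aa k := by
  have h0 : (0 : ℝ) ≤ j := Nat.cast_nonneg j
  have h1 : (j : ℝ) + 1 ≤ k := by exact_mod_cast h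
  rw [aa, rr]
  have : 1 / (k : ℝ) < 1 / ((j : ℝ) + 1 / 4) :=
    one_div_lt_one_div_of_lt (by linarith) (by linarith)
  linarith

theorem rr_mono {j k : ℕ} (h : j ≤ k) : rr j ≤ rr k := by
  have h0 : (0 : ℝ) ≤ j := Nat.cast_nonneg j
  have h1 : (j : ℝ) ≤ k := by exact_mod_cast h
  rw [rr, rr]
  have : 1 / ((k : ℝ) + 1 / 4) ≤ 1 / ((j : ℝ) + 1 / 4) :=
    one_div_le_one_div_of_le (by linarith) (by linarith)
  linarith

theorem Bk_subset_Dom (k : ℕ) : Bk k ⊆ Dom := fun _ hx =>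
  ⟨hx.2.1.trans (bb_lt_one k), Or.inr hx.2.2.2⟩

theorem Dk_subset_Dom (k : ℕ) : Dk k ⊆ Dom := fun _ hx => ⟨hx.2.1, Or.inr hx.2.2.2⟩

theorem Bk_subset_Dk {j k : ℕ} (h : j < k) : Bk k ⊆ Dk j := fun _ hx =>
  ⟨(rr_lt_aa h).trans hx.1, hx.2.1.trans (bb_lt_one k), hx.2.2⟩

theorem Dk_anti {j k : ℕ} (h : j ≤ k) : Dk k ⊆ Dk j := fun _ hx =>
  ⟨(rr_mono h).trans_lt hx.1, hx.2⟩

theorem isOpen_psi_set {a b : ℝ} (hb : b ≤ 1) :
    IsOpen {x : V | a < ‖x‖ ∧ ‖x‖ < b ∧ 0 < (psi x).re ∧ |(psi x).im| < 1 / 4} := by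
  have ho : IsOpen {z : ℂ | a < ‖z‖ ∧ ‖z‖ < b ∧ 0 < z.re ∧ |z.im| < 1 / 4} :=
    (isOpen_lt continuous_const continuous_norm).inter
      ((isOpen_lt continuous_norm continuous_const).inter
        ((isOpen_lt continuous_const Complex.continuous_re).inter
          (isOpen_lt Complex.continuous_im.abs continuous_const)))
  have h := continuousOn_psi.isOpen_inter_preimage isOpen_ball ho
  convert h using 1
  ext x
  constructor
  · intro hx
    exact ⟨by rw [mem_ball_zero_iff]; exact hx.2.1.trans_le hb,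
      by rw [norm_psi]; exact hx.1, by rw [norm_psi]; exact hx.2.1, hx.2.2⟩
  · intro hx
    have h1 := hx.2
    exact ⟨by rw [← norm_psi]; exact h1.1, by rw [← norm_psi]; exact h1.2.1, h1.2.2⟩

theorem isOpen_Bk (k : ℕ) : IsOpen (Bk k) := isOpen_psi_set (bb_lt_one k).le
theorem isOpen_Dk (k : ℕ) : IsOpen (Dk k) := isOpen_psi_set le_rfl

theorem isBounded_Dk (k : ℕ) : Bornology.IsBounded (Dk k) :=
  isBounded_ball.subset ((Dk_subset_Dom k).trans Dom_subset_ball)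

theorem sq_psi (x : V) : (psi x).re ^ 2 + (psi x).im ^ 2 = ‖x‖ ^ 2 := by
  rw [← norm_psi, ← Complex.normSq_eq_norm_sq, Complex.normSq_apply]; ring

theorem closure_Dk {k : ℕ} (hk : 2 ≤ k) {x : V} (hx : x ∈ closure (Dk k)) (hxn : x ∉ Dk k)
    (hxD : x ∈ Dom) : x ∈ Bk k ∧ ‖x‖ = rr k := by
  have hx1 : ‖x‖ < 1 := hxD.1
  have hr : rr k ≤ ‖x‖ := by
    have hcl : IsClosed {x : V | rr k ≤ ‖x‖} := isClosed_le continuous_const continuous_norm
    exact closure_minimal (fun y hy => hy.1.le) hcl hx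
  have hcont : ContinuousAt psi x :=
    continuousOn_psi.continuousAt (isOpen_ball.mem_nhds (by rw [mem_ball_zero_iff]; exact hx1))
  have hmem : psi x ∈ closure (psi '' Dk k) :=
    mem_closure_image hcont hx
  have hcl2 : IsClosed {z : ℂ | 0 ≤ z.re ∧ |z.im| ≤ 1 / 4} :=
    (isClosed_le continuous_const Complex.continuous_re).inter
      (isClosed_le Complex.continuous_im.abs continuous_const)
  have h2 : psi x ∈ {z : ℂ | 0 ≤ z.re ∧ |z.im| ≤ 1 / 4} := by
    refine closure_minimal ?_ hcl2 hmem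
    rintro _ ⟨y, hy, rfl⟩
    exact ⟨hy.2.2.1.le, hy.2.2.2.le⟩
  obtain ⟨h3, h4⟩ := h2
  have hhalf : 1 / 2 ≤ ‖x‖ := (half_le_aa hk).trans ((aa_lt_rr (by omega)).le.trans hr)
  have hsq := sq_psi x
  have h5 : (psi x).im ^ 2 ≤ 1 / 16 := by
    rw [← sq_abs]; nlinarith [abs_nonneg (psi x).im]
  have h6 : 0 < (psi x).re := by
    rcases h3.lt_or_eq with h | h
    · exact h
    · rw [← h] at hsq; nlinarith
  have h7 : |(psi x).im| < 1 / 4 := by
    rcases hxD.2 with h | h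
    · exfalso
      have : (psi x).re ^ 2 < 1 / 16 := by
        rw [← sq_abs]; nlinarith [abs_nonneg (psi x).re]
      nlinarith
    · exact h
  have hrx : ‖x‖ = rr k := by
    rcases hr.lt_or_eq with h | h
    · exact absurd ⟨h, hx1, h6, h7⟩ hxn
    · exact h.symm
  refine ⟨⟨?_, ?_, h6, h7⟩, hrx⟩
  · rw [hrx]; exact aa_lt_rr (by omega)
  · rw [hrx]; exact rr_lt_bb k

theorem norm_sq_cV (z : ℂ) : ‖cV z‖ ^ 2 = z.re ^ 2 + z.im ^ 2 := by
  rw [norm_sq_V, cV_zero, cV_one]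

theorem isPreconnected_Bk {k : ℕ} (hk : 2 ≤ k) : IsPreconnected (Bk k) := by
  have ha : 1 / 2 ≤ aa k := half_le_aa hk
  have hab : aa k < bb k := (aa_lt_rr (by omega)).trans (rr_lt_bb k)
  set f : ℝ × ℝ → V := fun q =>
    rk k (cV ((Real.sqrt (q.1 - q.2 ^ 2) : ℂ) + (q.2 : ℂ) * Complex.I)) with hf
  have hfc : Continuous f := by
    rw [hf]
    have h1 : Continuous fun q : ℝ × ℝ => Real.sqrt (q.1 - q.2 ^ 2) := by fun_prop
    refine (rk k).continuous.comp (cV.continuous.comp ?_)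
    fun_prop
  have himg : Bk k = f '' (Ioo (aa k ^ 2) (bb k ^ 2) ×ˢ Ioo (-(1 / 4)) (1 / 4)) := by
    ext x
    constructor
    · intro hx
      set y := (rk k).symm x with hy
      have hyx : rk k y = x := by rw [hy]; simp
      have hyn : ‖y‖ = ‖x‖ := by rw [hy]; simp
      have hpsi : psi x = cV.symm y := by
        rw [← hyx]
        exact psi_rk (by omega) (by rw [hyn]; exact hx.1.le) (by rw [hyn]; exact hx.2.1.le)
      have hsq := sq_psi x
      refine ⟨(‖x‖ ^ 2, (psi x).im), ⟨⟨?_, ?_⟩, ?_⟩, ?_⟩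
      · exact pow_lt_pow_left₀ hx.1 (by linarith) (by norm_num)
      · exact pow_lt_pow_left₀ hx.2.1 (norm_nonneg _) (by norm_num)
      · exact abs_lt.1 hx.2.2.2
      · rw [hf]
        simp only
        have h1 : ‖x‖ ^ 2 - (psi x).im ^ 2 = (psi x).re ^ 2 := by linarith
        rw [h1, Real.sqrt_sq hx.2.2.1.le, Complex.re_add_im, hpsi]
        simp [hyx]
    · rintro ⟨⟨s, t⟩, ⟨⟨h1, h2⟩, h3⟩, rfl⟩
      simp only at h1 h2 h3
      have h3' : |t| < 1 / 4 := abs_lt.2 h3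
      have ht2 : t ^ 2 < 1 / 16 := by rw [← sq_abs]; nlinarith [abs_nonneg t]
      have hs4 : 1 / 4 ≤ aa k ^ 2 := by nlinarith
      have hpos : 0 < s - t ^ 2 := by linarith
      set y : V := cV ((Real.sqrt (s - t ^ 2) : ℂ) + (t : ℂ) * Complex.I) with hy
      have hyn : ‖y‖ ^ 2 = s := by
        rw [hy, norm_sq_cV]
        simp [Real.sq_sqrt hpos.le]
      have hy1 : aa k < ‖y‖ := by
        refine lt_of_pow_lt_pow_left₀ 2 (norm_nonneg _) ?_
        rw [hyn]; exact h1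
      have hy2 : ‖y‖ < bb k := by
        refine lt_of_pow_lt_pow_left₀ 2 (by linarith) ?_
        rw [hyn]; exact h2
      have hpsi : psi (rk k y) = (Real.sqrt (s - t ^ 2) : ℂ) + (t : ℂ) * Complex.I := by
        rw [psi_rk (by omega) hy1.le hy2.le, hy]; simp
      have hre : (psi (rk k y)).re = Real.sqrt (s - t ^ 2) := by rw [hpsi]; simp
      have him : (psi (rk k y)).im = t := by rw [hpsi]; simp
      refine ⟨?_, ?_, ?_, ?_⟩
      · rw [LinearIsometryEquiv.norm_map]; exact hy1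
      · rw [LinearIsometryEquiv.norm_map]; exact hy2
      · rw [hre]; exact Real.sqrt_pos.2 hpos
      · rw [him]; exact h3'
  rw [himg]
  exact (isPreconnected_Ioo.prod isPreconnected_Ioo).image f hfc.continuousOn

/-- reflection in the first axis -/
noncomputable def refl0 : V ≃ₗᵢ[ℝ] V := cV.symm.trans (Complex.conjLIE.trans cV)

theorem refl0_zero (x : V) : refl0 x 0 = x 0 := by
  have h1 : refl0 x = cV (starRingEnd ℂ (cV.symm x)) := rfl
  rw [h1, cV_zero, Complex.conj_re, ← cV_zero, LinearIsometryEquiv.apply_symm_apply]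

theorem refl0_one (x : V) : refl0 x 1 = -x 1 := by
  have h1 : refl0 x = cV (starRingEnd ℂ (cV.symm x)) := rfl
  rw [h1, cV_one, Complex.conj_im, ← cV_one, LinearIsometryEquiv.apply_symm_apply]

theorem exists_wall_frame {t : ℝ} (ht : |t| = 1 / 4) : ∃ (σ : ℝ) (L0 : V ≃ₗᵢ[ℝ] V),
    σ ^ 2 = 1 ∧ |σ| = 1 ∧ t = σ / 4 ∧ ∀ ξ : V, L0 ξ 0 = ξ 0 ∧ L0 ξ 1 = -σ * ξ 1 := by
  rcases abs_eq (by norm_num : (0 : ℝ) ≤ 1 / 4) |>.1 ht with h | h
  · refine ⟨1, refl0, by norm_num, by norm_num, h, fun ξ => ⟨refl0_zero ξ, ?_⟩⟩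
    rw [refl0_one]; ring
  · refine ⟨-1, LinearIsometryEquiv.refl ℝ V, by norm_num, by norm_num, ?_, fun ξ => ⟨rfl, ?_⟩⟩
    · rw [h]; norm_num
    · simp

theorem cVsymm_re (y : V) : (cV.symm y).re = y 0 := by
  rw [← cV_zero, LinearIsometryEquiv.apply_symm_apply]
theorem cVsymm_im (y : V) : (cV.symm y).im = y 1 := by
  rw [← cV_one, LinearIsometryEquiv.apply_symm_apply]

theorem rk_mem_Bk {k : ℕ} (hk : 2 ≤ k) {z : V} (h1 : aa k < ‖z‖) (h2 : ‖z‖ < bb k) (h3 : 0 < z 0)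
    (h4 : |z 1| < 1 / 4) : rk k z ∈ Bk k := by
  have hpsi := psi_rk (by omega) h1.le h2.le
  refine ⟨?_, ?_, ?_, ?_⟩
  · rw [LinearIsometryEquiv.norm_map]; exact h1
  · rw [LinearIsometryEquiv.norm_map]; exact h2
  · rw [hpsi, cVsymm_re]; exact h3
  · rw [hpsi, cVsymm_im]; exact h4

theorem rk_not_mem_Dom {k : ℕ} (hk : 2 ≤ k) {z : V} (h1 : aa k < ‖z‖) (h2 : ‖z‖ < bb k)
    (h3 : 1 / 4 ≤ z 0) (h4 : 1 / 4 ≤ |z 1|) : rk k z ∉ Dom := by
  have hpsi := psi_rk (by omega) h1.le h2.le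
  rw [not_mem_Dom_iff (by rw [LinearIsometryEquiv.norm_map]; exact h2.trans (bb_lt_one k)), hpsi,
    cVsymm_re, cVsymm_im]
  exact ⟨h3.trans (le_abs_self _), h4⟩

theorem compare {k : ℕ} (hk : 2 ≤ k) {Λ : ℝ} (hΛ : 0 ≤ Λ) {v w : V → ℝ} (hvc : Continuous v)
    (hwc : Continuous w) (hv0 : ∀ x, x ∉ Dom → v x = 0) (hw0 : ∀ x, x ∉ Dom → w x = 0)
    (hv : ContDiffOn ℝ ∞ v Dom) (hw : ContDiffOn ℝ ∞ w Dom) (hvH : Helm Λ v Dom)
    (hwH : Helm Λ w Dom) (hpos : ∀ x ∈ Bk k, 0 < v x) :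
    ∃ C, 0 ≤ C ∧ ∀ x ∈ Bk k, ‖x‖ = rr k → |w x| ≤ C * v x := by
  have har : aa k < rr k := aa_lt_rr (by omega)
  have hrb := rr_lt_bb k
  have hha := half_le_aa hk
  have c0 := (contDiff_coord 0).continuous
  have c1 := (contDiff_coord 1).continuous
  set K : Set V := {y | ‖y‖ = rr k ∧ 0 ≤ y 0 ∧ |y 1| ≤ 1 / 4} with hK
  have hKc : IsCompact K := by
    have hcl : IsClosed K := (isClosed_eq continuous_norm continuous_const).inter
      ((isClosed_le continuous_const c0).inter (isClosed_le c1.abs continuous_const))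
    refine Metric.isCompact_of_isClosed_isBounded hcl ?_
    refine (isBounded_closedBall (x := (0 : V)) (r := rr k)).subset fun y hy => ?_
    rw [mem_closedBall_zero_iff]; exact hy.1.le
  -- geometry on K
  have hK0 : ∀ y ∈ K, 1 / 4 < y 0 := by
    intro y hy
    have h1 := norm_sq_V y
    rw [hy.1] at h1
    have h2 : y 1 ^ 2 ≤ 1 / 16 := by
      rw [← sq_abs]; nlinarith [abs_nonneg (y 1), hy.2.2]
    have h3 : (1 / 4 : ℝ) ≤ rr k ^ 2 := by nlinarith
    by_contra hcon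
    push Not at hcon
    nlinarith [hy.2.1]
  have hKv : ∀ y ∈ K, 0 ≤ v (rk k y) := by
    intro y hy
    have hn := hy.1
    rcases hy.2.2.lt_or_eq with h | h
    · exact (hpos _ (rk_mem_Bk hk (by rw [hn]; exact har) (by rw [hn]; exact hrb)
        (by linarith [hK0 y hy]) h)).le
    · exact (hv0 _ (rk_not_mem_Dom hk (by rw [hn]; exact har) (by rw [hn]; exact hrb)
        (hK0 y hy).le h.symm.le)).symm.le
  have key : ∃ C, 0 ≤ C ∧ ∀ y ∈ K, y ∈ K → |w (rk k y)| ≤ C * v (rk k y) := by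
    refine hKc.induction_on (p := fun S => ∃ C, 0 ≤ C ∧ ∀ y ∈ S, y ∈ K →
      |w (rk k y)| ≤ C * v (rk k y)) ?_ ?_ ?_ ?_
    · exact ⟨0, le_rfl, fun y hy => absurd hy (notMem_empty y)⟩
    · rintro s t hst ⟨C, hC, h⟩
      exact ⟨C, hC, fun y hy => h y (hst hy)⟩
    · rintro s t ⟨C1, hC1, h1⟩ ⟨C2, hC2, h2⟩
      refine ⟨max C1 C2, le_max_of_le_left hC1, fun y hy hyK => ?_⟩
      rcases hy with hy | hy
      · exact (h1 y hy hyK).trans (mul_le_mul_of_nonneg_right (le_max_left _ _) (hKv y hyK))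
      · exact (h2 y hy hyK).trans (mul_le_mul_of_nonneg_right (le_max_right _ _) (hKv y hyK))
    · intro y hy
      have hn := hy.1
      rcases hy.2.2.lt_or_eq with h | h
      · -- interior point
        have hyB : rk k y ∈ Bk k := rk_mem_Bk hk (by rw [hn]; exact har) (by rw [hn]; exact hrb)
          (by linarith [hK0 y hy]) h
        have hvp := hpos _ hyB
        refine ⟨{z | v (rk k y) / 2 < v (rk k z) ∧ |w (rk k z)| < |w (rk k y)| + 1}, ?_,
          (|w (rk k y)| + 1) * (2 / v (rk k y)), by positivity, fun z hz _ => ?_⟩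
        · refine mem_nhdsWithin_of_mem_nhds (IsOpen.mem_nhds ?_ ⟨by linarith, by linarith⟩)
          exact (isOpen_lt continuous_const (hvc.comp (rk k).continuous)).inter
            (isOpen_lt (hwc.comp (rk k).continuous).abs continuous_const)
        · have h1 : 1 ≤ 2 / v (rk k y) * v (rk k z) := by
            rw [div_mul_eq_mul_div, le_div_iff₀ hvp]; linarith [hz.1]
          rw [mul_assoc]
          calc |w (rk k z)| ≤ (|w (rk k y)| + 1) * 1 := by linarith [hz.2]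
            _ ≤ _ := mul_le_mul_of_nonneg_left h1 (by positivity)
      · -- wall point
        obtain ⟨σ, L0, hσ2, hσa, hyσ, hL0⟩ := exists_wall_frame h
        have hUo : IsOpen {z : V | aa k < ‖z‖ ∧ ‖z‖ < bb k ∧ 1 / 4 < z 0 ∧ 0 < σ * z 1} :=
          (isOpen_lt continuous_const continuous_norm).inter
            ((isOpen_lt continuous_norm continuous_const).inter
              ((isOpen_lt continuous_const c0).inter
                (isOpen_lt continuous_const (continuous_const.mul c1))))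
        have hyU : y ∈ {z : V | aa k < ‖z‖ ∧ ‖z‖ < bb k ∧ 1 / 4 < z 0 ∧ 0 < σ * z 1} := by
          refine ⟨by rw [hn]; exact har, by rw [hn]; exact hrb, hK0 y hy, ?_⟩
          rw [hyσ]; nlinarith
        obtain ⟨ε, hε, hball⟩ := Metric.isOpen_iff.1 hUo y hyU
        have hsm : ∀ ξ : V, |ξ 0| ≤ 2 * (ε / 4) → |ξ 1| ≤ 2 * (ε / 4) →
            y + L0 ξ ∈ {z : V | aa k < ‖z‖ ∧ ‖z‖ < bb k ∧ 1 / 4 < z 0 ∧ 0 < σ * z 1} := by
          intro ξ h0 h1
          apply hball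
          rw [mem_ball, dist_eq_norm, add_sub_cancel_left, LinearIsometryEquiv.norm_map]
          refine lt_of_pow_lt_pow_left₀ 2 hε.le ?_
          rw [norm_sq_V, ← sq_abs (ξ 0), ← sq_abs (ξ 1)]
          nlinarith [abs_nonneg (ξ 0), abs_nonneg (ξ 1)]
        have hcoord : ∀ ξ : V, (y + L0 ξ) 1 = σ / 4 - σ * ξ 1 := by
          intro ξ
          rw [PiLp.add_apply, (hL0 ξ).2, hyσ]; ring
        have hpL : ∀ ξ : V, rk k y + (L0.trans (rk k)) ξ = rk k (y + L0 ξ) := by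
          intro ξ; simp
        have habs : ∀ ξ : V, |(y + L0 ξ) 1| = |1 / 4 - ξ 1| := by
          intro ξ
          have : (y + L0 ξ) 1 = σ * (1 / 4 - ξ 1) := by rw [hcoord]; ring
          rw [this, abs_mul, hσa, one_mul]
        obtain ⟨δ, C, hδ, hC, hloc⟩ := wall_local (p := rk k y) (L := L0.trans (rk k)) hΛ
          isOpen_Dom hvc hwc hv hw hvH hwH (δ0 := ε / 4) (by positivity) (fun ξ h0 h1 h2 => by
            rw [hpL]
            have hz := hsm ξ h0 (by rw [abs_of_pos h1]; exact h2)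
            have h5 : |(y + L0 ξ) 1| < 1 / 4 := by
              have hs : 0 < σ * (y + L0 ξ) 1 := hz.2.2.2
              have h6 : σ * (y + L0 ξ) 1 = σ ^ 2 * (1 / 4 - ξ 1) := by rw [hcoord]; ring
              rw [h6, hσ2, one_mul] at hs
              rw [habs, abs_of_pos hs]; linarith
            have h7 := rk_mem_Bk hk hz.1 hz.2.1 (by linarith [hz.2.2.1]) h5
            exact ⟨Bk_subset_Dom k h7, hpos _ h7⟩) (fun ξ h0 h1 h2 => by
            rw [hpL]
            have hz := hsm ξ h0 (by rw [abs_le]; constructor <;> linarith)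
            have h5 : 1 / 4 ≤ |(y + L0 ξ) 1| := by
              rw [habs, abs_of_pos (by linarith)]; linarith
            have h7 := rk_not_mem_Dom hk hz.1 hz.2.1 hz.2.2.1.le h5
            exact ⟨hv0 _ h7, hw0 _ h7⟩)
        refine ⟨{z | |z 0 - y 0| < δ ∧ |z 1 - y 1| < δ}, ?_, C, hC, fun z hz _ => ?_⟩
        · refine mem_nhdsWithin_of_mem_nhds (IsOpen.mem_nhds ?_ ⟨by simpa using hδ, by
            simpa using hδ⟩)
          exact (isOpen_lt (c0.sub continuous_const).abs continuous_const).inter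
            (isOpen_lt (c1.sub continuous_const).abs continuous_const)
        · set ξ : V := L0.symm (z - y) with hξ
          have hz' : y + L0 ξ = z := by rw [hξ]; simp
          have e0 : ξ 0 = z 0 - y 0 := by
            rw [← (hL0 ξ).1, hξ]; simp
          have e1 : |ξ 1| = |z 1 - y 1| := by
            have h8 := (hL0 ξ).2
            have h9 : L0 ξ 1 = z 1 - y 1 := by rw [hξ]; simp
            rw [← h9, h8, abs_mul, abs_neg, hσa, one_mul]
          have h10 := hloc ξ (by rw [e0]; exact hz.1) (by rw [e1]; exact hz.2)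
          rwa [hpL, hz'] at h10
  obtain ⟨C, hC, h⟩ := key
  refine ⟨C, hC, fun x hx hxr => ?_⟩
  set y := (rk k).symm x with hy
  have hyx : rk k y = x := by rw [hy]; simp
  have hyn : ‖y‖ = ‖x‖ := by rw [hy]; simp
  have hpsi : psi x = cV.symm y := by
    rw [← hyx]
    exact psi_rk (by omega) (by rw [hyn]; exact hx.1.le) (by rw [hyn]; exact hx.2.1.le)
  have hyK : y ∈ K := by
    refine ⟨by rw [hyn, hxr], ?_, ?_⟩
    · rw [← cVsymm_re, ← hpsi]; exact hx.2.2.1.le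
    · rw [← cVsymm_im, ← hpsi]; exact hx.2.2.2.le
  have := h y hyK hyK
  rwa [hyx] at this

theorem deep_nonneg {k : ℕ} (hk : 2 ≤ k) {Λ : ℝ} (hΛ : 0 ≤ Λ) (hkΛ : Λ ≤ k) {v : V → ℝ}
    (hvc : Continuous v) (hv0 : ∀ x, x ∉ Dom → v x = 0) (hv : ContDiffOn ℝ ∞ v Dom)
    (hvH : Helm Λ v Dom) (hσ : ∀ x ∈ Bk k, ‖x‖ = rr k → 0 ≤ v x) : ∀ x ∈ Dk k, 0 ≤ v x := by
  have hk0 : (2 : ℝ) ≤ k := by exact_mod_cast hk
  have hr1 : rr k < 1 := (rr_lt_bb k).trans (bb_lt_one k)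
  have hr0 : 0 < rr k := by
    have := half_le_aa hk
    have := aa_lt_rr (k := k) (by omega)
    linarith
  have hsm : ∀ x ∈ Dk k, ContDiffAt ℝ 2 v x := fun x hx =>
    (hv.contDiffAt (isOpen_Dom.mem_nhds (Dk_subset_Dom k hx))).of_le two_le_infty
  have key := max_principle (isOpen_Dk k) (isBounded_Dk k) (g := fun x => -v x)
    hvc.neg.continuousOn (fun x hx => (hsm x hx).neg) (μ := Λ) (fun x hx _ => by
      rw [lap_neg (hsm x hx), hvH x (Dk_subset_Dom k hx)]; linarith) (fun x hx hxn => by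
      by_cases hxD : x ∈ Dom
      · obtain ⟨h1, h2⟩ := closure_Dk hk hx hxn hxD
        have := hσ x h1 h2
        linarith
      · rw [hv0 x hxD]; simp) (z0 := 0) (A := 2 - rr k ^ 2) (fun x hx => by
      have h1 : ‖x‖ ≤ 1 := by
        have hcl : IsClosed {x : V | ‖x‖ ≤ 1} := isClosed_le continuous_norm continuous_const
        exact closure_minimal (fun y hy => hy.2.1.le) hcl hx
      rw [sub_zero]
      nlinarith [norm_nonneg x]) (fun x hx => by
      rw [sub_zero]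
      have h1 : rr k < ‖x‖ := hx.1
      have h2 : rr k ^ 2 ≤ ‖x‖ ^ 2 := pow_le_pow_left₀ hr0.le h1.le 2
      have h3 : 2 - rr k ^ 2 - ‖x‖ ^ 2 ≤ 4 * (1 - rr k) := by nlinarith [sq_nonneg (1 - rr k)]
      have h4 : (1 - rr k) * ((k : ℝ) + 1 / 4) = 1 := by
        rw [rr]; field_simp; ring
      have h5 : 0 < 1 - rr k := by linarith
      calc Λ * (2 - rr k ^ 2 - ‖x‖ ^ 2) ≤ Λ * (4 * (1 - rr k)) := mul_le_mul_of_nonneg_left h3 hΛ
        _ ≤ k * (4 * (1 - rr k)) := mul_le_mul_of_nonneg_right hkΛ (by positivity)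
        _ < 4 := by nlinarith)
  intro x hx
  have := key x (subset_closure hx)
  linarith

end Pool.Agent.Helper546
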