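import Pool.Agent.Helper546.Regular
set_option autoImplicit false
open MeasureTheory Metric Set Filter Topology
open scoped ContDiff InnerProductSpace ENNReal

namespace Pool.Agent.Helper546

/-- identification of the complex numbers with the plane -/
noncomputable def cV : ℂ ≃ₗᵢ[ℝ] V := Complex.orthonormalBasisOneI.repr

theorem cV_zero (z : ℂ) : cV z 0 = z.re := rfl
theorem cV_one (z : ℂ) : cV z 1 = z.im := rfl

/-- polar coordinates around a point -/
noncomputable def pol (p : V) (r θ : ℝ) : V :=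
  p + cV ((r : ℂ) * ((Real.cos θ : ℂ) + (Real.sin θ : ℂ) * Complex.I))

theorem norm_cis (θ : ℝ) : ‖((Real.cos θ : ℂ) + (Real.sin θ : ℂ) * Complex.I)‖ = 1 := by
  have : ((Real.cos θ : ℂ) + (Real.sin θ : ℂ) * Complex.I) = Complex.exp (θ * Complex.I) := by
    rw [Complex.exp_mul_I]; push_cast; ring
  rw [this, Complex.norm_exp_ofReal_mul_I]

theorem dist_pol (p : V) (r θ : ℝ) : dist (pol p r θ) p = |r| := by
  rw [pol, dist_eq_norm, add_sub_cancel_left, LinearIsometryEquiv.norm_map, norm_mul, norm_cis,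
    mul_one, Complex.norm_real, Real.norm_eq_abs]

theorem exists_pol (p q : V) : ∃ θ ∈ Icc (-Real.pi) Real.pi, q = pol p (dist q p) θ := by
  refine ⟨Complex.arg (cV.symm (q - p)), ⟨(Complex.neg_pi_lt_arg _).le, Complex.arg_le_pi _⟩, ?_⟩
  have h1 : ‖cV.symm (q - p)‖ = dist q p := by
    rw [LinearIsometryEquiv.norm_map, dist_eq_norm]
  have h2 := Complex.norm_mul_cos_add_sin_mul_I (cV.symm (q - p))
  rw [pol, ← h1]
  push_cast
  rw [h2]; simp

theorem measurable_pol (p : V) : Continuous (fun x : ℝ × ℝ => pol p x.1 x.2) := by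
  unfold pol
  have h : Continuous (fun z : ℂ => cV z) := cV.continuous
  fun_prop

theorem lintegral_pol (p : V) {f : V → ℝ≥0∞} (hf : Measurable f) :
    ∫⁻ x, f x = ∫⁻ r in Ioi (0 : ℝ), ∫⁻ θ in Ioo (-Real.pi) Real.pi,
      ENNReal.ofReal r * f (pol p r θ) := by
  have h1 : ∫⁻ x, f x = ∫⁻ x, f (p + x) := (lintegral_add_left_eq_self f p).symm
  have h2 : ∫⁻ x, f (p + x) = ∫⁻ z : ℂ, f (p + cV z) :=
    (((LinearIsometryEquiv.measurePreserving cV)).lintegral_comp
      (f := fun x => f (p + x)) (hf.comp (measurable_const_add p))).symm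
  rw [h1, h2, ← Complex.lintegral_comp_polarCoord_symm]
  have h3 : (polarCoord.target : Set (ℝ × ℝ)) = Ioi (0 : ℝ) ×ˢ Ioo (-Real.pi) Real.pi := rfl
  rw [h3, Measure.volume_eq_prod, ← Measure.prod_restrict, lintegral_prod]
  · refine lintegral_congr fun r => lintegral_congr fun θ => ?_
    rw [Complex.polarCoord_symm_apply, smul_eq_mul]
    rfl
  · refine Measurable.aemeasurable ?_
    simp only [Complex.polarCoord_symm_apply, smul_eq_mul]
    refine Measurable.mul (by fun_prop) ?_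
    exact hf.comp (measurable_pol p).measurable

theorem contDiff_pol (p : V) (r : ℝ) : ContDiff ℝ ∞ (fun θ => pol p r θ) := by
  unfold pol
  refine contDiff_const.add ?_
  refine cV.toContinuousLinearEquiv.contDiff.comp ?_
  refine contDiff_const.mul (ContDiff.add ?_ (ContDiff.mul ?_ contDiff_const))
  · exact Complex.ofRealCLM.contDiff.comp Real.contDiff_cos
  · exact Complex.ofRealCLM.contDiff.comp Real.contDiff_sin

theorem hasDerivAt_pol (p : V) (r θ : ℝ) : ∃ w : V, ‖w‖ ≤ |r| ∧ HasDerivAt (fun θ => pol p r θ) w θ := by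
  refine ⟨cV ((r : ℂ) * (-(Real.sin θ : ℂ) + (Real.cos θ : ℂ) * Complex.I)), ?_, ?_⟩
  · rw [LinearIsometryEquiv.norm_map, norm_mul, Complex.norm_real, Real.norm_eq_abs]
    have : (-(Real.sin θ : ℂ) + (Real.cos θ : ℂ) * Complex.I) =
        ((Real.cos θ : ℂ) + (Real.sin θ : ℂ) * Complex.I) * Complex.I := by
      ring_nf; rw [Complex.I_sq]; ring
    rw [this, norm_mul, norm_cis, Complex.norm_I]; simp
  · unfold pol
    have h1 : HasDerivAt (fun θ : ℝ => ((Real.cos θ : ℝ) : ℂ)) (-(Real.sin θ : ℂ)) θ := by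
      have := (Real.hasDerivAt_cos θ).ofReal_comp
      simpa using this
    have h2 : HasDerivAt (fun θ : ℝ => ((Real.sin θ : ℝ) : ℂ)) ((Real.cos θ : ℂ)) θ := by
      have := (Real.hasDerivAt_sin θ).ofReal_comp
      simpa using this
    have h3 : HasDerivAt (fun θ : ℝ => (r : ℂ) * ((Real.cos θ : ℂ) + (Real.sin θ : ℂ) * Complex.I))
        ((r : ℂ) * (-(Real.sin θ : ℂ) + (Real.cos θ : ℂ) * Complex.I)) θ :=
      (h1.add (h2.mul_const Complex.I)).const_mul (r : ℂ)
    have h4 := (cV.toContinuousLinearEquiv.toContinuousLinearMap.hasFDerivAt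
      (x := (r : ℂ) * ((Real.cos θ : ℂ) + (Real.sin θ : ℂ) * Complex.I))).comp_hasDerivAt θ h3
    exact h4.const_add p

theorem cs_interval {f : ℝ → ℝ} (hf : Continuous f) {a b : ℝ} (hab : a ≤ b) :
    (∫ x in a..b, f x) ^ 2 ≤ (b - a) * ∫ x in a..b, f x ^ 2 := by
  rcases hab.eq_or_lt with rfl | h0
  · simp
  · set m := ∫ x in a..b, f x with hm
    have hpos : 0 < b - a := by linarith
    have hsq : 0 ≤ ∫ x in a..b, ((b - a) * f x - m) ^ 2 :=
      intervalIntegral.integral_nonneg hab fun x _ => sq_nonneg _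
    have i1 : IntervalIntegrable f volume a b := hf.intervalIntegrable _ _
    have i2 : IntervalIntegrable (fun x => f x ^ 2) volume a b := (hf.pow 2).intervalIntegrable _ _
    have hexp : ∫ x in a..b, ((b - a) * f x - m) ^ 2 =
        (b - a) ^ 2 * (∫ x in a..b, f x ^ 2) - (b - a) * m ^ 2 := by
      have h7 : ∀ x, ((b - a) * f x - m) ^ 2 =
          (b - a) ^ 2 * f x ^ 2 - (2 * (b - a) * m) * f x + m ^ 2 := fun x => by ring
      simp only [h7]
      rw [intervalIntegral.integral_add, intervalIntegral.integral_sub,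
        intervalIntegral.integral_const_mul, intervalIntegral.integral_const_mul,
        intervalIntegral.integral_const, ← hm, smul_eq_mul]
      · ring
      · exact i2.const_mul _
      · exact i1.const_mul _
      · exact (i2.const_mul _).sub (i1.const_mul _)
      · exact intervalIntegrable_const
    rw [hexp] at hsq
    have h10 : 0 ≤ (b - a) * ((b - a) * (∫ x in a..b, f x ^ 2) - m ^ 2) := by linarith
    have := nonneg_of_mul_nonneg_right h10 hpos
    linarith

theorem circ_poincare {φ : V → ℝ} (hφ : ContDiff ℝ ∞ φ) {p q : V} {r : ℝ} (hr : 0 < r)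
    (hq : dist q p = r) (h0 : φ q = 0) :
    ∫⁻ θ in Ioo (-Real.pi) Real.pi, ENNReal.ofReal (φ (pol p r θ) ^ 2) ≤
      ENNReal.ofReal (4 * Real.pi ^ 2 * r ^ 2) *
        ∫⁻ θ in Ioo (-Real.pi) Real.pi, ENNReal.ofReal (‖fderiv ℝ φ (pol p r θ)‖ ^ 2) := by
  obtain ⟨θ0, hθ0, hqe⟩ := exists_pol p q
  rw [hq] at hqe
  have hpi := Real.pi_pos
  set f : ℝ → ℝ := fun θ => φ (pol p r θ) with hf
  have hfs : ContDiff ℝ ∞ f := hφ.comp (contDiff_pol p r)
  have hfd : ∀ θ, HasDerivAt f (deriv f θ) θ := fun θ =>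
    (hfs.differentiable (by simp) θ).hasDerivAt
  have hdc : Continuous (deriv f) := hfs.continuous_deriv (by simp)
  have hDc : Continuous (fun θ => ‖fderiv ℝ φ (pol p r θ)‖ ^ 2) :=
    (((hφ.continuous_fderiv (by simp)).comp (contDiff_pol p r).continuous).norm).pow 2
  have hder : ∀ θ, (deriv f θ) ^ 2 ≤ r ^ 2 * ‖fderiv ℝ φ (pol p r θ)‖ ^ 2 := by
    intro θ
    obtain ⟨w, hw, hwd⟩ := hasDerivAt_pol p r θ
    have h1 : HasDerivAt f (fderiv ℝ φ (pol p r θ) w) θ :=
      ((hφ.differentiable (by simp) _).hasFDerivAt).comp_hasDerivAt θ hwd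
    rw [h1.deriv]
    have h2 := (fderiv ℝ φ (pol p r θ)).le_opNorm w
    rw [Real.norm_eq_abs] at h2
    rw [abs_of_pos hr] at hw
    have h3 : |fderiv ℝ φ (pol p r θ) w| ≤ ‖fderiv ℝ φ (pol p r θ)‖ * r :=
      h2.trans (mul_le_mul_of_nonneg_left hw (norm_nonneg _))
    rw [← sq_abs]
    calc |fderiv ℝ φ (pol p r θ) w| ^ 2 ≤ (‖fderiv ℝ φ (pol p r θ)‖ * r) ^ 2 :=
          pow_le_pow_left₀ (abs_nonneg _) h3 2
      _ = _ := by ring
  set J := ∫ θ in (-Real.pi)..Real.pi, ‖fderiv ℝ φ (pol p r θ)‖ ^ 2 with hJ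
  have hJ0 : 0 ≤ J := intervalIntegral.integral_nonneg (by linarith) fun x _ => by positivity
  have hJ1 : ∀ a b, -Real.pi ≤ a → a ≤ b → b ≤ Real.pi →
      ∫ θ in a..b, (deriv f θ) ^ 2 ≤ r ^ 2 * J := by
    intro a b h1 h2 h3
    calc ∫ θ in a..b, (deriv f θ) ^ 2
        ≤ ∫ θ in (-Real.pi)..Real.pi, (deriv f θ) ^ 2 := by
          refine intervalIntegral.integral_mono_interval h1 h2 h3 ?_ ?_
          · exact Eventually.of_forall fun x => sq_nonneg _
          · exact (hdc.pow 2).intervalIntegrable _ _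
      _ ≤ ∫ θ in (-Real.pi)..Real.pi, r ^ 2 * ‖fderiv ℝ φ (pol p r θ)‖ ^ 2 := by
          refine intervalIntegral.integral_mono_on (by linarith) ?_ ?_ fun x _ => hder x
          · exact (hdc.pow 2).intervalIntegrable _ _
          · exact (hDc.const_mul _).intervalIntegrable _ _
      _ = r ^ 2 * J := by rw [intervalIntegral.integral_const_mul]
  have hf2 : ∀ θ ∈ Ioo (-Real.pi) Real.pi, f θ ^ 2 ≤ 2 * Real.pi * (r ^ 2 * J) := by
    intro θ hθ
    have hf0 : f θ0 = 0 := by rw [hf]; simp only; rw [← hqe, h0]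
    rcases le_total θ0 θ with h | h
    · have h1 : ∫ x in θ0..θ, deriv f x = f θ - f θ0 :=
        intervalIntegral.integral_eq_sub_of_hasDerivAt (fun x _ => hfd x)
          (hdc.intervalIntegrable _ _)
      have h2 := cs_interval hdc h
      rw [h1, hf0, sub_zero] at h2
      refine h2.trans ?_
      have h3 := hJ1 θ0 θ hθ0.1 h hθ.2.le
      refine mul_le_mul (by linarith [hθ0.1, hθ.2]) h3 ?_ (by positivity)
      exact intervalIntegral.integral_nonneg h fun x _ => sq_nonneg _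
    · have h1 : ∫ x in θ..θ0, deriv f x = f θ0 - f θ :=
        intervalIntegral.integral_eq_sub_of_hasDerivAt (fun x _ => hfd x)
          (hdc.intervalIntegrable _ _)
      have h2 := cs_interval hdc h
      rw [h1, hf0, zero_sub, neg_sq] at h2
      refine h2.trans ?_
      have h3 := hJ1 θ θ0 hθ.1.le h hθ0.2
      refine mul_le_mul (by linarith [hθ0.2, hθ.1]) h3 ?_ (by positivity)
      exact intervalIntegral.integral_nonneg h fun x _ => sq_nonneg _
  have hJl : ∫⁻ θ in Ioo (-Real.pi) Real.pi, ENNReal.ofReal (‖fderiv ℝ φ (pol p r θ)‖ ^ 2) =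
      ENNReal.ofReal J := by
    rw [hJ, intervalIntegral.integral_of_le (by linarith),
      integral_Ioc_eq_integral_Ioo, ofReal_integral_eq_lintegral_ofReal]
    · exact (hDc.integrableOn_Icc).mono_set Ioo_subset_Icc_self
    · exact Eventually.of_forall fun x => by positivity
  rw [hJl]
  calc ∫⁻ θ in Ioo (-Real.pi) Real.pi, ENNReal.ofReal (φ (pol p r θ) ^ 2)
      ≤ ∫⁻ θ in Ioo (-Real.pi) Real.pi, ENNReal.ofReal (2 * Real.pi * (r ^ 2 * J)) :=
        setLIntegral_mono measurable_const fun θ hθ => ENNReal.ofReal_le_ofReal (hf2 θ hθ)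
    _ = ENNReal.ofReal (2 * Real.pi * (r ^ 2 * J)) * ENNReal.ofReal (2 * Real.pi) := by
        rw [setLIntegral_const, Real.volume_Ioo]; congr 2; ring
    _ = ENNReal.ofReal (4 * Real.pi ^ 2 * r ^ 2) * ENNReal.ofReal J := by
        rw [← ENNReal.ofReal_mul (by positivity), ← ENNReal.ofReal_mul (by positivity)]
        congr 1; ring

/-- every circle centered at a point of the complement meets the complement -/
def Circ (Ω : Set V) : Prop := ∀ p, p ∉ Ω → ∀ r : ℝ, 0 < r → ∃ q, q ∉ Ω ∧ dist q p = r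

theorem disc_poincare {Ω : Set V} (hc : Circ Ω) {φ : V → ℝ} (hφ : Tst Ω φ) {p : V} (hp : p ∉ Ω)
    (R : ℝ) :
    ∫⁻ x in ball p R, ENNReal.ofReal (φ x ^ 2) ≤
      ENNReal.ofReal (4 * Real.pi ^ 2 * R ^ 2) *
        ∫⁻ x in ball p R, ENNReal.ofReal (‖fderiv ℝ φ x‖ ^ 2) := by
  have m1 : Measurable (fun x => ENNReal.ofReal (φ x ^ 2)) :=
    ENNReal.measurable_ofReal.comp (hφ.1.continuous.pow 2).measurable
  have m2 : Measurable (fun x => ENNReal.ofReal (‖fderiv ℝ φ x‖ ^ 2)) :=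
    ENNReal.measurable_ofReal.comp
      (((hφ.1.continuous_fderiv (by simp)).norm).pow 2).measurable
  rw [← lintegral_indicator measurableSet_ball, ← lintegral_indicator measurableSet_ball,
    lintegral_pol p (m1.indicator measurableSet_ball),
    lintegral_pol p (m2.indicator measurableSet_ball)]
  have mm : ∀ f : V → ℝ≥0∞, Measurable f → Measurable fun r : ℝ =>
      ∫⁻ θ in Ioo (-Real.pi) Real.pi, ENNReal.ofReal r * f (pol p r θ) := by
    intro f hf
    have h : Measurable fun x : ℝ × ℝ => ENNReal.ofReal x.1 * f (pol p x.1 x.2) :=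
      (ENNReal.measurable_ofReal.comp measurable_fst).mul (hf.comp (measurable_pol p).measurable)
    exact h.lintegral_prod_right'
  rw [← lintegral_const_mul _ (mm _ (m2.indicator measurableSet_ball))]
  refine setLIntegral_mono ((mm _ (m2.indicator measurableSet_ball)).const_mul _) ?_
  intro r hr
  have hr0 : 0 < r := hr
  rw [lintegral_const_mul, lintegral_const_mul]
  rotate_left
  · exact (m2.indicator measurableSet_ball).comp (contDiff_pol p r).continuous.measurable
  · exact (m1.indicator measurableSet_ball).comp (contDiff_pol p r).continuous.measurable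
  rcases lt_or_ge r R with h | h
  · have hin : ∀ θ, pol p r θ ∈ ball p R := fun θ => by
      rw [mem_ball, dist_pol, abs_of_pos hr0]; exact h
    simp only [indicator_of_mem (hin _)]
    obtain ⟨q, hq, hqd⟩ := hc p hp r hr0
    have hq0 : φ q = 0 := by
      by_contra hcon
      exact hq (hφ.2.2 (subset_tsupport _ hcon))
    have h1 := circ_poincare hφ.1 hr0 hqd hq0
    calc ENNReal.ofReal r * ∫⁻ θ in Ioo (-Real.pi) Real.pi, ENNReal.ofReal (φ (pol p r θ) ^ 2)
        ≤ ENNReal.ofReal r * (ENNReal.ofReal (4 * Real.pi ^ 2 * R ^ 2) *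
          ∫⁻ θ in Ioo (-Real.pi) Real.pi, ENNReal.ofReal (‖fderiv ℝ φ (pol p r θ)‖ ^ 2)) := by
          refine mul_le_mul_right (h1.trans (mul_le_mul_left (ENNReal.ofReal_le_ofReal ?_) _)) _
          have : r ^ 2 ≤ R ^ 2 := pow_le_pow_left₀ hr0.le h.le 2
          exact mul_le_mul_of_nonneg_left this (by positivity)
      _ = _ := by ring
  · have hout : ∀ θ, pol p r θ ∉ ball p R := fun θ => by
      rw [mem_ball, dist_pol, abs_of_pos hr0]; exact not_lt.2 h
    simp only [indicator_of_notMem (hout _)]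
    simp

theorem ofReal_le_two_add {a b c : ℝ} (ha : 0 ≤ a) (hb : 0 ≤ b) (h : c ≤ 2 * a + 2 * b) :
    ENNReal.ofReal c ≤ 2 * ENNReal.ofReal a + 2 * ENNReal.ofReal b := by
  have t2 : (2 : ℝ≥0∞) = ENNReal.ofReal 2 := by simp
  rw [t2, ← ENNReal.ofReal_mul (by norm_num), ← ENNReal.ofReal_mul (by norm_num),
    ← ENNReal.ofReal_add (by positivity) (by positivity)]
  exact ENNReal.ofReal_le_ofReal h

theorem disc_poincare' {Ω : Set V} (hΩo : IsOpen Ω) (hc : Circ Ω) {v : V → ℝ}
    (hv : ContDiffOn ℝ ∞ v Ω) (hA : Approx Ω v) {p : V} (hp : p ∉ Ω) (R : ℝ) :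
    ∫⁻ x in ball p R ∩ Ω, ENNReal.ofReal (v x ^ 2) ≤
      ENNReal.ofReal (16 * Real.pi ^ 2 * R ^ 2) *
        ∫⁻ x in ball p R ∩ Ω, ENNReal.ofReal (‖fderiv ℝ v x‖ ^ 2) := by
  obtain ⟨φ, hφ, hlim⟩ := hA
  have hφt : ∀ n, Tst Ω (φ n) := fun n => ⟨(hφ n).1, (hφ n).2.1, (hφ n).2.2.1⟩
  set S := ball p R ∩ Ω with hS
  have hSm : MeasurableSet S := measurableSet_ball.inter hΩo.measurableSet
  have hSΩ : S ⊆ Ω := inter_subset_right
  -- the error
  set E : ℕ → ℝ≥0∞ := fun n => ∫⁻ x in Ω,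
    ENNReal.ofReal ((φ n x - v x) ^ 2 + ‖fderiv ℝ (φ n) x - fderiv ℝ v x‖ ^ 2) with hE
  have hE0 : Tendsto E atTop (𝓝 0) := by
    have h1 : ∀ n, E n = ENNReal.ofReal (∫ x in Ω,
        ((φ n x - v x) ^ 2 + ‖fderiv ℝ (φ n) x - fderiv ℝ v x‖ ^ 2)) := by
      intro n
      rw [hE, ofReal_integral_eq_lintegral_ofReal (hφ n).2.2.2]
      exact Eventually.of_forall fun x => by positivity
    have h2 := ENNReal.tendsto_ofReal hlim
    rw [ENNReal.ofReal_zero] at h2
    exact h2.congr fun n => (h1 n).symm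
  -- measurability
  have cv : ContinuousOn v Ω := hv.continuousOn
  have cdv : ContinuousOn (fderiv ℝ v) Ω := hv.continuousOn_fderiv_of_isOpen hΩo (by simp)
  have mv : ∀ {g : V → ℝ}, ContinuousOn g Ω →
      AEMeasurable (fun x => ENNReal.ofReal (g x)) (volume.restrict S) := by
    intro g hg
    exact ENNReal.measurable_ofReal.comp_aemeasurable ((hg.mono hSΩ).aemeasurable hSm)
  have cφ : ∀ n, ContinuousOn (φ n) Ω := fun n => (hφ n).1.continuous.continuousOn
  have cdφ : ∀ n, ContinuousOn (fderiv ℝ (φ n)) Ω := fun n =>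
    ((hφ n).1.continuous_fderiv (by simp)).continuousOn
  set K : ℝ≥0∞ := ENNReal.ofReal (4 * Real.pi ^ 2 * R ^ 2) with hK
  set G : ℝ≥0∞ := ∫⁻ x in S, ENNReal.ofReal (‖fderiv ℝ v x‖ ^ 2) with hG
  have step : ∀ n, ∫⁻ x in S, ENNReal.ofReal (v x ^ 2) ≤
      4 * K * G + (4 * K + 2) * E n := by
    intro n
    have e1 : ∫⁻ x in S, ENNReal.ofReal ((φ n x - v x) ^ 2) ≤ E n := by
      refine (lintegral_mono_set hSΩ).trans (lintegral_mono fun x => ?_)
      exact ENNReal.ofReal_le_ofReal (by nlinarith [sq_nonneg ‖fderiv ℝ (φ n) x - fderiv ℝ v x‖])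
    have e2 : ∫⁻ x in S, ENNReal.ofReal (‖fderiv ℝ (φ n) x - fderiv ℝ v x‖ ^ 2) ≤ E n := by
      refine (lintegral_mono_set hSΩ).trans (lintegral_mono fun x => ?_)
      exact ENNReal.ofReal_le_ofReal (by nlinarith [sq_nonneg (φ n x - v x)])
    have a1 : ∫⁻ x in S, ENNReal.ofReal (v x ^ 2) ≤
        2 * (∫⁻ x in S, ENNReal.ofReal (φ n x ^ 2)) +
          2 * ∫⁻ x in S, ENNReal.ofReal ((φ n x - v x) ^ 2) := by
      have m1 : AEMeasurable (fun x => ENNReal.ofReal (φ n x ^ 2)) (volume.restrict S) :=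
        mv ((cφ n).pow 2)
      have m2 : AEMeasurable (fun x => ENNReal.ofReal ((φ n x - v x) ^ 2)) (volume.restrict S) :=
        mv (((cφ n).sub cv).pow 2)
      rw [← lintegral_const_mul'' _ m1, ← lintegral_const_mul'' _ m2,
        ← lintegral_add_left' (m1.const_mul _)]
      refine lintegral_mono fun x => ?_
      refine ofReal_le_two_add (by positivity) (by positivity) ?_
      show v x ^ 2 ≤ 2 * (φ n x) ^ 2 + 2 * (φ n x - v x) ^ 2
      nlinarith [sq_nonneg (2 * φ n x - v x)]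
    have a2 : ∫⁻ x in S, ENNReal.ofReal (φ n x ^ 2) ≤
        K * ∫⁻ x in S, ENNReal.ofReal (‖fderiv ℝ (φ n) x‖ ^ 2) := by
      have h1 := disc_poincare hc (hφt n) hp R
      have h2 : ∀ {g : V → ℝ≥0∞}, (∀ x, x ∉ Ω → g x = 0) →
          ∫⁻ x in ball p R, g x = ∫⁻ x in S, g x := by
        intro g hg
        rw [hS, ← lintegral_indicator measurableSet_ball, ← lintegral_indicator hSm]
        congr 1; funext x
        by_cases hx : x ∈ ball p R
        · by_cases hxΩ : x ∈ Ω
          · rw [indicator_of_mem hx, indicator_of_mem (show x ∈ ball p R ∩ Ω from ⟨hx, hxΩ⟩)]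
          · rw [indicator_of_mem hx, indicator_of_notMem (fun h => hxΩ h.2), hg x hxΩ]
        · rw [indicator_of_notMem hx, indicator_of_notMem (fun h => hx h.1)]
      rw [h2, h2] at h1
      · exact h1
      · intro x hx
        have : fderiv ℝ (φ n) x = 0 := by
          by_contra hcon
          exact hx ((hφt n).2.2 (tsupport_fderiv_subset ℝ (subset_tsupport _ hcon)))
        rw [this]; simp
      · intro x hx
        have : φ n x = 0 := by
          by_contra hcon
          exact hx ((hφt n).2.2 (subset_tsupport _ hcon))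
        rw [this]; simp
    have a3 : ∫⁻ x in S, ENNReal.ofReal (‖fderiv ℝ (φ n) x‖ ^ 2) ≤
        2 * G + 2 * ∫⁻ x in S, ENNReal.ofReal (‖fderiv ℝ (φ n) x - fderiv ℝ v x‖ ^ 2) := by
      have m1 : AEMeasurable (fun x => ENNReal.ofReal (‖fderiv ℝ v x‖ ^ 2)) (volume.restrict S) :=
        mv (cdv.norm.pow 2)
      have m2 : AEMeasurable (fun x => ENNReal.ofReal (‖fderiv ℝ (φ n) x - fderiv ℝ v x‖ ^ 2))
          (volume.restrict S) := mv (((cdφ n).sub cdv).norm.pow 2)
      rw [hG, ← lintegral_const_mul'' _ m1, ← lintegral_const_mul'' _ m2,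
        ← lintegral_add_left' (m1.const_mul _)]
      refine lintegral_mono fun x => ?_
      refine ofReal_le_two_add (by positivity) (by positivity) ?_
      have h1 : ‖fderiv ℝ (φ n) x‖ ≤ ‖fderiv ℝ v x‖ + ‖fderiv ℝ (φ n) x - fderiv ℝ v x‖ := by
        have := norm_add_le (fderiv ℝ v x) (fderiv ℝ (φ n) x - fderiv ℝ v x)
        rwa [add_sub_cancel] at this
      have h2 := pow_le_pow_left₀ (norm_nonneg _) h1 2
      nlinarith [sq_nonneg (‖fderiv ℝ v x‖ - ‖fderiv ℝ (φ n) x - fderiv ℝ v x‖)]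
    calc ∫⁻ x in S, ENNReal.ofReal (v x ^ 2)
        ≤ 2 * (K * (2 * G + 2 * E n)) + 2 * E n := by
          refine a1.trans (add_le_add ?_ ?_)
          · refine mul_le_mul_right (a2.trans (mul_le_mul_right (a3.trans ?_) _)) _
            exact add_le_add le_rfl (mul_le_mul_right e2 _)
          · exact mul_le_mul_right e1 _
      _ = 4 * K * G + (4 * K + 2) * E n := by ring
  have hfin : (4 * K + 2) ≠ ⊤ := by
    rw [hK]
    exact ENNReal.add_ne_top.2 ⟨ENNReal.mul_ne_top (by simp) ENNReal.ofReal_ne_top, by simp⟩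
  have hlim2 : Tendsto (fun n => 4 * K * G + (4 * K + 2) * E n) atTop
      (𝓝 (4 * K * G + (4 * K + 2) * 0)) :=
    tendsto_const_nhds.add (ENNReal.Tendsto.const_mul hE0 (Or.inr hfin))
  have hfinal := ge_of_tendsto' hlim2 step
  rw [mul_zero, add_zero] at hfinal
  refine hfinal.trans (le_of_eq ?_)
  congr 1
  have t4 : (4 : ℝ≥0∞) = ENNReal.ofReal 4 := by simp
  rw [hK, t4, ← ENNReal.ofReal_mul (by norm_num)]
  congr 1; ring

theorem lintegral_grad_ne_top {Ω : Set V} (hΩo : IsOpen Ω) {v : V → ℝ}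
    (hv : ContDiffOn ℝ ∞ v Ω) (hA : Approx Ω v) :
    ∫⁻ x in Ω, ENNReal.ofReal (‖fderiv ℝ v x‖ ^ 2) ≠ ⊤ := by
  obtain ⟨φ, hφ, hlim⟩ := hA
  have h0 := hφ 0
  have cdv : ContinuousOn (fderiv ℝ v) Ω := hv.continuousOn_fderiv_of_isOpen hΩo (by simp)
  have hi : Integrable (fun x => ‖fderiv ℝ (φ 0) x‖ ^ 2) := by
    refine Continuous.integrable_of_hasCompactSupport
      (((h0.1.continuous_fderiv (by simp)).norm).pow 2) ?_
    have h1 : HasCompactSupport (fderiv ℝ (φ 0)) := h0.2.1.fderiv ℝ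
    exact h1.comp_left (g := fun L : V →L[ℝ] ℝ => ‖L‖ ^ 2) (by simp)
  have hint : IntegrableOn (fun x => ‖fderiv ℝ v x‖ ^ 2) Ω := by
    refine Integrable.mono' ((hi.integrableOn.const_mul 2).add (h0.2.2.2.const_mul 2))
      ((cdv.norm.pow 2).aestronglyMeasurable hΩo.measurableSet) ?_
    refine Eventually.of_forall fun x => ?_
    rw [Real.norm_eq_abs, abs_of_nonneg (by positivity)]
    show ‖fderiv ℝ v x‖ ^ 2 ≤ 2 * ‖fderiv ℝ (φ 0) x‖ ^ 2 +
      2 * ((φ 0 x - v x) ^ 2 + ‖fderiv ℝ (φ 0) x - fderiv ℝ v x‖ ^ 2)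
    have h1 : ‖fderiv ℝ v x‖ ≤ ‖fderiv ℝ (φ 0) x‖ + ‖fderiv ℝ (φ 0) x - fderiv ℝ v x‖ := by
      have := norm_sub_le (fderiv ℝ (φ 0) x) (fderiv ℝ (φ 0) x - fderiv ℝ v x)
      rwa [sub_sub_cancel] at this
    have h2 := pow_le_pow_left₀ (norm_nonneg _) h1 2
    nlinarith [sq_nonneg (‖fderiv ℝ (φ 0) x‖ - ‖fderiv ℝ (φ 0) x - fderiv ℝ v x‖),
      sq_nonneg (φ 0 x - v x)]
  rw [← ofReal_integral_eq_lintegral_ofReal hint (Eventually.of_forall fun x => by positivity)]
  exact ENNReal.ofReal_ne_top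

theorem boundary_zero {Ω : Set V} (hΩo : IsOpen Ω) (hne : Ωᶜ.Nonempty) (hc : Circ Ω) {v : V → ℝ}
    (hv : ContDiffOn ℝ ∞ v Ω) (hA : Approx Ω v) {C t0 : ℝ} (ht0 : 0 < t0)
    (hI : ∀ z t, 0 < t → t ≤ t0 → closedBall z (2 * t) ⊆ Ω →
        (v z) ^ 2 ≤ C / t ^ 2 * ∫ y in ball z t, (v y) ^ 2) :
    Continuous (Ω.indicator v) := by
  have hunif : ∀ ε : ℝ, 0 < ε → ∃ δ : ℝ, 0 < δ ∧ ∀ z ∈ Ω, infDist z Ωᶜ < δ → (v z) ^ 2 < ε := by
    intro ε hε
    set C1 : ℝ := 9 * |C| * (16 * Real.pi ^ 2 * 4) + 1 with hC1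
    have hC1p : 0 < C1 := by positivity
    obtain ⟨η, hη, hηs⟩ := exists_pos_setLIntegral_lt_of_measure_lt
      (μ := volume.restrict Ω) (lintegral_grad_ne_top hΩo hv hA)
      (ε := ENNReal.ofReal (ε / C1)) (by
        rw [Ne, ENNReal.ofReal_eq_zero, not_le]; positivity)
    -- small balls
    obtain ⟨δ1, hδ1, hball⟩ : ∃ δ1 : ℝ, 0 < δ1 ∧ ∀ (p : V) (r : ℝ), 0 ≤ r → r < δ1 →
        (volume : Measure V) (ball p (2 * r)) < η := by
      have h1 : Tendsto (fun r : ℝ => ENNReal.ofReal ((2 * r) ^ 2) * (volume : Measure V) (ball 0 1))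
          (𝓝 0) (𝓝 0) := by
        have h2 : Tendsto (fun r : ℝ => ENNReal.ofReal ((2 * r) ^ 2)) (𝓝 0)
            (𝓝 (ENNReal.ofReal ((2 * 0) ^ 2))) :=
          (ENNReal.continuous_ofReal.comp (by fun_prop)).tendsto 0
        have h3 := ENNReal.Tendsto.mul_const (b := (volume : Measure V) (ball 0 1)) h2
          (Or.inr measure_ball_lt_top.ne)
        simpa using h3
      have h4 := (tendsto_order.1 h1).2 η hη
      obtain ⟨δ1, hδ1, h5⟩ := Metric.eventually_nhds_iff.1 h4
      refine ⟨δ1, hδ1, fun p r hr hr1 => ?_⟩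
      rw [Measure.addHaar_ball _ _ (by positivity), finrank_euclideanSpace_fin]
      exact h5 (by rw [Real.dist_eq, sub_zero, abs_of_nonneg hr]; exact hr1)
    refine ⟨min δ1 (3 * t0), lt_min hδ1 (by linarith), fun z hz hzd => ?_⟩
    set d := infDist z Ωᶜ with hd
    have hcl : IsClosed Ωᶜ := hΩo.isClosed_compl
    have hd0 : 0 < d := (hcl.notMem_iff_infDist_pos hne).1 (fun h => h hz)
    obtain ⟨p, hp, hpd⟩ := hcl.exists_infDist_eq_dist hne z
    rw [← hd] at hpd
    have hdt : d / 3 ≤ t0 := by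
      have := (lt_min_iff.1 hzd).2; linarith
    have hcb : closedBall z (2 * (d / 3)) ⊆ Ω := by
      intro y hy
      by_contra hcon
      have h1 := infDist_le_dist_of_mem (x := z) (show y ∈ Ωᶜ from hcon)
      rw [mem_closedBall, dist_comm] at hy
      rw [← hd] at h1
      linarith
    have h1 := hI z (d / 3) (by positivity) hdt hcb
    -- integral over the small ball
    have hsub : ball z (d / 3) ⊆ ball p (2 * d) ∩ Ω := by
      intro y hy
      refine ⟨?_, hcb (ball_subset_closedBall (ball_subset_ball (by linarith) hy))⟩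
      rw [mem_ball] at hy ⊢
      calc dist y p ≤ dist y z + dist z p := dist_triangle _ _ _
        _ < 2 * d := by rw [← hpd]; linarith
    have h2 : ENNReal.ofReal (∫ y in ball z (d / 3), (v y) ^ 2) ≤
        ∫⁻ y in ball p (2 * d) ∩ Ω, ENNReal.ofReal (v y ^ 2) := by
      have hci : IntegrableOn (fun y => v y ^ 2) (ball z (d / 3)) := by
        have h3 : IntegrableOn (fun y => v y ^ 2) (closedBall z (2 * (d / 3))) :=
          ContinuousOn.integrableOn_compact (isCompact_closedBall _ _)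
            ((hv.continuousOn.mono hcb).pow 2)
        exact h3.mono_set (ball_subset_closedBall.trans (closedBall_subset_closedBall (by linarith)))
      rw [ofReal_integral_eq_lintegral_ofReal hci (Eventually.of_forall fun x => by positivity)]
      exact lintegral_mono_set hsub
    have h3 := disc_poincare' hΩo hc hv hA hp (2 * d)
    have h4 : ∫⁻ x in ball p (2 * d) ∩ Ω, ENNReal.ofReal (‖fderiv ℝ v x‖ ^ 2) <
        ENNReal.ofReal (ε / C1) := by
      have h5 := hηs (ball p (2 * d)) (by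
        refine (Measure.restrict_apply_le _ _).trans_lt ?_
        exact hball p d hd0.le (lt_min_iff.1 hzd).1)
      rwa [Measure.restrict_restrict measurableSet_ball] at h5
    have h5 : ENNReal.ofReal (∫ y in ball z (d / 3), (v y) ^ 2) ≤
        ENNReal.ofReal (16 * Real.pi ^ 2 * (2 * d) ^ 2 * (ε / C1)) := by
      rw [ENNReal.ofReal_mul (by positivity)]
      exact h2.trans (h3.trans (mul_le_mul_right h4.le _))
    have h6 : ∫ y in ball z (d / 3), (v y) ^ 2 ≤ 16 * Real.pi ^ 2 * (2 * d) ^ 2 * (ε / C1) :=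
      (ENNReal.ofReal_le_ofReal_iff (by positivity)).1 h5
    have h7 : 0 ≤ ∫ y in ball z (d / 3), (v y) ^ 2 := integral_nonneg fun x => sq_nonneg _
    calc (v z) ^ 2 ≤ C / (d / 3) ^ 2 * ∫ y in ball z (d / 3), (v y) ^ 2 := h1
      _ ≤ |C| / (d / 3) ^ 2 * ∫ y in ball z (d / 3), (v y) ^ 2 := by
          refine mul_le_mul_of_nonneg_right ?_ h7
          exact div_le_div_of_nonneg_right (le_abs_self _) (by positivity)
      _ ≤ |C| / (d / 3) ^ 2 * (16 * Real.pi ^ 2 * (2 * d) ^ 2 * (ε / C1)) :=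
          mul_le_mul_of_nonneg_left h6 (by positivity)
      _ = (9 * |C| * (16 * Real.pi ^ 2 * 4)) * (ε / C1) := by field_simp; ring
      _ < C1 * (ε / C1) := by
          refine mul_lt_mul_of_pos_right ?_ (by positivity)
          rw [hC1]; linarith
      _ = ε := by field_simp
  rw [continuous_iff_continuousAt]
  intro z
  by_cases hz : z ∈ Ω
  · have h1 : ContinuousAt v z := hv.continuousOn.continuousAt (hΩo.mem_nhds hz)
    refine h1.congr ?_
    filter_upwards [hΩo.mem_nhds hz] with y hy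
    rw [indicator_of_mem hy]
  · rw [Metric.continuousAt_iff]
    intro ε hε
    obtain ⟨δ, hδ, h⟩ := hunif (ε ^ 2) (by positivity)
    refine ⟨δ, hδ, fun {y} hy => ?_⟩
    rw [indicator_of_notMem hz, Real.dist_eq, sub_zero]
    by_cases hyΩ : y ∈ Ω
    · rw [indicator_of_mem hyΩ]
      have h1 : infDist y Ωᶜ < δ := (infDist_le_dist_of_mem (show z ∈ Ωᶜ from hz)).trans_lt hy
      have h2 := h y hyΩ h1
      exact abs_lt_of_sq_lt_sq h2 hε.le
    · rw [indicator_of_notMem hyΩ]; simpa using hε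

end Pool.Agent.Helper546
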