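import Pool.Agent.Helper546.MeanValue
set_option autoImplicit false
open MeasureTheory Metric Set Filter Topology
open scoped ContDiff InnerProductSpace

namespace Pool.Agent.Helper546

theorem two_le_infty : (2 : WithTop ℕ∞) ≤ ∞ := by norm_cast

theorem deriv2_le_zero {f : ℝ → ℝ} {s : ℝ} (hm : IsLocalMax f s) (hc : ContinuousAt f s) :
    deriv (deriv f) s ≤ 0 := by
  by_contra hcon
  push Not at hcon
  have h1 := isLocalMin_of_deriv_deriv_pos hcon hm.deriv_eq_zero hc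
  have h2 : f =ᶠ[𝓝 s] fun _ => f s := by
    filter_upwards [hm, h1] with y h3 h4
    exact le_antisymm h3 h4
  have h3 : deriv f =ᶠ[𝓝 s] deriv fun _ => f s := h2.deriv
  rw [h3.deriv_eq] at hcon
  simp at hcon

theorem dd_dd_le_zero {G : V → ℝ} {x : V} (hG : ContDiffAt ℝ 2 G x) (hm : IsLocalMax G x)
    (i : Fin 2) : dd i (dd i G) x ≤ 0 := by
  set f : ℝ → ℝ := fun s => G (x + s • ee i) with hf
  have hx0 : x + (0 : ℝ) • ee i = x := by simp
  have hline : Continuous fun s : ℝ => x + s • ee i := by fun_prop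
  have hlt : Tendsto (fun s : ℝ => x + s • ee i) (𝓝 0) (𝓝 x) := by
    have := hline.tendsto 0
    rwa [hx0] at this
  have hfm : IsLocalMax f 0 := by
    show ∀ᶠ s in 𝓝 (0 : ℝ), f s ≤ f 0
    have h1 : ∀ᶠ y in 𝓝 x, G y ≤ G x := hm
    filter_upwards [hlt.eventually h1] with s hs
    rw [hf]; simp only [hx0]; exact hs
  have hfc : ContinuousAt f 0 := by
    refine ContinuousAt.comp (f := fun s : ℝ => x + s • ee i) ?_ hline.continuousAt
    rw [hx0]; exact hG.continuousAt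
  have hderx : ∀ s : ℝ, HasDerivAt (fun s : ℝ => x + s • ee i) (ee i) s := by
    intro s
    have := ((hasDerivAt_id s).smul_const (ee i)).const_add x
    simpa using this
  have hev : ∀ᶠ y in 𝓝 x, ContDiffAt ℝ 2 G y := hG.eventually (by simp)
  have h1 : deriv f =ᶠ[𝓝 0] fun s => dd i G (x + s • ee i) := by
    filter_upwards [hlt.eventually hev] with s hs
    have := (hs.differentiableAt (by norm_num)).hasFDerivAt.comp_hasDerivAt s (hderx s)
    exact this.deriv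
  have h2 : deriv (deriv f) 0 = dd i (dd i G) x := by
    rw [h1.deriv_eq]
    have h3 : DifferentiableAt ℝ (dd i G) x := by
      have h4 : DifferentiableAt ℝ (fderiv ℝ G) x :=
        (hG.fderiv_right (m := 1) (by norm_num)).differentiableAt (by norm_num)
      exact h4.clm_apply (differentiableAt_const _)
    have h5 : HasFDerivAt (dd i G) (fderiv ℝ (dd i G) x) (x + (0 : ℝ) • ee i) := by
      rw [hx0]; exact h3.hasFDerivAt
    exact (h5.comp_hasDerivAt 0 (hderx 0)).deriv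
  rw [← h2]
  exact deriv2_le_zero hfm hfc

theorem lap_le_zero {G : V → ℝ} {x : V} (hG : ContDiffAt ℝ 2 G x) (hm : IsLocalMax G x) :
    lap G x ≤ 0 := by
  have h0 := dd_dd_le_zero hG hm 0
  have h1 := dd_dd_le_zero hG hm 1
  rw [lap]; linarith

/-- a family of polynomials -/
noncomputable def cub (a0 a1 a2 b1 b2 b3 e1 e2 : ℝ) (x : V) : ℝ :=
  a0 + a1 * x 0 + a2 * (x 0) ^ 2 + b1 * x 1 + b2 * (x 1) ^ 2 + b3 * (x 1) ^ 3 +
    e1 * (x 0 * x 1) + e2 * ((x 0) ^ 2 * x 1)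

theorem contDiff_cub (a0 a1 a2 b1 b2 b3 e1 e2 : ℝ) :
    ContDiff ℝ ∞ (cub a0 a1 a2 b1 b2 b3 e1 e2) := by
  have h0 := contDiff_coord 0
  have h1 := contDiff_coord 1
  unfold cub
  fun_prop

theorem hasFDerivAt_cub (a0 a1 a2 b1 b2 b3 e1 e2 : ℝ) (x : V) :
    HasFDerivAt (cub a0 a1 a2 b1 b2 b3 e1 e2)
      ((a1 + 2 * a2 * x 0 + e1 * x 1 + 2 * e2 * (x 0 * x 1)) • (EuclideanSpace.proj 0 : V →L[ℝ] ℝ) +
        (b1 + 2 * b2 * x 1 + 3 * b3 * (x 1) ^ 2 + e1 * x 0 + e2 * (x 0) ^ 2) •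
          (EuclideanSpace.proj 1 : V →L[ℝ] ℝ)) x := by
  have h0 := hasFDerivAt_coord 0 x
  have h1 := hasFDerivAt_coord 1 x
  unfold cub
  have h02 := HasFDerivAt.pow h0 2
  have h12 := HasFDerivAt.pow h1 2
  have h13 := HasFDerivAt.pow h1 3
  have := (((((((h0.const_mul a1).const_add a0).fun_add (h02.const_mul a2)).fun_add
    (h1.const_mul b1)).fun_add (h12.const_mul b2)).fun_add
    (h13.const_mul b3)).fun_add ((h0.fun_mul h1).const_mul e1)).fun_add
    ((h02.fun_mul h1).const_mul e2)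
  refine this.congr_fderiv ?_
  ext v
  simp
  ring

theorem dd0_cub (a0 a1 a2 b1 b2 b3 e1 e2 : ℝ) :
    dd 0 (cub a0 a1 a2 b1 b2 b3 e1 e2) = cub a1 (2 * a2) 0 e1 0 0 (2 * e2) 0 := by
  funext x
  rw [dd, (hasFDerivAt_cub a0 a1 a2 b1 b2 b3 e1 e2 x).fderiv]
  simp [ee, cub]

theorem dd1_cub (a0 a1 a2 b1 b2 b3 e1 e2 : ℝ) :
    dd 1 (cub a0 a1 a2 b1 b2 b3 e1 e2) = cub b1 e1 e2 (2 * b2) (3 * b3) 0 0 0 := by
  funext x
  rw [dd, (hasFDerivAt_cub a0 a1 a2 b1 b2 b3 e1 e2 x).fderiv]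
  simp [ee, cub]
  ring

theorem lap_cub (a0 a1 a2 b1 b2 b3 e1 e2 : ℝ) (x : V) :
    lap (cub a0 a1 a2 b1 b2 b3 e1 e2) x = 2 * a2 + 2 * b2 + (2 * e2 + 6 * b3) * x 1 := by
  rw [lap, dd0_cub, dd0_cub, dd1_cub, dd1_cub, cub, cub]
  ring

theorem lap_sub' {f g : V → ℝ} {x : V} (hf : ContDiffAt ℝ 2 f x) (hg : ContDiffAt ℝ 2 g x) (c : ℝ) :
    lap (fun y => f y - c * g y) x = lap f x - c * lap g x := by
  have key : ∀ i, dd i (dd i (fun y => f y - c * g y)) x = dd i (dd i f) x - c * dd i (dd i g) x := by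
    intro i
    have h1 : dd i (fun y => f y - c * g y) =ᶠ[𝓝 x] fun y => dd i f y - c * dd i g y := by
      filter_upwards [hf.eventually (by simp), hg.eventually (by simp)] with y hy1 hy2
      rw [dd, ((hy1.differentiableAt (by norm_num)).hasFDerivAt.fun_sub
        ((hy2.differentiableAt (by norm_num)).hasFDerivAt.const_mul c)).fderiv]
      simp [dd]
    have hd : ∀ {f : V → ℝ}, ContDiffAt ℝ 2 f x → DifferentiableAt ℝ (dd i f) x := by
      intro f hf
      have h4 : DifferentiableAt ℝ (fderiv ℝ f) x :=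
        (hf.fderiv_right (m := 1) (by norm_num)).differentiableAt (by norm_num)
      exact h4.clm_apply (differentiableAt_const _)
    rw [dd, h1.fderiv_eq, ((hd hf).hasFDerivAt.fun_sub ((hd hg).hasFDerivAt.const_mul c)).fderiv]
    simp [dd]
  rw [lap, key, key, lap, lap]; ring

theorem max_principle {D : Set V} (hDo : IsOpen D) (hDb : Bornology.IsBounded D) {g : V → ℝ}
    (hgc : ContinuousOn g (closure D)) (hg2 : ∀ x ∈ D, ContDiffAt ℝ 2 g x)
    {μ : ℝ} (hlap : ∀ x ∈ D, 0 < g x → -μ * g x ≤ lap g x)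
    (hfr : ∀ x ∈ closure D, x ∉ D → g x ≤ 0) {z0 : V} {A : ℝ}
    (hA : ∀ x ∈ closure D, ‖x - z0‖ ^ 2 < A) (hμ : ∀ x ∈ D, μ * (A - ‖x - z0‖ ^ 2) < 4) :
    ∀ x ∈ closure D, g x ≤ 0 := by
  intro x hx
  have hcpt : IsCompact (closure D) := hDb.isCompact_closure
  set h : V → ℝ := fun y => A - ‖y - z0‖ ^ 2 with hh
  have hhc : Continuous h := by rw [hh]; fun_prop
  have hhpos : ∀ y ∈ closure D, 0 < h y := fun y hy => by
    have := hA y hy; rw [hh]; simp only; linarith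
  obtain ⟨y, hy, hmax⟩ := hcpt.exists_isMaxOn ⟨x, hx⟩
    (hgc.div hhc.continuousOn fun y hy => (hhpos y hy).ne')
  set κ := g y / h y with hκ
  have hall : ∀ z ∈ closure D, g z ≤ κ * h z := by
    intro z hz
    have h1 : g z / h z ≤ κ := hmax hz
    rwa [div_le_iff₀ (hhpos z hz)] at h1
  rcases le_or_gt κ 0 with hκ0 | hκ0
  · have h1 := hall x hx
    have h2 := mul_nonpos_of_nonpos_of_nonneg hκ0 (hhpos x hx).le
    linarith
  · exfalso
    have hgy : g y = κ * h y := by rw [hκ]; field_simp [(hhpos y hy).ne']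
    have hgy0 : 0 < g y := by rw [hgy]; exact mul_pos hκ0 (hhpos y hy)
    have hyD : y ∈ D := by
      by_contra hcon
      have := hfr y hy hcon
      linarith
    have hhcub : h = cub (A - z0 0 ^ 2 - z0 1 ^ 2) (2 * z0 0) (-1) (2 * z0 1) (-1) 0 0 0 := by
      funext z
      rw [hh]; simp only [norm_sq_V, PiLp.sub_apply, cub]; ring
    have hh2 : ContDiffAt ℝ 2 h y := by
      rw [hhcub]; exact ((contDiff_cub _ _ _ _ _ _ _ _).of_le two_le_infty).contDiffAt
    have hlh : lap h y = -4 := by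
      rw [hhcub, lap_cub]; ring
    have hG2 : ContDiffAt ℝ 2 (fun z => g z - κ * h z) y :=
      (hg2 y hyD).sub (contDiffAt_const.mul hh2)
    have hmaxG : IsLocalMax (fun z => g z - κ * h z) y := by
      show ∀ᶠ z in 𝓝 y, g z - κ * h z ≤ g y - κ * h y
      filter_upwards [hDo.mem_nhds hyD] with z hz
      have := hall z (subset_closure hz)
      linarith
    have h1 := lap_le_zero hG2 hmaxG
    rw [lap_sub' (hg2 y hyD) hh2 κ, hlh] at h1
    have h2 := hlap y hyD hgy0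
    have h3 := hμ y hyD
    have h4 : μ * h y < 4 := h3
    rw [hgy] at h2
    nlinarith

theorem max_principle_zero {D : Set V} (hDo : IsOpen D) (hDb : Bornology.IsBounded D) {g : V → ℝ}
    (hgc : ContinuousOn g (closure D)) (hg2 : ∀ x ∈ D, ContDiffAt ℝ 2 g x)
    (hlap : ∀ x ∈ D, 0 < g x → 0 ≤ lap g x)
    (hfr : ∀ x ∈ closure D, x ∉ D → g x ≤ 0) :
    ∀ x ∈ closure D, g x ≤ 0 := by
  obtain ⟨r, hr⟩ := hDb.closure.subset_ball (0 : V)
  refine max_principle hDo hDb hgc hg2 (μ := 0) (fun x hx h => by simpa using hlap x hx h) hfr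
    (z0 := 0) (A := r ^ 2) (fun x hx => ?_) (fun x _ => by norm_num)
  have h1 := hr hx
  rw [mem_ball, dist_eq_norm] at h1
  exact pow_lt_pow_left₀ h1 (norm_nonneg _) (by norm_num)

/-- open box -/
def box (a b c d : ℝ) : Set V := {z | a < z 0 ∧ z 0 < b ∧ c < z 1 ∧ z 1 < d}
/-- closed box -/
def cbox (a b c d : ℝ) : Set V := {z | a ≤ z 0 ∧ z 0 ≤ b ∧ c ≤ z 1 ∧ z 1 ≤ d}

theorem isOpen_box (a b c d : ℝ) : IsOpen (box a b c d) := by
  have h0 := (contDiff_coord 0).continuous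
  have h1 := (contDiff_coord 1).continuous
  exact (isOpen_lt continuous_const h0).inter ((isOpen_lt h0 continuous_const).inter
    ((isOpen_lt continuous_const h1).inter (isOpen_lt h1 continuous_const)))

theorem isClosed_cbox (a b c d : ℝ) : IsClosed (cbox a b c d) := by
  have h0 := (contDiff_coord 0).continuous
  have h1 := (contDiff_coord 1).continuous
  exact (isClosed_le continuous_const h0).inter ((isClosed_le h0 continuous_const).inter
    ((isClosed_le continuous_const h1).inter (isClosed_le h1 continuous_const)))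

theorem closure_box_subset (a b c d : ℝ) : closure (box a b c d) ⊆ cbox a b c d :=
  closure_minimal (fun _ hz => ⟨hz.1.le, hz.2.1.le, hz.2.2.1.le, hz.2.2.2.le⟩)
    (isClosed_cbox a b c d)

theorem isBounded_box (a b c d : ℝ) : Bornology.IsBounded (box a b c d) := by
  rw [isBounded_iff_forall_norm_le]
  refine ⟨|a| + |b| + |c| + |d|, fun z hz => ?_⟩
  have h1 : ‖z‖ ^ 2 ≤ (|a| + |b| + |c| + |d|) ^ 2 := by
    rw [norm_sq_V]
    have h0 : |z 0| ≤ |a| + |b| := by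
      rw [abs_le]
      have := neg_abs_le a
      have := le_abs_self b
      have := abs_nonneg a
      have := abs_nonneg b
      constructor <;> linarith [hz.1, hz.2.1]
    have h1 : |z 1| ≤ |c| + |d| := by
      rw [abs_le]
      have := neg_abs_le c
      have := le_abs_self d
      have := abs_nonneg c
      have := abs_nonneg d
      constructor <;> linarith [hz.2.2.1, hz.2.2.2]
    rw [← sq_abs (z 0), ← sq_abs (z 1)]
    nlinarith [abs_nonneg (z 0), abs_nonneg (z 1), abs_nonneg a, abs_nonneg b, abs_nonneg c,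
      abs_nonneg d]
  exact (sq_le_sq₀ (norm_nonneg _) (by positivity)).1 h1

theorem wall_upper {δ Λ M : ℝ} (hδ : 0 < δ) (hΛ : 0 ≤ Λ) (hΛδ : Λ * δ ^ 2 ≤ 2) (hM : 0 ≤ M)
    {w : V → ℝ} {x0 : ℝ} (hwc : ContinuousOn w (cbox (x0 - δ) (x0 + δ) 0 (2 * δ)))
    (hw2 : ∀ x ∈ box (x0 - δ) (x0 + δ) 0 (2 * δ), ContDiffAt ℝ 2 w x)
    (hH : Helm Λ w (box (x0 - δ) (x0 + δ) 0 (2 * δ)))
    (hwM : ∀ z ∈ cbox (x0 - δ) (x0 + δ) 0 (2 * δ), w z ≤ M)
    (hw0 : ∀ z ∈ cbox (x0 - δ) (x0 + δ) 0 (2 * δ), z 1 = 0 → w z ≤ 0)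
    {z : V} (hz0 : z 0 = x0) (hwz : z ∈ closure (box (x0 - δ) (x0 + δ) 0 (2 * δ))) :
    w z ≤ 8 * M / δ * z 1 := by
  have hδ2 : 0 < δ ^ 2 := by positivity
  set B : V → ℝ := cub (M * (x0 ^ 2 / δ ^ 2)) (-(2 * M * x0 / δ ^ 2)) (M / δ ^ 2)
    (8 * M / δ) (-(2 * M / δ ^ 2)) 0 0 0 with hB
  have hBv : ∀ y : V, B y = M * (((y 0 - x0) / δ) ^ 2 + 2 / δ ^ 2 * (y 1 * (4 * δ - y 1))) := by
    intro y
    rw [hB, cub]
    field_simp
    ring
  have hBc : ContDiff ℝ ∞ B := contDiff_cub _ _ _ _ _ _ _ _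
  have hBl : ∀ y, lap B y = -(2 * M / δ ^ 2) := by
    intro y
    rw [hB, lap_cub]; ring
  have hcb := closure_box_subset (x0 - δ) (x0 + δ) 0 (2 * δ)
  have key := max_principle_zero (isOpen_box (x0 - δ) (x0 + δ) 0 (2 * δ)) (isBounded_box _ _ _ _)
    (g := fun y => w y - 1 * B y)
    ((hwc.mono hcb).sub (continuousOn_const.mul hBc.continuous.continuousOn))
    (fun x hx => (hw2 x hx).sub (contDiffAt_const.mul (hBc.of_le two_le_infty).contDiffAt)) ?_ ?_ z hwz
  · simp only [one_mul] at key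
    have h1 : w z ≤ B z := by linarith
    refine h1.trans ?_
    rw [hBv, hz0]
    have h2 : M * (((x0 - x0) / δ) ^ 2 + 2 / δ ^ 2 * (z 1 * (4 * δ - z 1))) =
        8 * M / δ * z 1 - 2 * M / δ ^ 2 * (z 1) ^ 2 := by
      field_simp
      ring
    rw [h2]
    have : 0 ≤ 2 * M / δ ^ 2 * (z 1) ^ 2 := by positivity
    linarith
  · intro y hy _
    rw [lap_sub' (hw2 y hy) (hBc.of_le two_le_infty).contDiffAt, hBl, hH y hy]
    have h1 : w y ≤ M := hwM y ⟨hy.1.le, hy.2.1.le, hy.2.2.1.le, hy.2.2.2.le⟩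
    have h2 : Λ * w y ≤ Λ * M := mul_le_mul_of_nonneg_left h1 hΛ
    have h3 : Λ * M ≤ 2 * M / δ ^ 2 := by
      rw [le_div_iff₀ hδ2]
      nlinarith
    linarith
  · intro y hy hyn
    have hyc := hcb hy
    obtain ⟨a1, a2, a3, a4⟩ := hyc
    simp only [one_mul]
    have h4 : 0 ≤ y 1 * (4 * δ - y 1) := mul_nonneg a3 (by linarith)
    have hBnn : 0 ≤ B y := by
      rw [hBv]; positivity
    by_cases c3 : y 1 = 0
    · have := hw0 y ⟨a1, a2, a3, a4⟩ c3
      linarith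
    · have hwy := hwM y ⟨a1, a2, a3, a4⟩
      have hMB : M ≤ B y := by
        rw [hBv]
        by_cases c4 : y 1 = 2 * δ
        · rw [c4]
          have : M * (((y 0 - x0) / δ) ^ 2 + 2 / δ ^ 2 * (2 * δ * (4 * δ - 2 * δ))) =
            M * ((y 0 - x0) / δ) ^ 2 + 8 * M := by
            field_simp
            ring
          rw [this]
          nlinarith [mul_nonneg hM (sq_nonneg ((y 0 - x0) / δ))]
        · have h5 : (y 0 - x0) ^ 2 = δ ^ 2 := by
            by_cases c1 : y 0 = x0 - δ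
            · rw [c1]; ring
            · by_cases c2 : y 0 = x0 + δ
              · rw [c2]; ring
              · exact absurd ⟨lt_of_le_of_ne a1 (Ne.symm c1), lt_of_le_of_ne a2 c2,
                  lt_of_le_of_ne a3 (Ne.symm c3), lt_of_le_of_ne a4 c4⟩ hyn
          have h6 : ((y 0 - x0) / δ) ^ 2 = 1 := by
            rw [div_pow, h5, div_self hδ2.ne']
          rw [h6]
          have : 0 ≤ 2 / δ ^ 2 * (y 1 * (4 * δ - y 1)) := by positivity
          nlinarith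
      linarith

theorem wall_lower {δ Λ m : ℝ} (hδ : 0 < δ) (hΛ : 0 ≤ Λ) (hm : 0 ≤ m)
    {v : V → ℝ} (hvc : ContinuousOn v (cbox (-(2 * δ)) (2 * δ) 0 (2 * δ)))
    (hv2 : ∀ x ∈ box (-(2 * δ)) (2 * δ) 0 (2 * δ), ContDiffAt ℝ 2 v x)
    (hH : Helm Λ v (box (-(2 * δ)) (2 * δ) 0 (2 * δ)))
    (hv0 : ∀ z ∈ cbox (-(2 * δ)) (2 * δ) 0 (2 * δ), 0 ≤ v z)
    (hvm : ∀ z ∈ cbox (-(2 * δ)) (2 * δ) 0 (2 * δ), z 1 = 2 * δ → m ≤ v z)
    {z : V} (hz0 : |z 0| ≤ δ) (hz1 : 0 ≤ z 1)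
    (hvz : z ∈ closure (box (-(2 * δ)) (2 * δ) 0 (2 * δ))) :
    5 * m / (24 * δ) * z 1 ≤ v z := by
  have hδ2 : 0 < δ ^ 2 := by positivity
  set s : V → ℝ := cub 0 0 0 (m / (3 * δ)) 0 (m / (24 * δ ^ 3)) 0 (-(m / (8 * δ ^ 3))) with hs
  have hsv : ∀ y : V, s y = m / (2 * δ) * y 1 *
      (2 / 3 - (y 0) ^ 2 / (4 * δ ^ 2) + (y 1) ^ 2 / (12 * δ ^ 2)) := by
    intro y
    rw [hs, cub]
    field_simp
    ring
  have hsc : ContDiff ℝ ∞ s := contDiff_cub _ _ _ _ _ _ _ _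
  have hsl : ∀ y, lap s y = 0 := by
    intro y
    rw [hs, lap_cub]; field_simp; ring
  have hcb := closure_box_subset (-(2 * δ)) (2 * δ) 0 (2 * δ)
  have key := max_principle_zero (isOpen_box (-(2 * δ)) (2 * δ) 0 (2 * δ)) (isBounded_box _ _ _ _)
    (g := fun y => s y - 1 * v y)
    (hsc.continuous.continuousOn.sub (continuousOn_const.mul (hvc.mono hcb)))
    (fun x hx => (hsc.of_le two_le_infty).contDiffAt.sub (contDiffAt_const.mul (hv2 x hx))) ?_ ?_ z hvz
  · simp only [one_mul] at key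
    have h1 : s z ≤ v z := by linarith
    refine le_trans ?_ h1
    rw [hsv]
    have h2 : (z 0) ^ 2 ≤ δ ^ 2 := by
      rw [← sq_abs (z 0)]; exact pow_le_pow_left₀ (abs_nonneg _) hz0 2
    have h3 : (z 0) ^ 2 / (4 * δ ^ 2) ≤ 1 / 4 := by
      rw [div_le_iff₀ (by positivity)]; linarith
    have h4 : 0 ≤ (z 1) ^ 2 / (12 * δ ^ 2) := by positivity
    have h5 : 5 * m / (24 * δ) * z 1 = m / (2 * δ) * z 1 * (5 / 12) := by
      field_simp; ring
    rw [h5]
    exact mul_le_mul_of_nonneg_left (by linarith) (by positivity)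
  · intro y hy _
    rw [lap_sub' (hsc.of_le two_le_infty).contDiffAt (hv2 y hy), hsl, hH y hy]
    have h1 : 0 ≤ v y := hv0 y ⟨hy.1.le, hy.2.1.le, hy.2.2.1.le, hy.2.2.2.le⟩
    have := mul_nonneg hΛ h1
    linarith
  · intro y hy hyn
    have hyc := hcb hy
    obtain ⟨a1, a2, a3, a4⟩ := hyc
    simp only [one_mul]
    have hvy := hv0 y ⟨a1, a2, a3, a4⟩
    by_cases c4 : y 1 = 2 * δ
    · have h1 := hvm y ⟨a1, a2, a3, a4⟩ c4
      have h2 : s y ≤ m := by
        rw [hsv, c4]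
        have : m / (2 * δ) * (2 * δ) * (2 / 3 - (y 0) ^ 2 / (4 * δ ^ 2) +
            (2 * δ) ^ 2 / (12 * δ ^ 2)) = m - m * ((y 0) ^ 2 / (4 * δ ^ 2)) := by
          field_simp
          ring
        rw [this]
        have : 0 ≤ m * ((y 0) ^ 2 / (4 * δ ^ 2)) := by positivity
        linarith
      linarith
    · by_cases c3 : y 1 = 0
      · have h2 : s y = 0 := by rw [hsv, c3]; ring
        linarith
      · have h5 : (y 0) ^ 2 = (2 * δ) ^ 2 := by
          by_cases c1 : y 0 = -(2 * δ)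
          · rw [c1]; ring
          · by_cases c2 : y 0 = 2 * δ
            · rw [c2]
            · exact absurd ⟨lt_of_le_of_ne a1 (Ne.symm c1), lt_of_le_of_ne a2 c2,
                lt_of_le_of_ne a3 (Ne.symm c3), lt_of_le_of_ne a4 c4⟩ hyn
        have h2 : s y ≤ 0 := by
          rw [hsv, h5]
          have h6 : (2 * δ) ^ 2 / (4 * δ ^ 2) = 1 := by field_simp; ring
          have h7 : (y 1) ^ 2 / (12 * δ ^ 2) ≤ 1 / 3 := by
            rw [div_le_iff₀ (by positivity)]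
            nlinarith
          rw [h6]
          exact mul_nonpos_of_nonneg_of_nonpos (by positivity) (by linarith)
        linarith

end Pool.Agent.Helper546
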