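import Pool.Agent.Helper546.Boundary
import Pool.Agent.Helper546.MaxPrinciple
set_option autoImplicit false
open MeasureTheory Metric Set Filter Topology
open scoped ContDiff InnerProductSpace

namespace Pool.Agent.Helper546

/-- continuous function equal to the integer part on the first half of each unit interval -/
noncomputable def GF (t : ℝ) : ℝ := t - min (Int.fract t) (1 - Int.fract t)

theorem continuous_GF : Continuous GF := by
  have h : Continuous ((fun s : ℝ => min s (1 - s)) ∘ Int.fract) :=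
    ContinuousOn.comp_fract'' (by fun_prop) (by simp)
  exact continuous_id.sub h

theorem GF_eq {t : ℝ} {k : ℕ} (h1 : (k : ℝ) ≤ t) (h2 : t ≤ k + 1 / 2) : GF t = k := by
  have hfl : ⌊t⌋ = (k : ℤ) := by
    rw [Int.floor_eq_iff]; push_cast; constructor <;> linarith
  have hf : Int.fract t = t - k := by
    rw [Int.fract, hfl]; simp
  rw [GF, hf, min_eq_left (by linarith)]; ring

/-- twisting angle -/
noncomputable def ang (r : ℝ) : ℝ := Real.pi / 2 * GF (1 / (1 - r))

theorem continuousOn_ang : ContinuousOn ang (Iio 1) := by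
  unfold ang
  refine continuousOn_const.mul (continuous_GF.comp_continuousOn ?_)
  refine continuousOn_const.div (by fun_prop) fun x hx => ?_
  have : x < 1 := hx
  linarith

/-- straightening map -/
noncomputable def psi (x : V) : ℂ := cV.symm x * (Circle.exp (-(ang ‖x‖)) : ℂ)

/-- inverse of the straightening map -/
noncomputable def phi (z : ℂ) : V := cV (z * (Circle.exp (ang ‖z‖) : ℂ))

theorem norm_psi (x : V) : ‖psi x‖ = ‖x‖ := by
  rw [psi, norm_mul, Circle.norm_coe, mul_one, LinearIsometryEquiv.norm_map]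

theorem norm_phi (z : ℂ) : ‖phi z‖ = ‖z‖ := by
  rw [phi, LinearIsometryEquiv.norm_map, norm_mul, Circle.norm_coe, mul_one]

theorem psi_phi (z : ℂ) : psi (phi z) = z := by
  rw [psi, norm_phi, phi, LinearIsometryEquiv.symm_apply_apply, mul_assoc, ← Circle.coe_mul,
    ← Circle.exp_add]
  simp

theorem phi_psi (x : V) : phi (psi x) = x := by
  rw [phi, norm_psi, psi, mul_assoc, ← Circle.coe_mul, ← Circle.exp_add]
  simp

theorem continuousOn_psi : ContinuousOn psi (ball 0 1) := by
  unfold psi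
  have h1 : ContinuousOn (fun x : V => ang ‖x‖) (ball 0 1) := by
    refine continuousOn_ang.comp continuous_norm.continuousOn fun x hx => ?_
    simpa using hx
  have h2 : Continuous fun t : ℝ => ((Circle.exp (-t) : Circle) : ℂ) := by fun_prop
  exact cV.symm.continuous.continuousOn.mul (h2.comp_continuousOn h1)

theorem continuousOn_phi : ContinuousOn phi (ball 0 1) := by
  unfold phi
  have h1 : ContinuousOn (fun x : ℂ => ang ‖x‖) (ball 0 1) := by
    refine continuousOn_ang.comp continuous_norm.continuousOn fun x hx => ?_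
    simpa using hx
  have h2 : Continuous fun t : ℝ => ((Circle.exp t : Circle) : ℂ) := by fun_prop
  exact cV.continuous.comp_continuousOn (continuousOn_id.mul (h2.comp_continuousOn h1))

/-- straight cross domain -/
def Dom0 : Set ℂ := {z | ‖z‖ < 1 ∧ (|z.re| < 1 / 4 ∨ |z.im| < 1 / 4)}

/-- the twisted cross domain -/
def Dom : Set V := {x | ‖x‖ < 1 ∧ (|(psi x).re| < 1 / 4 ∨ |(psi x).im| < 1 / 4)}

theorem mem_Dom_iff (x : V) : x ∈ Dom ↔ psi x ∈ Dom0 := by
  rw [Dom, Dom0, mem_ofPred_eq, mem_ofPred_eq, norm_psi]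

theorem isOpen_Dom0 : IsOpen Dom0 := by
  refine (isOpen_lt continuous_norm continuous_const).inter (IsOpen.union ?_ ?_)
  · exact isOpen_lt (Complex.continuous_re.abs) continuous_const
  · exact isOpen_lt (Complex.continuous_im.abs) continuous_const

theorem isOpen_Dom : IsOpen Dom := by
  have h := continuousOn_psi.isOpen_inter_preimage isOpen_ball isOpen_Dom0
  have : Dom = ball 0 1 ∩ psi ⁻¹' Dom0 := by
    ext x
    rw [mem_inter_iff, mem_preimage, ← mem_Dom_iff, mem_ball_zero_iff]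
    exact ⟨fun h => ⟨h.1, h⟩, fun h => h.2⟩
  rw [this]; exact h

theorem Dom_subset_ball : Dom ⊆ ball 0 1 := fun x hx => by
  rw [mem_ball_zero_iff]; exact hx.1

theorem zero_mem_Dom : (0 : V) ∈ Dom := by
  rw [mem_Dom_iff, Dom0, mem_ofPred_eq, norm_psi]
  simp [psi]

theorem Dom_compl_nonempty : Domᶜ.Nonempty := by
  refine ⟨cV 1, fun h => ?_⟩
  have h1 := h.1
  rw [LinearIsometryEquiv.norm_map] at h1
  simp at h1

theorem starConvex_Dom0 : StarConvex ℝ (0 : ℂ) Dom0 := by
  intro z hz a b ha hb hab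
  rw [smul_zero, zero_add]
  have hb1 : b ≤ 1 := by linarith
  refine ⟨?_, ?_⟩
  · rw [norm_smul, Real.norm_eq_abs, abs_of_nonneg hb]
    calc b * ‖z‖ ≤ 1 * ‖z‖ := mul_le_mul_of_nonneg_right hb1 (norm_nonneg _)
      _ < 1 := by rw [one_mul]; exact hz.1
  · rcases hz.2 with h | h
    · left
      rw [Complex.real_smul, Complex.re_ofReal_mul, abs_mul, abs_of_nonneg hb]
      calc b * |z.re| ≤ 1 * |z.re| := mul_le_mul_of_nonneg_right hb1 (abs_nonneg _)
        _ < 1 / 4 := by rw [one_mul]; exact h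
    · right
      rw [Complex.real_smul, Complex.im_ofReal_mul, abs_mul, abs_of_nonneg hb]
      calc b * |z.im| ≤ 1 * |z.im| := mul_le_mul_of_nonneg_right hb1 (abs_nonneg _)
        _ < 1 / 4 := by rw [one_mul]; exact h

theorem phi_mem_Dom {z : ℂ} (hz : z ∈ Dom0) : phi z ∈ Dom := by
  rw [mem_Dom_iff, psi_phi]; exact hz

/-- homeomorphism with the straight domain -/
noncomputable def homeoDom : Dom ≃ₜ Dom0 where
  toFun x := ⟨psi x, (mem_Dom_iff _).1 x.2⟩
  invFun z := ⟨phi z, phi_mem_Dom z.2⟩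
  left_inv x := Subtype.ext (phi_psi _)
  right_inv z := Subtype.ext (psi_phi _)
  continuous_toFun := by
    refine Continuous.subtype_mk ?_ _
    exact (continuousOn_psi.mono Dom_subset_ball).domRestrict
  continuous_invFun := by
    refine Continuous.subtype_mk ?_ _
    refine (continuousOn_phi.mono (s := ball 0 1) (t := Dom0) fun z hz => ?_).domRestrict
    rw [mem_ball_zero_iff]; exact hz.1

theorem simplyConnected_Dom : SimplyConnectedSpace Dom := by
  have : ContractibleSpace Dom0 := starConvex_Dom0.contractibleSpace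
    ⟨0, by rw [Dom0, mem_ofPred_eq]; simp⟩
  have : ContractibleSpace Dom := homeoDom.contractibleSpace
  infer_instance

theorem not_mem_Dom_iff {x : V} (hx : ‖x‖ < 1) :
    x ∉ Dom ↔ 1 / 4 ≤ |(psi x).re| ∧ 1 / 4 ≤ |(psi x).im| := by
  rw [Dom, mem_ofPred_eq, not_and, not_or, not_lt, not_lt]
  exact ⟨fun h => h hx, fun h _ => h⟩

theorem circ_Dom : Circ Dom := by
  intro p hp r hr
  have hp0 : p ≠ 0 := fun h => hp (h ▸ zero_mem_Dom)
  have hpn : 0 < ‖p‖ := norm_pos_iff.2 hp0
  rcases le_or_gt 1 (‖p‖ + r) with h | h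
  · refine ⟨p + (r / ‖p‖) • p, ?_, ?_⟩
    · intro hcon
      have h1 := hcon.1
      have h2 : p + (r / ‖p‖) • p = (1 + r / ‖p‖) • p := by rw [add_smul, one_smul]
      rw [h2, norm_smul, Real.norm_eq_abs, abs_of_pos (by positivity), add_mul, one_mul,
        div_mul_cancel₀ _ hpn.ne'] at h1
      linarith
    · rw [dist_eq_norm, add_sub_cancel_left, norm_smul, Real.norm_eq_abs,
        abs_of_pos (by positivity), div_mul_cancel₀ _ hpn.ne']
  · have hp1 : ‖p‖ < 1 := by linarith
    obtain ⟨h1, h2⟩ := (not_mem_Dom_iff hp1).1 hp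
    set w := psi p with hw
    have hwn : ‖w‖ = ‖p‖ := norm_psi p
    -- parameter interval
    set T := (‖p‖ + r) / ‖p‖ with hT
    have hT1 : 1 ≤ T := by rw [hT, le_div_iff₀ hpn]; linarith
    have hTp : T * ‖p‖ = ‖p‖ + r := by rw [hT, div_mul_cancel₀ _ hpn.ne']
    set γ : ℝ → V := fun t => phi ((t : ℂ) * w) with hγ
    have hnorm : ∀ t : ℝ, 0 ≤ t → ‖(t : ℂ) * w‖ = t * ‖p‖ := fun t ht => by
      rw [norm_mul, Complex.norm_real, Real.norm_eq_abs, abs_of_nonneg ht, hwn]
    have hlt : ∀ t ∈ Icc 1 T, t * ‖p‖ < 1 := fun t ht => by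
      have := mul_le_mul_of_nonneg_right ht.2 hpn.le
      linarith
    have hγc : ContinuousOn γ (Icc 1 T) := by
      refine continuousOn_phi.comp (by fun_prop) fun t ht => ?_
      rw [mem_ball_zero_iff, hnorm t (by linarith [ht.1])]
      exact hlt t ht
    have hdc : ContinuousOn (fun t => dist (γ t) p) (Icc 1 T) :=
      (continuous_id.dist continuous_const).comp_continuousOn hγc
    have hivt := intermediate_value_Icc hT1 hdc
    have hγ1 : dist (γ 1) p = 0 := by
      rw [hγ]; simp only [Complex.ofReal_one, one_mul]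
      rw [hw, phi_psi, dist_self]
    have hγT : r ≤ dist (γ T) p := by
      have h3 : ‖γ T‖ = ‖p‖ + r := by
        rw [hγ]; simp only
        rw [norm_phi, hnorm T (by linarith), hTp]
      have h4 := norm_sub_norm_le (γ T) p
      rw [dist_eq_norm]
      linarith
    obtain ⟨t, ht, htr⟩ := hivt (show r ∈ Icc _ _ from ⟨by simp only [hγ1]; exact hr.le, hγT⟩)
    refine ⟨γ t, ?_, htr⟩
    have ht0 : 0 ≤ t := by linarith [ht.1]
    rw [not_mem_Dom_iff (by rw [hγ]; simp only; rw [norm_phi, hnorm t ht0]; exact hlt t ht), hγ]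
    simp only
    rw [psi_phi, Complex.re_ofReal_mul, Complex.im_ofReal_mul, abs_mul, abs_mul,
      abs_of_nonneg ht0]
    constructor
    · calc 1 / 4 ≤ 1 * |w.re| := by rw [one_mul]; exact h1
        _ ≤ t * |w.re| := mul_le_mul_of_nonneg_right ht.1 (abs_nonneg _)
    · calc 1 / 4 ≤ 1 * |w.im| := by rw [one_mul]; exact h2
        _ ≤ t * |w.im| := mul_le_mul_of_nonneg_right ht.1 (abs_nonneg _)

/-- rotations of the plane -/
noncomputable def rotV (ζ : Circle) : V ≃ₗᵢ[ℝ] V := cV.symm.trans ((rotation ζ).trans cV)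

theorem rotV_apply (ζ : Circle) (x : V) : rotV ζ x = cV ((ζ : ℂ) * cV.symm x) := by
  simp [rotV, rotation_apply]

theorem psi_rotV (ζ : Circle) (x : V) : psi (rotV ζ x) = ζ * psi x := by
  rw [psi, LinearIsometryEquiv.norm_map, rotV_apply, LinearIsometryEquiv.symm_apply_apply, psi]
  ring

/-- rotation by a right angle -/
noncomputable def RR : V ≃ₗᵢ[ℝ] V := rotV (Circle.exp (Real.pi / 2))

theorem coe_exp_half : ((Circle.exp (Real.pi / 2) : Circle) : ℂ) = Complex.I := by
  rw [Circle.coe_exp]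
  push_cast
  exact Complex.exp_pi_div_two_mul_I

theorem psi_RR (x : V) : psi (RR x) = Complex.I * psi x := by
  rw [RR, psi_rotV, coe_exp_half]

theorem RR_apply (x : V) : RR x = cV (Complex.I * cV.symm x) := by
  rw [RR, rotV_apply, coe_exp_half]

theorem RR_mem_Dom (x : V) : RR x ∈ Dom ↔ x ∈ Dom := by
  rw [Dom, mem_ofPred_eq, mem_ofPred_eq, psi_RR, LinearIsometryEquiv.norm_map]
  simp only [Complex.mul_re, Complex.mul_im, Complex.I_re, Complex.I_im]
  simp only [zero_mul, one_mul, zero_sub, abs_neg, zero_add]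
  rw [or_comm]

theorem RR_RR (x : V) : RR (RR x) = -x := by
  rw [RR_apply, RR_apply, LinearIsometryEquiv.symm_apply_apply, ← mul_assoc, Complex.I_mul_I]
  simp

theorem RR_ne {x : V} (hx : x ≠ 0) : RR x ≠ x := by
  intro h
  have h1 := RR_RR x
  rw [h, h] at h1
  have h2 : (2 : ℝ) • x = 0 := by
    rw [two_smul]; nth_rewrite 1 [h1]; simp
  exact hx ((smul_eq_zero.1 h2).resolve_left (by norm_num))

/-- the blocks -/
noncomputable def aa (k : ℕ) : ℝ := 1 - 1 / (k : ℝ)
noncomputable def bb (k : ℕ) : ℝ := 1 - 1 / ((k : ℝ) + 1 / 2)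
noncomputable def rr (k : ℕ) : ℝ := 1 - 1 / ((k : ℝ) + 1 / 4)

/-- rotation by k right angles -/
noncomputable def rk (k : ℕ) : V ≃ₗᵢ[ℝ] V := rotV (Circle.exp (Real.pi / 2 * k))

theorem ang_block {k : ℕ} (hk : 1 ≤ k) {r : ℝ} (h1 : aa k ≤ r) (h2 : r ≤ bb k) :
    ang r = Real.pi / 2 * k := by
  have hk0 : (1 : ℝ) ≤ k := by exact_mod_cast hk
  have hr1 : 0 < 1 - r := by
    rw [bb] at h2
    have : 0 < 1 / ((k : ℝ) + 1 / 2) := by positivity
    linarith
  rw [ang, GF_eq (k := k)]
  · rw [le_div_iff₀ hr1]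
    rw [aa] at h1
    have h3 : 1 - r ≤ 1 / k := by linarith
    calc (k : ℝ) * (1 - r) ≤ k * (1 / k) := mul_le_mul_of_nonneg_left h3 (by positivity)
      _ = 1 := by field_simp
  · rw [div_le_iff₀ hr1]
    rw [bb] at h2
    have h3 : 1 / ((k : ℝ) + 1 / 2) ≤ 1 - r := by linarith
    calc (1 : ℝ) = ((k : ℝ) + 1 / 2) * (1 / ((k : ℝ) + 1 / 2)) := by field_simp
      _ ≤ ((k : ℝ) + 1 / 2) * (1 - r) := mul_le_mul_of_nonneg_left h3 (by positivity)

theorem psi_rk {k : ℕ} (hk : 1 ≤ k) {y : V} (h1 : aa k ≤ ‖y‖) (h2 : ‖y‖ ≤ bb k) :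
    psi (rk k y) = cV.symm y := by
  rw [rk, psi_rotV, psi, ang_block hk h1 h2, mul_comm, mul_assoc, ← Circle.coe_mul,
    ← Circle.exp_add]
  simp

end Pool.Agent.Helper546
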