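import Pool.Agent.Helper546.Sobolev
set_option autoImplicit false
open MeasureTheory Metric Set Filter Topology
open scoped ContDiff InnerProductSpace Convolution

namespace Pool.Agent.Helper546

/-- admissible levels for the second eigenvalue -/
def SS (Ω : Set V) : Set ℝ :=
  {m : ℝ | ∃ φ₁ φ₂ : EuclideanSpace ℝ (Fin 2) → ℝ,
              ContDiff ℝ ((⊤ : ℕ∞) : WithTop ℕ∞) φ₁ ∧ HasCompactSupport φ₁ ∧ tsupport φ₁ ⊆ Ω ∧
              ContDiff ℝ ((⊤ : ℕ∞) : WithTop ℕ∞) φ₂ ∧ HasCompactSupport φ₂ ∧ tsupport φ₂ ⊆ Ω ∧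
              LinearIndependent ℝ ![φ₁, φ₂] ∧
              ∀ a b : ℝ,
                ∫ y, ‖fderiv ℝ (fun z => a * φ₁ z + b * φ₂ z) y‖ ^ 2 ≤
                  m * ∫ y, (a * φ₁ y + b * φ₂ y) ^ 2}

theorem Gr.comb {Ω : Set V} {φ ψ : V → ℝ} {x y : WW} (hφ : Tst Ω φ) (hψ : Tst Ω ψ)
    (hx : Gr φ x) (hy : Gr ψ y) (a b : ℝ) :
    Tst Ω (fun z => a * φ z + b * ψ z) ∧ Gr (fun z => a * φ z + b * ψ z) (a • x + b • y) :=
  ⟨(hφ.smul a).add (hψ.smul b),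
    (hx.smul hφ a).add (hφ.smul a) (hψ.smul b) (hy.smul hψ b)⟩

theorem io_ne_zero {Ω : Set V} {φ : V → ℝ} {x : WW} (hφ : Tst Ω φ) (hx : Gr φ x)
    (h : φ ≠ 0) : io x ≠ 0 := by
  intro h0
  apply h
  have h1 : (x 0 : L2) = 0 := h0
  have h2 : φ =ᵐ[volume] (0 : V → ℝ) := by
    refine hx.1.symm.trans ?_
    rw [h1]
    exact Lp.coeFn_zero _ _ _
  exact (Continuous.ae_eq_iff_eq volume hφ.1.continuous continuous_const).1 h2

/-- a linearly independent pair of test functions -/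
theorem exists_pair {Ω : Set V} (hΩ : IsOpen Ω) (hne : Ω.Nonempty) :
    ∃ φ ψ : V → ℝ, Tst Ω φ ∧ Tst Ω ψ ∧ LinearIndependent ℝ ![φ, ψ] := by
  obtain ⟨z, hz⟩ := hne
  obtain ⟨r, hr, hrs⟩ := Metric.isOpen_iff.1 hΩ z hz
  let f : ContDiffBump z := ⟨r / 4, r / 2, by positivity, by linarith⟩
  have hf : Tst Ω f := by
    refine ⟨f.contDiff, f.hasCompactSupport, ?_⟩
    rw [f.tsupport_eq]
    exact (closedBall_subset_ball (by show r / 2 < r; linarith)).trans hrs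
  have hc : ContDiff ℝ ∞ (fun x : V => x 0 - z 0) := (contDiff_coord 0).sub contDiff_const
  have hg : Tst Ω (fun x => (x 0 - z 0) * f x) := by
    refine ⟨hc.mul f.contDiff, f.hasCompactSupport.mul_left, ?_⟩
    exact (tsupport_mul_subset_right (f := fun x : V => x 0 - z 0) (g := f)).trans hf.2.2
  refine ⟨f, fun x => (x 0 - z 0) * f x, hf, hg, ?_⟩
  rw [LinearIndependent.pair_iff]
  intro a b hab
  have h1 := congrFun hab z
  have hfz : f z = 1 := f.one_of_mem_closedBall (mem_closedBall_self f.rIn_pos.le)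
  simp [hfz] at h1
  refine ⟨h1, ?_⟩
  have h2 := congrFun hab (z + (r / 4) • ee 0)
  have hfz2 : f (z + (r / 4) • ee 0) = 1 := by
    apply f.one_of_mem_closedBall
    show z + (r / 4) • ee 0 ∈ closedBall z (r / 4)
    rw [mem_closedBall, dist_eq_norm, add_sub_cancel_left, norm_smul]
    simp [ee, abs_of_pos hr]
  simp [h1, ee] at h2
  rcases h2 with h2 | h2 | h2
  · exact h2
  · linarith
  · simp only [ee] at hfz2
    rw [hfz2] at h2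
    norm_num at h2

/-- a nonzero combination orthogonal to a given vector -/
theorem exists_orth {Ω : Set V} {φ ψ : V → ℝ} (hφ : Tst Ω φ) (hψ : Tst Ω ψ)
    (hli : LinearIndependent ℝ ![φ, ψ]) (x1 : WW) :
    ∃ a b : ℝ, ∃ y : WW, Tst Ω (fun z => a * φ z + b * ψ z) ∧
      Gr (fun z => a * φ z + b * ψ z) y ∧ ⟪x1, y⟫_ℝ = 0 ∧ io y ≠ 0 := by
  obtain ⟨y1, hy1⟩ := exists_Gr hφ
  obtain ⟨y2, hy2⟩ := exists_Gr hψ
  have key : ∀ a b : ℝ, (a ≠ 0 ∨ b ≠ 0) → ⟪x1, a • y1 + b • y2⟫_ℝ = 0 →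
      ∃ a b : ℝ, ∃ y : WW, Tst Ω (fun z => a * φ z + b * ψ z) ∧
      Gr (fun z => a * φ z + b * ψ z) y ∧ ⟪x1, y⟫_ℝ = 0 ∧ io y ≠ 0 := by
    intro a b hab h0
    have hc := Gr.comb hφ hψ hy1 hy2 a b
    refine ⟨a, b, a • y1 + b • y2, hc.1, hc.2, h0, io_ne_zero hc.1 hc.2 ?_⟩
    intro h
    have := (LinearIndependent.pair_iff.1 hli) a b h
    rcases hab with h1 | h1
    · exact h1 this.1
    · exact h1 this.2
  by_cases h2 : ⟪x1, y2⟫_ℝ = 0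
  · exact key 0 1 (Or.inr one_ne_zero) (by simp [h2])
  · refine key ⟪x1, y2⟫_ℝ (-⟪x1, y1⟫_ℝ) (Or.inl h2) ?_
    rw [inner_add_right, real_inner_smul_right, real_inner_smul_right]
    ring

theorem norm_sq_split (x : WW) : ‖x‖ ^ 2 = ‖io x‖ ^ 2 + DD x := by
  rw [norm_sq_WW, DD, io_apply]; ring

/-- the two-dimensional spectral problem -/
theorem spectral {Ω : Set V} (hΩo : IsOpen Ω) (hne : Ω.Nonempty) (hΩ : Ω ⊆ ball 0 1) :
    ∃ x1 ∈ HH Ω, ∃ x2 ∈ HH Ω, ∃ τ1 τ2 : ℝ, ‖x1‖ = 1 ∧ ‖x2‖ = 1 ∧ ⟪x1, x2⟫_ℝ = 0 ∧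
      0 < τ2 ∧ τ2 ≤ τ1 ∧ τ2 ≤ 1 ∧ (∀ y ∈ HH Ω, ⟪io x1, io y⟫_ℝ = τ1 * ⟪x1, y⟫_ℝ) ∧
      (∀ y ∈ HH Ω, ⟪io x2, io y⟫_ℝ = τ2 * ⟪x2, y⟫_ℝ) ∧
      (∀ y ∈ HH Ω, ⟪x1, y⟫_ℝ = 0 → ‖io y‖ ^ 2 ≤ τ2 * ‖y‖ ^ 2) := by
  obtain ⟨φ, ψ, hφ, hψ, hli⟩ := exists_pair hΩo hne
  have hsubH : ∀ {y : WW} {f : V → ℝ}, Tst Ω f → Gr f y → y ∈ HH Ω := fun {y f} hf hy =>
    subset_closure (⟨f, hf, hy⟩ : ∃ φ, Tst Ω φ ∧ Gr φ y)
  obtain ⟨a0, b0, y0, hy0t, hy0, _, hy0n⟩ := exists_orth hφ hψ hli 0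
  obtain ⟨x1, hx1, hn1, τ1, hτ1, hle1, heq1⟩ := exists_top io (HH Ω) (isClosed_HH Ω)
    (totallyBounded_HH hΩ) ⟨y0, hsubH hy0t hy0, hy0n⟩
  obtain ⟨a, b, y2, hy2t, hy2, hy2o, hy2n⟩ := exists_orth hφ hψ hli x1
  set K2 : Submodule ℝ WW := HH Ω ⊓ (ℝ ∙ x1)ᗮ with hK2
  have hK2mem : ∀ y, y ∈ K2 ↔ y ∈ HH Ω ∧ ⟪x1, y⟫_ℝ = 0 := by
    intro y
    rw [hK2, Submodule.mem_inf, Submodule.mem_orthogonal_singleton_iff_inner_right]
  have hK2c : IsClosed (K2 : Set WW) := by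
    rw [hK2, Submodule.coe_inf]
    exact (isClosed_HH Ω).inter (Submodule.isClosed_orthogonal _)
  have hK2t : TotallyBounded (io '' ((K2 : Set WW) ∩ closedBall 0 1)) := by
    refine (totallyBounded_HH hΩ).subset (image_mono (inter_subset_inter_left _ ?_))
    intro y hy
    exact ((hK2mem y).1 hy).1
  obtain ⟨x2, hx2, hn2, τ2, hτ2, hle2, heq2⟩ := exists_top io K2 hK2c hK2t
    ⟨y2, (hK2mem y2).2 ⟨hsubH hy2t hy2, hy2o⟩, hy2n⟩
  obtain ⟨hx2H, hx12⟩ := (hK2mem x2).1 hx2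
  have hx2s : ‖io x2‖ ^ 2 = τ2 := by
    have := heq2 x2 hx2
    rw [real_inner_self_eq_norm_sq, real_inner_self_eq_norm_sq, hn2] at this
    linarith
  refine ⟨x1, hx1, x2, hx2H, τ1, τ2, hn1, hn2, hx12, hτ2, ?_, ?_, heq1, ?_, ?_⟩
  · have := hle1 x2 hx2H
    rw [hx2s, hn2] at this
    linarith
  · have := norm_io_le x2
    rw [hn2] at this
    rw [← hx2s]
    nlinarith [norm_nonneg (io x2)]
  · intro y hy
    have hdec : y = ⟪x1, y⟫_ℝ • x1 + (y - ⟪x1, y⟫_ℝ • x1) := by abel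
    have hy' : y - ⟪x1, y⟫_ℝ • x1 ∈ K2 := by
      rw [hK2mem]
      refine ⟨(HH Ω).sub_mem hy ((HH Ω).smul_mem _ hx1), ?_⟩
      rw [inner_sub_right, real_inner_smul_right, real_inner_self_eq_norm_sq, hn1]
      ring
    have h1 := heq2 _ hy'
    have h2 : ⟪io x2, io x1⟫_ℝ = 0 := by
      rw [real_inner_comm, heq1 x2 hx2H, hx12, mul_zero]
    have h3 : ⟪x2, x1⟫_ℝ = 0 := by rw [real_inner_comm]; exact hx12
    rw [map_sub, map_smul, inner_sub_right, inner_sub_right, real_inner_smul_right,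
      real_inner_smul_right, h2, h3] at h1
    simpa using h1
  · intro y hy h0
    exact hle2 y ((hK2mem y).2 ⟨hy, h0⟩)

theorem DD_nonneg (x : WW) : 0 ≤ DD x := by unfold DD; positivity

/-- identification of the second eigenvalue -/
theorem sInf_SS {Ω : Set V} {x1 x2 : WW} (hx1 : x1 ∈ HH Ω) (hx2 : x2 ∈ HH Ω) {τ1 τ2 : ℝ}
    (hn1 : ‖x1‖ = 1) (hn2 : ‖x2‖ = 1) (h12 : ⟪x1, x2⟫_ℝ = 0) (hτ2 : 0 < τ2) (hτ : τ2 ≤ τ1)
    (heq1 : ∀ y ∈ HH Ω, ⟪io x1, io y⟫_ℝ = τ1 * ⟪x1, y⟫_ℝ)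
    (heq2 : ∀ y ∈ HH Ω, ⟪io x2, io y⟫_ℝ = τ2 * ⟪x2, y⟫_ℝ)
    (hle2 : ∀ y ∈ HH Ω, ⟪x1, y⟫_ℝ = 0 → ‖io y‖ ^ 2 ≤ τ2 * ‖y‖ ^ 2) :
    sInf (SS Ω) = 1 / τ2 - 1 := by
  -- lower bound
  have hlow : ∀ m ∈ SS Ω, 1 / τ2 - 1 ≤ m := by
    rintro m ⟨φ, ψ, a1, a2, a3, b1, b2, b3, hli, hm⟩
    obtain ⟨a, b, y, hyt, hy, hyo, hyn⟩ := exists_orth ⟨a1, a2, a3⟩ ⟨b1, b2, b3⟩ hli x1
    have hyH : y ∈ HH Ω := subset_closure (⟨_, hyt, hy⟩ : ∃ φ, Tst Ω φ ∧ Gr φ y)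
    have h1 := hle2 y hyH hyo
    have h2 := hm a b
    rw [← DD_Gr hyt hy] at h2
    have h3 : ‖io y‖ ^ 2 = ∫ x, (a * φ x + b * ψ x) ^ 2 := norm_sq_L2 _ hy.1
    rw [← h3] at h2
    rw [norm_sq_split] at h1
    have h4 : 0 < ‖io y‖ ^ 2 := by
      have := norm_pos_iff.2 hyn
      positivity
    have h5 : ‖io y‖ ^ 2 * 1 ≤ ‖io y‖ ^ 2 * (τ2 * (1 + m)) := by nlinarith
    have h6 : 1 ≤ τ2 * (1 + m) := le_of_mul_le_mul_left h5 h4
    have h7 : 1 / τ2 ≤ 1 + m := by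
      rw [div_le_iff₀ hτ2]; linarith
    linarith
  -- upper bound
  have hup : ∀ ε > 0, 1 / τ2 - 1 + ε ∈ SS Ω := by
    intro ε hε
    -- choice of δ
    obtain ⟨δ, hδ0, hδ1, hδ2⟩ : ∃ δ > 0, 0 < Real.sqrt τ2 - 2 * δ ∧
        (1 + 2 * δ) ^ 2 ≤ (1 / τ2 + ε) * (Real.sqrt τ2 - 2 * δ) ^ 2 := by
      have hst : 0 < Real.sqrt τ2 := Real.sqrt_pos.2 hτ2
      have hsq : Real.sqrt τ2 ^ 2 = τ2 := Real.sq_sqrt hτ2.le
      have c1 : Continuous fun δ : ℝ => Real.sqrt τ2 - 2 * δ := by fun_prop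
      have c2 : Continuous fun δ : ℝ => (1 / τ2 + ε) * (Real.sqrt τ2 - 2 * δ) ^ 2 -
          (1 + 2 * δ) ^ 2 := by fun_prop
      have e1 : ∀ᶠ δ in 𝓝 (0 : ℝ), 0 < Real.sqrt τ2 - 2 * δ :=
        c1.continuousAt.eventually (lt_mem_nhds (by simpa using hst))
      have e2 : ∀ᶠ δ in 𝓝 (0 : ℝ), 0 < (1 / τ2 + ε) * (Real.sqrt τ2 - 2 * δ) ^ 2 -
          (1 + 2 * δ) ^ 2 := by
        refine c2.continuousAt.eventually (lt_mem_nhds ?_)
        simp only [mul_zero, sub_zero, add_zero, hsq]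
        have : (1 / τ2 + ε) * τ2 - 1 ^ 2 = ε * τ2 := by field_simp; ring
        rw [this]; positivity
      have e3 : ∀ᶠ δ in 𝓝[>] (0 : ℝ), 0 < δ := eventually_mem_nhdsWithin
      obtain ⟨δ, h1, h2, h3⟩ :=
        (e3.and ((e1.filter_mono nhdsWithin_le_nhds).and (e2.filter_mono nhdsWithin_le_nhds))).exists
      exact ⟨δ, h1, h2, by linarith⟩
    obtain ⟨g1, ⟨φ, hφ, hg1⟩, hd1⟩ := Metric.mem_closure_iff.1 (show x1 ∈ closure (H0 Ω : Set WW) from hx1) δ hδ0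
    obtain ⟨g2, ⟨ψ, hψ, hg2⟩, hd2⟩ := Metric.mem_closure_iff.1 (show x2 ∈ closure (H0 Ω : Set WW) from hx2) δ hδ0
    rw [dist_comm, dist_eq_norm] at hd1 hd2
    -- main estimate
    have hest : ∀ a b : ℝ, ∃ s : ℝ, 0 ≤ s ∧ s ^ 2 = a ^ 2 + b ^ 2 ∧
        (Real.sqrt τ2 - 2 * δ) * s ≤ ‖io (a • g1 + b • g2)‖ ∧
        ‖a • g1 + b • g2‖ ≤ (1 + 2 * δ) * s := by
      intro a b
      set y := a • g1 + b • g2 with hy
      set y0 := a • x1 + b • x2 with hy0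
      have hy0H : y0 ∈ HH Ω := (HH Ω).add_mem ((HH Ω).smul_mem _ hx1) ((HH Ω).smul_mem _ hx2)
      have h21 : ⟪x2, x1⟫_ℝ = 0 := by rw [real_inner_comm]; exact h12
      have hs : ‖y0‖ ^ 2 = a ^ 2 + b ^ 2 := by
        rw [hy0, norm_add_sq_real, real_inner_smul_left, real_inner_smul_right, h12, norm_smul,
          norm_smul, hn1, hn2, Real.norm_eq_abs, Real.norm_eq_abs]
        simp
      have hio : Real.sqrt τ2 * ‖y0‖ ≤ ‖io y0‖ := by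
        have h1 : ⟪io y0, io y0⟫_ℝ = a ^ 2 * τ1 + b ^ 2 * τ2 := by
          have e1 : io y0 = a • io x1 + b • io x2 := by rw [hy0, map_add, map_smul, map_smul]
          conv_lhs => rw [e1]
          rw [inner_add_left, real_inner_smul_left, real_inner_smul_left, ← map_smul, ← map_smul,
            ← map_add, ← hy0, heq1 _ hy0H, heq2 _ hy0H, hy0, inner_add_right, inner_add_right,
            real_inner_smul_right, real_inner_smul_right, real_inner_smul_right,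
            real_inner_smul_right, h12, h21, real_inner_self_eq_norm_sq,
            real_inner_self_eq_norm_sq, hn1, hn2]
          ring
        rw [real_inner_self_eq_norm_sq] at h1
        refine (sq_le_sq₀ (by positivity) (norm_nonneg _)).1 ?_
        rw [mul_pow, Real.sq_sqrt hτ2.le, hs, h1]
        nlinarith [sq_nonneg a]
      have hdiff : ‖y - y0‖ ≤ 2 * δ * ‖y0‖ := by
        have e1 : y - y0 = a • (g1 - x1) + b • (g2 - x2) := by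
          rw [hy, hy0, smul_sub, smul_sub]; abel
        have ha : |a| ≤ ‖y0‖ := by
          refine (sq_le_sq₀ (abs_nonneg _) (norm_nonneg _)).1 ?_
          rw [hs, sq_abs]; nlinarith [sq_nonneg b]
        have hb : |b| ≤ ‖y0‖ := by
          refine (sq_le_sq₀ (abs_nonneg _) (norm_nonneg _)).1 ?_
          rw [hs, sq_abs]; nlinarith [sq_nonneg a]
        calc ‖y - y0‖ ≤ ‖a • (g1 - x1)‖ + ‖b • (g2 - x2)‖ := by rw [e1]; exact norm_add_le _ _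
          _ = |a| * ‖g1 - x1‖ + |b| * ‖g2 - x2‖ := by
            rw [norm_smul, norm_smul, Real.norm_eq_abs, Real.norm_eq_abs]
          _ ≤ ‖y0‖ * δ + ‖y0‖ * δ := by gcongr
          _ = 2 * δ * ‖y0‖ := by ring
      refine ⟨‖y0‖, norm_nonneg _, hs, ?_, ?_⟩
      · have h1 : ‖io y0‖ ≤ ‖io y‖ + ‖y - y0‖ := by
          have e1 : io y0 = io y - io (y - y0) := by rw [map_sub]; abel
          calc ‖io y0‖ = ‖io y - io (y - y0)‖ := by rw [← e1]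
            _ ≤ ‖io y‖ + ‖io (y - y0)‖ := norm_sub_le _ _
            _ ≤ ‖io y‖ + ‖y - y0‖ := by gcongr; exact norm_io_le _
        nlinarith
      · have h1 : ‖y‖ ≤ ‖y0‖ + ‖y - y0‖ := by
          calc ‖y‖ = ‖y0 + (y - y0)‖ := by rw [add_sub_cancel]
            _ ≤ ‖y0‖ + ‖y - y0‖ := norm_add_le _ _
        linarith
    refine ⟨φ, ψ, hφ.1, hφ.2.1, hφ.2.2, hψ.1, hψ.2.1, hψ.2.2, ?_, ?_⟩
    · rw [LinearIndependent.pair_iff]
      intro a b hab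
      obtain ⟨s, hs0, hs, h1, -⟩ := hest a b
      have hc := Gr.comb hφ hψ hg1 hg2 a b
      have h2 : io (a • g1 + b • g2) = 0 := by
        have h3 : (a • g1 + b • g2) 0 =ᵐ[volume] (0 : V → ℝ) := by
          refine hc.2.1.trans ?_
          have : (fun z => a * φ z + b * ψ z) = 0 := hab
          rw [this]
        exact (Lp.eq_zero_iff_ae_eq_zero).2 h3
      rw [h2, norm_zero] at h1
      have h4 : s = 0 := by
        have := nonpos_of_mul_nonpos_right h1 hδ1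
        linarith
      rw [h4] at hs
      constructor <;> nlinarith [sq_nonneg a, sq_nonneg b]
    · intro a b
      obtain ⟨s, hs0, hs, h1, h2⟩ := hest a b
      have hc := Gr.comb hφ hψ hg1 hg2 a b
      rw [← DD_Gr hc.1 hc.2, ← norm_sq_L2 _ hc.2.1]
      have h3 := norm_sq_split (a • g1 + b • g2)
      rw [io_apply] at h3
      rw [io_apply] at h1
      set P := ‖(a • g1 + b • g2) 0‖ with hP
      set Q := ‖a • g1 + b • g2‖ with hQ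
      have h4 : Q ^ 2 ≤ ((1 + 2 * δ) * s) ^ 2 := by gcongr
      have h5 : ((Real.sqrt τ2 - 2 * δ) * s) ^ 2 ≤ P ^ 2 := by gcongr
      have h6 : Q ^ 2 ≤ (1 / τ2 + ε) * P ^ 2 := by
        calc Q ^ 2 ≤ (1 + 2 * δ) ^ 2 * s ^ 2 := by rw [← mul_pow]; exact h4
          _ ≤ ((1 / τ2 + ε) * (Real.sqrt τ2 - 2 * δ) ^ 2) * s ^ 2 := by gcongr
          _ = (1 / τ2 + ε) * ((Real.sqrt τ2 - 2 * δ) * s) ^ 2 := by ring
          _ ≤ (1 / τ2 + ε) * P ^ 2 := by gcongr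
      have h7 : (1 / τ2 - 1 + ε) * P ^ 2 = (1 / τ2 + ε) * P ^ 2 - P ^ 2 := by ring
      rw [h7]; linarith
  have hbdd : BddBelow (SS Ω) := ⟨_, hlow⟩
  apply le_antisymm
  · refine le_of_forall_pos_le_add fun ε hε => csInf_le hbdd (hup ε hε)
  · exact le_csInf ⟨_, hup 1 one_pos⟩ hlow

/-- weak derivative identity on the Sobolev space -/
theorem weak_deriv {Ω : Set V} {x : WW} (hx : x ∈ HH Ω) {ψ : V → ℝ} (hψ : Tst Set.univ ψ) :
    (∫ t, x 1 t * ψ t = - ∫ t, x 0 t * dd 0 ψ t) ∧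
    (∫ t, x 2 t * ψ t = - ∫ t, x 0 t * dd 1 ψ t) := by
  have h0 : MemLp ψ 2 (volume : Measure V) := hψ.1.continuous.memLp_of_hasCompactSupport hψ.2.1
  have h1 : ∀ i, MemLp (dd i ψ) 2 (volume : Measure V) := fun i =>
    (hψ.dd i).1.continuous.memLp_of_hasCompactSupport (hψ.dd i).2.1
  have key : ∀ (i : Fin 2) (j : Fin 3), (∀ {φ : V → ℝ} {g : WW}, Gr φ g → g j =ᵐ[volume] dd i φ) →
      ⟪x j, h0.toLp ψ⟫_ℝ = -⟪x 0, (h1 i).toLp _⟫_ℝ := by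
    intro i j hj
    have hc : IsClosed {g : WW | ⟪g j, h0.toLp ψ⟫_ℝ = -⟪g 0, (h1 i).toLp _⟫_ℝ} :=
      isClosed_eq (by fun_prop) (by fun_prop)
    have hmem : x ∈ closure (H0 Ω : Set WW) := hx
    refine closure_minimal (s := (H0 Ω : Set WW)) ?_ hc hmem
    rintro g ⟨φ, hφ, hg⟩
    show ⟪g j, h0.toLp ψ⟫_ℝ = -⟪g 0, (h1 i).toLp _⟫_ℝ
    rw [inner_L2 _ _ (hj hg) h0.coeFn_toLp, inner_L2 _ _ hg.1 (h1 i).coeFn_toLp,
      ibp isOpen_univ i hφ.1.contDiffOn hψ, neg_neg]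
  constructor
  · have := key 0 1 (fun hg => hg.2.1)
    rw [inner_L2 _ _ (ae_eq_refl _) h0.coeFn_toLp, inner_L2 _ _ (ae_eq_refl _) (h1 0).coeFn_toLp]
      at this
    exact this
  · have := key 1 2 (fun hg => hg.2.2)
    rw [inner_L2 _ _ (ae_eq_refl _) h0.coeFn_toLp, inner_L2 _ _ (ae_eq_refl _) (h1 1).coeFn_toLp]
      at this
    exact this

end Pool.Agent.Helper546
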