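import Pool.Agent.Helper546.Sol
set_option autoImplicit false
open MeasureTheory Metric Set Filter Topology
open scoped ContDiff InnerProductSpace

namespace Pool.Agent.Helper546

/-- linear combination -/
def Fc (U W : V → ℝ) (c : ℂ) (x : V) : ℝ := c.re * U x + c.im * W x

theorem Bk_nonempty {k : ℕ} (hk : 2 ≤ k) : (Bk k).Nonempty := by
  have h1 := half_le_aa hk
  have h2 := aa_lt_rr (k := k) (by omega)
  have hr : 0 < rr k := by linarith
  have hn : ‖cV (rr k : ℂ)‖ = rr k := by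
    rw [LinearIsometryEquiv.norm_map, Complex.norm_real, Real.norm_eq_abs, abs_of_pos hr]
  refine ⟨rk k (cV (rr k : ℂ)), rk_mem_Bk hk ?_ ?_ ?_ ?_⟩
  · rw [hn]; exact h2
  · rw [hn]; exact rr_lt_bb k
  · rw [cV_zero, Complex.ofReal_re]; exact hr
  · rw [cV_one, Complex.ofReal_im]; norm_num

theorem rk_four {m j : ℕ} (y : V) : rk (4 * m + j) y = rk j y := by
  have h : Circle.exp (Real.pi / 2 * ((4 * m + j : ℕ) : ℝ)) = Circle.exp (Real.pi / 2 * j) := by
    have h1 : Real.pi / 2 * ((4 * m + j : ℕ) : ℝ) = Real.pi / 2 * j + 2 * Real.pi * ((m : ℤ) : ℝ) := by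
      push_cast; ring
    rw [h1, Circle.exp_add, Circle.exp_two_pi_mul_int, mul_one]
  rw [rk, rk, h]

/-- description of the points of a block -/
theorem Bk_coords {k : ℕ} (hk : 1 ≤ k) {x : V} (hx : x ∈ Bk k) :
    ∃ y : V, x = rk k y ∧ 0 < y 0 ∧ |y 1| < 1 / 4 := by
  refine ⟨(rk k).symm x, by simp, ?_⟩
  set y := (rk k).symm x with hy
  have hyx : rk k y = x := by rw [hy]; simp
  have hyn : ‖y‖ = ‖x‖ := by rw [hy]; simp
  have hpsi : psi x = cV.symm y := by
    rw [← hyx]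
    exact psi_rk hk (by rw [hyn]; exact hx.1.le) (by rw [hyn]; exact hx.2.1.le)
  rw [← cVsymm_re, ← cVsymm_im, ← hpsi]
  exact ⟨hx.2.2.1, hx.2.2.2⟩

theorem rk0 (y : V) : rk 0 y = y := by
  rw [rk, rotV_apply]; simp

theorem rk1 (y : V) : rk 1 y 0 = -y 1 ∧ rk 1 y 1 = y 0 := by
  have h : rk 1 y = cV (Complex.I * cV.symm y) := by
    rw [rk, rotV_apply, Nat.cast_one, mul_one, coe_exp_half]
  rw [h, cV_zero, cV_one, Complex.mul_re, Complex.mul_im, cVsymm_re, cVsymm_im]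
  simp

theorem rk2 (y : V) : rk 2 y = -y := by
  have h2 : ((Circle.exp (Real.pi / 2 * ((2 : ℕ) : ℝ)) : Circle) : ℂ) = -1 := by
    rw [Circle.coe_exp]
    have : ((Real.pi / 2 * ((2 : ℕ) : ℝ) : ℝ) : ℂ) = Real.pi := by push_cast; ring
    rw [this, Complex.exp_pi_mul_I]
  rw [rk, rotV_apply, h2]
  simp

theorem tendsto_aa (c d : ℕ) : Tendsto (fun n : ℕ => aa (4 * (n + c) + d)) atTop (𝓝 1) := by
  have h1 : Tendsto (fun n : ℕ => 4 * (n + c) + d) atTop atTop := by
    refine tendsto_atTop_mono (fun n => ?_) tendsto_id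
    show n ≤ 4 * (n + c) + d
    omega
  have h2 : Tendsto (fun k : ℕ => 1 - 1 / (k : ℝ)) atTop (𝓝 (1 - 0)) :=
    tendsto_const_nhds.sub tendsto_one_div_atTop_nhds_zero_nat
  rw [sub_zero] at h2
  exact h2.comp h1

/-- accumulation of zeros in the blocks -/
theorem exists_limit {f : V → ℝ} {K : ℕ} (hK : ∀ k, K ≤ k → ∃ x ∈ Bk k, f x = 0) (j : ℕ)
    {T : Set V} (hT : IsClosed T) (hTj : ∀ y : V, 0 < y 0 → |y 1| < 1 / 4 → rk j y ∈ T) :
    ∃ l : V, l ∈ closure {x | x ∈ Dom ∧ f x = 0} ∩ frontier Dom ∧ ‖l‖ = 1 ∧ l ∈ T := by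
  have hex : ∀ n : ℕ, ∃ x ∈ Bk (4 * (n + (K + 1)) + j), f x = 0 := fun n => hK _ (by omega)
  choose z hz hz0 using hex
  have hzD : ∀ n, z n ∈ Dom := fun n => Bk_subset_Dom _ (hz n)
  have hzc : ∀ n, z n ∈ closedBall (0 : V) 1 := fun n => by
    rw [mem_closedBall_zero_iff]; exact (hzD n).1.le
  obtain ⟨l, hl, φ, hφ, hlim⟩ := (isCompact_closedBall (0 : V) 1).tendsto_subseq hzc
  have hln : ‖l‖ = 1 := by
    refine le_antisymm (by simpa using hl) ?_
    have h1 : Tendsto (fun n => ‖z (φ n)‖) atTop (𝓝 ‖l‖) := hlim.norm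
    have h2 := (tendsto_aa (K + 1) j).comp hφ.tendsto_atTop
    exact le_of_tendsto_of_tendsto' h2 h1 fun n => (hz (φ n)).1.le
  refine ⟨l, ⟨?_, ?_⟩, hln, ?_⟩
  · exact mem_closure_of_tendsto hlim (Eventually.of_forall fun n => ⟨hzD (φ n), hz0 (φ n)⟩)
  · rw [frontier, isOpen_Dom.interior_eq]
    refine ⟨mem_closure_of_tendsto hlim (Eventually.of_forall fun n => hzD (φ n)), fun h => ?_⟩
    have := h.1
    linarith
  · refine hT.mem_of_tendsto hlim (Eventually.of_forall fun n => ?_)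
    show z (φ n) ∈ T
    obtain ⟨y, hy, h0, h1⟩ := Bk_coords (by omega) (hz (φ n))
    rw [hy, rk_four]
    exact hTj y h0 h1

theorem no_two_points {Λ : ℝ} (hΛ : 0 ≤ Λ) {U W : V → ℝ} (hU : Sol Λ U) (hW : Sol Λ W)
    (hall : ∀ c : ℂ, c ≠ 0 → ∃ p q : V,
      closure {x | x ∈ Dom ∧ Fc U W c x = 0} ∩ frontier Dom = {p, q}) : False := by
  have hF : ∀ c, Sol Λ (Fc U W c) := fun c => hU.comb hW c.re c.im
  have c0 := (contDiff_coord 0).continuous
  have c1 := (contDiff_coord 1).continuous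
  -- sparse zeros
  have star : ∀ c : ℂ, c ≠ 0 → ∀ K, ∃ k, K ≤ k ∧ ∀ x ∈ Bk k, Fc U W c x ≠ 0 := by
    intro c hc K
    by_contra hcon
    push Not at hcon
    obtain ⟨p, q, hpq⟩ := hall c hc
    have hT0 : IsClosed {x : V | 0 ≤ x 0 ∧ |x 1| ≤ 1 / 4} :=
      (isClosed_le continuous_const c0).inter (isClosed_le c1.abs continuous_const)
    have hT1 : IsClosed {x : V | |x 0| ≤ 1 / 4} := isClosed_le c0.abs continuous_const
    have hT2 : IsClosed {x : V | x 0 ≤ 0 ∧ |x 1| ≤ 1 / 4} :=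
      (isClosed_le c0 continuous_const).inter (isClosed_le c1.abs continuous_const)
    obtain ⟨l0, hl0, hn0, ht0⟩ := exists_limit hcon 0 hT0 (fun y h0 h1 => by
      rw [rk0]; exact ⟨h0.le, h1.le⟩)
    obtain ⟨l1, hl1, hn1, ht1⟩ := exists_limit hcon 1 hT1 (fun y h0 h1 => by
      show |rk 1 y 0| ≤ 1 / 4
      rw [(rk1 y).1, abs_neg]; exact h1.le)
    obtain ⟨l2, hl2, hn2, ht2⟩ := exists_limit hcon 2 hT2 (fun y h0 h1 => by
      rw [rk2]
      refine ⟨?_, ?_⟩
      · rw [PiLp.neg_apply]; linarith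
      · rw [PiLp.neg_apply, abs_neg]; exact h1.le)
    rw [hpq] at hl0 hl1 hl2
    have e0 := norm_sq_V l0
    have e2 := norm_sq_V l2
    rw [hn0] at e0
    rw [hn2] at e2
    have f0 : l0 1 ^ 2 ≤ 1 / 16 := by rw [← sq_abs]; nlinarith [abs_nonneg (l0 1), ht0.2]
    have f2 : l2 1 ^ 2 ≤ 1 / 16 := by rw [← sq_abs]; nlinarith [abs_nonneg (l2 1), ht2.2]
    have g0 : 1 / 4 < l0 0 := by
      have := ht0.1
      by_contra hcon2
      push Not at hcon2
      nlinarith
    have g2 : l2 0 < -(1 / 4) := by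
      have := ht2.1
      by_contra hcon2
      push Not at hcon2
      nlinarith
    have g1 := abs_le.1 (show |l1 0| ≤ 1 / 4 from ht1)
    have n01 : l0 ≠ l1 := fun h => by rw [h] at g0; linarith
    have n02 : l0 ≠ l2 := fun h => by rw [h] at g0; linarith
    have n12 : l1 ≠ l2 := fun h => by rw [← h] at g2; linarith
    rcases hl0 with h0 | h0 <;> rcases hl1 with h1 | h1 <;> rcases hl2 with h2 | h2
    · exact n01 (h0.trans h1.symm)
    · exact n01 (h0.trans h1.symm)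
    · exact n02 (h0.trans h2.symm)
    · exact n12 (h1.trans h2.symm)
    · exact n12 (h1.trans h2.symm)
    · exact n02 (h0.trans h2.symm)
    · exact n01 (h0.trans h1.symm)
    · exact n01 (h0.trans h1.symm)
  obtain ⟨K1, hK1⟩ := exists_nat_ge Λ
  set K0 := max 2 K1 with hK0
  have hK02 : 2 ≤ K0 := le_max_left _ _
  have hKΛ : ∀ k, K0 ≤ k → Λ ≤ k := fun k hk => hK1.trans (by
    exact_mod_cast (le_max_right 2 K1).trans hk)
  set P : ℂ → Prop := fun c => ∃ k, K0 ≤ k ∧ ∀ x ∈ Dk k, 0 ≤ Fc U W c x with hP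
  -- deep positivity from the cross section
  have deep : ∀ c k, K0 ≤ k → (∀ x ∈ Bk k, ‖x‖ = rr k → 0 ≤ Fc U W c x) → P c := by
    intro c k hk h
    exact ⟨k, hk, deep_nonneg (hK02.trans hk) hΛ (hKΛ k hk) (hF c).cont (hF c).zero (hF c).smooth
      (hF c).helm h⟩
  -- sign in blocks
  have hneg : ∀ c x, Fc U W (-c) x = -Fc U W c x := fun c x => by
    simp only [Fc, Complex.neg_re, Complex.neg_im]; ring
  have cover : ∀ c : ℂ, c ≠ 0 → P c ∨ P (-c) := by
    intro c hc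
    obtain ⟨k, hk, hnz⟩ := star c hc K0
    have hk2 := hK02.trans hk
    obtain ⟨x0, hx0⟩ := Bk_nonempty hk2
    have hsame : ∀ x ∈ Bk k, ∀ y ∈ Bk k, Fc U W c x < 0 → 0 < Fc U W c y → False := by
      intro x hx y hy h1 h2
      have h3 := (isPreconnected_Bk hk2).intermediate_value hx hy (hF c).cont.continuousOn
      obtain ⟨z, hz, hz0⟩ := h3 ⟨h1.le, h2.le⟩
      exact hnz z hz hz0
    rcases lt_or_gt_of_ne (hnz x0 hx0) with h | h
    · right
      refine deep (-c) k hk fun x hx _ => ?_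
      rw [hneg]
      rcases lt_or_gt_of_ne (hnz x hx) with h4 | h4
      · linarith
      · exact (hsame x0 hx0 x hx h h4).elim
    · left
      refine deep c k hk fun x hx _ => ?_
      rcases lt_or_gt_of_ne (hnz x hx) with h4 | h4
      · exact (hsame x hx x0 hx0 h4 h).elim
      · exact h4.le
  have disj : ∀ c : ℂ, c ≠ 0 → P c → P (-c) → False := by
    rintro c hc ⟨k, hk, h1⟩ ⟨j, hj, h2⟩
    obtain ⟨m, hm, hnz⟩ := star c hc (max k j + 1)
    obtain ⟨x, hx⟩ := Bk_nonempty (k := m) (by omega)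
    have hxk : x ∈ Dk k := Bk_subset_Dk (by omega) hx
    have hxj : x ∈ Dk j := Bk_subset_Dk (by omega) hx
    have h3 := h1 x hxk
    have h4 := h2 x hxj
    rw [hneg] at h4
    exact hnz x hx (by linarith)
  have openP : ∀ c : ℂ, c ≠ 0 → P c → ∃ ε, 0 < ε ∧ ∀ c', dist c' c < ε → P c' := by
    rintro c hc ⟨k, hk, h1⟩
    obtain ⟨j, hj, hnz⟩ := star c hc (k + 1)
    have hj2 : 2 ≤ j := by omega
    have hjK : K0 ≤ j := by omega
    have hpos : ∀ x ∈ Bk j, 0 < Fc U W c x := fun x hx =>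
      lt_of_le_of_ne (h1 x (Bk_subset_Dk (by omega) hx)) (hnz x hx).symm
    obtain ⟨C1, hC1, hU1⟩ := compare hj2 hΛ (hF c).cont hU.cont (hF c).zero hU.zero (hF c).smooth
      hU.smooth (hF c).helm hU.helm hpos
    obtain ⟨C2, hC2, hW2⟩ := compare hj2 hΛ (hF c).cont hW.cont (hF c).zero hW.zero (hF c).smooth
      hW.smooth (hF c).helm hW.helm hpos
    refine ⟨1 / (1 + C1 + C2), by positivity, fun c' hc' => deep c' j hjK fun x hx hxr => ?_⟩
    have a1 := hU1 x hx hxr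
    have a2 := hW2 x hx hxr
    have a3 := hpos x hx
    set v := Fc U W c x with hv
    have d1 : |c'.re - c.re| ≤ dist c' c := by
      rw [dist_eq_norm, ← Complex.sub_re]; exact Complex.abs_re_le_norm _
    have d2 : |c'.im - c.im| ≤ dist c' c := by
      rw [dist_eq_norm, ← Complex.sub_im]; exact Complex.abs_im_le_norm _
    have d3 : dist c' c * (1 + C1 + C2) < 1 := by
      rwa [lt_div_iff₀ (by positivity)] at hc'
    have e1 : |(c'.re - c.re) * U x| ≤ dist c' c * (C1 * v) := by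
      rw [abs_mul]; exact mul_le_mul d1 a1 (abs_nonneg _) dist_nonneg
    have e2 : |(c'.im - c.im) * W x| ≤ dist c' c * (C2 * v) := by
      rw [abs_mul]; exact mul_le_mul d2 a2 (abs_nonneg _) dist_nonneg
    have e3 : Fc U W c' x = v + (c'.re - c.re) * U x + (c'.im - c.im) * W x := by
      rw [hv]; simp only [Fc]; ring
    have e4 := (abs_le.1 e1).1
    have e5 := (abs_le.1 e2).1
    rw [e3]
    have e6 : dist c' c * (C1 * v) + dist c' c * (C2 * v) ≤ v := by
      have : dist c' c * (C1 + C2) ≤ 1 := by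
        have := dist_nonneg (x := c') (y := c)
        nlinarith
      nlinarith
    linarith
  -- connectedness
  have hpre : IsPreconnected ({(0 : ℂ)}ᶜ) :=
    (isConnected_compl_singleton_of_one_lt_rank (by rw [Complex.rank_real_complex]; norm_num)
      (0 : ℂ)).isPreconnected
  have ho1 : IsOpen {c : ℂ | c ≠ 0 ∧ P c} := by
    rw [Metric.isOpen_iff]
    rintro c ⟨hc, hPc⟩
    obtain ⟨ε, hε, h⟩ := openP c hc hPc
    refine ⟨min ε ‖c‖, lt_min hε (norm_pos_iff.2 hc), fun c' hc' => ⟨?_, h c' ?_⟩⟩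
    · rintro rfl
      have := lt_of_lt_of_le (mem_ball.1 hc') (min_le_right _ _)
      rw [dist_comm, dist_zero_right] at this
      exact lt_irrefl _ this
    · exact lt_of_lt_of_le (mem_ball.1 hc') (min_le_left _ _)
  have ho2 : IsOpen {c : ℂ | c ≠ 0 ∧ P (-c)} := by
    have : {c : ℂ | c ≠ 0 ∧ P (-c)} = (fun c : ℂ => -c) ⁻¹' {c : ℂ | c ≠ 0 ∧ P c} := by
      ext c
      constructor
      · intro h; exact ⟨neg_ne_zero.2 h.1, h.2⟩
      · intro h; exact ⟨neg_ne_zero.1 h.1, h.2⟩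
    rw [this]
    exact ho1.preimage continuous_neg
  have h10 : (1 : ℂ) ≠ 0 := one_ne_zero
  have h11 : (-1 : ℂ) ≠ 0 := neg_ne_zero.2 one_ne_zero
  have hne1 : ({(0 : ℂ)}ᶜ ∩ {c : ℂ | c ≠ 0 ∧ P c}).Nonempty := by
    rcases cover 1 h10 with h | h
    · exact ⟨1, h10, h10, h⟩
    · exact ⟨-1, h11, h11, h⟩
  have hne2 : ({(0 : ℂ)}ᶜ ∩ {c : ℂ | c ≠ 0 ∧ P (-c)}).Nonempty := by
    rcases cover 1 h10 with h | h
    · exact ⟨-1, h11, h11, by rw [neg_neg]; exact h⟩
    · exact ⟨1, h10, h10, h⟩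
  obtain ⟨c, hc0, ⟨hc, hPc⟩, ⟨_, hPc'⟩⟩ := hpre _ _ ho1 ho2 (fun c hc => by
    have hc' : c ≠ 0 := hc
    rcases cover c hc' with h | h
    · exact Or.inl ⟨hc', h⟩
    · exact Or.inr ⟨hc', h⟩) hne1 hne2
  exact disj c hc hPc hPc'

/-- symmetric case -/
theorem no_sym {U : V → ℝ} (hsym : ∀ x, U (RR x) = 0 ↔ U x = 0) {p q : V}
    (h : closure {x | x ∈ Dom ∧ U x = 0} ∩ frontier Dom = {p, q}) : False := by
  have hN : (RR : V → V) ⁻¹' {x | x ∈ Dom ∧ U x = 0} = {x | x ∈ Dom ∧ U x = 0} := by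
    ext x
    exact and_congr (RR_mem_Dom x) (hsym x)
  have hD : (RR : V → V) ⁻¹' Dom = Dom := by
    ext x; exact RR_mem_Dom x
  have hc : (RR : V → V) ⁻¹' closure {x | x ∈ Dom ∧ U x = 0} =
      closure {x | x ∈ Dom ∧ U x = 0} := by
    have := RR.toHomeomorph.preimage_closure {x | x ∈ Dom ∧ U x = 0}
    rw [show (RR.toHomeomorph : V → V) = RR from rfl, hN] at this
    exact this
  have hf : (RR : V → V) ⁻¹' frontier Dom = frontier Dom := by
    have := RR.toHomeomorph.preimage_frontier Dom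
    rw [show (RR.toHomeomorph : V → V) = RR from rfl, hD] at this
    exact this
  have hinv : ∀ x, x ∈ ({p, q} : Set V) → RR x ∈ ({p, q} : Set V) := by
    intro x hx
    rw [← h] at hx ⊢
    rw [← hc, ← hf] at hx
    exact hx
  have hne : ∀ x, x ∈ ({p, q} : Set V) → x ≠ 0 := by
    rintro x hx rfl
    rw [← h] at hx
    have h1 := hx.2
    rw [frontier, isOpen_Dom.interior_eq] at h1
    exact h1.2 zero_mem_Dom
  have hp : p ∈ ({p, q} : Set V) := Or.inl rfl
  have hq : q ∈ ({p, q} : Set V) := Or.inr rfl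
  have h1 : RR p = q := by
    rcases hinv p hp with h2 | h2
    · exact absurd h2 (RR_ne (hne p hp))
    · exact h2
  have h2 : RR q = p := by
    rcases hinv q hq with h2 | h2
    · exact h2
    · exact absurd h2 (RR_ne (hne q hq))
  have h3 := RR_RR p
  rw [h1, h2] at h3
  have h4 : (2 : ℝ) • p = 0 := by
    rw [two_smul]; nth_rewrite 1 [h3]; simp
  exact hne p hp ((smul_eq_zero.1 h4).resolve_left (by norm_num))

/-- the main statement about the twisted cross domain -/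
theorem main_result : ∃ f : V → ℝ, Sol (sInf (SS Dom)) f ∧ (∃ x ∈ Dom, f x ≠ 0) ∧
    ¬ ∃ p q : V, p ≠ q ∧ closure {x | x ∈ Dom ∧ f x = 0} ∩ frontier Dom = {p, q} := by
  by_contra hcon
  push Not at hcon
  obtain ⟨U, hU, ⟨x0, hx0, hUx0⟩, hΛ⟩ := exists_Sol
  set W : V → ℝ := fun x => U (RR x) with hWd
  have hW : Sol (sInf (SS Dom)) W := hU.rot
  by_cases hdep : ∃ c : ℂ, c ≠ 0 ∧ ∀ x ∈ Dom, Fc U W c x = 0
  · obtain ⟨c, hc, hcz⟩ := hdep
    have hcz' : ∀ x, c.re * U x + c.im * W x = 0 := by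
      intro x
      by_cases hx : x ∈ Dom
      · exact hcz x hx
      · rw [hU.zero x hx, hW.zero x hx]; ring
    have hre : c.re ≠ 0 := by
      intro h
      have him : c.im ≠ 0 := fun h2 => hc (Complex.ext h h2)
      have h3 := hcz' (RR.symm x0)
      rw [h, zero_mul, zero_add, hWd] at h3
      simp only [LinearIsometryEquiv.apply_symm_apply] at h3
      exact hUx0 ((mul_eq_zero.1 h3).resolve_left him)
    have him : c.im ≠ 0 := by
      intro h
      have h3 := hcz' x0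
      rw [h, zero_mul, add_zero] at h3
      exact hUx0 ((mul_eq_zero.1 h3).resolve_left hre)
    have hsym : ∀ x, U (RR x) = 0 ↔ U x = 0 := by
      intro x
      have h3 := hcz' x
      rw [hWd] at h3
      simp only at h3
      constructor
      · intro h4
        rw [h4, mul_zero, add_zero] at h3
        exact (mul_eq_zero.1 h3).resolve_left hre
      · intro h4
        rw [h4, mul_zero, zero_add] at h3
        exact (mul_eq_zero.1 h3).resolve_left him
    obtain ⟨p, q, _, h⟩ := hcon U hU ⟨x0, hx0, hUx0⟩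
    exact no_sym hsym h
  · push Not at hdep
    refine no_two_points hΛ hU hW fun c hc => ?_
    obtain ⟨x, hx, hxn⟩ := hdep c hc
    obtain ⟨p, q, _, h⟩ := hcon (Fc U W c) (hU.comb hW c.re c.im) ⟨x, hx, hxn⟩
    exact ⟨p, q, h⟩

end Pool.Agent.Helper546
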