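import Pool.Agent.Helper546.Final
set_option autoImplicit false
open MeasureTheory Metric Set Filter Topology
open scoped ContDiff InnerProductSpace

namespace Pool.Agent.Helper546

theorem rk3 (y : V) : rk 3 y 0 = y 1 ∧ rk 3 y 1 = -y 0 := by
  have h2 : ((Circle.exp (Real.pi / 2 * ((3 : ℕ) : ℝ)) : Circle) : ℂ) = -Complex.I := by
    have h3 : Real.pi / 2 * ((3 : ℕ) : ℝ) = Real.pi + Real.pi / 2 := by push_cast; ring
    rw [h3, Circle.exp_add, Circle.coe_mul, coe_exp_half, Circle.coe_exp, Complex.exp_pi_mul_I]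
    ring
  have h : rk 3 y = cV (-Complex.I * cV.symm y) := by
    rw [rk, rotV_apply, h2]
  rw [h, cV_zero, cV_one, Complex.mul_re, Complex.mul_im, cVsymm_re, cVsymm_im]
  simp

theorem inj4 {a b c d : V} (h1 : a ≠ b) (h2 : a ≠ c) (h3 : a ≠ d) (h4 : b ≠ c) (h5 : b ≠ d)
    (h6 : c ≠ d) : Function.Injective ![a, b, c, d] := by
  intro i j hij
  fin_cases i <;> fin_cases j <;> first
    | rfl
    | exact absurd hij h1
    | exact absurd hij h2
    | exact absurd hij h3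
    | exact absurd hij h4
    | exact absurd hij h5
    | exact absurd hij h6
    | exact absurd hij.symm h1
    | exact absurd hij.symm h2
    | exact absurd hij.symm h3
    | exact absurd hij.symm h4
    | exact absurd hij.symm h5
    | exact absurd hij.symm h6

/-- four accumulation points -/
theorem four_points {f : V → ℝ} {K : ℕ} (hK : ∀ k, K ≤ k → ∃ x ∈ Bk k, f x = 0) :
    ∃ p : Fin 4 → V, Function.Injective p ∧
      ∀ i, p i ∈ closure {x | x ∈ Dom ∧ f x = 0} ∩ frontier Dom := by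
  have c0 := (contDiff_coord 0).continuous
  have c1 := (contDiff_coord 1).continuous
  have hT0 : IsClosed {x : V | 0 ≤ x 0 ∧ |x 1| ≤ 1 / 4} :=
    (isClosed_le continuous_const c0).inter (isClosed_le c1.abs continuous_const)
  have hT1 : IsClosed {x : V | 0 ≤ x 1 ∧ |x 0| ≤ 1 / 4} :=
    (isClosed_le continuous_const c1).inter (isClosed_le c0.abs continuous_const)
  have hT2 : IsClosed {x : V | x 0 ≤ 0 ∧ |x 1| ≤ 1 / 4} :=
    (isClosed_le c0 continuous_const).inter (isClosed_le c1.abs continuous_const)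
  have hT3 : IsClosed {x : V | x 1 ≤ 0 ∧ |x 0| ≤ 1 / 4} :=
    (isClosed_le c1 continuous_const).inter (isClosed_le c0.abs continuous_const)
  obtain ⟨l0, hl0, hn0, ht0⟩ := exists_limit hK 0 hT0 (fun y h0 h1 => by
    rw [rk0]; exact ⟨h0.le, h1.le⟩)
  obtain ⟨l1, hl1, hn1, ht1⟩ := exists_limit hK 1 hT1 (fun y h0 h1 => by
    refine ⟨?_, ?_⟩
    · rw [(rk1 y).2]; exact h0.le
    · rw [(rk1 y).1, abs_neg]; exact h1.le)
  obtain ⟨l2, hl2, hn2, ht2⟩ := exists_limit hK 2 hT2 (fun y h0 h1 => by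
    rw [rk2]
    refine ⟨?_, ?_⟩
    · rw [PiLp.neg_apply]; linarith
    · rw [PiLp.neg_apply, abs_neg]; exact h1.le)
  obtain ⟨l3, hl3, hn3, ht3⟩ := exists_limit hK 3 hT3 (fun y h0 h1 => by
    refine ⟨?_, ?_⟩
    · rw [(rk3 y).2]; linarith
    · rw [(rk3 y).1]; exact h1.le)
  have big : ∀ a b : ℝ, 1 ^ 2 = a ^ 2 + b ^ 2 → 0 ≤ a → |b| ≤ 1 / 4 → 1 / 4 < a := by
    intro a b h h1 h2
    have h3 : b ^ 2 ≤ 1 / 16 := by rw [← sq_abs]; nlinarith [abs_nonneg b]
    by_contra hcon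
    push Not at hcon
    nlinarith
  have e0 := norm_sq_V l0
  have e1 := norm_sq_V l1
  have e2 := norm_sq_V l2
  have e3 := norm_sq_V l3
  rw [hn0] at e0
  rw [hn1] at e1
  rw [hn2] at e2
  rw [hn3] at e3
  have g0 := big _ _ e0 ht0.1 ht0.2
  have g1 := big _ _ (by rw [e1]; ring) ht1.1 ht1.2
  have g2 := big (-l2 0) (l2 1) (by rw [e2]; ring) (by linarith [ht2.1]) ht2.2
  have g3 := big (-l3 1) (l3 0) (by rw [e3]; ring) (by linarith [ht3.1]) ht3.2
  have b0 := abs_le.1 ht0.2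
  have b1 := abs_le.1 ht1.2
  have b2 := abs_le.1 ht2.2
  have b3 := abs_le.1 ht3.2
  have n01 : l0 ≠ l1 := fun h => by rw [h] at g0; linarith
  have n02 : l0 ≠ l2 := fun h => by rw [h] at g0; linarith
  have n03 : l0 ≠ l3 := fun h => by rw [h] at g0; linarith
  have n12 : l1 ≠ l2 := fun h => by rw [h] at g1; linarith
  have n13 : l1 ≠ l3 := fun h => by rw [h] at g1; linarith
  have n23 : l2 ≠ l3 := fun h => by rw [h] at g2; linarith
  refine ⟨![l0, l1, l2, l3], inj4 n01 n02 n03 n12 n13 n23, ?_⟩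
  · intro i
    fin_cases i
    · exact hl0
    · exact hl1
    · exact hl2
    · exact hl3

theorem no_sparse {Λ : ℝ} (hΛ : 0 ≤ Λ) {U W : V → ℝ} (hU : Sol Λ U) (hW : Sol Λ W)
    (star : ∀ c : ℂ, c ≠ 0 → ∀ K, ∃ k, K ≤ k ∧ ∀ x ∈ Bk k, Fc U W c x ≠ 0) : False := by
  have hF : ∀ c, Sol Λ (Fc U W c) := fun c => hU.comb hW c.re c.im
  obtain ⟨K1, hK1⟩ := exists_nat_ge Λ
  set K0 := max 2 K1 with hK0
  have hK02 : 2 ≤ K0 := le_max_left _ _
  have hKΛ : ∀ k, K0 ≤ k → Λ ≤ k := fun k hk => hK1.trans (by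
    exact_mod_cast (le_max_right 2 K1).trans hk)
  set P : ℂ → Prop := fun c => ∃ k, K0 ≤ k ∧ ∀ x ∈ Dk k, 0 ≤ Fc U W c x with hP
  -- deep positivity from the cross section
  have deep : ∀ c k, K0 ≤ k → (∀ x ∈ Bk k, ‖x‖ = rr k → 0 ≤ Fc U W c x) → P c := by
    intro c k hk h
    exact ⟨k, hk, deep_nonneg (hK02.trans hk) hΛ (hKΛ k hk) (hF c).cont (hF c).zero (hF c).smooth
      (hF c).helm h⟩
  -- sign in blocks
  have hneg : ∀ c x, Fc U W (-c) x = -Fc U W c x := fun c x => by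
    simp only [Fc, Complex.neg_re, Complex.neg_im]; ring
  have cover : ∀ c : ℂ, c ≠ 0 → P c ∨ P (-c) := by
    intro c hc
    obtain ⟨k, hk, hnz⟩ := star c hc K0
    have hk2 := hK02.trans hk
    obtain ⟨x0, hx0⟩ := Bk_nonempty hk2
    have hsame : ∀ x ∈ Bk k, ∀ y ∈ Bk k, Fc U W c x < 0 → 0 < Fc U W c y → False := by
      intro x hx y hy h1 h2
      have h3 := (isPreconnected_Bk hk2).intermediate_value hx hy (hF c).cont.continuousOn
      obtain ⟨z, hz, hz0⟩ := h3 ⟨h1.le, h2.le⟩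
      exact hnz z hz hz0
    rcases lt_or_gt_of_ne (hnz x0 hx0) with h | h
    · right
      refine deep (-c) k hk fun x hx _ => ?_
      rw [hneg]
      rcases lt_or_gt_of_ne (hnz x hx) with h4 | h4
      · linarith
      · exact (hsame x0 hx0 x hx h h4).elim
    · left
      refine deep c k hk fun x hx _ => ?_
      rcases lt_or_gt_of_ne (hnz x hx) with h4 | h4
      · exact (hsame x hx x0 hx0 h4 h).elim
      · exact h4.le
  have disj : ∀ c : ℂ, c ≠ 0 → P c → P (-c) → False := by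
    rintro c hc ⟨k, hk, h1⟩ ⟨j, hj, h2⟩
    obtain ⟨m, hm, hnz⟩ := star c hc (max k j + 1)
    obtain ⟨x, hx⟩ := Bk_nonempty (k := m) (by omega)
    have hxk : x ∈ Dk k := Bk_subset_Dk (by omega) hx
    have hxj : x ∈ Dk j := Bk_subset_Dk (by omega) hx
    have h3 := h1 x hxk
    have h4 := h2 x hxj
    rw [hneg] at h4
    exact hnz x hx (by linarith)
  have openP : ∀ c : ℂ, c ≠ 0 → P c → ∃ ε, 0 < ε ∧ ∀ c', dist c' c < ε → P c' := by
    rintro c hc ⟨k, hk, h1⟩
    obtain ⟨j, hj, hnz⟩ := star c hc (k + 1)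
    have hj2 : 2 ≤ j := by omega
    have hjK : K0 ≤ j := by omega
    have hpos : ∀ x ∈ Bk j, 0 < Fc U W c x := fun x hx =>
      lt_of_le_of_ne (h1 x (Bk_subset_Dk (by omega) hx)) (hnz x hx).symm
    obtain ⟨C1, hC1, hU1⟩ := compare hj2 hΛ (hF c).cont hU.cont (hF c).zero hU.zero (hF c).smooth
      hU.smooth (hF c).helm hU.helm hpos
    obtain ⟨C2, hC2, hW2⟩ := compare hj2 hΛ (hF c).cont hW.cont (hF c).zero hW.zero (hF c).smooth
      hW.smooth (hF c).helm hW.helm hpos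
    refine ⟨1 / (1 + C1 + C2), by positivity, fun c' hc' => deep c' j hjK fun x hx hxr => ?_⟩
    have a1 := hU1 x hx hxr
    have a2 := hW2 x hx hxr
    have a3 := hpos x hx
    set v := Fc U W c x with hv
    have d1 : |c'.re - c.re| ≤ dist c' c := by
      rw [dist_eq_norm, ← Complex.sub_re]; exact Complex.abs_re_le_norm _
    have d2 : |c'.im - c.im| ≤ dist c' c := by
      rw [dist_eq_norm, ← Complex.sub_im]; exact Complex.abs_im_le_norm _
    have d3 : dist c' c * (1 + C1 + C2) < 1 := by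
      rwa [lt_div_iff₀ (by positivity)] at hc'
    have e1 : |(c'.re - c.re) * U x| ≤ dist c' c * (C1 * v) := by
      rw [abs_mul]; exact mul_le_mul d1 a1 (abs_nonneg _) dist_nonneg
    have e2 : |(c'.im - c.im) * W x| ≤ dist c' c * (C2 * v) := by
      rw [abs_mul]; exact mul_le_mul d2 a2 (abs_nonneg _) dist_nonneg
    have e3 : Fc U W c' x = v + (c'.re - c.re) * U x + (c'.im - c.im) * W x := by
      rw [hv]; simp only [Fc]; ring
    have e4 := (abs_le.1 e1).1
    have e5 := (abs_le.1 e2).1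
    rw [e3]
    have e6 : dist c' c * (C1 * v) + dist c' c * (C2 * v) ≤ v := by
      have : dist c' c * (C1 + C2) ≤ 1 := by
        have := dist_nonneg (x := c') (y := c)
        nlinarith
      nlinarith
    linarith
  -- connectedness
  have hpre : IsPreconnected ({(0 : ℂ)}ᶜ) :=
    (isConnected_compl_singleton_of_one_lt_rank (by rw [Complex.rank_real_complex]; norm_num)
      (0 : ℂ)).isPreconnected
  have ho1 : IsOpen {c : ℂ | c ≠ 0 ∧ P c} := by
    rw [Metric.isOpen_iff]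
    rintro c ⟨hc, hPc⟩
    obtain ⟨ε, hε, h⟩ := openP c hc hPc
    refine ⟨min ε ‖c‖, lt_min hε (norm_pos_iff.2 hc), fun c' hc' => ⟨?_, h c' ?_⟩⟩
    · rintro rfl
      have := lt_of_lt_of_le (mem_ball.1 hc') (min_le_right _ _)
      rw [dist_comm, dist_zero_right] at this
      exact lt_irrefl _ this
    · exact lt_of_lt_of_le (mem_ball.1 hc') (min_le_left _ _)
  have ho2 : IsOpen {c : ℂ | c ≠ 0 ∧ P (-c)} := by
    have : {c : ℂ | c ≠ 0 ∧ P (-c)} = (fun c : ℂ => -c) ⁻¹' {c : ℂ | c ≠ 0 ∧ P c} := by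
      ext c
      constructor
      · intro h; exact ⟨neg_ne_zero.2 h.1, h.2⟩
      · intro h; exact ⟨neg_ne_zero.1 h.1, h.2⟩
    rw [this]
    exact ho1.preimage continuous_neg
  have h10 : (1 : ℂ) ≠ 0 := one_ne_zero
  have h11 : (-1 : ℂ) ≠ 0 := neg_ne_zero.2 one_ne_zero
  have hne1 : ({(0 : ℂ)}ᶜ ∩ {c : ℂ | c ≠ 0 ∧ P c}).Nonempty := by
    rcases cover 1 h10 with h | h
    · exact ⟨1, h10, h10, h⟩
    · exact ⟨-1, h11, h11, h⟩
  have hne2 : ({(0 : ℂ)}ᶜ ∩ {c : ℂ | c ≠ 0 ∧ P (-c)}).Nonempty := by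
    rcases cover 1 h10 with h | h
    · exact ⟨-1, h11, h11, by rw [neg_neg]; exact h⟩
    · exact ⟨1, h10, h10, h⟩
  obtain ⟨c, hc0, ⟨hc, hPc⟩, ⟨_, hPc'⟩⟩ := hpre _ _ ho1 ho2 (fun c hc => by
    have hc' : c ≠ 0 := hc
    rcases cover c hc' with h | h
    · exact Or.inl ⟨hc', h⟩
    · exact Or.inr ⟨hc', h⟩) hne1 hne2
  exact disj c hc hPc hPc'

/-- symmetric case -/
theorem sym_four {U : V → ℝ} (hsym : ∀ x, U (RR x) = 0 ↔ U x = 0) {p : V}
    (hp : p ∈ closure {x | x ∈ Dom ∧ U x = 0} ∩ frontier Dom) :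
    ∃ p : Fin 4 → V, Function.Injective p ∧
      ∀ i, p i ∈ closure {x | x ∈ Dom ∧ U x = 0} ∩ frontier Dom := by
  have hN : (RR : V → V) ⁻¹' {x | x ∈ Dom ∧ U x = 0} = {x | x ∈ Dom ∧ U x = 0} := by
    ext x
    exact and_congr (RR_mem_Dom x) (hsym x)
  have hD : (RR : V → V) ⁻¹' Dom = Dom := by
    ext x; exact RR_mem_Dom x
  have hc : (RR : V → V) ⁻¹' closure {x | x ∈ Dom ∧ U x = 0} =
      closure {x | x ∈ Dom ∧ U x = 0} := by
    have := RR.toHomeomorph.preimage_closure {x | x ∈ Dom ∧ U x = 0}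
    rw [show (RR.toHomeomorph : V → V) = RR from rfl, hN] at this
    exact this
  have hf : (RR : V → V) ⁻¹' frontier Dom = frontier Dom := by
    have := RR.toHomeomorph.preimage_frontier Dom
    rw [show (RR.toHomeomorph : V → V) = RR from rfl, hD] at this
    exact this
  set S := closure {x | x ∈ Dom ∧ U x = 0} ∩ frontier Dom with hS
  have hinv : ∀ x, x ∈ S → RR x ∈ S := by
    intro x hx
    have h1 : x ∈ (RR : V → V) ⁻¹' S := by
      rw [hS, preimage_inter, hc, hf]; exact hx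
    exact h1
  have hp0 : p ≠ 0 := by
    rintro rfl
    have h1 := hp.2
    rw [frontier, isOpen_Dom.interior_eq] at h1
    exact h1.2 zero_mem_Dom
  have h1 := RR_ne hp0
  have hneg : -p ≠ p := by
    intro h
    have h4 : (2 : ℝ) • p = 0 := by
      rw [two_smul]; nth_rewrite 1 [← h]; simp
    exact hp0 ((smul_eq_zero.1 h4).resolve_left (by norm_num))
  have h2 : RR p ≠ -p := by
    intro h
    have h3 : RR (RR p) = RR (-p) := by rw [h]
    rw [RR_RR, map_neg, h, neg_neg] at h3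
    exact hneg h3
  have m1 := hinv p hp
  have m2 := hinv _ m1
  have m3 := hinv _ m2
  rw [RR_RR] at m2 m3
  refine ⟨![p, RR p, -p, -RR p], ?_, ?_⟩
  · have e1 : p ≠ RR p := h1.symm
    have e2 : p ≠ -p := hneg.symm
    have e3 : p ≠ -RR p := fun h => h2 (by rw [h, neg_neg, ← h])
    have e4 : RR p ≠ -RR p := fun h => hneg (by
      have h5 : RR (RR p) = RR (-RR p) := by rw [← h]
      rw [RR_RR, map_neg, RR_RR, neg_neg] at h5
      exact h5)
    have e5 : -p ≠ -RR p := fun h => h1 (neg_injective h).symm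
    exact inj4 e1 e2 e3 (fun h => h2 h) e4 e5
  · intro i
    fin_cases i
    · exact hp
    · exact m1
    · exact m2
    · exact m3

/-- refined main statement -/
theorem main_four : ∃ f : V → ℝ, Sol (sInf (SS Dom)) f ∧ (∃ x ∈ Dom, f x ≠ 0) ∧
    (closure {x | x ∈ Dom ∧ f x = 0} ∩ frontier Dom = ∅ ∨
      ∃ p : Fin 4 → V, Function.Injective p ∧
        ∀ i, p i ∈ closure {x | x ∈ Dom ∧ f x = 0} ∩ frontier Dom) := by
  by_contra hcon
  push Not at hcon
  obtain ⟨U, hU, ⟨x0, hx0, hUx0⟩, hΛ⟩ := exists_Sol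
  set W : V → ℝ := fun x => U (RR x) with hWd
  have hW : Sol (sInf (SS Dom)) W := hU.rot
  by_cases hdep : ∃ c : ℂ, c ≠ 0 ∧ ∀ x ∈ Dom, Fc U W c x = 0
  · obtain ⟨c, hc, hcz⟩ := hdep
    have hcz' : ∀ x, c.re * U x + c.im * W x = 0 := by
      intro x
      by_cases hx : x ∈ Dom
      · exact hcz x hx
      · rw [hU.zero x hx, hW.zero x hx]; ring
    have hre : c.re ≠ 0 := by
      intro h
      have him : c.im ≠ 0 := fun h2 => hc (Complex.ext h h2)
      have h3 := hcz' (RR.symm x0)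
      rw [h, zero_mul, zero_add, hWd] at h3
      simp only [LinearIsometryEquiv.apply_symm_apply] at h3
      exact hUx0 ((mul_eq_zero.1 h3).resolve_left him)
    have him : c.im ≠ 0 := by
      intro h
      have h3 := hcz' x0
      rw [h, zero_mul, add_zero] at h3
      exact hUx0 ((mul_eq_zero.1 h3).resolve_left hre)
    have hsym : ∀ x, U (RR x) = 0 ↔ U x = 0 := by
      intro x
      have h3 := hcz' x
      rw [hWd] at h3
      simp only at h3
      constructor
      · intro h4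
        rw [h4, mul_zero, add_zero] at h3
        exact (mul_eq_zero.1 h3).resolve_left hre
      · intro h4
        rw [h4, mul_zero, zero_add] at h3
        exact (mul_eq_zero.1 h3).resolve_left him
    obtain ⟨h1, h2⟩ := hcon U hU ⟨x0, hx0, hUx0⟩
    obtain ⟨p, hp⟩ := h1
    obtain ⟨q, hq, hq2⟩ := sym_four hsym hp
    obtain ⟨i, hi⟩ := h2 q hq
    exact hi (hq2 i)
  · push Not at hdep
    refine no_sparse hΛ hU hW fun c hc K => ?_
    obtain ⟨x, hx, hxn⟩ := hdep c hc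
    obtain ⟨_, h⟩ := hcon (Fc U W c) (hU.comb hW c.re c.im) ⟨x, hx, hxn⟩
    by_contra hcon2
    push Not at hcon2
    obtain ⟨q, hq, hq2⟩ := four_points hcon2
    obtain ⟨i, hi⟩ := h q hq
    exact hi (hq2 i)

end Pool.Agent.Helper546
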