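import Pool.Agent.Helper546.Basic
set_option autoImplicit false
open MeasureTheory Metric Set Filter Topology
open scoped ContDiff InnerProductSpace

namespace Pool.Agent.Helper546

/-- smooth radial profiles, vanishing beyond one -/
def Ek (e : ℝ → ℝ) : Prop := ContDiff ℝ ∞ e ∧ ∀ s, 1 ≤ s → e s = 0

noncomputable def prim (e : ℝ → ℝ) (s : ℝ) : ℝ := ∫ t in (1 : ℝ)..s, e t

theorem hasDerivAt_prim {e : ℝ → ℝ} (he : Ek e) (s : ℝ) : HasDerivAt (prim e) (e s) s :=
  intervalIntegral.integral_hasDerivAt_right (he.1.continuous.intervalIntegrable _ _)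
    he.1.continuous.stronglyMeasurable.stronglyMeasurableAtFilter he.1.continuous.continuousAt

theorem Ek.prim {e : ℝ → ℝ} (he : Ek e) : Ek (prim e) := by
  refine ⟨?_, fun s hs => ?_⟩
  · rw [contDiff_infty_iff_deriv]
    refine ⟨fun s => (hasDerivAt_prim he s).differentiableAt, ?_⟩
    have : deriv (Pool.Agent.Helper546.prim e) = e := by
      funext s; exact (hasDerivAt_prim he s).deriv
    rw [this]; exact he.1
  · rw [Pool.Agent.Helper546.prim, intervalIntegral.integral_congr (g := fun _ => (0 : ℝ))]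
    · simp
    · intro t ht
      rw [uIcc_of_le hs] at ht
      exact he.2 t ht.1

theorem abs_prim_le {e : ℝ → ℝ} {B : ℝ} (hB : ∀ s ∈ Icc (0 : ℝ) 1, |e s| ≤ B) (hB0 : 0 ≤ B) {s : ℝ}
    (hs : s ∈ Icc (0 : ℝ) 1) : |prim e s| ≤ B := by
  have h1 := intervalIntegral.norm_integral_le_of_norm_le_const (a := (1 : ℝ)) (b := s) (f := e)
    (C := B) (fun t ht => by
      rw [uIoc_of_ge hs.2] at ht
      exact hB t ⟨hs.1.trans ht.1.le, ht.2⟩)
  rw [Real.norm_eq_abs] at h1
  have h2 : |s - 1| ≤ 1 := by rw [abs_le]; constructor <;> linarith [hs.1, hs.2]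
  calc |prim e s| ≤ B * |s - 1| := h1
    _ ≤ B * 1 := by gcongr
    _ = B := mul_one B

/-- radial function attached to a profile -/
noncomputable def rad (e : ℝ → ℝ) (x : V) : ℝ := e (‖x‖ ^ 2)

theorem rad_eq_zero {e : ℝ → ℝ} (he : Ek e) {x : V} (hx : 1 ≤ ‖x‖) : rad e x = 0 :=
  he.2 _ (by nlinarith)

theorem contDiff_rad {e : ℝ → ℝ} (he : Ek e) : ContDiff ℝ ∞ (rad e) :=
  he.1.comp (contDiff_norm_sq ℝ)

theorem tsupport_rad {e : ℝ → ℝ} (he : Ek e) : tsupport (rad e) ⊆ closedBall 0 1 := by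
  refine closure_minimal (fun x hx => ?_) isClosed_closedBall
  by_contra h
  simp only [mem_closedBall, dist_zero_right, not_le] at h
  exact hx (rad_eq_zero he h.le)

theorem hasCompactSupport_rad {e : ℝ → ℝ} (he : Ek e) : HasCompactSupport (rad e) :=
  (isCompact_closedBall (0 : V) 1).of_isClosed_subset (isClosed_tsupport _) (tsupport_rad he)

theorem tst_rad {e : ℝ → ℝ} (he : Ek e) : Tst Set.univ (rad e) :=
  ⟨contDiff_rad he, hasCompactSupport_rad he, subset_univ _⟩

theorem dd_rad_prim {e : ℝ → ℝ} (he : Ek e) (i : Fin 2) (x : V) :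
    dd i (rad (prim e)) x = 2 * (x i * rad e x) := by
  have h1 : HasFDerivAt (fun y : V => ‖y‖ ^ 2) (2 • (innerSL ℝ x)) x :=
    (hasStrictFDerivAt_norm_sq x).hasFDerivAt
  have h2 : HasFDerivAt (rad (prim e)) (e (‖x‖ ^ 2) • (2 • (innerSL ℝ x))) x :=
    (hasDerivAt_prim he (‖x‖ ^ 2)).comp_hasFDerivAt x h1
  rw [dd, h2.fderiv]
  simp only [smul_apply, innerSL_apply_apply, rad, ee, smul_eq_mul, nsmul_eq_mul]
  rw [EuclideanSpace.inner_single_right]
  simp
  ring

/-- weighted average -/
noncomputable def GG (w : V → ℝ) (e : ℝ → ℝ) (z : V) (t : ℝ) : ℝ :=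
  ∫ x, w (z + t • x) * rad e x

theorem fderiv_apply_eq_sum (w : V → ℝ) (y x : V) :
    fderiv ℝ w y x = x 0 * dd 0 w y + x 1 * dd 1 w y := by
  have h : x = x 0 • ee 0 + x 1 • ee 1 := by
    ext i
    fin_cases i <;> simp [ee]
  conv_lhs => rw [h]
  rw [map_add, map_smul, map_smul]
  simp [dd]

theorem integrable_mul_rad {e : ℝ → ℝ} (he : Ek e) {f : V → ℝ} (hf : Continuous f) :
    Integrable (fun x => f x * rad e x) :=
  integrable_mul_of_tsupport isOpen_univ hf.continuousOn (contDiff_rad he).continuous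
    (subset_univ _) (hasCompactSupport_rad he)

theorem hasDerivAt_GG {w : V → ℝ} (hw : ContDiff ℝ ∞ w) {e : ℝ → ℝ} (he : Ek e) (z : V) (t : ℝ) :
    HasDerivAt (GG w e z) (∫ x, fderiv ℝ w (z + t • x) x * rad e x) t := by
  have hwc : Continuous w := hw.continuous
  have hdc : Continuous (fderiv ℝ w) := hw.continuous_fderiv (by simp)
  have hrc : Continuous (rad e) := (contDiff_rad he).continuous
  have hcont : Continuous (fun p : ℝ × V => fderiv ℝ w (z + p.1 • p.2) p.2 * rad e p.2) := by
    fun_prop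
  obtain ⟨C, hC⟩ := ((isCompact_closedBall t 1).prod (isCompact_closedBall (0 : V) 1)).exists_bound_of_continuousOn
    hcont.continuousOn
  have hmain := hasDerivAt_integral_of_dominated_loc_of_deriv_le (μ := (volume : Measure V))
    (F := fun τ x => w (z + τ • x) * rad e x)
    (F' := fun τ x => fderiv ℝ w (z + τ • x) x * rad e x) (x₀ := t) (s := closedBall t 1)
    (bound := (closedBall (0 : V) 1).indicator (fun _ => C))
    (closedBall_mem_nhds t one_pos)
    (Eventually.of_forall fun τ => by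
      have : Continuous fun x => w (z + τ • x) * rad e x := by fun_prop
      exact this.aestronglyMeasurable)
    (integrable_mul_rad he (by fun_prop))
    (by
      have : Continuous fun x => fderiv ℝ w (z + t • x) x * rad e x := by fun_prop
      exact this.aestronglyMeasurable)
    (Eventually.of_forall fun x τ hτ => by
      by_cases hx : x ∈ closedBall (0 : V) 1
      · rw [indicator_of_mem hx]
        exact hC (τ, x) ⟨hτ, hx⟩
      · rw [indicator_of_notMem hx]
        simp only [mem_closedBall, dist_zero_right, not_le] at hx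
        rw [rad_eq_zero he hx.le]; simp)
    (by
      rw [integrable_indicator_iff measurableSet_closedBall]
      exact integrableOn_const measure_closedBall_lt_top.ne)
    (Eventually.of_forall fun x τ _ => by
      have h1 : HasDerivAt (fun s : ℝ => z + s • x) x τ := by
        simpa using ((hasDerivAt_id τ).smul_const x).const_add z
      have h2 : HasDerivAt (fun s : ℝ => w (z + s • x)) (fderiv ℝ w (z + τ • x) x) τ :=
        (hw.differentiable (by simp) _).hasFDerivAt.comp_hasDerivAt τ h1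
      exact h2.mul_const _)
  exact hmain.2

theorem dd_comp_affine {f : V → ℝ} (hf : ContDiff ℝ ∞ f) (i : Fin 2) (z : V) (t : ℝ) (x : V) :
    dd i (fun y => f (z + t • y)) x = t * dd i f (z + t • x) := by
  have h1 : HasFDerivAt (fun y : V => z + t • y) (t • ContinuousLinearMap.id ℝ V) x :=
    ((hasFDerivAt_id x).const_smul t).const_add z
  have h2 : HasFDerivAt (fun y : V => f (z + t • y))
      ((fderiv ℝ f (z + t • x)).comp (t • ContinuousLinearMap.id ℝ V)) x :=
    (hf.differentiable (by simp) _).hasFDerivAt.comp x h1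
  rw [dd, h2.fderiv]
  simp [dd]

theorem contDiff_comp_affine {f : V → ℝ} (hf : ContDiff ℝ ∞ f) (z : V) (t : ℝ) :
    ContDiff ℝ ∞ (fun y => f (z + t • y)) :=
  hf.comp (contDiff_const.add (contDiff_id.const_smul t))

theorem integral_fderiv_rad {w : V → ℝ} (hw : ContDiff ℝ ∞ w) {e : ℝ → ℝ} (he : Ek e) (z : V)
    (t : ℝ) : ∫ x, fderiv ℝ w (z + t • x) x * rad e x =
      -(t / 2) * ∫ x, lap w (z + t • x) * rad (prim e) x := by
  have hc : ∀ i : Fin 2, ContDiff ℝ ∞ (fun x => dd i w (z + t • x)) := fun i =>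
    contDiff_comp_affine (contDiff_dd i hw) z t
  have key : ∀ i : Fin 2, ∫ x, x i * dd i w (z + t • x) * rad e x =
      -(t / 2) * ∫ x, dd i (dd i w) (z + t • x) * rad (prim e) x := by
    intro i
    have h1 := ibp isOpen_univ i (f := fun x => dd i w (z + t • x)) (g := rad (prim e))
      (hc i).contDiffOn (tst_rad he.prim)
    simp only [dd_rad_prim he, dd_comp_affine (contDiff_dd i hw)] at h1
    have h2 : ∫ x, dd i w (z + t • x) * (2 * (x i * rad e x)) =
        2 * ∫ x, x i * dd i w (z + t • x) * rad e x := by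
      rw [← integral_const_mul]
      congr 1; funext x; ring
    have h3 : ∫ x, t * dd i (dd i w) (z + t • x) * rad (prim e) x =
        t * ∫ x, dd i (dd i w) (z + t • x) * rad (prim e) x := by
      rw [← integral_const_mul]
      congr 1; funext x; ring
    rw [h2, h3] at h1
    linarith
  have i1 : ∀ i : Fin 2, Integrable (fun x => x i * dd i w (z + t • x) * rad e x) := fun i =>
    integrable_mul_rad he (by
      have := (hc i).continuous
      fun_prop)
  have i2 : ∀ i : Fin 2, Integrable (fun x => dd i (dd i w) (z + t • x) * rad (prim e) x) :=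
    fun i => integrable_mul_rad he.prim
      (contDiff_comp_affine (contDiff_dd i (contDiff_dd i hw)) z t).continuous
  calc ∫ x, fderiv ℝ w (z + t • x) x * rad e x
      = ∫ x, (x 0 * dd 0 w (z + t • x) * rad e x + x 1 * dd 1 w (z + t • x) * rad e x) := by
        congr 1; funext x; rw [fderiv_apply_eq_sum]; ring
    _ = -(t / 2) * (∫ x, dd 0 (dd 0 w) (z + t • x) * rad (prim e) x) +
        -(t / 2) * (∫ x, dd 1 (dd 1 w) (z + t • x) * rad (prim e) x) := by
        rw [integral_add (i1 0) (i1 1), key, key]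
    _ = -(t / 2) * ∫ x, lap w (z + t • x) * rad (prim e) x := by
        rw [← mul_add, ← integral_add (i2 0) (i2 1)]
        congr 1
        congr 1
        funext x
        rw [lap]; ring

/-- Helmholtz equation on a set -/
def Helm (Λ : ℝ) (w : V → ℝ) (S : Set V) : Prop := ∀ x ∈ S, lap w x = -Λ * w x

theorem hasDerivAt_GG_helm {w : V → ℝ} (hw : ContDiff ℝ ∞ w) {Λ : ℝ} {z : V} {d : ℝ}
    (hh : Helm Λ w (ball z d)) {e : ℝ → ℝ} (he : Ek e) {t : ℝ} (ht : |t| < d) :
    HasDerivAt (GG w e z) (Λ * t / 2 * GG w (prim e) z t) t := by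
  have h := hasDerivAt_GG hw he z t
  rw [integral_fderiv_rad hw he] at h
  convert h using 1
  have : ∫ x, lap w (z + t • x) * rad (prim e) x =
      ∫ x, (-Λ) * (w (z + t • x) * rad (prim e) x) := by
    congr 1
    funext x
    by_cases hx : 1 ≤ ‖x‖
    · rw [rad_eq_zero he.prim hx]; simp
    · push Not at hx
      have hm : z + t • x ∈ ball z d := by
        rw [mem_ball, dist_eq_norm, add_sub_cancel_left, norm_smul, Real.norm_eq_abs]
        calc |t| * ‖x‖ ≤ |t| * 1 := by gcongr
          _ < d := by linarith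
      rw [hh _ hm]; ring
  rw [this, integral_const_mul, GG]
  ring

theorem GG_zero_of_vanish {w : V → ℝ} (hw : ContDiff ℝ ∞ w) {Λ : ℝ} (hΛ : 0 ≤ Λ) {z : V} {d : ℝ}
    (hh : Helm Λ w (ball z d)) (hd : Λ * d ^ 2 ≤ 1) (hz : w z = 0)
    {e : ℝ → ℝ} (he : Ek e) {t : ℝ} (ht0 : 0 ≤ t) (ht : t < d) : GG w e z t = 0 := by
  obtain ⟨M, hM⟩ := (isCompact_closedBall z d).exists_bound_of_continuousOn
    hw.continuous.continuousOn
  set κ : ℝ := (volume : Measure V).real (closedBall (0 : V) 1) with hκ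
  have hd0 : 0 ≤ d := ht0.trans ht.le
  have hM0 : 0 ≤ M := (norm_nonneg _).trans (hM z (mem_closedBall_self hd0))
  have key : ∀ n : ℕ, ∀ (e : ℝ → ℝ), Ek e → ∀ B : ℝ, 0 ≤ B → (∀ s ∈ Icc (0 : ℝ) 1, |e s| ≤ B) →
      ∀ t, 0 ≤ t → t < d → |GG w e z t| ≤ M * B * κ * (1 / 2) ^ n := by
    intro n
    induction n with
    | zero =>
      intro e he B hB0 hB t ht0 ht
      have h1 : ∀ x, ‖w (z + t • x) * rad e x‖ ≤ (closedBall (0 : V) 1).indicator
          (fun _ => M * B) x := by
        intro x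
        by_cases hx : x ∈ closedBall (0 : V) 1
        · rw [indicator_of_mem hx, norm_mul]
          simp only [mem_closedBall, dist_zero_right] at hx
          have h2 : ‖w (z + t • x)‖ ≤ M := by
            apply hM
            rw [mem_closedBall, dist_eq_norm, add_sub_cancel_left, norm_smul, Real.norm_eq_abs,
              abs_of_nonneg ht0]
            calc t * ‖x‖ ≤ t * 1 := by gcongr
              _ ≤ d := by linarith
          have h3 : ‖rad e x‖ ≤ B := hB _ ⟨by positivity, by nlinarith [norm_nonneg x]⟩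
          gcongr
        · rw [indicator_of_notMem hx]
          simp only [mem_closedBall, dist_zero_right, not_le] at hx
          rw [rad_eq_zero he hx.le]; simp
      have h2 : ‖GG w e z t‖ ≤ ∫ x, (closedBall (0 : V) 1).indicator (fun _ => M * B) x := by
        refine norm_integral_le_of_norm_le ?_ (Eventually.of_forall h1)
        rw [integrable_indicator_iff measurableSet_closedBall]
        exact integrableOn_const measure_closedBall_lt_top.ne
      rw [integral_indicator measurableSet_closedBall, setIntegral_const, smul_eq_mul] at h2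
      rw [← Real.norm_eq_abs]
      calc ‖GG w e z t‖ ≤ κ * (M * B) := h2
        _ = M * B * κ * (1 / 2) ^ 0 := by ring
    | succ n ih =>
      intro e he B hB0 hB t ht0 ht
      have hprim := ih (prim e) he.prim B hB0 (fun s hs => abs_prim_le hB hB0 hs)
      have h0 : GG w e z 0 = 0 := by
        simp [GG, hz]
      have h1 : ∀ s ∈ Icc (0 : ℝ) t, HasDerivWithinAt (GG w e z)
          (Λ * s / 2 * GG w (prim e) z s) (Icc 0 t) s := fun s hs =>
        (hasDerivAt_GG_helm hw hh he (by
          rw [abs_of_nonneg hs.1]; exact hs.2.trans_lt ht)).hasDerivWithinAt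
      have h2 : ∀ s ∈ Ico (0 : ℝ) t, ‖Λ * s / 2 * GG w (prim e) z s‖ ≤
          Λ * t / 2 * (M * B * κ * (1 / 2) ^ n) := by
        intro s hs
        rw [norm_mul, Real.norm_eq_abs, Real.norm_eq_abs]
        have h3 := hprim s hs.1 (hs.2.trans ht)
        have h4 : |Λ * s / 2| ≤ Λ * t / 2 := by
          rw [abs_of_nonneg (by have := hs.1; positivity)]
          have := hs.2.le
          gcongr
        gcongr
      have h3 := norm_image_sub_le_of_norm_deriv_le_segment' h1 h2 t (right_mem_Icc.2 ht0)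
      rw [h0, sub_zero, sub_zero, Real.norm_eq_abs] at h3
      have hκ0 : 0 ≤ κ := measureReal_nonneg
      have h5 : Λ * t * t ≤ 1 := by
        calc Λ * t * t = Λ * t ^ 2 := by ring
          _ ≤ Λ * d ^ 2 := by gcongr
          _ ≤ 1 := hd
      calc |GG w e z t| ≤ Λ * t / 2 * (M * B * κ * (1 / 2) ^ n) * t := h3
        _ = (Λ * t * t) * (M * B * κ * (1 / 2) ^ (n + 1)) := by ring
        _ ≤ 1 * (M * B * κ * (1 / 2) ^ (n + 1)) := by gcongr
        _ = M * B * κ * (1 / 2) ^ (n + 1) := one_mul _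
  obtain ⟨B, hB⟩ := (isCompact_Icc (a := (0 : ℝ)) (b := 1)).exists_bound_of_continuousOn
    he.1.continuous.continuousOn
  have hB0 : 0 ≤ B := (norm_nonneg _).trans (hB 0 ⟨le_rfl, zero_le_one⟩)
  have hlim : Tendsto (fun n : ℕ => M * B * κ * (1 / 2 : ℝ) ^ n) atTop (𝓝 (M * B * κ * 0)) :=
    (tendsto_pow_atTop_nhds_zero_of_lt_one (by norm_num) (by norm_num)).const_mul _
  rw [mul_zero] at hlim
  have := ge_of_tendsto' hlim (fun n => key n e he B hB0 (fun s hs => hB s hs) t ht0 ht)
  exact abs_nonpos_iff.1 this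

/-- plane wave -/
noncomputable def pw (Λ : ℝ) (z x : V) : ℝ := Real.cos (Real.sqrt Λ * (x 0 - z 0))

theorem contDiff_coord (i : Fin 2) : ContDiff ℝ ∞ (fun x : V => x i) := by
  exact contDiff_euclidean.1 contDiff_id i

theorem contDiff_pw (Λ : ℝ) (z : V) : ContDiff ℝ ∞ (pw Λ z) := by
  have := contDiff_coord 0
  unfold pw
  exact Real.contDiff_cos.comp (contDiff_const.mul (this.sub contDiff_const))

theorem hasFDerivAt_coord (i : Fin 2) (x : V) :
    HasFDerivAt (fun x : V => x i) (EuclideanSpace.proj i : V →L[ℝ] ℝ) x :=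
  (EuclideanSpace.proj i : V →L[ℝ] ℝ).hasFDerivAt

theorem helm_pw {Λ : ℝ} (hΛ : 0 ≤ Λ) (z : V) (S : Set V) : Helm Λ (pw Λ z) S := by
  intro x _
  have h1 : ∀ y : V, HasFDerivAt (pw Λ z)
      ((-Real.sin (Real.sqrt Λ * (y 0 - z 0)) * Real.sqrt Λ) • (EuclideanSpace.proj 0 : V →L[ℝ] ℝ))
      y := by
    intro y
    have := ((hasFDerivAt_coord 0 y).sub_const (z 0)).const_mul (Real.sqrt Λ)
    refine this.cos.congr_fderiv ?_
    ext v
    simp
    ring
  have h2 : ∀ y : V, HasFDerivAt (fun y : V => -Real.sin (Real.sqrt Λ * (y 0 - z 0)) * Real.sqrt Λ)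
      ((-(Real.cos (Real.sqrt Λ * (y 0 - z 0)) * Real.sqrt Λ) * Real.sqrt Λ) •
        (EuclideanSpace.proj 0 : V →L[ℝ] ℝ)) y := by
    intro y
    have := ((hasFDerivAt_coord 0 y).sub_const (z 0)).const_mul (Real.sqrt Λ)
    refine ((this.sin.fun_neg).mul_const (Real.sqrt Λ)).congr_fderiv ?_
    ext v
    simp
    ring
  have d0 : dd 0 (pw Λ z) = fun y => -Real.sin (Real.sqrt Λ * (y 0 - z 0)) * Real.sqrt Λ := by
    funext y
    rw [dd, (h1 y).fderiv]
    simp [ee]
  have d1 : dd 1 (pw Λ z) = fun y => 0 := by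
    funext y
    rw [dd, (h1 y).fderiv]
    simp [ee]
  have d00 : dd 0 (dd 0 (pw Λ z)) x = -Λ * pw Λ z x := by
    rw [d0, dd, (h2 x).fderiv]
    simp only [ee, smul_apply, pw, smul_eq_mul]
    have h3 : Real.sqrt Λ * Real.sqrt Λ = Λ := Real.mul_self_sqrt hΛ
    simp
    linear_combination (Real.cos (Real.sqrt Λ * (x 0 - z 0))) * h3
  have d11 : dd 1 (dd 1 (pw Λ z)) x = 0 := by
    rw [d1, dd]; simp
  rw [lap, d00, d11, add_zero]

/-- universal mean value constant -/
noncomputable def cc (Λ : ℝ) (e : ℝ → ℝ) (t : ℝ) : ℝ :=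
  ∫ x : V, Real.cos (Real.sqrt Λ * (t * x 0)) * rad e x

theorem lap_sub {f g : V → ℝ} (hf : ContDiff ℝ ∞ f) (hg : ContDiff ℝ ∞ g) (c : ℝ) (x : V) :
    lap (fun y => f y - c * g y) x = lap f x - c * lap g x := by
  have h1 : ∀ (i : Fin 2) {f g : V → ℝ}, ContDiff ℝ ∞ f → ContDiff ℝ ∞ g →
      dd i (fun y => f y - c * g y) = fun y => dd i f y - c * dd i g y := by
    intro i f g hf hg
    funext y
    have a := (hf.differentiable (by simp) y).hasFDerivAt
    have b := (hg.differentiable (by simp) y).hasFDerivAt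
    rw [dd, (a.fun_sub (b.const_mul c)).fderiv]
    simp [dd]
  rw [lap, h1 0 hf hg, h1 1 hf hg, h1 0 (contDiff_dd 0 hf) (contDiff_dd 0 hg),
    h1 1 (contDiff_dd 1 hf) (contDiff_dd 1 hg), lap, lap]
  ring

theorem GG_mean_value {w : V → ℝ} (hw : ContDiff ℝ ∞ w) {Λ : ℝ} (hΛ : 0 ≤ Λ) {z : V} {d : ℝ}
    (hh : Helm Λ w (ball z d)) (hd : Λ * d ^ 2 ≤ 1)
    {e : ℝ → ℝ} (he : Ek e) {t : ℝ} (ht0 : 0 ≤ t) (ht : t < d) :
    GG w e z t = cc Λ e t * w z := by
  have hp := contDiff_pw Λ z
  have h1 := GG_zero_of_vanish (w := fun y => w y - w z * pw Λ z y) (z := z)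
    (hw.sub (contDiff_const.mul hp)) hΛ
    (fun x hx => by
      rw [lap_sub hw hp, hh x hx, helm_pw hΛ z univ x (mem_univ _)]; ring) hd
    (by simp [pw]) he ht0 ht
  have h2 : GG (fun y => w y - w z * pw Λ z y) e z t = GG w e z t - w z * cc Λ e t := by
    have i1 : Integrable (fun x => w (z + t • x) * rad e x) :=
      integrable_mul_rad he (contDiff_comp_affine hw z t).continuous
    have i2 : Integrable (fun x => w z * (pw Λ z (z + t • x) * rad e x)) :=
      (integrable_mul_rad he (contDiff_comp_affine hp z t).continuous).const_mul _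
    have h3 : ∀ x : V, pw Λ z (z + t • x) = Real.cos (Real.sqrt Λ * (t * x 0)) := by
      intro x; simp [pw]
    have h4 : GG w e z t - w z * cc Λ e t =
        ∫ x, (w (z + t • x) * rad e x - w z * (pw Λ z (z + t • x) * rad e x)) := by
      rw [integral_sub i1 i2, integral_const_mul, GG, cc]
      simp only [h3]
    rw [h4, GG]
    congr 1; funext x; ring
  linarith [h1, h2, mul_comm (w z) (cc Λ e t)]

end Pool.Agent.Helper546
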