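import Pool.Agent.Helper546.Existence
set_option autoImplicit false
open MeasureTheory Metric Set Filter Topology
open scoped ContDiff InnerProductSpace Convolution

namespace Pool.Agent.Helper546

theorem norm_clm_sq (L : V →L[ℝ] ℝ) : ‖L‖ ^ 2 = L (ee 0) ^ 2 + L (ee 1) ^ 2 := by
  have h := norm_fderiv_sq (fun x => L x) 0
  have h1 : fderiv ℝ (fun x => L x) 0 = L := L.fderiv
  rw [dd, dd, h1] at h
  exact h

/-- the approximation property of the Sobolev space with zero boundary values -/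
def Approx (Ω : Set V) (v : V → ℝ) : Prop :=
  ∃ φ : ℕ → V → ℝ,
    (∀ n, ContDiff ℝ ((⊤ : ℕ∞) : WithTop ℕ∞) (φ n) ∧ HasCompactSupport (φ n) ∧
        tsupport (φ n) ⊆ Ω ∧
        MeasureTheory.IntegrableOn
          (fun x => (φ n x - v x) ^ 2 + ‖fderiv ℝ (φ n) x - fderiv ℝ v x‖ ^ 2) Ω) ∧
    Filter.Tendsto
      (fun n => ∫ x in Ω, ((φ n x - v x) ^ 2 + ‖fderiv ℝ (φ n) x - fderiv ℝ v x‖ ^ 2))
      Filter.atTop (nhds 0)

theorem second_eigen {Ω : Set V} (hΩo : IsOpen Ω) (hne : Ω.Nonempty) (hΩ : Ω ⊆ ball 0 1) :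
    ∃ v : V → ℝ, ContDiffOn ℝ ∞ v Ω ∧ (∃ x ∈ Ω, v x ≠ 0) ∧ 0 ≤ sInf (SS Ω) ∧
      Helm (sInf (SS Ω)) v Ω ∧ Approx Ω v ∧
      ∃ C t0 : ℝ, 0 < t0 ∧ ∀ z t, 0 < t → t ≤ t0 → closedBall z (2 * t) ⊆ Ω →
        (v z) ^ 2 ≤ C / t ^ 2 * ∫ y in ball z t, (v y) ^ 2 := by
  obtain ⟨x1, hx1, x2, hx2, τ1, τ2, hn1, hn2, h12, hτ2, hτ, hτ1', heq1, heq2, hle2⟩ :=
    spectral hΩo hne hΩ
  have hΛ := sInf_SS hx1 hx2 hn1 hn2 h12 hτ2 hτ heq1 heq2 hle2
  set Λ := sInf (SS Ω) with hΛd
  have hΛ0 : 0 ≤ Λ := by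
    rw [hΛ]
    have : 1 ≤ 1 / τ2 := by rw [le_div_iff₀ hτ2]; linarith
    linarith
  have hu : MemLp (x2 0) 2 (volume : Measure V) := Lp.memLp _
  have hm1 : MemLp (x2 1) 2 (volume : Measure V) := Lp.memLp _
  have hm2 : MemLp (x2 2) 2 (volume : Measure V) := Lp.memLp _
  -- integrability of products with test functions
  have hint : ∀ {f ψ : V → ℝ}, MemLp f 2 (volume : Measure V) → Tst Set.univ ψ →
      Integrable (fun t => f t * ψ t) := fun {f ψ} hf hψ =>
    MemLp.integrable_mul (p := 2) (q := 2) hf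
      (hψ.1.continuous.memLp_of_hasCompactSupport hψ.2.1)
  -- weak equation
  have hweak : ∀ ψ, Tst Ω ψ → ∫ x, x2 0 x * (lap ψ x + Λ * ψ x) = 0 := by
    intro ψ hψ
    obtain ⟨y, hy⟩ := exists_Gr hψ
    have hyH : y ∈ HH Ω := subset_closure (⟨_, hψ, hy⟩ : ∃ φ, Tst Ω φ ∧ Gr φ y)
    have h1 := heq2 y hyH
    rw [PiLp.inner_apply, Fin.sum_univ_three, io_apply, io_apply,
      inner_L2 (x2 0) (y 0) (ae_eq_refl _) hy.1, inner_L2 (x2 1) (y 1) (ae_eq_refl _) hy.2.1,
      inner_L2 (x2 2) (y 2) (ae_eq_refl _) hy.2.2] at h1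
    have h2 := (weak_deriv hx2 (hψ.univ.dd 0)).1
    have h3 := (weak_deriv hx2 (hψ.univ.dd 1)).2
    rw [h2, h3] at h1
    have i0 := hint hu hψ.univ
    have i1 := hint hu ((hψ.univ.dd 0).dd 0)
    have i2 := hint hu ((hψ.univ.dd 1).dd 1)
    have h4 : ∫ x, x2 0 x * (lap ψ x + Λ * ψ x) =
        (∫ x, x2 0 x * dd 0 (dd 0 ψ) x) + (∫ x, x2 0 x * dd 1 (dd 1 ψ) x) +
          Λ * ∫ x, x2 0 x * ψ x := by
      rw [← integral_const_mul, ← integral_add i1 i2, ← integral_add]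
      · congr 1; funext x; rw [lap]; ring
      · exact i1.add i2
      · exact i0.const_mul Λ
    rw [h4]
    have h5 : τ2 * Λ = 1 - τ2 := by rw [hΛ]; field_simp
    have h6 : τ2 * ((∫ x, x2 0 x * dd 0 (dd 0 ψ) x) + (∫ x, x2 0 x * dd 1 (dd 1 ψ) x) +
          Λ * ∫ x, x2 0 x * ψ x) = 0 := by
      have : τ2 * (Λ * ∫ x, x2 0 x * ψ x) = (1 - τ2) * ∫ x, x2 0 x * ψ x := by
        rw [← mul_assoc, h5]
      rw [mul_add, this]
      linarith
    exact (mul_eq_zero.1 h6).resolve_left hτ2.ne'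
  obtain ⟨v, hv1, hv2, hv3, C, t0, ht0, hv4⟩ := weyl hΩo hΛ0 hu hweak
  -- gradient
  have hgrad : ∀ (i : Fin 2) (w : V → ℝ), MemLp w 2 (volume : Measure V) →
      (∀ ψ, Tst Set.univ ψ → ∫ t, w t * ψ t = - ∫ t, x2 0 t * dd i ψ t) →
      ∀ᵐ x, x ∈ Ω → w x - dd i v x = 0 := by
    intro i w hw hwψ
    refine hΩo.ae_eq_zero_of_integral_contDiff_smul_eq_zero ?_ ?_
    · refine LocallyIntegrableOn.sub ?_ ?_
      · exact (hw.locallyIntegrable (by norm_num)).locallyIntegrableOn _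
      · exact (contDiffOn_dd hΩo i hv1).continuousOn.locallyIntegrableOn hΩo.measurableSet
    · intro g hg1 hg2 hg3
      have hgt : Tst Ω g := ⟨hg1, hg2, hg3⟩
      have j1 := hint hw hgt.univ
      have j2 : Integrable (fun x => dd i v x * g x) :=
        integrable_mul_of_tsupport hΩo (contDiffOn_dd hΩo i hv1).continuousOn hg1.continuous
          hg3 hg2
      have e1 : ∫ x, g x • (w x - dd i v x) = (∫ x, w x * g x) - ∫ x, dd i v x * g x := by
        rw [← integral_sub j1 j2]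
        congr 1; funext x; simp only [smul_eq_mul]; ring
      rw [e1, hwψ g hgt.univ]
      have e2 := ibp hΩo i hv1 hgt
      have e3 : ∫ x, x2 0 x * dd i g x = ∫ x, v x * dd i g x := by
        refine integral_congr_ae ?_
        filter_upwards [hv2] with x hx
        by_cases hxΩ : x ∈ Ω
        · show x2 0 x * dd i g x = v x * dd i g x
          rw [hx hxΩ]
        · have : dd i g x = 0 := by
            by_contra h
            exact hxΩ ((hgt.dd i).2.2 (subset_tsupport _ h))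
          show x2 0 x * dd i g x = v x * dd i g x
          rw [this, mul_zero, mul_zero]
      rw [e3, e2]; ring
  have hg0 := hgrad 0 (x2 1) hm1 (fun ψ hψ => (weak_deriv hx2 hψ).1)
  have hg1 := hgrad 1 (x2 2) hm2 (fun ψ hψ => (weak_deriv hx2 hψ).2)
  refine ⟨v, hv1, ?_, hΛ0, hv3, ?_, C, t0, ht0, ?_⟩
  · -- nonvanishing
    by_contra hcon
    push Not at hcon
    have hz : ∀ᵐ x, x ∈ Ω → x2 0 x = 0 := by
      filter_upwards [hv2] with x hx hxΩ
      rw [← hx hxΩ, hcon x hxΩ]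
    -- orthogonality to itself
    have hmem : x2 ∈ closure (H0 Ω : Set WW) := hx2
    have hc : IsClosed {g : WW | ⟪x2 0, g 0⟫_ℝ = 0} :=
      isClosed_eq (by fun_prop) (by fun_prop)
    have h1 : ⟪x2 0, x2 0⟫_ℝ = 0 := by
      refine closure_minimal (s := (H0 Ω : Set WW)) ?_ hc hmem
      rintro g ⟨φ, hφ, hg⟩
      show ⟪x2 0, g 0⟫_ℝ = 0
      rw [inner_L2 _ _ (ae_eq_refl _) hg.1]
      apply integral_eq_zero_of_ae
      filter_upwards [hz] with x hx
      by_cases hxΩ : x ∈ Ω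
      · show x2 0 x * φ x = 0
        rw [hx hxΩ, zero_mul]
      · have : φ x = 0 := by
          by_contra h
          exact hxΩ (hφ.2.2 (subset_tsupport _ h))
        show x2 0 x * φ x = 0
        rw [this, mul_zero]
    have h2 := heq2 x2 hx2
    rw [io_apply, h1, real_inner_self_eq_norm_sq, hn2] at h2
    linarith
  · -- approximation
    have hmem : x2 ∈ closure (H0 Ω : Set WW) := hx2
    obtain ⟨g, hg, hglim⟩ := mem_closure_iff_seq_limit.1 hmem
    choose φ hφ hgφ using hg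
    have hsplit : ∀ n, (fun x => (φ n x - v x) ^ 2 + ‖fderiv ℝ (φ n) x - fderiv ℝ v x‖ ^ 2)
        =ᵐ[volume.restrict Ω] fun x => ((g n - x2) 0 x) ^ 2 + ((g n - x2) 1 x) ^ 2 +
          ((g n - x2) 2 x) ^ 2 := by
      intro n
      have r := ae_restrict_mem (μ := (volume : Measure V)) hΩo.measurableSet
      have s0 := ae_restrict_of_ae (s := Ω) (Lp.coeFn_sub (g n 0) (x2 0))
      have s1 := ae_restrict_of_ae (s := Ω) (Lp.coeFn_sub (g n 1) (x2 1))
      have s2 := ae_restrict_of_ae (s := Ω) (Lp.coeFn_sub (g n 2) (x2 2))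
      have q0 := ae_restrict_of_ae (s := Ω) (hgφ n).1
      have q1 := ae_restrict_of_ae (s := Ω) (hgφ n).2.1
      have q2 := ae_restrict_of_ae (s := Ω) (hgφ n).2.2
      have w0 := ae_restrict_of_ae (s := Ω) hv2
      have w1 := ae_restrict_of_ae (s := Ω) hg0
      have w2 := ae_restrict_of_ae (s := Ω) hg1
      filter_upwards [r, s0, s1, s2, q0, q1, q2, w0, w1, w2] with x r s0 s1 s2 q0 q1 q2 w0 w1 w2
      have t0' : (g n - x2) 0 x = φ n x - v x := by
        have : (g n - x2) 0 = g n 0 - x2 0 := rfl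
        rw [this, s0, Pi.sub_apply, q0, ← w0 r]
      have t1' : (g n - x2) 1 x = dd 0 (φ n) x - dd 0 v x := by
        have : (g n - x2) 1 = g n 1 - x2 1 := rfl
        rw [this, s1, Pi.sub_apply, q1]
        have := w1 r
        linarith
      have t2' : (g n - x2) 2 x = dd 1 (φ n) x - dd 1 v x := by
        have : (g n - x2) 2 = g n 2 - x2 2 := rfl
        rw [this, s2, Pi.sub_apply, q2]
        have := w2 r
        linarith
      rw [t0', t1', t2', norm_clm_sq]
      simp only [dd, sub_apply]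
      ring
    have hsqi : ∀ (w : WW) (j : Fin 3), Integrable (fun x => (w j x) ^ 2) := fun w j =>
      (Lp.memLp (w j)).integrable_sq
    have hRi : ∀ n, Integrable (fun x => ((g n - x2) 0 x) ^ 2 + ((g n - x2) 1 x) ^ 2 +
          ((g n - x2) 2 x) ^ 2) := fun n =>
      ((hsqi _ 0).add (hsqi _ 1)).add (hsqi _ 2)
    refine ⟨φ, fun n => ⟨(hφ n).1, (hφ n).2.1, (hφ n).2.2, ?_⟩, ?_⟩
    · exact ((hRi n).integrableOn (s := Ω)).congr (hsplit n).symm
    · have hle : ∀ n, ∫ x in Ω, ((φ n x - v x) ^ 2 + ‖fderiv ℝ (φ n) x - fderiv ℝ v x‖ ^ 2) ≤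
          ‖g n - x2‖ ^ 2 := by
        intro n
        rw [integral_congr_ae (hsplit n)]
        refine (setIntegral_le_integral (hRi n) (Eventually.of_forall fun x => by
          show 0 ≤ ((g n - x2) 0 x) ^ 2 + ((g n - x2) 1 x) ^ 2 + ((g n - x2) 2 x) ^ 2
          positivity)).trans ?_
        rw [norm_sq_WW, norm_sq_L2 ((g n - x2) 0) (ae_eq_refl _),
          norm_sq_L2 ((g n - x2) 1) (ae_eq_refl _), norm_sq_L2 ((g n - x2) 2) (ae_eq_refl _)]
        refine le_of_eq ?_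
        rw [integral_add, integral_add]
        · exact hsqi _ 0
        · exact hsqi _ 1
        · exact (hsqi _ 0).add (hsqi _ 1)
        · exact hsqi _ 2
      have hlim : Tendsto (fun n => ‖g n - x2‖ ^ 2) atTop (𝓝 0) := by
        have := (tendsto_iff_norm_sub_tendsto_zero.1 hglim).pow 2
        simpa using this
      refine tendsto_of_tendsto_of_tendsto_of_le_of_le tendsto_const_nhds hlim (fun n => ?_) hle
      exact integral_nonneg fun x => by positivity
  · intro z t h1 h2 h3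
    refine (hv4 z t h1 h2 h3).trans (le_of_eq ?_)
    congr 1
    refine setIntegral_congr_ae measurableSet_ball ?_
    filter_upwards [hv2] with y hy hyb
    have : y ∈ Ω := h3 (ball_subset_closedBall ((ball_subset_ball (by linarith)) hyb))
    rw [hy this]

end Pool.Agent.Helper546
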