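import Pool.Agent.Helper546.Weyl
set_option autoImplicit false
open MeasureTheory Metric Set Filter Topology
open scoped ContDiff InnerProductSpace Convolution

namespace Pool.Agent.Helper546

/-- Jensen type inequality on the unit interval -/
theorem sq_intervalIntegral_le {g : ℝ → ℝ} (hg : Continuous g) :
    (∫ s in (0 : ℝ)..1, g s) ^ 2 ≤ ∫ s in (0 : ℝ)..1, g s ^ 2 := by
  set c := ∫ s in (0 : ℝ)..1, g s with hc
  have h1 : 0 ≤ ∫ s in (0 : ℝ)..1, (g s - c) ^ 2 :=
    intervalIntegral.integral_nonneg zero_le_one fun s _ => sq_nonneg _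
  have h2 : ∫ s in (0 : ℝ)..1, (g s - c) ^ 2 = (∫ s in (0 : ℝ)..1, g s ^ 2) - c ^ 2 := by
    have e : ∀ s, (g s - c) ^ 2 = g s ^ 2 - (2 * c) * g s + c ^ 2 := fun s => by ring
    simp only [e]
    rw [intervalIntegral.integral_add, intervalIntegral.integral_sub,
      intervalIntegral.integral_const_mul, ← hc]
    · simp; ring
    · exact (hg.pow 2).intervalIntegrable _ _
    · exact (continuous_const.mul hg).intervalIntegrable _ _
    · exact ((hg.pow 2).sub (continuous_const.mul hg)).intervalIntegrable _ _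
    · exact intervalIntegrable_const
  linarith

/-- translation estimate -/
theorem translation_sq {φ : V → ℝ} (hφ : Tst Set.univ φ) (y : V) :
    ∫ x, (φ x - φ (x - y)) ^ 2 ≤ ‖y‖ ^ 2 * ∫ x, ‖fderiv ℝ φ x‖ ^ 2 := by
  have hdc : Continuous (fderiv ℝ φ) := hφ.1.continuous_fderiv (by simp)
  have hcsd : HasCompactSupport (fderiv ℝ φ) := hφ.2.1.fderiv ℝ
  set D : V → ℝ := fun x => ‖fderiv ℝ φ x‖ ^ 2 with hD
  have hDc : Continuous D := hdc.norm.pow 2
  have hDs : HasCompactSupport D := by
    have := hcsd.norm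
    exact this.comp_left (g := fun t : ℝ => t ^ 2) (by simp)
  have hDi : Integrable D := hDc.integrable_of_hasCompactSupport hDs
  have hpt : ∀ x, (φ x - φ (x - y)) ^ 2 ≤ ‖y‖ ^ 2 * ∫ s in (0 : ℝ)..1, D (x - y + s • y) := by
    intro x
    have h1 : ∀ s : ℝ, HasDerivAt (fun s : ℝ => φ (x - y + s • y))
        (fderiv ℝ φ (x - y + s • y) y) s := by
      intro s
      have h2 : HasDerivAt (fun s : ℝ => x - y + s • y) y s := by
        simpa using ((hasDerivAt_id s).smul_const y).const_add (x - y)
      exact (hφ.1.differentiable (by simp) _).hasFDerivAt.comp_hasDerivAt s h2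
    have hc : Continuous (fun s : ℝ => fderiv ℝ φ (x - y + s • y) y) := by fun_prop
    have h3 := intervalIntegral.integral_eq_sub_of_hasDerivAt (a := 0) (b := 1)
      (fun s _ => h1 s) (hc.intervalIntegrable _ _)
    simp only [one_smul, sub_add_cancel, zero_smul, add_zero] at h3
    rw [← h3]
    refine (sq_intervalIntegral_le hc).trans ?_
    rw [← intervalIntegral.integral_const_mul]
    refine intervalIntegral.integral_mono_on zero_le_one ((hc.pow 2).intervalIntegrable _ _)
      ?_ (fun s _ => ?_)
    · have : Continuous fun s : ℝ => ‖y‖ ^ 2 * D (x - y + s • y) := by fun_prop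
      exact this.intervalIntegrable _ _
    · have h4 := (fderiv ℝ φ (x - y + s • y)).le_opNorm y
      rw [Real.norm_eq_abs] at h4
      have h5 : 0 ≤ |fderiv ℝ φ (x - y + s • y) y| := abs_nonneg _
      calc fderiv ℝ φ (x - y + s • y) y ^ 2 = |fderiv ℝ φ (x - y + s • y) y| ^ 2 :=
            (sq_abs _).symm
        _ ≤ (‖fderiv ℝ φ (x - y + s • y)‖ * ‖y‖) ^ 2 := by gcongr
        _ = ‖y‖ ^ 2 * D (x - y + s • y) := by simp only [hD]; ring
  -- integrability on the product
  obtain ⟨R, hR⟩ : ∃ R : ℝ, ∀ x : V, R ≤ ‖x‖ → D x = 0 := by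
    obtain ⟨R, hR⟩ := hDs.isCompact.isBounded.exists_norm_le
    refine ⟨R + 1, fun x hx => ?_⟩
    by_contra h
    have := hR x (subset_tsupport _ h)
    linarith
  obtain ⟨C, hC⟩ : ∃ C, ∀ x, D x ≤ C := by
    obtain ⟨C, hC⟩ := hDc.bounded_above_of_compact_support hDs
    exact ⟨C, fun x => (le_abs_self _).trans (hC x)⟩
  have hjoint : Integrable (Function.uncurry fun (x : V) (s : ℝ) => D (x - y + s • y))
      ((volume : Measure V).prod (volume.restrict (Ioc (0 : ℝ) 1))) := by
    have hcont : Continuous (Function.uncurry fun (x : V) (s : ℝ) => D (x - y + s • y)) := by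
      have : Continuous fun p : V × ℝ => D (p.1 - y + p.2 • y) := by fun_prop
      exact this
    have hae : ∀ᵐ p ∂((volume : Measure V).prod (volume.restrict (Ioc (0 : ℝ) 1))),
        p.2 ∈ Ioc (0 : ℝ) 1 := by
      have : ∀ᵐ s ∂(volume.restrict (Ioc (0 : ℝ) 1)), s ∈ Ioc (0 : ℝ) 1 :=
        ae_restrict_mem measurableSet_Ioc
      exact Measure.quasiMeasurePreserving_snd.ae this
    refine Integrable.mono' (g := (closedBall (0 : V) (R + ‖y‖) ×ˢ (univ : Set ℝ)).indicator
      (fun _ => C)) ?_ hcont.aestronglyMeasurable ?_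
    · rw [integrable_indicator_iff (measurableSet_closedBall.prod MeasurableSet.univ)]
      refine integrableOn_const ?_
      rw [Measure.prod_prod]
      refine ENNReal.mul_ne_top measure_closedBall_lt_top.ne ?_
      simp
    · filter_upwards [hae] with p hp
      by_cases hx : p ∈ closedBall (0 : V) (R + ‖y‖) ×ˢ (univ : Set ℝ)
      · rw [indicator_of_mem hx]
        simp only [Function.uncurry]
        rw [Real.norm_eq_abs, abs_of_nonneg (by positivity)]
        exact hC _
      · rw [indicator_of_notMem hx]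
        simp only [mem_prod, mem_closedBall, dist_zero_right, mem_univ, and_true, not_le] at hx
        simp only [Function.uncurry]
        rw [hR, norm_zero]
        have e1 : p.1 - y + p.2 • y = p.1 - (1 - p.2) • y := by
          rw [sub_smul, one_smul]; abel
        rw [e1]
        have h5 : ‖(1 - p.2) • y‖ ≤ ‖y‖ := by
          rw [norm_smul, Real.norm_eq_abs, abs_of_nonneg (by linarith [hp.2])]
          nlinarith [norm_nonneg y, hp.1]
        have h6 := norm_sub_norm_le p.1 ((1 - p.2) • y)
        linarith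
  have hL : Integrable (fun x => (φ x - φ (x - y)) ^ 2) := by
    have h1 : Continuous (fun x => (φ x - φ (x - y)) ^ 2) := by
      have := hφ.1.continuous
      fun_prop
    refine h1.integrable_of_hasCompactSupport ?_
    have h2 : HasCompactSupport (fun x => φ (x - y)) :=
      hφ.2.1.comp_homeomorph (Homeomorph.subRight y)
    exact (hφ.2.1.sub h2).comp_left (g := fun t : ℝ => t ^ 2) (by simp)
  calc ∫ x, (φ x - φ (x - y)) ^ 2
      ≤ ∫ x, ‖y‖ ^ 2 * ∫ s in (0 : ℝ)..1, D (x - y + s • y) := by
        refine integral_mono hL ?_ hpt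
        refine Integrable.const_mul ?_ _
        simp only [intervalIntegral.integral_of_le zero_le_one]
        exact hjoint.integral_prod_left
    _ = ‖y‖ ^ 2 * ∫ x, ∫ s in Ioc (0 : ℝ) 1, D (x - y + s • y) := by
        rw [integral_const_mul]
        simp only [intervalIntegral.integral_of_le zero_le_one]
    _ = ‖y‖ ^ 2 * ∫ s in Ioc (0 : ℝ) 1, ∫ x, D (x - y + s • y) := by
        rw [integral_integral_swap hjoint]
    _ = ‖y‖ ^ 2 * ∫ x, D x := by
        congr 1
        have : ∀ s : ℝ, ∫ x, D (x - y + s • y) = ∫ x, D x := by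
          intro s
          have h := integral_sub_right_eq_self (μ := (volume : Measure V)) D (y - s • y)
          rw [← h]
          congr 1; funext x; congr 1; abel
        simp only [this]
        simp

/-- mollification error -/
theorem moll_error {φ : V → ℝ} (hφ : Tst Set.univ φ) (n : ℕ) :
    ∫ x, (φ x - moll φ n x) ^ 2 ≤ (bmp n).rOut ^ 2 * ∫ x, ‖fderiv ℝ φ x‖ ^ 2 := by
  set ρ : V → ℝ := (bmp n).normed volume with hρ
  have hρt : Tst Set.univ ρ := tst_bmp n
  have hρc : Continuous ρ := hρt.1.continuous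
  have hφc : Continuous φ := hφ.1.continuous
  have hρ0 : ∀ y, 0 ≤ ρ y := (bmp n).nonneg_normed
  have hρ1 : ∫ y, ρ y = 1 := (bmp n).integral_normed
  have hρi : Integrable ρ := hρc.integrable_of_hasCompactSupport hρt.2.1
  set D := ∫ x, ‖fderiv ℝ φ x‖ ^ 2 with hD
  have hD0 : 0 ≤ D := integral_nonneg fun x => by positivity
  have hφul : LocallyIntegrable φ := hφc.locallyIntegrable
  -- support bound of ρ
  have hρs : ∀ y : V, (bmp n).rOut ≤ ‖y‖ → ρ y = 0 := by
    intro y hy
    have h1 : y ∉ Function.support ρ := by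
      rw [hρ, (bmp n).support_normed_eq]
      simp only [mem_ball, dist_zero_right, not_lt]
      exact hy
    simpa using h1
  have hi1 : ∀ x, Integrable (fun y => ρ y * (φ x - φ (x - y))) := by
    intro x
    have : Continuous fun y => φ x - φ (x - y) := by fun_prop
    exact (hρc.mul this).integrable_of_hasCompactSupport (hρt.2.1.mul_right)
  have hi2 : ∀ x, Integrable (fun y => ρ y * (φ x - φ (x - y)) ^ 2) := by
    intro x
    have : Continuous fun y => (φ x - φ (x - y)) ^ 2 := by fun_prop
    exact (hρc.mul this).integrable_of_hasCompactSupport (hρt.2.1.mul_right)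
  have hpt : ∀ x, (φ x - moll φ n x) ^ 2 ≤ ∫ y, ρ y * (φ x - φ (x - y)) ^ 2 := by
    intro x
    have e1 : φ x - moll φ n x = ∫ y, ρ y * (φ x - φ (x - y)) := by
      have h1 : moll φ n x = ∫ y, ρ y * φ (x - y) := by
        rw [moll_eq]; rfl
      have h2 : Integrable (fun y => ρ y * φ (x - y)) := by
        have : Continuous fun y => φ (x - y) := by fun_prop
        exact (hρc.mul this).integrable_of_hasCompactSupport (hρt.2.1.mul_right)
      rw [h1]
      have h3 : φ x = ∫ y, ρ y * φ x := by rw [integral_mul_const, hρ1, one_mul]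
      conv_lhs => rw [h3]
      rw [← integral_sub (hρi.mul_const _) h2]
      congr 1; funext y; ring
    set c := ∫ y, ρ y * (φ x - φ (x - y)) with hc
    have h1 : 0 ≤ ∫ y, ρ y * (φ x - φ (x - y) - c) ^ 2 :=
      integral_nonneg fun y => mul_nonneg (hρ0 y) (sq_nonneg _)
    have h2 : ∫ y, ρ y * (φ x - φ (x - y) - c) ^ 2 =
        (∫ y, ρ y * (φ x - φ (x - y)) ^ 2) - c ^ 2 := by
      have e : ∀ y, ρ y * (φ x - φ (x - y) - c) ^ 2 =
          ρ y * (φ x - φ (x - y)) ^ 2 - (2 * c) * (ρ y * (φ x - φ (x - y))) + c ^ 2 * ρ y :=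
        fun y => by ring
      simp only [e]
      rw [integral_add, integral_sub, integral_const_mul, integral_const_mul, ← hc, hρ1]
      · ring
      · exact hi2 x
      · exact (hi1 x).const_mul _
      · exact (hi2 x).sub ((hi1 x).const_mul _)
      · exact hρi.const_mul _
    rw [e1]
    linarith
  -- joint integrability
  obtain ⟨R, hR0, hR⟩ : ∃ R : ℝ, 0 ≤ R ∧ ∀ x : V, R ≤ ‖x‖ → φ x = 0 := by
    obtain ⟨R, hR⟩ := hφ.2.1.isCompact.isBounded.exists_norm_le
    refine ⟨max R 0 + 1, by positivity, fun x hx => ?_⟩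
    by_contra h
    have h1 := hR x (subset_tsupport _ h)
    have h2 := le_max_left R 0
    linarith
  have hjc : Continuous (Function.uncurry fun (x y : V) => ρ y * (φ x - φ (x - y)) ^ 2) := by
    have : Continuous fun p : V × V => ρ p.2 * (φ p.1 - φ (p.1 - p.2)) ^ 2 := by fun_prop
    exact this
  have hjs : HasCompactSupport (Function.uncurry fun (x y : V) => ρ y * (φ x - φ (x - y)) ^ 2) := by
    refine HasCompactSupport.of_support_subset_isCompact
      ((isCompact_closedBall (0 : V) (R + (bmp n).rOut)).prod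
        (isCompact_closedBall (0 : V) (bmp n).rOut)) ?_
    rintro ⟨x, y⟩ hxy
    simp only [Function.mem_support, Function.uncurry_apply_pair] at hxy
    simp only [mem_prod, mem_closedBall, dist_zero_right]
    have hy : ‖y‖ ≤ (bmp n).rOut := by
      by_contra h
      push Not at h
      rw [hρs y h.le] at hxy
      simp at hxy
    refine ⟨?_, hy⟩
    by_contra h
    push Not at h
    have h1 : φ x = 0 := hR x (by linarith [(bmp n).rOut_pos])
    have h2 : φ (x - y) = 0 := hR _ (by
      have := norm_sub_norm_le x y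
      linarith)
    rw [h1, h2] at hxy
    simp at hxy
  have hjoint : Integrable (Function.uncurry fun (x y : V) => ρ y * (φ x - φ (x - y)) ^ 2)
      ((volume : Measure V).prod volume) :=
    hjc.integrable_of_hasCompactSupport hjs
  have hmc : Continuous (moll φ n) := (contDiff_cv hρt hφul).continuous
  have hms : HasCompactSupport (moll φ n) := by
    exact HasCompactSupport.convolution (ContinuousLinearMap.lsmul ℝ ℝ) hφ.2.1 hρt.2.1
  have hL : Integrable (fun x => (φ x - moll φ n x) ^ 2) := by
    refine Continuous.integrable_of_hasCompactSupport (by fun_prop) ?_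
    exact (hφ.2.1.sub hms).comp_left (g := fun t : ℝ => t ^ 2) (by simp)
  calc ∫ x, (φ x - moll φ n x) ^ 2 ≤ ∫ x, ∫ y, ρ y * (φ x - φ (x - y)) ^ 2 :=
        integral_mono hL hjoint.integral_prod_left hpt
    _ = ∫ y, ∫ x, ρ y * (φ x - φ (x - y)) ^ 2 := integral_integral_swap hjoint
    _ ≤ ∫ y, ρ y * ((bmp n).rOut ^ 2 * D) := by
        refine integral_mono hjoint.integral_prod_right (hρi.mul_const _) (fun y => ?_)
        show ∫ x, ρ y * (φ x - φ (x - y)) ^ 2 ≤ ρ y * ((bmp n).rOut ^ 2 * D)
        rw [integral_const_mul]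
        by_cases hy : (bmp n).rOut ≤ ‖y‖
        · rw [hρs y hy]; simp
        · push Not at hy
          refine mul_le_mul_of_nonneg_left ((translation_sq hφ y).trans ?_) (hρ0 y)
          have := norm_nonneg y
          gcongr
    _ = (bmp n).rOut ^ 2 * D := by rw [integral_mul_const, hρ1, one_mul]

end Pool.Agent.Helper546
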