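import Pool.Agent.Helper546.Rellich
import Pool.Agent.Helper546.Abstract
set_option autoImplicit false
open MeasureTheory Metric Set Filter Topology
open scoped ContDiff InnerProductSpace Convolution

namespace Pool.Agent.Helper546

noncomputable abbrev L2 := Lp ℝ 2 (volume : Measure V)
noncomputable abbrev WW := PiLp 2 (fun _ : Fin 3 => L2)

theorem inner_L2 (f g : L2) {F G : V → ℝ} (hf : f =ᵐ[volume] F) (hg : g =ᵐ[volume] G) :
    ⟪f, g⟫_ℝ = ∫ x, F x * G x := by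
  rw [MeasureTheory.L2.inner_def]
  refine integral_congr_ae ?_
  filter_upwards [hf, hg] with x h1 h2
  rw [h1, h2]
  simp [mul_comm]

theorem norm_sq_L2 (f : L2) {F : V → ℝ} (hf : f =ᵐ[volume] F) : ‖f‖ ^ 2 = ∫ x, F x ^ 2 := by
  rw [← real_inner_self_eq_norm_sq, inner_L2 f f hf hf]
  congr 1; funext x; ring

/-- the pair (function, gradient) represents a test function -/
def Gr (φ : V → ℝ) (x : WW) : Prop :=
  x 0 =ᵐ[volume] φ ∧ x 1 =ᵐ[volume] dd 0 φ ∧ x 2 =ᵐ[volume] dd 1 φ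

theorem dd_add {f g : V → ℝ} (hf : Differentiable ℝ f) (hg : Differentiable ℝ g) (i : Fin 2) :
    dd i (f + g) = dd i f + dd i g := by
  funext x
  rw [dd, fderiv_add (hf x) (hg x)]
  rfl

theorem dd_smul {f : V → ℝ} (hf : Differentiable ℝ f) (c : ℝ) (i : Fin 2) :
    dd i (c • f) = c • dd i f := by
  funext x
  rw [dd, fderiv_const_smul (hf x)]
  rfl

theorem Tst.diff {Ω : Set V} {φ : V → ℝ} (h : Tst Ω φ) : Differentiable ℝ φ :=
  h.1.differentiable (by simp)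

theorem Gr.add {Ω : Set V} {φ ψ : V → ℝ} {x y : WW} (hφ : Tst Ω φ) (hψ : Tst Ω ψ)
    (hx : Gr φ x) (hy : Gr ψ y) : Gr (φ + ψ) (x + y) := by
  refine ⟨?_, ?_, ?_⟩
  · exact (Lp.coeFn_add (x 0) (y 0)).trans (hx.1.add hy.1)
  · rw [dd_add hφ.diff hψ.diff]
    exact (Lp.coeFn_add (x 1) (y 1)).trans (hx.2.1.add hy.2.1)
  · rw [dd_add hφ.diff hψ.diff]
    exact (Lp.coeFn_add (x 2) (y 2)).trans (hx.2.2.add hy.2.2)

theorem Gr.smul {Ω : Set V} {φ : V → ℝ} {x : WW} (hφ : Tst Ω φ) (hx : Gr φ x) (c : ℝ) :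
    Gr (c • φ) (c • x) := by
  refine ⟨?_, ?_, ?_⟩
  · exact (Lp.coeFn_smul c (x 0)).trans (hx.1.const_smul c)
  · rw [dd_smul hφ.diff]
    exact (Lp.coeFn_smul c (x 1)).trans (hx.2.1.const_smul c)
  · rw [dd_smul hφ.diff]
    exact (Lp.coeFn_smul c (x 2)).trans (hx.2.2.const_smul c)

theorem Gr.zero : Gr (0 : V → ℝ) (0 : WW) := by
  have h : ∀ i : Fin 2, dd i (0 : V → ℝ) = 0 := by
    intro i; funext x; simp [dd]
  refine ⟨Lp.coeFn_zero _ _ _, ?_, ?_⟩
  · rw [h]; exact Lp.coeFn_zero _ _ _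
  · rw [h]; exact Lp.coeFn_zero _ _ _

/-- smooth compactly supported part -/
noncomputable def H0 (Ω : Set V) : Submodule ℝ WW where
  carrier := {x | ∃ φ, Tst Ω φ ∧ Gr φ x}
  add_mem' := by
    rintro x y ⟨φ, hφ, hx⟩ ⟨ψ, hψ, hy⟩
    exact ⟨φ + ψ, hφ.add hψ, hx.add hφ hψ hy⟩
  zero_mem' := ⟨0, Tst.zero, Gr.zero⟩
  smul_mem' := by
    rintro c x ⟨φ, hφ, hx⟩
    exact ⟨c • φ, hφ.smul c, hx.smul hφ c⟩

/-- the Sobolev space of functions vanishing on the boundary -/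
noncomputable def HH (Ω : Set V) : Submodule ℝ WW := (H0 Ω).topologicalClosure

theorem isClosed_HH (Ω : Set V) : IsClosed (HH Ω : Set WW) :=
  (H0 Ω).isClosed_topologicalClosure

theorem exists_Gr {Ω : Set V} {φ : V → ℝ} (hφ : Tst Ω φ) : ∃ x : WW, Gr φ x := by
  have h0 : MemLp φ 2 := hφ.1.continuous.memLp_of_hasCompactSupport hφ.2.1
  have h1 : ∀ i, MemLp (dd i φ) 2 := fun i =>
    (hφ.dd i).1.continuous.memLp_of_hasCompactSupport (hφ.dd i).2.1
  refine ⟨WithLp.toLp 2 ![h0.toLp φ, (h1 0).toLp _, (h1 1).toLp _], ?_, ?_, ?_⟩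
  · exact h0.coeFn_toLp
  · exact (h1 0).coeFn_toLp
  · exact (h1 1).coeFn_toLp

/-- first component -/
noncomputable def io : WW →L[ℝ] L2 := PiLp.proj 2 (fun _ : Fin 3 => L2) 0

theorem io_apply (x : WW) : io x = x 0 := rfl

theorem norm_sq_WW (x : WW) : ‖x‖ ^ 2 = ‖x 0‖ ^ 2 + ‖x 1‖ ^ 2 + ‖x 2‖ ^ 2 := by
  rw [PiLp.norm_sq_eq_of_L2, Fin.sum_univ_three]

theorem norm_io_le (x : WW) : ‖io x‖ ≤ ‖x‖ := by
  have := norm_sq_WW x
  rw [io_apply]
  exact (sq_le_sq₀ (norm_nonneg _) (norm_nonneg _)).1 (by nlinarith [sq_nonneg ‖x 1‖, sq_nonneg ‖x 2‖])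

/-- Dirichlet form -/
noncomputable def DD (x : WW) : ℝ := ‖x 1‖ ^ 2 + ‖x 2‖ ^ 2

theorem integrable_sq_of_tst {Ω : Set V} {φ : V → ℝ} (hφ : Tst Ω φ) :
    Integrable (fun x => φ x ^ 2) :=
  (hφ.1.continuous.memLp_of_hasCompactSupport hφ.2.1 (p := 2)).integrable_sq

theorem DD_Gr {Ω : Set V} {φ : V → ℝ} {x : WW} (hφ : Tst Ω φ) (hx : Gr φ x) :
    DD x = ∫ y, ‖fderiv ℝ φ y‖ ^ 2 := by
  rw [DD, norm_sq_L2 _ hx.2.1, norm_sq_L2 _ hx.2.2,
    ← integral_add (integrable_sq_of_tst (hφ.dd 0)) (integrable_sq_of_tst (hφ.dd 1))]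
  congr 1; funext y
  rw [norm_fderiv_sq]

theorem sq_setIntegral_le {S : Set V} (hSf : volume S ≠ ⊤) {f : V → ℝ}
    (h1 : IntegrableOn f S) (h2 : IntegrableOn (fun x => f x ^ 2) S) :
    (∫ x in S, f x) ^ 2 ≤ (volume : Measure V).real S * ∫ x in S, f x ^ 2 := by
  set κ := (volume : Measure V).real S with hκ
  set m := ∫ x in S, f x with hm
  have hκ0 : 0 ≤ κ := measureReal_nonneg
  rcases hκ0.eq_or_lt with h0 | h0
  · have : volume S = 0 := by
      rw [hκ, Measure.real, eq_comm, ENNReal.toReal_eq_zero_iff] at h0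
      exact h0.resolve_right hSf
    have hm0 : m = 0 := by
      rw [hm, Measure.restrict_eq_zero.2 this]; simp
    rw [hm0, ← h0]; simp
  · have hsq : 0 ≤ ∫ x in S, (κ * f x - m) ^ 2 := integral_nonneg fun x => sq_nonneg _
    have hexp : ∫ x in S, (κ * f x - m) ^ 2 = κ ^ 2 * (∫ x in S, f x ^ 2) - κ * m ^ 2 := by
      have h7 : ∀ x, (κ * f x - m) ^ 2 = κ ^ 2 * f x ^ 2 - (2 * κ * m) * f x + m ^ 2 :=
        fun x => by ring
      simp only [h7]
      rw [integral_add, integral_sub, integral_const_mul, integral_const_mul, setIntegral_const,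
        ← hκ, ← hm, smul_eq_mul]
      · ring
      · exact h2.const_mul _
      · exact h1.const_mul _
      · exact (h2.const_mul _).sub (h1.const_mul _)
      · exact integrableOn_const hSf
    rw [hexp] at hsq
    have h10 : 0 ≤ κ * (κ * (∫ x in S, f x ^ 2) - m ^ 2) := by linarith
    have := nonneg_of_mul_nonneg_right h10 h0
    linarith

theorem rellich_ineq {Ω : Set V} (hΩ : Ω ⊆ ball 0 1) {ε : ℝ} (hε : 0 < ε) :
    ∃ (M : ℕ) (ℓ : WW →L[ℝ] (Fin M → ℝ)), ∀ x ∈ HH Ω, ‖io x‖ ≤ ε * ‖x‖ + ‖ℓ x‖ := by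
  classical
  obtain ⟨n, hn⟩ : ∃ n, (bmp n).rOut ≤ ε / 2 := by
    have h := (tendsto_order.1 tendsto_bmp).2 (ε / 2) (by positivity)
    obtain ⟨n, hn⟩ := h.exists
    exact ⟨n, hn.le⟩
  set ρ : V → ℝ := (bmp n).normed volume with hρ
  have hρt : Tst Set.univ ρ := tst_bmp n
  have hρc : Continuous ρ := hρt.1.continuous
  have hr1 : (bmp n).rOut ≤ 1 := by
    show 1 / ((n : ℝ) + 1) ≤ 1
    rw [div_le_one (by positivity)]
    have : (0 : ℝ) ≤ n := Nat.cast_nonneg n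
    linarith
  set κ1 : ℝ := (volume : Measure V).real (closedBall (0 : V) 2) with hκ1
  set κ0 : ℝ := (volume : Measure V).real (ball (0 : V) 1) with hκ0
  have hκ1n : 0 ≤ κ1 := measureReal_nonneg
  have hκ0n : 0 ≤ κ0 := measureReal_nonneg
  set η : ℝ := ε / (2 * (Real.sqrt κ1 * Real.sqrt κ0 + 1)) with hη
  have hs1 := Real.sqrt_nonneg κ1
  have hs0 := Real.sqrt_nonneg κ0
  have hηp : 0 < η := by positivity
  have hηε : Real.sqrt κ1 * (η * Real.sqrt κ0) ≤ ε / 2 := by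
    rw [hη]
    have : 0 ≤ Real.sqrt κ1 * Real.sqrt κ0 := by positivity
    have e : Real.sqrt κ1 * (ε / (2 * (Real.sqrt κ1 * Real.sqrt κ0 + 1)) * Real.sqrt κ0) =
        (ε / 2) * ((Real.sqrt κ1 * Real.sqrt κ0) / (Real.sqrt κ1 * Real.sqrt κ0 + 1)) := by
      field_simp
    rw [e]
    have h2 : (Real.sqrt κ1 * Real.sqrt κ0) / (Real.sqrt κ1 * Real.sqrt κ0 + 1) ≤ 1 := by
      rw [div_le_one (by positivity)]; linarith
    nlinarith
  obtain ⟨r, hr, hur⟩ : ∃ r > 0, ∀ a b : V, dist a b < r → |ρ a - ρ b| ≤ η := by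
    have huc : UniformContinuous ρ := hρt.2.1.uniformContinuous_of_continuous hρc
    rw [Metric.uniformContinuous_iff] at huc
    obtain ⟨r, hr, h⟩ := huc η hηp
    exact ⟨r, hr, fun a b hab => by have := h hab; rw [Real.dist_eq] at this; exact this.le⟩
  obtain ⟨t, -, htf, htc⟩ := (isCompact_closedBall (0 : V) 2).finite_cover_balls hr
  set M := htf.toFinset.card with hM
  let c : Fin M → V := fun i => ((htf.toFinset.equivFin).symm i).1
  have hcov : ∀ x ∈ closedBall (0 : V) 2, ∃ j, dist x (c j) < r := by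
    intro x hx
    have h1 := htc hx
    simp only [mem_iUnion, mem_ball, exists_prop] at h1
    obtain ⟨y, hy, hxy⟩ := h1
    refine ⟨htf.toFinset.equivFin ⟨y, htf.mem_toFinset.2 hy⟩, ?_⟩
    simpa [c] using hxy
  have hρj : ∀ j, MemLp (fun s => ρ (c j - s)) 2 (volume : Measure V) := by
    intro j
    refine Continuous.memLp_of_hasCompactSupport (by fun_prop) ?_
    exact hρt.2.1.comp_homeomorph (Homeomorph.subLeft (c j))
  let ℓj : Fin M → (WW →L[ℝ] ℝ) := fun j => (innerSL ℝ ((hρj j).toLp _)).comp io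
  let ℓ : WW →L[ℝ] (Fin M → ℝ) := Real.sqrt κ1 • ContinuousLinearMap.pi ℓj
  refine ⟨M, ℓ, ?_⟩
  -- closedness
  have hclosed : IsClosed {x : WW | ‖io x‖ ≤ ε * ‖x‖ + ‖ℓ x‖} := by
    refine isClosed_le (by fun_prop) (by fun_prop)
  intro x hx
  have hmem : x ∈ closure (H0 Ω : Set WW) := hx
  refine closure_minimal (s := (H0 Ω : Set WW)) ?_ hclosed hmem
  rintro x ⟨φ, hφ, hx⟩
  show ‖io x‖ ≤ ε * ‖x‖ + ‖ℓ x‖
  have hφc : Continuous φ := hφ.1.continuous
  have hφul : LocallyIntegrable φ := hφc.locallyIntegrable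
  have hφs : ∀ y, y ∉ ball (0 : V) 1 → φ y = 0 := fun y hy => by
    by_contra h
    exact hy (hΩ (hφ.2.2 (subset_tsupport _ h)))
  have hx0 : ‖x 0‖ ^ 2 = ∫ y, φ y ^ 2 := norm_sq_L2 _ hx.1
  have hℓj : ∀ j, ℓj j x = moll φ n (c j) := by
    intro j
    show ⟪(hρj j).toLp _, x 0⟫_ℝ = moll φ n (c j)
    rw [inner_L2 _ _ (hρj j).coeFn_toLp hx.1, moll, cv_apply]
    congr 1; funext s; ring
  -- L1 bound
  have hL1 : ∫ y, |φ y| ≤ Real.sqrt κ0 * ‖x 0‖ := by
    have e1 : ∫ y, |φ y| = ∫ y in ball (0 : V) 1, |φ y| := by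
      rw [← integral_indicator measurableSet_ball]
      congr 1; funext y
      by_cases hy : y ∈ ball (0 : V) 1
      · rw [indicator_of_mem hy]
      · rw [indicator_of_notMem hy, hφs y hy, abs_zero]
    have hi : Integrable (fun y => |φ y|) :=
      (hφc.integrable_of_hasCompactSupport hφ.2.1).abs
    have h2 := sq_setIntegral_le (S := ball (0 : V) 1) measure_ball_lt_top.ne
      (f := fun y => |φ y|) hi.integrableOn (by
        simp only [sq_abs]; exact (integrable_sq_of_tst hφ).integrableOn)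
    simp only [sq_abs] at h2
    have h3 : ∫ y in ball (0 : V) 1, φ y ^ 2 ≤ ‖x 0‖ ^ 2 := by
      rw [hx0]
      exact setIntegral_le_integral (integrable_sq_of_tst hφ)
        (Eventually.of_forall fun y => sq_nonneg _)
    rw [e1]
    have h4 : (∫ y in ball (0 : V) 1, |φ y|) ^ 2 ≤ (Real.sqrt κ0 * ‖x 0‖) ^ 2 := by
      rw [mul_pow, Real.sq_sqrt hκ0n]
      exact h2.trans (mul_le_mul_of_nonneg_left h3 hκ0n)
    exact (sq_le_sq₀ (integral_nonneg fun y => abs_nonneg _) (by positivity)).1 h4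
  -- sup bound for the mollification
  set B := ‖ContinuousLinearMap.pi ℓj x‖ + η * (Real.sqrt κ0 * ‖x 0‖) with hB
  have hB0 : 0 ≤ B := by positivity
  have hsup : ∀ y ∈ closedBall (0 : V) 2, |moll φ n y| ≤ B := by
    intro y hy
    obtain ⟨j, hj⟩ := hcov y hy
    have h1 : |moll φ n y - moll φ n (c j)| ≤ η * ∫ s, |φ s| := by
      rw [moll, cv_apply, cv_apply, ← integral_sub]
      · rw [← integral_const_mul, ← Real.norm_eq_abs]
        refine norm_integral_le_of_norm_le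
          ((hφc.integrable_of_hasCompactSupport hφ.2.1).abs.const_mul η)
          (Eventually.of_forall fun s => ?_)
        rw [← mul_sub, norm_mul, Real.norm_eq_abs, Real.norm_eq_abs, mul_comm]
        refine mul_le_mul_of_nonneg_right (hur _ _ ?_) (abs_nonneg _)
        rw [dist_sub_right]; exact hj
      · exact (hφc.mul (hρc.comp (continuous_const.sub continuous_id))).integrable_of_hasCompactSupport
          (hφ.2.1.mul_right)
      · exact (hφc.mul (hρc.comp (continuous_const.sub continuous_id))).integrable_of_hasCompactSupport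
          (hφ.2.1.mul_right)
    have h2 : |moll φ n (c j)| ≤ ‖ContinuousLinearMap.pi ℓj x‖ := by
      rw [← hℓj j, ← Real.norm_eq_abs]
      exact norm_le_pi_norm (ContinuousLinearMap.pi ℓj x) j
    calc |moll φ n y| = |moll φ n (c j) + (moll φ n y - moll φ n (c j))| := by ring_nf
      _ ≤ |moll φ n (c j)| + |moll φ n y - moll φ n (c j)| := abs_add_le _ _
      _ ≤ ‖ContinuousLinearMap.pi ℓj x‖ + η * ∫ s, |φ s| := add_le_add h2 h1
      _ ≤ B := by rw [hB]; gcongr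
  have hmc : Continuous (moll φ n) := (contDiff_cv hρt hφul).continuous
  have hms : HasCompactSupport (moll φ n) :=
    HasCompactSupport.convolution (ContinuousLinearMap.lsmul ℝ ℝ) hφ.2.1 hρt.2.1
  have hm2 : MemLp (moll φ n) 2 (volume : Measure V) := hmc.memLp_of_hasCompactSupport hms
  have hmsupp : ∀ y, y ∉ closedBall (0 : V) 2 → moll φ n y = 0 := by
    intro y hy
    rw [moll, cv_apply]
    apply integral_eq_zero_of_ae
    refine Eventually.of_forall fun s => ?_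
    show φ s * ρ (y - s) = 0
    by_cases hs : s ∈ ball (0 : V) 1
    · have h1 : y - s ∉ Function.support ρ := by
        rw [hρ, (bmp n).support_normed_eq]
        simp only [mem_ball, dist_zero_right, not_lt, mem_closedBall, not_le] at hs hy ⊢
        have := norm_sub_norm_le y s
        linarith
      have h2 : ρ (y - s) = 0 := by simpa using h1
      rw [h2, mul_zero]
    · rw [hφs s hs, zero_mul]
  have hmn : ‖hm2.toLp (moll φ n)‖ ≤ Real.sqrt κ1 * B := by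
    have h1 : ‖hm2.toLp (moll φ n)‖ ^ 2 ≤ (Real.sqrt κ1 * B) ^ 2 := by
      rw [norm_sq_L2 _ hm2.coeFn_toLp, mul_pow, Real.sq_sqrt hκ1n]
      have e1 : ∫ y, moll φ n y ^ 2 = ∫ y in closedBall (0 : V) 2, moll φ n y ^ 2 := by
        rw [← integral_indicator measurableSet_closedBall]
        congr 1; funext y
        by_cases hy : y ∈ closedBall (0 : V) 2
        · rw [indicator_of_mem hy]
        · rw [indicator_of_notMem hy, hmsupp y hy]; simp
      rw [e1]
      calc ∫ y in closedBall (0 : V) 2, moll φ n y ^ 2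
          ≤ ∫ y in closedBall (0 : V) 2, B ^ 2 := by
            refine setIntegral_mono_on hm2.integrable_sq.integrableOn
              (integrableOn_const measure_closedBall_lt_top.ne) measurableSet_closedBall
              (fun y hy => ?_)
            rw [← sq_abs]
            have := hsup y hy
            gcongr
        _ = κ1 * B ^ 2 := by rw [setIntegral_const, smul_eq_mul]
    exact (sq_le_sq₀ (norm_nonneg _) (by positivity)).1 h1
  have herr : ‖x 0 - hm2.toLp (moll φ n)‖ ≤ ε / 2 * ‖x‖ := by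
    have h1 : ‖x 0 - hm2.toLp (moll φ n)‖ ^ 2 ≤ (ε / 2 * ‖x‖) ^ 2 := by
      have h2 : (x 0 - hm2.toLp (moll φ n) : L2) =ᵐ[volume] fun y => φ y - moll φ n y :=
        (Lp.coeFn_sub _ _).trans (hx.1.sub hm2.coeFn_toLp)
      rw [norm_sq_L2 _ h2]
      refine (moll_error hφ.univ n).trans ?_
      rw [← DD_Gr hφ hx, mul_pow]
      have h3 : DD x ≤ ‖x‖ ^ 2 := by
        rw [norm_sq_WW, DD]; nlinarith [sq_nonneg ‖x 0‖]
      have h4 : (0 : ℝ) ≤ (bmp n).rOut := (bmp n).rOut_pos.le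
      have h5 : 0 ≤ DD x := by unfold DD; positivity
      gcongr
    exact (sq_le_sq₀ (norm_nonneg _) (by positivity)).1 h1
  have hx0n : ‖x 0‖ ≤ ‖x‖ := norm_io_le x
  have hℓn : ‖ℓ x‖ = Real.sqrt κ1 * ‖ContinuousLinearMap.pi ℓj x‖ := by
    show ‖Real.sqrt κ1 • (ContinuousLinearMap.pi ℓj x)‖ = _
    rw [norm_smul, Real.norm_eq_abs, abs_of_nonneg hs1]
  rw [io_apply]
  calc ‖x 0‖ = ‖(x 0 - hm2.toLp (moll φ n)) + hm2.toLp (moll φ n)‖ := by rw [sub_add_cancel]
    _ ≤ ‖x 0 - hm2.toLp (moll φ n)‖ + ‖hm2.toLp (moll φ n)‖ := norm_add_le _ _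
    _ ≤ ε / 2 * ‖x‖ + Real.sqrt κ1 * B := add_le_add herr hmn
    _ = ε / 2 * ‖x‖ + (Real.sqrt κ1 * ‖ContinuousLinearMap.pi ℓj x‖ +
          Real.sqrt κ1 * (η * Real.sqrt κ0) * ‖x 0‖) := by rw [hB]; ring
    _ ≤ ε / 2 * ‖x‖ + (Real.sqrt κ1 * ‖ContinuousLinearMap.pi ℓj x‖ + ε / 2 * ‖x‖) := by
        gcongr
    _ = ε * ‖x‖ + ‖ℓ x‖ := by rw [hℓn]; ring

theorem totallyBounded_HH {Ω : Set V} (hΩ : Ω ⊆ ball 0 1) :
    TotallyBounded (io '' ((HH Ω : Set WW) ∩ closedBall 0 1)) := by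
  refine totallyBounded_of_finrank io _ (fun ε hε => ?_)
  obtain ⟨M, ℓ, h⟩ := rellich_ineq hΩ hε
  exact ⟨M, ℓ, fun x hx y hy => h _ ((HH Ω).sub_mem hx hy)⟩

end Pool.Agent.Helper546
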