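import Pool.Agent.Helper546.Blocks
set_option autoImplicit false
open MeasureTheory Metric Set Filter Topology
open scoped ContDiff InnerProductSpace

namespace Pool.Agent.Helper546

/-- solutions of the Helmholtz equation on the twisted domain with zero boundary values -/
structure Sol (Λ : ℝ) (f : V → ℝ) : Prop where
  cont : Continuous f
  zero : ∀ x, x ∉ Dom → f x = 0
  smooth : ContDiffOn ℝ ∞ f Dom
  helm : Helm Λ f Dom
  approx : Approx Dom f

theorem lap_congr {f g : V → ℝ} {x : V} (h : f =ᶠ[𝓝 x] g) : lap f x = lap g x := by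
  have h1 : ∀ i : Fin 2, ∀ {f g : V → ℝ}, f =ᶠ[𝓝 x] g → dd i f =ᶠ[𝓝 x] dd i g := by
    intro i f g h
    filter_upwards [h.fderiv (𝕜 := ℝ)] with y hy
    rw [dd, dd, hy]
  rw [lap, lap, (h1 0 (h1 0 h)).self_of_nhds, (h1 1 (h1 1 h)).self_of_nhds]

theorem exists_Sol : ∃ U : V → ℝ, Sol (sInf (SS Dom)) U ∧ (∃ x ∈ Dom, U x ≠ 0) ∧
    0 ≤ sInf (SS Dom) := by
  obtain ⟨v, hv1, ⟨x0, hx0, hx0v⟩, hΛ, hv2, hv3, C, t0, ht0, hv4⟩ :=
    second_eigen isOpen_Dom ⟨0, zero_mem_Dom⟩ Dom_subset_ball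
  have hev : ∀ x ∈ Dom, Dom.indicator v =ᶠ[𝓝 x] v := by
    intro x hx
    filter_upwards [isOpen_Dom.mem_nhds hx] with y hy
    rw [indicator_of_mem hy]
  refine ⟨Dom.indicator v, ⟨?_, ?_, ?_, ?_, ?_⟩, ⟨x0, hx0, ?_⟩, hΛ⟩
  · exact boundary_zero isOpen_Dom Dom_compl_nonempty circ_Dom hv1 hv3 ht0 hv4
  · exact fun x hx => indicator_of_notMem hx v
  · exact hv1.congr fun x hx => indicator_of_mem hx v
  · intro x hx
    rw [lap_congr (hev x hx), hv2 x hx, indicator_of_mem hx]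
  · obtain ⟨φ, hφ, hlim⟩ := hv3
    have heq : ∀ n, ∀ x ∈ Dom, (φ n x - v x) ^ 2 + ‖fderiv ℝ (φ n) x - fderiv ℝ v x‖ ^ 2 =
        (φ n x - Dom.indicator v x) ^ 2 +
          ‖fderiv ℝ (φ n) x - fderiv ℝ (Dom.indicator v) x‖ ^ 2 := by
      intro n x hx
      rw [indicator_of_mem hx, (hev x hx).fderiv_eq]
    refine ⟨φ, fun n => ⟨(hφ n).1, (hφ n).2.1, (hφ n).2.2.1, ?_⟩, ?_⟩
    · exact (hφ n).2.2.2.congr_fun (heq n) isOpen_Dom.measurableSet
    · refine hlim.congr fun n => ?_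
      exact setIntegral_congr_fun isOpen_Dom.measurableSet (heq n)
  · rw [indicator_of_mem hx0]; exact hx0v

theorem Sol.comb {Λ : ℝ} {f g : V → ℝ} (hf : Sol Λ f) (hg : Sol Λ g) (a b : ℝ) :
    Sol Λ (fun x => a * f x + b * g x) := by
  have sm : ∀ {f : V → ℝ}, Sol Λ f → ∀ x ∈ Dom, ContDiffAt ℝ ∞ f x := fun hf x hx =>
    hf.smooth.contDiffAt (isOpen_Dom.mem_nhds hx)
  have cfd : ∀ {f : V → ℝ}, ContDiffOn ℝ ∞ f Dom → ContinuousOn (fderiv ℝ f) Dom := fun hf =>
    hf.continuousOn_fderiv_of_isOpen isOpen_Dom (by simp)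
  have hsm : ContDiffOn ℝ ∞ (fun x => a * f x + b * g x) Dom :=
    (contDiffOn_const.mul hf.smooth).add (contDiffOn_const.mul hg.smooth)
  refine ⟨?_, ?_, hsm, ?_, ?_⟩
  · exact (continuous_const.mul hf.cont).add (continuous_const.mul hg.cont)
  · intro x hx
    rw [hf.zero x hx, hg.zero x hx]; ring
  · intro x hx
    rw [lap_comb ((sm hf x hx).of_le two_le_infty) ((sm hg x hx).of_le two_le_infty),
      hf.helm x hx, hg.helm x hx]; ring
  · obtain ⟨φ, hφ, hφl⟩ := hf.approx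
    obtain ⟨ψ, hψ, hψl⟩ := hg.approx
    set e : ℕ → V → ℝ := fun n x => (φ n x - f x) ^ 2 + ‖fderiv ℝ (φ n) x - fderiv ℝ f x‖ ^ 2
      with he
    set e' : ℕ → V → ℝ := fun n x => (ψ n x - g x) ^ 2 + ‖fderiv ℝ (ψ n) x - fderiv ℝ g x‖ ^ 2
      with he'
    set E : ℕ → V → ℝ := fun n x => ((a * φ n x + b * ψ n x) - (a * f x + b * g x)) ^ 2 +
      ‖fderiv ℝ (fun y => a * φ n y + b * ψ n y) x -
        fderiv ℝ (fun x => a * f x + b * g x) x‖ ^ 2 with hE
    have hle : ∀ n, ∀ x ∈ Dom, E n x ≤ 2 * a ^ 2 * e n x + 2 * b ^ 2 * e' n x := by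
      intro n x hx
      have d1 : fderiv ℝ (fun y => a * φ n y + b * ψ n y) x =
          a • fderiv ℝ (φ n) x + b • fderiv ℝ (ψ n) x :=
        ((((hφ n).1.differentiable (by simp) x).hasFDerivAt.const_mul a).fun_add
          (((hψ n).1.differentiable (by simp) x).hasFDerivAt.const_mul b)).fderiv
      have d2 : fderiv ℝ (fun x => a * f x + b * g x) x = a • fderiv ℝ f x + b • fderiv ℝ g x :=
        ((((sm hf x hx).differentiableAt (by simp)).hasFDerivAt.const_mul a).fun_add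
          (((sm hg x hx).differentiableAt (by simp)).hasFDerivAt.const_mul b)).fderiv
      have d3 : fderiv ℝ (fun y => a * φ n y + b * ψ n y) x -
          fderiv ℝ (fun x => a * f x + b * g x) x =
          a • (fderiv ℝ (φ n) x - fderiv ℝ f x) + b • (fderiv ℝ (ψ n) x - fderiv ℝ g x) := by
        rw [d1, d2, smul_sub, smul_sub]; abel
      have d4 : ‖fderiv ℝ (fun y => a * φ n y + b * ψ n y) x -
          fderiv ℝ (fun x => a * f x + b * g x) x‖ ≤
          |a| * ‖fderiv ℝ (φ n) x - fderiv ℝ f x‖ + |b| * ‖fderiv ℝ (ψ n) x - fderiv ℝ g x‖ := by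
        rw [d3]
        refine (norm_add_le _ _).trans ?_
        rw [norm_smul, norm_smul, Real.norm_eq_abs, Real.norm_eq_abs]
      have d5 := pow_le_pow_left₀ (norm_nonneg _) d4 2
      rw [hE, he, he']
      simp only
      have d6 : ((a * φ n x + b * ψ n x) - (a * f x + b * g x)) ^ 2 ≤
          2 * a ^ 2 * (φ n x - f x) ^ 2 + 2 * b ^ 2 * (ψ n x - g x) ^ 2 := by
        nlinarith [sq_nonneg (a * (φ n x - f x) - b * (ψ n x - g x))]
      have d7 : (|a| * ‖fderiv ℝ (φ n) x - fderiv ℝ f x‖ +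
          |b| * ‖fderiv ℝ (ψ n) x - fderiv ℝ g x‖) ^ 2 ≤
          2 * a ^ 2 * ‖fderiv ℝ (φ n) x - fderiv ℝ f x‖ ^ 2 +
            2 * b ^ 2 * ‖fderiv ℝ (ψ n) x - fderiv ℝ g x‖ ^ 2 := by
        rw [← sq_abs a, ← sq_abs b]
        nlinarith [sq_nonneg (|a| * ‖fderiv ℝ (φ n) x - fderiv ℝ f x‖ -
          |b| * ‖fderiv ℝ (ψ n) x - fderiv ℝ g x‖)]
      linarith
    have hnn : ∀ n x, 0 ≤ E n x := fun n x => by rw [hE]; simp only; positivity
    have hbi : ∀ n, IntegrableOn (fun x => 2 * a ^ 2 * e n x + 2 * b ^ 2 * e' n x) Dom := fun n =>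
      ((hφ n).2.2.2.const_mul (2 * a ^ 2)).add ((hψ n).2.2.2.const_mul (2 * b ^ 2))
    have htst : ∀ n, Tst Dom (fun y => a * φ n y + b * ψ n y) := fun n =>
      (Tst.smul ⟨(hφ n).1, (hφ n).2.1, (hφ n).2.2.1⟩ a).add
        (Tst.smul ⟨(hψ n).1, (hψ n).2.1, (hψ n).2.2.1⟩ b)
    have hEi : ∀ n, IntegrableOn (E n) Dom := by
      intro n
      refine Integrable.mono' (hbi n) ?_ ?_
      · have c1 : ContinuousOn (fun x => (a * φ n x + b * ψ n x) - (a * f x + b * g x)) Dom :=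
          (htst n).1.continuous.continuousOn.sub hsm.continuousOn
        have c2 : ContinuousOn (fun x => fderiv ℝ (fun y => a * φ n y + b * ψ n y) x -
            fderiv ℝ (fun x => a * f x + b * g x) x) Dom :=
          (cfd (htst n).1.contDiffOn).sub (cfd hsm)
        exact ((c1.pow 2).add (c2.norm.pow 2)).aestronglyMeasurable isOpen_Dom.measurableSet
      · refine (ae_restrict_mem isOpen_Dom.measurableSet).mono fun x hx => ?_
        rw [Real.norm_eq_abs, abs_of_nonneg (hnn n x)]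
        exact hle n x hx
    refine ⟨fun n y => a * φ n y + b * ψ n y, fun n => ⟨(htst n).1, (htst n).2.1, (htst n).2.2,
      hEi n⟩, ?_⟩
    have hlim : Tendsto (fun n => 2 * a ^ 2 * (∫ x in Dom, e n x) + 2 * b ^ 2 * ∫ x in Dom, e' n x)
        atTop (𝓝 0) := by
      have := (hφl.const_mul (2 * a ^ 2)).add (hψl.const_mul (2 * b ^ 2))
      simpa using this
    refine tendsto_of_tendsto_of_tendsto_of_le_of_le tendsto_const_nhds hlim (fun n => ?_)
      (fun n => ?_)
    · exact integral_nonneg (hnn n)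
    · have h1 : ∫ x in Dom, E n x ≤ ∫ x in Dom, (2 * a ^ 2 * e n x + 2 * b ^ 2 * e' n x) :=
        setIntegral_mono_on (hEi n) (hbi n) isOpen_Dom.measurableSet (hle n)
      rw [integral_add ((hφ n).2.2.2.const_mul (2 * a ^ 2)) ((hψ n).2.2.2.const_mul (2 * b ^ 2)),
        integral_const_mul, integral_const_mul] at h1
      exact h1

theorem Sol.rot {Λ : ℝ} {f : V → ℝ} (hf : Sol Λ f) : Sol Λ (fun x => f (RR x)) := by
  have hRs : ContDiff ℝ ∞ (fun x : V => RR x) := RR.toContinuousLinearEquiv.contDiff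
  have hsm : ContDiffOn ℝ ∞ (fun x => f (RR x)) Dom :=
    hf.smooth.comp hRs.contDiffOn fun x hx => (RR_mem_Dom x).2 hx
  have hpre : (RR : V → V) ⁻¹' Dom = Dom := by
    ext x; exact RR_mem_Dom x
  refine ⟨hf.cont.comp RR.continuous, ?_, hsm, ?_, ?_⟩
  · intro x hx
    exact hf.zero _ fun h => hx ((RR_mem_Dom x).1 h)
  · intro x hx
    have hx' := (RR_mem_Dom x).2 hx
    have h1 : ContDiffAt ℝ 2 f (0 + RR x) := by
      rw [zero_add]
      exact (hf.smooth.contDiffAt (isOpen_Dom.mem_nhds hx')).of_le two_le_infty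
    have h2 := lap_comp_iso RR 0 h1
    simp only [zero_add] at h2
    rw [h2, hf.helm _ hx']
  · obtain ⟨φ, hφ, hφl⟩ := hf.approx
    set e : ℕ → V → ℝ := fun n x => (φ n x - f x) ^ 2 + ‖fderiv ℝ (φ n) x - fderiv ℝ f x‖ ^ 2
      with he
    have hA : ∀ y, HasFDerivAt (fun y : V => RR y)
        (RR.toContinuousLinearEquiv.toContinuousLinearMap) y := fun y =>
      RR.toContinuousLinearEquiv.toContinuousLinearMap.hasFDerivAt
    have heq : ∀ n, ∀ x ∈ Dom, e n (RR x) = (φ n (RR x) - f (RR x)) ^ 2 +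
        ‖fderiv ℝ (fun y => φ n (RR y)) x - fderiv ℝ (fun y => f (RR y)) x‖ ^ 2 := by
      intro n x hx
      have hx' := (RR_mem_Dom x).2 hx
      have d1 : fderiv ℝ (fun y => φ n (RR y)) x = (fderiv ℝ (φ n) (RR x)).comp
          (RR.toContinuousLinearEquiv.toContinuousLinearMap) :=
        (((hφ n).1.differentiable (by simp) (RR x)).hasFDerivAt.comp x (hA x)).fderiv
      have d2 : fderiv ℝ (fun y => f (RR y)) x = (fderiv ℝ f (RR x)).comp
          (RR.toContinuousLinearEquiv.toContinuousLinearMap) :=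
        (((hf.smooth.contDiffAt (isOpen_Dom.mem_nhds hx')).differentiableAt
          (by simp)).hasFDerivAt.comp x (hA x)).fderiv
      have d3 : ‖(fderiv ℝ (φ n) (RR x) - fderiv ℝ f (RR x)).comp
          (RR.toContinuousLinearEquiv.toContinuousLinearMap)‖ =
          ‖fderiv ℝ (φ n) (RR x) - fderiv ℝ f (RR x)‖ :=
        ContinuousLinearMap.opNorm_comp_linearIsometryEquiv _ RR
      rw [d1, d2, ← ContinuousLinearMap.sub_comp, d3]
    have hmp : MeasurePreserving (RR : V → V) volume volume := RR.measurePreserving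
    have hemb : MeasurableEmbedding (RR : V → V) := RR.toHomeomorph.measurableEmbedding
    have htst : ∀ n, Tst Dom (fun y => φ n (RR y)) := by
      intro n
      have hts : tsupport (fun y => φ n (RR y)) = (RR : V → V) ⁻¹' (tsupport (φ n)) := by
        rw [tsupport, tsupport]
        exact (RR.toHomeomorph.preimage_closure (Function.support (φ n))).symm
      refine ⟨(hφ n).1.comp hRs, ?_, ?_⟩
      · exact (hφ n).2.1.comp_homeomorph RR.toHomeomorph
      · rw [hts]
        intro x hx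
        exact (RR_mem_Dom x).1 ((hφ n).2.2.1 hx)
    refine ⟨fun n y => φ n (RR y), fun n => ⟨(htst n).1, (htst n).2.1, (htst n).2.2, ?_⟩, ?_⟩
    · have h1 : IntegrableOn (e n ∘ RR) ((RR : V → V) ⁻¹' Dom) :=
        (hmp.integrableOn_comp_preimage hemb).2 (hφ n).2.2.2
      rw [hpre] at h1
      exact h1.congr_fun (heq n) isOpen_Dom.measurableSet
    · refine hφl.congr fun n => ?_
      have h1 := hmp.setIntegral_preimage_emb hemb (e n) Dom
      rw [hpre] at h1
      rw [← h1]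
      exact setIntegral_congr_fun isOpen_Dom.measurableSet (heq n)

end Pool.Agent.Helper546
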