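import Mathlib

set_option autoImplicit false
open MeasureTheory AddCircle Complex
open scoped ENNReal ComplexConjugate InnerProductSpace

namespace Pool.Agent.Helper546.Toep

/-- The normalised Haar measure on the circle. -/
noncomputable abbrev mu : Measure UnitAddCircle := haarAddCircle

lemma norm_fourier (n : ℤ) (t : UnitAddCircle) : ‖(fourier n t : ℂ)‖ = 1 := by
  rw [fourier_apply]; exact Circle.norm_coe _

lemma fourier_neg' (n : ℤ) (t : UnitAddCircle) : (fourier (-n) t : ℂ) = conj (fourier n t) :=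
  fourier_neg

lemma fourier_add' (m n : ℤ) (t : UnitAddCircle) :
    (fourier (m + n) t : ℂ) = fourier m t * fourier n t := fourier_add

lemma memLp_of_top {F : UnitAddCircle → ℂ} (p : ℝ≥0∞) (h : MemLp F ⊤ mu) : MemLp F p mu :=
  h.mono_exponent le_top

lemma memLp_fourier (n : ℤ) : MemLp (fun t : UnitAddCircle => (fourier n t : ℂ)) ⊤ mu := by
  refine memLp_top_of_bound ?_ 1 ?_
  · exact (map_continuous (fourier n)).aestronglyMeasurable
  · exact Filter.Eventually.of_forall fun t => (norm_fourier n t).le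

lemma memLp_mul_top {F G : UnitAddCircle → ℂ} {p : ℝ≥0∞} (hF : MemLp F ⊤ mu) (hG : MemLp G p mu) :
    MemLp (fun t => F t * G t) p mu := by
  have := MemLp.mul (p := ⊤) (q := p) (r := p) hG hF
  exact this

/-- Parseval for products. -/
lemma hasSum_coeff_mul {F G : UnitAddCircle → ℂ} (hF : MemLp F 2 mu) (hG : MemLp G 2 mu) (n : ℤ) :
    HasSum (fun k => fourierCoeff F (n - k) * fourierCoeff G k)
      (fourierCoeff (fun t => F t * G t) n) := by
  have hF' : MemLp (fun t => conj (F t) * fourier n t) 2 mu := by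
    have h1 : MemLp (fun t => conj (F t)) 2 mu := hF.star
    have := memLp_mul_top (memLp_fourier n) h1
    simpa [mul_comm] using this
  have key := (fourierBasis (T := (1:ℝ))).hasSum_inner_mul_inner (hF'.toLp _) (hG.toLp _)
  have e1 : ∀ k : ℤ, ⟪hF'.toLp _, (fourierBasis (T := (1:ℝ))) k⟫_ℂ = fourierCoeff F (n - k) := by
    intro k
    rw [coe_fourierBasis, L2.inner_def, fourierCoeff]
    apply integral_congr_ae
    filter_upwards [hF'.coeFn_toLp, coeFn_fourierLp (T := (1:ℝ)) 2 k] with t h1 h2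
    rw [h1, h2, RCLike.inner_apply]
    simp only [map_mul, smul_eq_mul]
    rw [show -(n - k) = k + -n by ring, fourier_add', fourier_neg']
    simp only [Complex.conj_conj]
    ring
  have e2 : ∀ k : ℤ, ⟪(fourierBasis (T := (1:ℝ))) k, hG.toLp _⟫_ℂ = fourierCoeff G k := by
    intro k
    rw [← HilbertBasis.repr_apply_apply, fourierBasis_repr]
    exact congrFun (fourierCoeff_congr_ae hG.coeFn_toLp) _
  have e3 : ⟪hF'.toLp _, hG.toLp _⟫_ℂ = fourierCoeff (fun t => F t * G t) n := by
    rw [L2.inner_def, fourierCoeff]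
    apply integral_congr_ae
    filter_upwards [hF'.coeFn_toLp, hG.coeFn_toLp] with t h1 h2
    rw [h1, h2, RCLike.inner_apply]
    simp only [map_mul, smul_eq_mul]
    rw [fourier_neg']
    simp only [Complex.conj_conj]
    ring
  simp only [e1, e2, e3] at key
  exact key

lemma coeff_mul_zero {F G : UnitAddCircle → ℂ} (hF : MemLp F 2 mu) (hG : MemLp G 2 mu) (n : ℤ)
    (h : ∀ k, fourierCoeff F (n - k) * fourierCoeff G k = 0) :
    fourierCoeff (fun t => F t * G t) n = 0 := by
  have := hasSum_coeff_mul hF hG n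
  simp only [h] at this
  exact this.unique hasSum_zero

lemma coeff_mul_an {F G : UnitAddCircle → ℂ} (hF : MemLp F 2 mu) (hG : MemLp G 2 mu) (N M n : ℤ)
    (h1 : ∀ k < N, fourierCoeff F k = 0) (h2 : ∀ k < M, fourierCoeff G k = 0)
    (hn : n < N + M) : fourierCoeff (fun t => F t * G t) n = 0 := by
  apply coeff_mul_zero hF hG
  intro k
  by_cases hk : k < M
  · rw [h2 k hk, mul_zero]
  · rw [h1 (n - k) (by omega), zero_mul]

lemma coeff_mul_coan {F G : UnitAddCircle → ℂ} (hF : MemLp F 2 mu) (hG : MemLp G 2 mu) (N M n : ℤ)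
    (h1 : ∀ k > N, fourierCoeff F k = 0) (h2 : ∀ k > M, fourierCoeff G k = 0)
    (hn : n > N + M) : fourierCoeff (fun t => F t * G t) n = 0 := by
  apply coeff_mul_zero hF hG
  intro k
  by_cases hk : k > M
  · rw [h2 k hk, mul_zero]
  · rw [h1 (n - k) (by omega), zero_mul]

/-- Zeroth coefficient of a product of analytic functions. -/
lemma coeff_zero_mul {F G : UnitAddCircle → ℂ} (hF : MemLp F 2 mu) (hG : MemLp G 2 mu)
    (h1 : ∀ k < 0, fourierCoeff F k = 0) (h2 : ∀ k < 0, fourierCoeff G k = 0) :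
    fourierCoeff (fun t => F t * G t) 0 = fourierCoeff F 0 * fourierCoeff G 0 := by
  have := hasSum_coeff_mul hF hG 0
  have h3 := hasSum_single (f := fun k => fourierCoeff F (0 - k) * fourierCoeff G k) 0 (by
    intro k hk
    rcases lt_or_gt_of_ne hk with h | h
    · rw [h2 k h, mul_zero]
    · rw [h1 (0 - k) (by omega), zero_mul])
  have := this.unique h3
  simpa using this

lemma coeff_zero_eq (F : UnitAddCircle → ℂ) : fourierCoeff F 0 = ∫ t, F t ∂mu := by
  simp [fourierCoeff]

lemma coeff_add {F G : UnitAddCircle → ℂ} (hF : MemLp F 1 mu) (hG : MemLp G 1 mu) (n : ℤ) :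
    fourierCoeff (fun t => F t + G t) n = fourierCoeff F n + fourierCoeff G n := by
  have := fourierCoeff.add (memLp_one_iff_integrable.1 hF) (memLp_one_iff_integrable.1 hG)
  exact congrFun this n

lemma coeff_sub {F G : UnitAddCircle → ℂ} (hF : MemLp F 1 mu) (hG : MemLp G 1 mu) (n : ℤ) :
    fourierCoeff (fun t => F t - G t) n = fourierCoeff F n - fourierCoeff G n := by
  have h1 : MemLp (fun t => (-1 : ℂ) * G t) 1 mu := hG.const_mul (-1)
  have h2 := coeff_add hF h1 n
  rw [fourierCoeff.const_mul] at h2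
  have h3 : (fun t => F t - G t) = (fun t => F t + (-1 : ℂ) * G t) := by
    funext t; ring
  rw [h3, h2]; ring

lemma coeff_conj (F : UnitAddCircle → ℂ) (n : ℤ) :
    fourierCoeff (fun t => conj (F t)) n = conj (fourierCoeff F (-n)) := by
  rw [fourierCoeff, fourierCoeff, ← integral_conj]
  apply integral_congr_ae
  refine Filter.Eventually.of_forall fun t => ?_
  simp only [smul_eq_mul, map_mul, neg_neg]
  rw [fourier_neg']

lemma coeff_fourier (m n : ℤ) :
    fourierCoeff (fun t : UnitAddCircle => (fourier m t : ℂ)) n = if n = m then 1 else 0 := by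
  have := congrFun (fourierCoeff_fourier (T := 1) m) n
  rw [Pi.single_apply] at this
  exact this

lemma coeff_mul_fourier (F : UnitAddCircle → ℂ) (m n : ℤ) :
    fourierCoeff (fun t => F t * fourier m t) n = fourierCoeff F (n - m) := by
  rw [fourierCoeff, fourierCoeff]
  apply integral_congr_ae
  refine Filter.Eventually.of_forall fun t => ?_
  simp only [smul_eq_mul]
  rw [show -(n - m) = -n + m by ring, fourier_add']
  ring

lemma coeff_const (c : ℂ) (n : ℤ) :
    fourierCoeff (fun _ : UnitAddCircle => c) n = if n = 0 then c else 0 := by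
  have h := coeff_fourier 0 n
  have h2 := fourierCoeff.const_mul (T := 1) (fun t : UnitAddCircle => (fourier 0 t : ℂ)) c n
  rw [h] at h2
  simpa using h2

/-- Parseval. -/
lemma hasSum_sq {F : UnitAddCircle → ℂ} (hF : MemLp F 2 mu) :
    HasSum (fun n => ‖fourierCoeff F n‖ ^ 2) (∫ t, ‖F t‖ ^ 2 ∂mu) := by
  have h := hasSum_sq_fourierCoeff (hF.toLp _)
  rw [fourierCoeff_congr_ae hF.coeFn_toLp] at h
  convert h using 1
  apply integral_congr_ae
  filter_upwards [hF.coeFn_toLp] with t ht
  rw [ht]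

/-- Construction from square summable coefficients. -/
lemma exists_of_coeff (a : ℤ → ℂ) (ha : Summable fun n => ‖a n‖ ^ 2) :
    ∃ Q : UnitAddCircle → ℂ, MemLp Q 2 mu ∧ ∀ n, fourierCoeff Q n = a n := by
  have hm : Memℓp a 2 := by
    rw [memℓp_gen_iff (by norm_num)]
    simpa using ha
  let Q : Lp ℂ 2 mu := (fourierBasis (T := 1)).repr.symm ⟨a, hm⟩
  refine ⟨Q, Lp.memLp Q, fun n => ?_⟩
  rw [← fourierBasis_repr]
  have : (fourierBasis (T := 1)).repr Q = ⟨a, hm⟩ := by
    simp [Q]
  rw [this]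

lemma integrable_sq {F : UnitAddCircle → ℂ} (hF : MemLp F 2 mu) :
    Integrable (fun t => ‖F t‖ ^ 2) mu := by
  exact hF.integrable_norm_pow (by norm_num)

/-- Uniqueness. -/
lemma ae_eq_of_coeff {F G : UnitAddCircle → ℂ} (hF : MemLp F 2 mu) (hG : MemLp G 2 mu)
    (h : ∀ n, fourierCoeff F n = fourierCoeff G n) : F =ᵐ[mu] G := by
  have hs := hasSum_sq (hF.sub hG)
  have h0 : ∀ n, fourierCoeff (F - G) n = 0 := by
    intro n
    have := coeff_sub (hF.mono_exponent (p := 1) (by norm_num)) (hG.mono_exponent (p := 1) (by norm_num)) n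
    rw [h n, sub_self] at this
    exact this
  simp only [h0] at hs
  have h1 : ∫ t, ‖(F - G) t‖ ^ 2 ∂mu = 0 := by
    refine hs.unique ?_
    simp only [norm_zero, ne_eq, OfNat.ofNat_ne_zero, not_false_eq_true, zero_pow]
    exact hasSum_zero
  rw [integral_eq_zero_iff_of_nonneg (fun t => by positivity) (integrable_sq (hF.sub hG))] at h1
  filter_upwards [h1] with t ht
  simp only [Pi.sub_apply, Pi.zero_apply, ne_eq, OfNat.ofNat_ne_zero, not_false_eq_true,
    pow_eq_zero_iff, norm_eq_zero] at ht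
  exact sub_eq_zero.1 ht

/-- A bound passes to `L²` limits. -/
lemma bound_of_approx {U : UnitAddCircle → ℂ} (hU : MemLp U 2 mu) {M : ℝ}
    (h : ∀ δ > 0, ∃ u : UnitAddCircle → ℂ, MemLp u 2 mu ∧ (∀ᵐ t ∂mu, ‖u t‖ ≤ M) ∧
      ∫ t, ‖u t - U t‖ ^ 2 ∂mu ≤ δ) : ∀ᵐ t ∂mu, ‖U t‖ ≤ M := by
  have hI : Integrable (fun t => (max (‖U t‖ - M) 0) ^ 2) mu := by
    have h1 : MemLp (fun t => max (‖U t‖ - M) 0) 2 mu := by
      have h2 : MemLp (fun t => ‖U t‖ - M) 2 mu := hU.norm.sub (memLp_const M)
      exact h2.pos_part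
    have := h1.integrable_norm_pow (by norm_num)
    refine this.congr (Filter.Eventually.of_forall fun t => ?_)
    simp
  have h0 : ∫ t, (max (‖U t‖ - M) 0) ^ 2 ∂mu ≤ 0 := by
    apply le_of_forall_pos_le_add
    intro δ hδ
    obtain ⟨u, hu, hb, hd⟩ := h δ hδ
    rw [zero_add]
    refine le_trans (integral_mono_ae hI (integrable_sq (hu.sub hU)) ?_) hd
    filter_upwards [hb] with t ht
    have h3 : ‖U t‖ ≤ ‖u t‖ + ‖u t - U t‖ := by
      have := norm_sub_le (u t) (u t - U t)
      simpa using this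
    have h4 : max (‖U t‖ - M) 0 ≤ ‖u t - U t‖ := by
      apply max_le
      · linarith
      · positivity
    have h5 : 0 ≤ max (‖U t‖ - M) 0 := le_max_right _ _
    exact pow_le_pow_left₀ h5 h4 2
  have h1 : ∫ t, (max (‖U t‖ - M) 0) ^ 2 ∂mu = 0 :=
    le_antisymm h0 (integral_nonneg fun t => by positivity)
  rw [integral_eq_zero_iff_of_nonneg (fun t => by positivity) hI] at h1
  filter_upwards [h1] with t ht
  simp only [Pi.zero_apply, ne_eq, OfNat.ofNat_ne_zero, not_false_eq_true,
    pow_eq_zero_iff] at ht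
  have := le_max_left (‖U t‖ - M) 0
  rw [ht] at this
  linarith

/-- Termwise integration of dominated series. -/
lemma hasSum_integral {G U : UnitAddCircle → ℂ} {u : ℕ → UnitAddCircle → ℂ} {c : ℕ → ℝ}
    (hG : Integrable G mu) (hu : ∀ m, AEStronglyMeasurable (u m) mu)
    (hb : ∀ m, ∀ᵐ t ∂mu, ‖u m t‖ ≤ c m) (hc : Summable c)
    (hU : ∀ᵐ t ∂mu, HasSum (fun m => u m t) (U t)) :
    HasSum (fun m => ∫ t, G t * u m t ∂mu) (∫ t, G t * U t ∂mu) := by
  refine hasSum_integral_of_dominated_convergence (fun m t => ‖G t‖ * c m) ?_ ?_ ?_ ?_ ?_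
  · intro m; exact hG.aestronglyMeasurable.mul (hu m)
  · intro m
    filter_upwards [hb m] with t ht
    rw [norm_mul]; gcongr
  · exact Filter.Eventually.of_forall fun t => hc.mul_left _
  · simp only [tsum_mul_left]
    exact hG.norm.mul_const _
  · filter_upwards [hU] with t ht
    exact ht.mul_left _

lemma hasSum_coeff {U : UnitAddCircle → ℂ} {u : ℕ → UnitAddCircle → ℂ} {c : ℕ → ℝ}
    (hu : ∀ m, AEStronglyMeasurable (u m) mu)
    (hb : ∀ m, ∀ᵐ t ∂mu, ‖u m t‖ ≤ c m) (hc : Summable c)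
    (hU : ∀ᵐ t ∂mu, HasSum (fun m => u m t) (U t)) (n : ℤ) :
    HasSum (fun m => fourierCoeff (u m) n) (fourierCoeff U n) := by
  have hG : Integrable (fun t : UnitAddCircle => (fourier (-n) t : ℂ)) mu :=
    memLp_one_iff_integrable.1 (memLp_of_top 1 (memLp_fourier (-n)))
  exact hasSum_integral hG hu hb hc hU

end Pool.Agent.Helper546.Toep
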