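import Pool.Agent.Helper546.TKernel

set_option autoImplicit false
open MeasureTheory AddCircle Complex
open scoped ENNReal ComplexConjugate InnerProductSpace Topology

namespace Pool.Agent.Helper546.Toep

/-- The span of the positive frequencies in `L¹`. -/
noncomputable def posSpan : Submodule ℂ (Lp ℂ 1 mu) :=
  Submodule.span ℂ (Set.range fun n : ℕ => fourierLp (T := 1) 1 ((n : ℤ) + 1))

lemma integrable_of_continuous {f : UnitAddCircle → ℂ} (hf : Continuous f) : Integrable f mu :=
  memLp_one_iff_integrable.1 (memLp_of_top 1 (memLp_of_continuous hf))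

lemma posSpan_rep (v : Lp ℂ 1 mu) (hv : v ∈ posSpan) :
    ∃ e : C(UnitAddCircle, ℂ), (∀ n : ℤ, n < 1 → fourierCoeff e n = 0) ∧ (v : UnitAddCircle → ℂ) =ᵐ[mu] e := by
  have hv' : v ∈ Submodule.span ℂ (Set.range fun n : ℕ => fourierLp (T := 1) 1 ((n : ℤ) + 1)) := hv
  refine Submodule.span_induction (p := fun (v : Lp ℂ 1 mu) _ => ∃ e : C(UnitAddCircle, ℂ),
    (∀ n : ℤ, n < 1 → fourierCoeff e n = 0) ∧ (v : UnitAddCircle → ℂ) =ᵐ[mu] e) ?_ ?_ ?_ ?_ hv'
  · rintro x ⟨k, rfl⟩
    refine ⟨fourier ((k : ℤ) + 1), fun n hn => ?_, coeFn_fourierLp 1 _⟩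
    have := coeff_fourier ((k : ℤ) + 1) n
    rw [if_neg (by omega)] at this
    exact this
  · refine ⟨0, fun n _ => ?_, ?_⟩
    · have := coeff_const 0 n
      simp only [ite_self] at this
      exact this
    · exact Lp.coeFn_zero ℂ 1 mu
  · rintro x y _ _ ⟨e1, h1, h1'⟩ ⟨e2, h2, h2'⟩
    refine ⟨e1 + e2, fun n hn => ?_, ?_⟩
    · have := coeff_add (memLp_of_top 1 (memLp_of_continuous e1.continuous))
        (memLp_of_top 1 (memLp_of_continuous e2.continuous)) n
      rw [h1 n hn, h2 n hn, add_zero] at this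
      exact this
    · filter_upwards [h1', h2', Lp.coeFn_add x y] with t a b c
      rw [c, Pi.add_apply, a, b]; rfl
  · rintro c x _ ⟨e1, h1, h1'⟩
    refine ⟨c • e1, fun n hn => ?_, ?_⟩
    · have := fourierCoeff.const_mul (T := 1) (e1 : UnitAddCircle → ℂ) c n
      rw [h1 n hn, mul_zero] at this
      exact this
    · filter_upwards [h1', Lp.coeFn_smul c x] with t a b
      rw [b, Pi.smul_apply, a]; rfl

/-- The inclusion of `L²` in `L¹`. -/
noncomputable def incl : Lp ℂ 2 mu →L[ℂ] Lp ℂ 1 mu :=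
  LinearMap.mkContinuous
    { toFun := fun u => ((Lp.memLp u).mono_exponent (p := 1) (by norm_num)).toLp u
      map_add' := by
        intro x y
        rw [← MemLp.toLp_add]
        apply MemLp.toLp_congr
        exact Lp.coeFn_add x y
      map_smul' := by
        intro c x
        rw [RingHom.id_apply, ← MemLp.toLp_const_smul]
        apply MemLp.toLp_congr
        exact Lp.coeFn_smul c x } 1 (by
      intro u
      rw [one_mul]
      simp only [LinearMap.coe_mk, AddHom.coe_mk]
      rw [Lp.norm_toLp, Lp.norm_def]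
      apply ENNReal.toReal_mono (Lp.eLpNorm_ne_top u)
      exact eLpNorm_le_eLpNorm_of_exponent_le (by norm_num) (Lp.aestronglyMeasurable u))

lemma coe_incl (u : Lp ℂ 2 mu) : (incl u : UnitAddCircle → ℂ) =ᵐ[mu] u := by
  exact MemLp.coeFn_toLp ((Lp.memLp u).mono_exponent (p := 1) (by norm_num))

/-- Duality between `L¹/H¹₀` and `H^∞`. -/
lemma duality {F : UnitAddCircle → ℂ} (hF : MemLp F ⊤ mu) {C : ℝ}
    (h : ∀ g : UnitAddCircle → ℂ, HI g → (∀ᵐ t ∂mu, ‖g t‖ ≤ 1) → ‖∫ t, F t * g t ∂mu‖ ≤ C)
    {ε : ℝ} (hε : 0 < ε) :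
    ∃ e : C(UnitAddCircle, ℂ), (∀ n : ℤ, n < 1 → fourierCoeff e n = 0) ∧
      ∫ t, ‖F t - e t‖ ∂mu ≤ C + ε := by
  have hF1 := memLp_of_top 1 hF
  have hF2 := memLp_of_top 2 hF
  set x : Lp ℂ 1 mu ⧸ posSpan := Submodule.Quotient.mk (hF1.toLp F) with hx
  have hxC : ‖x‖ ≤ C := by
    obtain ⟨φ, hφ1, hφx⟩ := exists_dual_vector'' ℂ x
    have hℓb : ∀ v : Lp ℂ 1 mu, ‖φ (Submodule.Quotient.mk v)‖ ≤ ‖v‖ := by
      intro v
      calc ‖φ (Submodule.Quotient.mk v)‖ ≤ ‖φ‖ * ‖(Submodule.Quotient.mk v : Lp ℂ 1 mu ⧸ posSpan)‖ :=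
            φ.le_opNorm _
        _ ≤ 1 * ‖v‖ := by
            apply mul_le_mul hφ1 (Submodule.Quotient.norm_mk_le posSpan v) (norm_nonneg _) zero_le_one
        _ = ‖v‖ := one_mul _
    let ℓ₂ : Lp ℂ 2 mu →L[ℂ] ℂ := φ.comp ((posSpan.mkQL).comp incl)
    have hℓ₂ : ∀ u, ℓ₂ u = φ (Submodule.Quotient.mk (incl u)) := fun u => rfl
    let g₀ : Lp ℂ 2 mu := (InnerProductSpace.toDual ℂ (Lp ℂ 2 mu)).symm ℓ₂
    have hg₀ : ∀ u, ⟪g₀, u⟫_ℂ = ℓ₂ u := fun u => InnerProductSpace.toDual_symm_apply
    set g : UnitAddCircle → ℂ := fun t => conj (g₀ t) with hg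
    have hg2 : MemLp g 2 mu := (Lp.memLp g₀).star
    have hrep : ∀ (u : UnitAddCircle → ℂ) (hu : MemLp u 2 mu),
        ∫ t, u t * g t ∂mu = ℓ₂ (hu.toLp u) := by
      intro u hu
      rw [← hg₀, L2.inner_def]
      apply integral_congr_ae
      filter_upwards [hu.coeFn_toLp] with t ht
      rw [RCLike.inner_apply, ht]
    have hbound : ∀ (u : UnitAddCircle → ℂ) (hu : MemLp u 2 mu),
        ‖∫ t, u t * g t ∂mu‖ ≤ ∫ t, ‖u t‖ ∂mu := by
      intro u hu
      rw [hrep u hu, hℓ₂]
      refine le_trans (hℓb _) (le_of_eq ?_)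
      rw [L1.norm_eq_integral_norm]
      apply integral_congr_ae
      filter_upwards [coe_incl (hu.toLp u), hu.coeFn_toLp] with t h1 h2
      rw [h1, h2]
    have hgb : ∀ᵐ t ∂mu, ‖g t‖ ≤ 1 := by
      have hgi : Integrable g mu := memLp_one_iff_integrable.1 (hg2.mono_exponent (by norm_num))
      have hle : (fun t => ‖g t‖) ≤ᵐ[mu] fun _ => (1:ℝ) := by
        apply ae_le_of_forall_setIntegral_le hgi.norm (integrable_const 1)
        intro s hs _
        -- test function
        set u : UnitAddCircle → ℂ := s.indicator (fun t => conj (g t) / (‖g t‖ : ℂ)) with hu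
        have hum : AEStronglyMeasurable u mu := by
          apply AEStronglyMeasurable.indicator _ hs
          have h1 : AEStronglyMeasurable (fun t => conj (g t)) mu := hg2.star.1
          have h2 : AEStronglyMeasurable (fun t => ((‖g t‖ : ℝ) : ℂ)) mu :=
            Complex.continuous_ofReal.comp_aestronglyMeasurable hg2.1.norm
          exact (h1.aemeasurable.div h2.aemeasurable).aestronglyMeasurable
        have hub : ∀ t, ‖u t‖ ≤ s.indicator (fun _ => (1:ℝ)) t := by
          intro t
          by_cases ht : t ∈ s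
          · simp only [hu, Set.indicator_of_mem ht]
            rw [norm_div, RCLike.norm_conj, Complex.norm_real, norm_norm]
            exact div_self_le_one _
          · simp [hu, Set.indicator_of_notMem ht]
        have hu2 : MemLp u 2 mu := by
          apply memLp_of_top 2
          refine memLp_of_ae_bound hum 1 (Filter.Eventually.of_forall fun t => ?_)
          refine (hub t).trans ?_
          exact Set.indicator_le_self' (by intro _ _; norm_num) t |>.trans le_rfl
        have h1 := hbound u hu2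
        have h2 : ∫ t, u t * g t ∂mu = ((∫ t in s, ‖g t‖ ∂mu : ℝ) : ℂ) := by
          rw [← integral_indicator hs, ← integral_complex_ofReal]
          apply integral_congr_ae
          refine Filter.Eventually.of_forall fun t => ?_
          by_cases ht : t ∈ s
          · simp only [hu, Set.indicator_of_mem ht]
            by_cases h0 : g t = 0
            · simp [h0]
            · have : ((‖g t‖ : ℝ) : ℂ) ≠ 0 := by simpa using h0
              rw [div_mul_eq_mul_div, div_eq_iff this, mul_comm, Complex.mul_conj,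
                Complex.normSq_eq_norm_sq]
              push_cast; ring
          · simp [hu, Set.indicator_of_notMem ht]
        have h3 : ∫ t, ‖u t‖ ∂mu ≤ ∫ t in s, (1:ℝ) ∂mu := by
          rw [← integral_indicator hs]
          apply integral_mono_of_nonneg
          · exact Filter.Eventually.of_forall fun t => norm_nonneg _
          · exact (integrable_const (1:ℝ)).indicator hs
          · exact Filter.Eventually.of_forall hub
        rw [h2, Complex.norm_real] at h1
        exact (le_abs_self _).trans (h1.trans h3)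
      exact hle
    have hgHI : HI g := by
      refine ⟨memLp_of_ae_bound hg2.1 1 hgb, fun n hn => ?_⟩
      have hf2 : MemLp (fun t : UnitAddCircle => (fourier (-n) t : ℂ)) 2 mu :=
        memLp_of_top 2 (memLp_fourier (-n))
      have e : fourierCoeff g n = ∫ t, fourier (-n) t * g t ∂mu := by
        rw [fourierCoeff]; rfl
      rw [e, hrep _ hf2, hℓ₂]
      have hmem : incl (hf2.toLp _) ∈ posSpan := by
        have : incl (hf2.toLp _) = fourierLp (T := 1) 1 ((((-n - 1).toNat : ℕ) : ℤ) + 1) := by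
          apply Lp.ext
          refine (coe_incl _).trans (hf2.coeFn_toLp.trans ?_)
          have h3 : (((-n - 1).toNat : ℕ) : ℤ) + 1 = -n := by omega
          rw [h3]
          exact (coeFn_fourierLp 1 (-n)).symm
        rw [this]
        exact Submodule.subset_span ⟨_, rfl⟩
      rw [(Submodule.Quotient.mk_eq_zero posSpan).2 hmem, map_zero]
    have h4 := h g hgHI hgb
    rw [hrep F hF2, hℓ₂] at h4
    have h5 : incl (hF2.toLp F) = hF1.toLp F := by
      apply Lp.ext
      exact (coe_incl _).trans (hF2.coeFn_toLp.trans hF1.coeFn_toLp.symm)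
    rw [h5, ← hx, hφx] at h4
    simpa using h4
  obtain ⟨m, hm, hm2⟩ := Submodule.Quotient.norm_mk_lt x hε
  rw [hx] at hm
  have hmem : hF1.toLp F - m ∈ posSpan := by
    rw [← Submodule.Quotient.mk_eq_zero posSpan, Submodule.Quotient.mk_sub, hm, sub_self]
  obtain ⟨e, he1, he2⟩ := posSpan_rep _ hmem
  refine ⟨e, he1, ?_⟩
  have h6 : ∫ t, ‖F t - e t‖ ∂mu = ‖m‖ := by
    rw [L1.norm_eq_integral_norm]
    apply integral_congr_ae
    filter_upwards [he2, Lp.coeFn_sub (hF1.toLp F) m, hF1.coeFn_toLp] with t h1 h2 h3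
    rw [h2, Pi.sub_apply, h3] at h1
    rw [← h1]
    congr 1
    ring
  rw [h6]
  linarith

end Pool.Agent.Helper546.Toep
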