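import Pool.Agent.Helper546.TOp

set_option autoImplicit false
open MeasureTheory AddCircle Complex Filter
open scoped ENNReal ComplexConjugate InnerProductSpace Topology

namespace Pool.Agent.Helper546.Toep

/-- Injectivity of the Toeplitz operator with symbol `φ - c`. -/
def Inj (φ : UnitAddCircle → ℂ) (c : ℂ) : Prop :=
  ∀ f : UnitAddCircle → ℂ, HI f →
    (∀ n : ℤ, 0 ≤ n → fourierCoeff (fun t => (φ t - c) * f t) n = 0) → f =ᵐ[mu] 0

/-- Surjectivity of the Toeplitz operator with symbol `φ - c`. -/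
def Surj (φ : UnitAddCircle → ℂ) (c : ℂ) : Prop :=
  ∀ g : UnitAddCircle → ℂ, HI g → ∃ f : UnitAddCircle → ℂ, HI f ∧
    ∀ n : ℤ, 0 ≤ n → fourierCoeff (fun t => (φ t - c) * f t) n = fourierCoeff g n

lemma Hinf_ne : eN 0 ≠ 0 := by
  intro h
  have h1 : fourierCoeff (eN 0 : Lp ℂ ⊤ mu) 0 = 1 := by
    have h2 : ((eN 0 : Lp ℂ ⊤ mu) : UnitAddCircle → ℂ) =ᵐ[mu] fun t => (fourier ((0:ℕ) : ℤ) t : ℂ) :=
      coe_toH _ _
    rw [fourierCoeff_congr_ae h2, coeff_fourier]; simp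
  rw [h] at h1
  have h3 : fourierCoeff ((0 : Hinf) : Lp ℂ ⊤ mu) 0 = 0 := by
    rw [Submodule.coe_zero, fourierCoeff_congr_ae (Lp.coeFn_zero ℂ ⊤ mu)]
    have := coeff_const 0 0
    simp only [ite_self] at this
    exact this
  rw [h3] at h1
  exact zero_ne_one h1

instance : Nontrivial (Hinf →L[ℂ] Hinf) := by
  refine ⟨⟨0, 1, fun h => ?_⟩⟩
  have := congrArg (fun A : Hinf →L[ℂ] Hinf => A (eN 0)) h
  have this : (0 : Hinf) = eN 0 := this
  exact Hinf_ne this.symm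

/-- Upper bound for the spectrum. -/
lemma norm_le_of_not {φ : UnitAddCircle → ℂ} (hφ : MemLp φ ⊤ mu) (h : Acts φ) {c : ℂ}
    (hc : ¬ (Inj φ c ∧ Surj φ c)) : ‖c‖ ≤ (eLpNorm φ ⊤ mu).toReal := by
  by_contra hlt
  push Not at hlt
  obtain ⟨T, hT⟩ := exists_op hφ h
  have hB := bdd_of_op hφ T hT
  set S := (eLpNorm φ ⊤ mu).toReal with hS
  have hS0 : 0 ≤ S := ENNReal.toReal_nonneg
  obtain ⟨R, hR1, hR2⟩ := exists_between hlt
  have hφR : ∀ᵐ t ∂mu, ‖φ t‖ ≤ R := by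
    filter_upwards [ae_norm_le_of_memLp hφ] with t ht
    exact ht.trans hR1.le
  apply hc
  refine ⟨fun f hf hfc => inj_sub hφ hφR hR2 hf hfc, fun g hg => ?_⟩
  exact surj_sub hφ (lt_of_le_of_lt hS0 hR1) hφR hB hR2 hg

/-- Lower bound for the spectral radius. -/
lemma exists_spec {φ : UnitAddCircle → ℂ} (hφ : MemLp φ ⊤ mu) (h : Acts φ) :
    ∃ c : ℂ, (eLpNorm φ ⊤ mu).toReal ≤ ‖c‖ ∧ ¬ (Inj φ c ∧ Surj φ c) := by
  obtain ⟨T, hT⟩ := exists_op hφ h
  obtain ⟨c, hc, hcr⟩ := spectrum.exists_nnnorm_eq_spectralRadius T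
  have hle : eLpNorm φ ⊤ mu ≤ spectralRadius ℂ T := by
    apply ge_of_tendsto (spectrum.pow_norm_pow_one_div_tendsto_nhds_spectralRadius T)
    filter_upwards [eventually_ge_atTop 1] with n hn
    apply eLpNormEssSup_le_of_ae_bound
    filter_upwards [pow_le_norm_pow hφ T hT n] with t ht
    rw [norm_pow] at ht
    have h1 := Real.rpow_le_rpow (by positivity) ht (show (0:ℝ) ≤ 1 / n by positivity)
    rw [← Real.rpow_natCast, ← Real.rpow_mul (norm_nonneg _)] at h1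
    have h2 : (n : ℝ) * (1 / n) = 1 := by
      have : (n : ℝ) ≠ 0 := by positivity
      field_simp
    rw [h2, Real.rpow_one] at h1
    exact h1
  refine ⟨c, ?_, ?_⟩
  · rw [← hcr] at hle
    have := ENNReal.toReal_mono (by simp) hle
    simpa using this
  · rintro ⟨hinj, hsurj⟩
    apply hc
    change IsUnit (algebraMap ℂ (Hinf →L[ℂ] Hinf) c - T)
    rw [ContinuousLinearMap.isUnit_iff_bijective]
    have happ : ∀ x : Hinf, (algebraMap ℂ (Hinf →L[ℂ] Hinf) c - T) x = c • x - T x := fun x => rfl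
    -- coefficients of the shifted operator
    have hco : ∀ (x : Hinf) (n : ℤ), 0 ≤ n →
        fourierCoeff ((c • x - T x : Hinf) : Lp ℂ ⊤ mu) n =
          - fourierCoeff (fun t => (φ t - c) * (x : Lp ℂ ⊤ mu) t) n := by
      intro x n hn
      have hx := Hinf_HI x
      have hTx := Hinf_HI (T x)
      have h1 : ((c • x - T x : Hinf) : Lp ℂ ⊤ mu) = c • (x : Lp ℂ ⊤ mu) - (T x : Lp ℂ ⊤ mu) := rfl
      have h2 : (((c • x - T x : Hinf) : Lp ℂ ⊤ mu) : UnitAddCircle → ℂ) =ᵐ[mu]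
          fun t => c * (x : Lp ℂ ⊤ mu) t - (T x : Lp ℂ ⊤ mu) t := by
        rw [h1]
        filter_upwards [Lp.coeFn_sub (c • (x : Lp ℂ ⊤ mu)) (T x : Lp ℂ ⊤ mu),
          Lp.coeFn_smul c (x : Lp ℂ ⊤ mu)] with t a b
        rw [a, Pi.sub_apply, b, Pi.smul_apply, smul_eq_mul]
      have hcx : MemLp (fun t => c * (x : Lp ℂ ⊤ mu) t) ⊤ mu := hx.1.const_mul c
      have hφx : MemLp (fun t => φ t * (x : Lp ℂ ⊤ mu) t) ⊤ mu := memLp_mul_top hφ hx.1
      rw [fourierCoeff_congr_ae h2, coeff_sub (memLp_of_top 1 hcx) (memLp_of_top 1 hTx.1),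
        hT x n hn]
      have h3 : (fun t => (φ t - c) * (x : Lp ℂ ⊤ mu) t) =
          fun t => φ t * (x : Lp ℂ ⊤ mu) t - c * (x : Lp ℂ ⊤ mu) t := by
        funext t; ring
      rw [h3, coeff_sub (memLp_of_top 1 hφx) (memLp_of_top 1 hcx)]
      ring
    constructor
    · intro x y hxy
      have h1 : (algebraMap ℂ (Hinf →L[ℂ] Hinf) c - T) (x - y) = 0 := by
        rw [map_sub, hxy, sub_self]
      rw [happ] at h1
      have h2 := hinj _ (Hinf_HI (x - y)) (by
        intro n hn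
        have h3 := hco (x - y) n hn
        rw [h1] at h3
        have h4 : fourierCoeff ((0 : Hinf) : Lp ℂ ⊤ mu) n = 0 := by
          rw [Submodule.coe_zero, fourierCoeff_congr_ae (Lp.coeFn_zero ℂ ⊤ mu)]
          have := coeff_const 0 n
          simp only [ite_self] at this
          exact this
        rw [h4] at h3
        exact neg_eq_zero.1 h3.symm)
      have h5 : ((x - y : Hinf) : Lp ℂ ⊤ mu) = 0 := by
        apply Lp.ext
        exact h2.trans (Lp.coeFn_zero ℂ ⊤ mu).symm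
      have h6 : x - y = 0 := Subtype.ext h5
      exact sub_eq_zero.1 h6
    · intro y
      have hy := Hinf_HI y
      obtain ⟨f, hf, hfc⟩ := hsurj _ (hy.const_mul (-1))
      refine ⟨toH f hf, ?_⟩
      rw [happ]
      apply Hinf_ext
      intro n hn
      rw [hco _ n hn]
      have h1 : (fun t => (φ t - c) * (toH f hf : Lp ℂ ⊤ mu) t) =ᵐ[mu]
          fun t => (φ t - c) * f t := by
        filter_upwards [coe_toH f hf] with t ht
        rw [ht]
      rw [fourierCoeff_congr_ae h1, hfc n hn, fourierCoeff.const_mul]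
      ring

/-- The spectral radius theorem for Toeplitz operators on `H^∞`. -/
theorem main {φ : UnitAddCircle → ℂ} (hφ : MemLp φ ⊤ mu) (h : Acts φ) :
    IsLUB {r : ℝ | ∃ c : ℂ, r = ‖c‖ ∧ ¬ (Inj φ c ∧ Surj φ c)} (eLpNorm φ ⊤ mu).toReal := by
  constructor
  · rintro r ⟨c, rfl, hc⟩
    exact norm_le_of_not hφ h hc
  · intro b hb
    obtain ⟨c, hc1, hc2⟩ := exists_spec hφ h
    exact hc1.trans (hb ⟨c, rfl, hc2⟩)

end Pool.Agent.Helper546.Toep
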