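import Pool.Agent.Helper546.TGelf

set_option autoImplicit false
open MeasureTheory AddCircle Complex Filter
open scoped ENNReal ComplexConjugate InnerProductSpace Topology

namespace Pool.Agent.Helper546.Toep

/-- `H^∞` at the level of functions. -/
def HInf (f : UnitAddCircle → ℂ) : Prop :=
  MemLp f ⊤ (haarAddCircle (T := (1 : ℝ))) ∧ ∀ n : ℤ, n < 0 → fourierCoeff f n = 0

/-- `g` is the analytic projection of `φ f`. -/
def IsProj (φ f g : UnitAddCircle → ℂ) : Prop :=
  ∀ n : ℤ, 0 ≤ n → fourierCoeff g n = fourierCoeff (fun t => φ t * f t) n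

/-- `g` is the image of `f` under the `n`-th power of the Toeplitz operator. -/
def IsPow (φ : UnitAddCircle → ℂ) : ℕ → (UnitAddCircle → ℂ) → (UnitAddCircle → ℂ) → Prop
  | 0, f, g => g =ᵐ[haarAddCircle (T := (1 : ℝ))] f
  | n + 1, f, g => ∃ h : UnitAddCircle → ℂ, HInf h ∧ IsPow φ n f h ∧ IsProj φ h g

/-- The operator norm of the `n`-th power on `H^∞`. -/
noncomputable def powNorm (φ : UnitAddCircle → ℂ) (n : ℕ) : ℝ :=
  sInf {C : ℝ | 0 ≤ C ∧ ∀ f g : UnitAddCircle → ℂ, HInf f → HInf g → IsPow φ n f g →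
    (eLpNorm g ⊤ (haarAddCircle (T := (1 : ℝ)))).toReal ≤
      C * (eLpNorm f ⊤ (haarAddCircle (T := (1 : ℝ)))).toReal}

lemma norm_toH (f : UnitAddCircle → ℂ) (hf : HI f) : ‖toH f hf‖ = (eLpNorm f ⊤ mu).toReal := by
  change ‖hf.1.toLp f‖ = _
  rw [Lp.norm_toLp]

lemma toH_eq_iff {f g : UnitAddCircle → ℂ} (hf : HI f) (hg : HI g) :
    toH f hf = toH g hg ↔ f =ᵐ[mu] g := by
  constructor
  · intro h
    have h1 := coe_toH f hf
    have h2 := coe_toH g hg
    rw [h] at h1
    exact h1.symm.trans h2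
  · intro h
    apply Subtype.ext
    apply Lp.ext
    exact (coe_toH f hf).trans (h.trans (coe_toH g hg).symm)

lemma isPow_iff {φ : UnitAddCircle → ℂ} (T : Hinf →L[ℂ] Hinf)
    (hT : ∀ (x : Hinf) (n : ℤ), 0 ≤ n → fourierCoeff (T x : Lp ℂ ⊤ mu) n =
        fourierCoeff (fun t => φ t * (x : Lp ℂ ⊤ mu) t) n) (n : ℕ)
    {f g : UnitAddCircle → ℂ} (hf : HI f) (hg : HI g) :
    IsPow φ n f g ↔ toH g hg = (T ^ n) (toH f hf) := by
  have hproj : ∀ {h g : UnitAddCircle → ℂ} (hh : HI h) (hg : HI g),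
      IsProj φ h g ↔ toH g hg = T (toH h hh) := by
    intro h g hh hg
    have e1 : ∀ n : ℤ, fourierCoeff (fun t => φ t * (toH h hh : Lp ℂ ⊤ mu) t) n =
        fourierCoeff (fun t => φ t * h t) n := by
      intro n
      refine congrFun (fourierCoeff_congr_ae ?_) n
      filter_upwards [coe_toH h hh] with t ht
      rw [ht]
    have e2 : ∀ n : ℤ, fourierCoeff (toH g hg : Lp ℂ ⊤ mu) n = fourierCoeff g n := fun n =>
      congrFun (fourierCoeff_congr_ae (coe_toH g hg)) n
    constructor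
    · intro hp
      apply Hinf_ext
      intro n hn
      rw [hT _ n hn, e1, e2, hp n hn]
    · intro he n hn
      rw [← e2, he, hT _ n hn, e1]
  induction n generalizing g with
  | zero =>
    have : (T ^ 0) (toH f hf) = toH f hf := rfl
    rw [this, toH_eq_iff hg hf]
    exact Iff.rfl
  | succ n ih =>
    have e : (T ^ (n + 1)) (toH f hf) = T ((T ^ n) (toH f hf)) := by rw [pow_succ']; rfl
    rw [e]
    constructor
    · rintro ⟨h, hh, hp, hq⟩
      have hh' : HI h := hh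
      rw [← (ih hh').1 hp]
      exact (hproj hh' hg).1 hq
    · intro he
      set y := (T ^ n) (toH f hf) with hy
      have hyHI := Hinf_HI y
      have hyy : toH _ hyHI = y := by
        apply Subtype.ext
        apply Lp.ext
        exact coe_toH _ hyHI
      refine ⟨_, hyHI, (ih hyHI).2 hyy, (hproj hyHI hg).2 ?_⟩
      rw [hyy]; exact he

lemma powNorm_eq {φ : UnitAddCircle → ℂ} (T : Hinf →L[ℂ] Hinf)
    (hT : ∀ (x : Hinf) (n : ℤ), 0 ≤ n → fourierCoeff (T x : Lp ℂ ⊤ mu) n =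
        fourierCoeff (fun t => φ t * (x : Lp ℂ ⊤ mu) t) n) (n : ℕ) :
    powNorm φ n = ‖T ^ n‖ := by
  rw [ContinuousLinearMap.norm_def, powNorm]
  congr 1
  ext C
  simp only [Set.mem_ofPred_eq]
  refine and_congr_right fun _ => ⟨fun H x => ?_, fun H f g hf hg hp => ?_⟩
  · have hx := Hinf_HI x
    have hy := Hinf_HI ((T ^ n) x)
    have hxx : toH _ hx = x := by
      apply Subtype.ext
      apply Lp.ext
      exact coe_toH _ hx
    have hyy : toH _ hy = (T ^ n) x := by
      apply Subtype.ext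
      apply Lp.ext
      exact coe_toH _ hy
    have h1 := H _ _ hx hy ((isPow_iff T hT n hx hy).2 (by rw [hxx, hyy]))
    have h2 := norm_toH _ hx
    have h3 := norm_toH _ hy
    rw [hxx] at h2
    rw [hyy] at h3
    rw [h2, h3]
    exact h1
  · have hf' : HI f := hf
    have hg' : HI g := hg
    have h1 := H (toH f hf')
    rw [← (isPow_iff T hT n hf' hg').1 hp, norm_toH, norm_toH] at h1
    exact h1

/-- Function-level form. -/
theorem fun_form {φ : UnitAddCircle → ℂ} (hφ : MemLp φ ⊤ mu)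
    (h : ∀ f : UnitAddCircle → ℂ, HInf f → ∃ g : UnitAddCircle → ℂ, HInf g ∧ IsProj φ f g) :
    BddAbove {r : ℝ | ∃ f g : UnitAddCircle → ℂ, HInf f ∧ HInf g ∧ IsProj φ f g ∧
      (eLpNorm f ⊤ mu).toReal ≤ 1 ∧ r = (eLpNorm g ⊤ mu).toReal} ∧
    Tendsto (fun n : ℕ => powNorm φ n ^ (1 / n : ℝ)) atTop (𝓝 (eLpNorm φ ⊤ mu).toReal) := by
  obtain ⟨T, hT⟩ := exists_op hφ h
  constructor
  · refine ⟨‖T‖, ?_⟩
    rintro r ⟨f, g, hf, hg, hp, h1, rfl⟩
    have hf' : HI f := hf
    have hg' : HI g := hg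
    have h2 : IsPow φ 1 f g := ⟨f, hf, EventuallyEq.refl _ _, hp⟩
    have h3 := (isPow_iff T hT 1 hf' hg').1 h2
    rw [pow_one] at h3
    have h4 := T.le_opNorm (toH f hf')
    rw [← h3, norm_toH, norm_toH] at h4
    refine h4.trans ?_
    calc ‖T‖ * (eLpNorm f ⊤ mu).toReal ≤ ‖T‖ * 1 := by gcongr
      _ = ‖T‖ := mul_one _
  · simp only [powNorm_eq T hT]
    have h1 := spectrum.pow_norm_pow_one_div_tendsto_nhds_spectralRadius T
    rw [spectralRadius_eq hφ T hT] at h1
    have h2 := (ENNReal.tendsto_toReal hφ.2.ne).comp h1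
    refine h2.congr fun n => ?_
    simp only [Function.comp_apply]
    exact ENNReal.toReal_ofReal (by positivity)

end Pool.Agent.Helper546.Toep
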