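import Pool.Agent.Helper546.TFinal

set_option autoImplicit false
open MeasureTheory AddCircle Complex Filter
open scoped ENNReal ComplexConjugate InnerProductSpace Topology

namespace Pool.Agent.Helper546.Toep

/-- Coefficients of the shifted operator. -/
lemma coeff_shift {φ : UnitAddCircle → ℂ} (hφ : MemLp φ ⊤ mu) (T : Hinf →L[ℂ] Hinf)
    (hT : ∀ (x : Hinf) (n : ℤ), 0 ≤ n → fourierCoeff (T x : Lp ℂ ⊤ mu) n =
        fourierCoeff (fun t => φ t * (x : Lp ℂ ⊤ mu) t) n) (c : ℂ) (x : Hinf) (n : ℤ)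
    (hn : 0 ≤ n) : fourierCoeff ((c • x - T x : Hinf) : Lp ℂ ⊤ mu) n =
          - fourierCoeff (fun t => (φ t - c) * (x : Lp ℂ ⊤ mu) t) n := by
  have hx := Hinf_HI x
  have hTx := Hinf_HI (T x)
  have h1 : ((c • x - T x : Hinf) : Lp ℂ ⊤ mu) = c • (x : Lp ℂ ⊤ mu) - (T x : Lp ℂ ⊤ mu) := rfl
  have h2 : (((c • x - T x : Hinf) : Lp ℂ ⊤ mu) : UnitAddCircle → ℂ) =ᵐ[mu]
      fun t => c * (x : Lp ℂ ⊤ mu) t - (T x : Lp ℂ ⊤ mu) t := by
    rw [h1]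
    filter_upwards [Lp.coeFn_sub (c • (x : Lp ℂ ⊤ mu)) (T x : Lp ℂ ⊤ mu),
      Lp.coeFn_smul c (x : Lp ℂ ⊤ mu)] with t a b
    rw [a, Pi.sub_apply, b, Pi.smul_apply, smul_eq_mul]
  have hcx : MemLp (fun t => c * (x : Lp ℂ ⊤ mu) t) ⊤ mu := hx.1.const_mul c
  have hφx : MemLp (fun t => φ t * (x : Lp ℂ ⊤ mu) t) ⊤ mu := memLp_mul_top hφ hx.1
  rw [fourierCoeff_congr_ae h2, coeff_sub (memLp_of_top 1 hcx) (memLp_of_top 1 hTx.1),
    hT x n hn]
  have h3 : (fun t => (φ t - c) * (x : Lp ℂ ⊤ mu) t) =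
      fun t => φ t * (x : Lp ℂ ⊤ mu) t - c * (x : Lp ℂ ⊤ mu) t := by
    funext t; ring
  rw [h3, coeff_sub (memLp_of_top 1 hφx) (memLp_of_top 1 hcx)]
  ring

lemma coeff_zero_H (n : ℤ) : fourierCoeff ((0 : Hinf) : Lp ℂ ⊤ mu) n = 0 := by
  rw [Submodule.coe_zero, fourierCoeff_congr_ae (Lp.coeFn_zero ℂ ⊤ mu)]
  have := coeff_const 0 n
  simp only [ite_self] at this
  exact this

/-- Invertibility outside the closed disc. -/
lemma not_mem_spectrum {φ : UnitAddCircle → ℂ} (hφ : MemLp φ ⊤ mu) (T : Hinf →L[ℂ] Hinf)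
    (hT : ∀ (x : Hinf) (n : ℤ), 0 ≤ n → fourierCoeff (T x : Lp ℂ ⊤ mu) n =
        fourierCoeff (fun t => φ t * (x : Lp ℂ ⊤ mu) t) n) {c : ℂ}
    (hc : (eLpNorm φ ⊤ mu).toReal < ‖c‖) : c ∉ spectrum ℂ T := by
  have hB := bdd_of_op hφ T hT
  have hS0 : 0 ≤ (eLpNorm φ ⊤ mu).toReal := ENNReal.toReal_nonneg
  obtain ⟨R, hR1, hR2⟩ := exists_between hc
  have hφR : ∀ᵐ t ∂mu, ‖φ t‖ ≤ R := by
    filter_upwards [ae_norm_le_of_memLp hφ] with t ht
    exact ht.trans hR1.le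
  rw [spectrum.notMem_iff, ContinuousLinearMap.isUnit_iff_bijective]
  have happ : ∀ x : Hinf, (algebraMap ℂ (Hinf →L[ℂ] Hinf) c - T) x = c • x - T x := fun x => rfl
  have hco := coeff_shift hφ T hT c
  constructor
  · intro x y hxy
    have h1 : (algebraMap ℂ (Hinf →L[ℂ] Hinf) c - T) (x - y) = 0 := by
      rw [map_sub, hxy, sub_self]
    rw [happ] at h1
    have h2 := inj_sub hφ hφR hR2 (Hinf_HI (x - y)) (by
      intro n hn
      have h3 := hco (x - y) n hn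
      rw [h1, coeff_zero_H n] at h3
      exact neg_eq_zero.1 h3.symm)
    have h5 : ((x - y : Hinf) : Lp ℂ ⊤ mu) = 0 := by
      apply Lp.ext
      exact h2.trans (Lp.coeFn_zero ℂ ⊤ mu).symm
    have h6 : x - y = 0 := Subtype.ext h5
    exact sub_eq_zero.1 h6
  · intro y
    have hy := Hinf_HI y
    obtain ⟨f, hf, hfc⟩ := surj_sub hφ (lt_of_le_of_lt hS0 hR1) hφR hB hR2 (hy.const_mul (-1))
    refine ⟨toH f hf, ?_⟩
    rw [happ]
    apply Hinf_ext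
    intro n hn
    rw [hco _ n hn]
    have h1 : (fun t => (φ t - c) * (toH f hf : Lp ℂ ⊤ mu) t) =ᵐ[mu]
        fun t => (φ t - c) * f t := by
      filter_upwards [coe_toH f hf] with t ht
      rw [ht]
    rw [fourierCoeff_congr_ae h1, hfc n hn, fourierCoeff.const_mul]
    ring

lemma le_spectralRadius {φ : UnitAddCircle → ℂ} (hφ : MemLp φ ⊤ mu) (T : Hinf →L[ℂ] Hinf)
    (hT : ∀ (x : Hinf) (n : ℤ), 0 ≤ n → fourierCoeff (T x : Lp ℂ ⊤ mu) n =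
        fourierCoeff (fun t => φ t * (x : Lp ℂ ⊤ mu) t) n) :
    eLpNorm φ ⊤ mu ≤ spectralRadius ℂ T := by
  apply ge_of_tendsto (spectrum.pow_norm_pow_one_div_tendsto_nhds_spectralRadius T)
  filter_upwards [eventually_ge_atTop 1] with n hn
  apply eLpNormEssSup_le_of_ae_bound
  filter_upwards [pow_le_norm_pow hφ T hT n] with t ht
  rw [norm_pow] at ht
  have h1 := Real.rpow_le_rpow (by positivity) ht (show (0:ℝ) ≤ 1 / n by positivity)
  rw [← Real.rpow_natCast, ← Real.rpow_mul (norm_nonneg _)] at h1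
  have h2 : (n : ℝ) * (1 / n) = 1 := by
    have : (n : ℝ) ≠ 0 := by positivity
    field_simp
  rw [h2, Real.rpow_one] at h1
  exact h1

lemma spectralRadius_eq {φ : UnitAddCircle → ℂ} (hφ : MemLp φ ⊤ mu) (T : Hinf →L[ℂ] Hinf)
    (hT : ∀ (x : Hinf) (n : ℤ), 0 ≤ n → fourierCoeff (T x : Lp ℂ ⊤ mu) n =
        fourierCoeff (fun t => φ t * (x : Lp ℂ ⊤ mu) t) n) :
    spectralRadius ℂ T = eLpNorm φ ⊤ mu := by
  apply le_antisymm _ (le_spectralRadius hφ T hT)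
  obtain ⟨c, hc, hcr⟩ := spectrum.exists_nnnorm_eq_spectralRadius T
  rw [← hcr]
  by_contra hlt
  push Not at hlt
  have h1 : (eLpNorm φ ⊤ mu).toReal < ‖c‖ := by
    have := (ENNReal.toReal_lt_toReal hφ.2.ne (by simp)).2 hlt
    simpa using this
  exact not_mem_spectrum hφ T hT h1 hc

lemma gelfand_form {φ : UnitAddCircle → ℂ} (hφ : MemLp φ ⊤ mu)
    (h : ∀ x : Hinf, ∃ y : Hinf, ∀ n : ℤ, 0 ≤ n →
      fourierCoeff (y : Lp ℂ ⊤ mu) n = fourierCoeff (fun t => φ t * (x : Lp ℂ ⊤ mu) t) n) :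
    ∃ T : Hinf →L[ℂ] Hinf,
      (∀ (x : Hinf) (n : ℤ), 0 ≤ n → fourierCoeff (T x : Lp ℂ ⊤ mu) n =
          fourierCoeff (fun t => φ t * (x : Lp ℂ ⊤ mu) t) n) ∧
      Tendsto (fun n : ℕ => ‖T ^ n‖ ^ (1 / n : ℝ)) atTop (𝓝 (eLpNorm φ ⊤ mu).toReal) ∧
      ∀ c : ℂ, (eLpNorm φ ⊤ mu).toReal < ‖c‖ → c ∉ spectrum ℂ T := by
  have hA : Acts φ := by
    intro f hf
    obtain ⟨y, hy⟩ := h (toH f hf)
    refine ⟨_, Hinf_HI y, fun n hn => ?_⟩
    rw [hy n hn]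
    have h1 : (fun t => φ t * (toH f hf : Lp ℂ ⊤ mu) t) =ᵐ[mu] fun t => φ t * f t := by
      filter_upwards [coe_toH f hf] with t ht
      rw [ht]
    rw [fourierCoeff_congr_ae h1]
  obtain ⟨T, hT⟩ := exists_op hφ hA
  refine ⟨T, hT, ?_, fun c hc => not_mem_spectrum hφ T hT hc⟩
  have h1 := spectrum.pow_norm_pow_one_div_tendsto_nhds_spectralRadius T
  rw [spectralRadius_eq hφ T hT] at h1
  have h2 := (ENNReal.tendsto_toReal hφ.2.ne).comp h1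
  refine h2.congr fun n => ?_
  simp only [Function.comp_apply]
  exact ENNReal.toReal_ofReal (by positivity)

end Pool.Agent.Helper546.Toep
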