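import Pool.Agent.Helper546.TBase

set_option autoImplicit false
open MeasureTheory AddCircle Complex
open scoped ENNReal ComplexConjugate InnerProductSpace

namespace Pool.Agent.Helper546.Toep

/-- Bounded analytic functions on the circle. -/
def HI (f : UnitAddCircle → ℂ) : Prop :=
  MemLp f ⊤ mu ∧ ∀ n : ℤ, n < 0 → fourierCoeff f n = 0

lemma ae_norm_le_of_memLp {f : UnitAddCircle → ℂ} (hf : MemLp f ⊤ mu) :
    ∀ᵐ t ∂mu, ‖f t‖ ≤ (eLpNorm f ⊤ mu).toReal := by
  have h := ae_le_eLpNormEssSup (f := f) (μ := mu)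
  filter_upwards [h] with t ht
  rw [← eLpNorm_exponent_top] at ht
  have := ENNReal.toReal_mono hf.2.ne ht
  simpa using this

lemma exists_bound {f : UnitAddCircle → ℂ} (hf : MemLp f ⊤ mu) :
    ∃ M : ℝ, 0 < M ∧ ∀ᵐ t ∂mu, ‖f t‖ ≤ M := by
  refine ⟨(eLpNorm f ⊤ mu).toReal + 1, by positivity, ?_⟩
  filter_upwards [ae_norm_le_of_memLp hf] with t ht
  linarith

lemma memLp_of_ae_bound {f : UnitAddCircle → ℂ} (hf : AEStronglyMeasurable f mu) (M : ℝ)
    (h : ∀ᵐ t ∂mu, ‖f t‖ ≤ M) : MemLp f ⊤ mu := memLp_top_of_bound hf M h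

lemma HI.mul {f g : UnitAddCircle → ℂ} (hf : HI f) (hg : HI g) : HI (fun t => f t * g t) := by
  refine ⟨memLp_mul_top hf.1 hg.1, fun n hn => ?_⟩
  exact coeff_mul_an (memLp_of_top 2 hf.1) (memLp_of_top 2 hg.1) 0 0 n hf.2 hg.2 (by omega)

lemma HI.add {f g : UnitAddCircle → ℂ} (hf : HI f) (hg : HI g) : HI (fun t => f t + g t) := by
  refine ⟨hf.1.add hg.1, fun n hn => ?_⟩
  rw [coeff_add (memLp_of_top 1 hf.1) (memLp_of_top 1 hg.1), hf.2 n hn, hg.2 n hn, add_zero]

lemma HI.sub {f g : UnitAddCircle → ℂ} (hf : HI f) (hg : HI g) : HI (fun t => f t - g t) := by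
  refine ⟨hf.1.sub hg.1, fun n hn => ?_⟩
  rw [coeff_sub (memLp_of_top 1 hf.1) (memLp_of_top 1 hg.1), hf.2 n hn, hg.2 n hn, sub_zero]

lemma HI.const (c : ℂ) : HI (fun _ => c) := by
  refine ⟨memLp_const c, fun n hn => ?_⟩
  rw [coeff_const, if_neg hn.ne]

lemma HI.const_mul {f : UnitAddCircle → ℂ} (hf : HI f) (c : ℂ) : HI (fun t => c * f t) :=
  (HI.const c).mul hf

lemma HI.neg {f : UnitAddCircle → ℂ} (hf : HI f) : HI (fun t => - f t) := by
  have := hf.const_mul (-1)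
  simpa using this

lemma HI.pow {f : UnitAddCircle → ℂ} (hf : HI f) (n : ℕ) : HI (fun t => f t ^ n) := by
  induction n with
  | zero => simpa using HI.const 1
  | succ n ih =>
    have := ih.mul hf
    simpa only [pow_succ] using this

lemma HI.fourier {n : ℤ} (hn : 0 ≤ n) : HI (fun t => (fourier n t : ℂ)) := by
  refine ⟨memLp_fourier n, fun k hk => ?_⟩
  rw [coeff_fourier, if_neg (by omega)]

/-- Closure under dominated series. -/
lemma HI.series {U : UnitAddCircle → ℂ} {u : ℕ → UnitAddCircle → ℂ} {c : ℕ → ℝ}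
    (hu : ∀ m, HI (u m)) (hb : ∀ m, ∀ᵐ t ∂mu, ‖u m t‖ ≤ c m) (hc : Summable c)
    (hU : ∀ᵐ t ∂mu, HasSum (fun m => u m t) (U t)) : HI U := by
  have hm : AEStronglyMeasurable U mu := by
    refine aestronglyMeasurable_of_tendsto_ae (f := fun (N : ℕ) t => ∑ m ∈ Finset.range N, u m t)
      Filter.atTop (fun N => ?_) ?_
    · exact Finset.aestronglyMeasurable_fun_sum _ (fun m _ => (hu m).1.1)
    · filter_upwards [hU] with t ht
      exact ht.tendsto_sum_nat
  refine ⟨?_, fun n hn => ?_⟩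
  · refine memLp_of_ae_bound hm (∑' m, c m) ?_
    filter_upwards [hU, ae_all_iff.2 hb] with t ht hb'
    rw [← ht.tsum_eq]
    exact tsum_of_norm_bounded hc.hasSum hb'
  · have h := hasSum_coeff (fun m => (hu m).1.1) hb hc hU n
    have h0 : (fun m => fourierCoeff (u m) n) = fun _ => 0 := by
      funext m; exact (hu m).2 n hn
    rw [h0] at h
    exact h.unique hasSum_zero

lemma HI.exp {f : UnitAddCircle → ℂ} (hf : HI f) : HI (fun t => Complex.exp (f t)) := by
  obtain ⟨M, hM, hb⟩ := exists_bound hf.1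
  refine HI.series (u := fun m t => ((m.factorial : ℂ))⁻¹ * f t ^ m)
    (c := fun m => M ^ m / m.factorial) (fun m => (hf.pow m).const_mul _) (fun m => ?_)
    (Real.summable_pow_div_factorial M) ?_
  · filter_upwards [hb] with t ht
    rw [norm_mul, norm_inv, norm_pow, Complex.norm_natCast, div_eq_inv_mul]
    gcongr
  · refine Filter.Eventually.of_forall fun t => ?_
    have := NormedSpace.expSeries_div_hasSum_exp (𝔸 := ℂ) (f t)
    rw [← Complex.exp_eq_exp_ℂ] at this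
    have e : (fun m : ℕ => ((m.factorial : ℂ))⁻¹ * f t ^ m) = fun m => f t ^ m / m.factorial := by
      funext m; rw [div_eq_inv_mul]
    rw [e]
    exact this

lemma HI.geom {u : UnitAddCircle → ℂ} (hu : HI u) {θ : ℝ} (hθ : θ < 1) (h0 : 0 ≤ θ)
    (hb : ∀ᵐ t ∂mu, ‖u t‖ ≤ θ) : HI (fun t => (1 - u t)⁻¹) := by
  refine HI.series (u := fun m t => u t ^ m) (c := fun m => θ ^ m) (fun m => hu.pow m)
    (fun m => ?_) (summable_geometric_of_lt_one h0 hθ) ?_
  · filter_upwards [hb] with t ht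
    rw [norm_pow]; gcongr
  · filter_upwards [hb] with t ht
    exact hasSum_geometric_of_norm_lt_one (lt_of_le_of_lt ht hθ)

/-- Inverse of an analytic function with real part bounded below. -/
lemma HI.inv {Y : UnitAddCircle → ℂ} (hY : HI Y) {δ : ℝ} (hδ : 0 < δ)
    (hb : ∀ᵐ t ∂mu, δ ≤ (Y t).re) : HI (fun t => (Y t)⁻¹) := by
  obtain ⟨M₀, hM₀, hbM₀⟩ := exists_bound hY.1
  set M := M₀ + δ with hMdef
  have hM : 0 < M := by positivity
  have hδM : δ < M := by linarith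
  have hbM : ∀ᵐ t ∂mu, ‖Y t‖ ≤ M := by
    filter_upwards [hbM₀] with t ht
    linarith
  set η : ℝ := δ / M ^ 2 with hη
  have hη0 : 0 < η := by positivity
  have hθ0 : 0 < 1 - δ ^ 2 / M ^ 2 := by
    rw [sub_pos, div_lt_one (by positivity)]
    exact pow_lt_pow_left₀ hδM hδ.le (by norm_num)
  set θ : ℝ := Real.sqrt (1 - δ ^ 2 / M ^ 2) with hθ
  have hθ1 : θ < 1 := by
    rw [hθ, Real.sqrt_lt' one_pos]
    have : 0 < δ ^ 2 / M ^ 2 := by positivity
    linarith
  have hu : HI (fun t => 1 - (η : ℂ) * Y t) := (HI.const 1).sub (hY.const_mul _)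
  have hub : ∀ᵐ t ∂mu, ‖1 - (η : ℂ) * Y t‖ ≤ θ := by
    filter_upwards [hb, hbM] with t h1 h2
    rw [hθ]
    apply Real.le_sqrt_of_sq_le
    rw [← Complex.normSq_eq_norm_sq, Complex.normSq_apply]
    have h3 : (Y t).re ^ 2 + (Y t).im ^ 2 ≤ M ^ 2 := by
      have := pow_le_pow_left₀ (norm_nonneg _) h2 2
      rw [← Complex.normSq_eq_norm_sq, Complex.normSq_apply] at this
      nlinarith
    have e1 : (1 - (η : ℂ) * Y t).re = 1 - η * (Y t).re := by simp
    have e2 : (1 - (η : ℂ) * Y t).im = - (η * (Y t).im) := by simp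
    rw [e1, e2]
    have h4 : η * M ^ 2 = δ := by rw [hη]; field_simp
    have h5 : δ ^ 2 / M ^ 2 = η * δ := by rw [hη]; ring
    have h6 : η ^ 2 * ((Y t).re ^ 2 + (Y t).im ^ 2) ≤ η ^ 2 * M ^ 2 := by gcongr
    have h7 : η ^ 2 * M ^ 2 = η * δ := by rw [pow_two, mul_assoc, h4]
    have h8 : η * δ ≤ η * (Y t).re := by gcongr
    nlinarith
  have hg := (hu.geom hθ1 (Real.sqrt_nonneg _) hub).const_mul (η : ℂ)
  have e : (fun t => (η : ℂ) * (1 - (1 - (η : ℂ) * Y t))⁻¹) = fun t => (Y t)⁻¹ := by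
    funext t
    have hη' : (η : ℂ) ≠ 0 := by exact_mod_cast hη0.ne'
    rw [sub_sub_cancel, mul_inv, ← mul_assoc, mul_inv_cancel₀ hη', one_mul]
  rw [e] at hg
  exact hg

end Pool.Agent.Helper546.Toep
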