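import Pool.Agent.Helper546.THardy

set_option autoImplicit false
open MeasureTheory AddCircle Complex
open scoped ENNReal ComplexConjugate InnerProductSpace Topology

namespace Pool.Agent.Helper546.Toep

/-- The Cauchy kernel. -/
noncomputable def wk (z : ℂ) (t : UnitAddCircle) : ℂ := (1 - z * fourier (-1) t)⁻¹

lemma norm_mul_fourier (z : ℂ) (n : ℤ) (t : UnitAddCircle) : ‖z * fourier n t‖ = ‖z‖ := by
  rw [norm_mul, norm_fourier, mul_one]

lemma one_sub_ne {z : ℂ} (hz : ‖z‖ < 1) (n : ℤ) (t : UnitAddCircle) :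
    1 - z * fourier n t ≠ 0 := by
  intro h
  have h1 : z * fourier n t = 1 := (sub_eq_zero.1 h).symm
  have h2 := norm_mul_fourier z n t
  rw [h1, norm_one] at h2
  linarith

lemma continuous_wk {z : ℂ} (hz : ‖z‖ < 1) : Continuous (wk z) := by
  unfold wk
  exact Continuous.inv₀ (by fun_prop) (fun t => one_sub_ne hz _ t)

lemma memLp_of_continuous {f : UnitAddCircle → ℂ} (hf : Continuous f) : MemLp f ⊤ mu := by
  obtain ⟨C, hC⟩ := isCompact_univ.exists_bound_of_continuousOn hf.continuousOn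
  exact memLp_top_of_bound hf.aestronglyMeasurable C
    (Filter.Eventually.of_forall fun t => hC t (Set.mem_univ t))

lemma memLp_wk {z : ℂ} (hz : ‖z‖ < 1) : MemLp (wk z) ⊤ mu := memLp_of_continuous (continuous_wk hz)

lemma fourier_pow (m : ℤ) (k : ℕ) (t : UnitAddCircle) :
    (fourier m t : ℂ) ^ k = fourier (m * k) t := by
  induction k with
  | zero => simp
  | succ k ih =>
    rw [pow_succ, ih, ← fourier_add']
    push_cast
    ring_nf

lemma hasSum_wk {z : ℂ} (hz : ‖z‖ < 1) (t : UnitAddCircle) :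
    HasSum (fun k : ℕ => z ^ k * fourier (-(k : ℤ)) t) (wk z t) := by
  have h := hasSum_geometric_of_norm_lt_one (ξ := z * fourier (-1) t)
    (by rw [norm_mul_fourier]; exact hz)
  have e : (fun k : ℕ => (z * fourier (-1) t) ^ k) = fun k : ℕ => z ^ k * fourier (-(k : ℤ)) t := by
    funext k
    rw [mul_pow, fourier_pow]; ring_nf
  rw [e] at h
  exact h

lemma hasSum_integral_wk {q : UnitAddCircle → ℂ} (hq : Integrable q mu) {z : ℂ} (hz : ‖z‖ < 1) :
    HasSum (fun k : ℕ => z ^ k * fourierCoeff q k) (∫ t, q t * wk z t ∂mu) := by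
  have h := hasSum_integral (u := fun k t => z ^ k * fourier (-(k : ℤ)) t)
    (U := wk z) (c := fun k => ‖z‖ ^ k) hq ?_ ?_ ?_ ?_
  · convert h using 2 with k
    rw [fourierCoeff, ← integral_const_mul]
    apply integral_congr_ae
    refine Filter.Eventually.of_forall fun t => ?_
    simp only [smul_eq_mul]
    ring
  · intro m
    exact (by fun_prop : Continuous fun t : UnitAddCircle =>
      z ^ m * fourier (-(m : ℤ)) t).aestronglyMeasurable
  · intro m
    refine Filter.Eventually.of_forall fun t => ?_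
    rw [norm_mul_fourier, norm_pow]
  · exact summable_geometric_of_lt_one (norm_nonneg _) hz
  · exact Filter.Eventually.of_forall fun t => hasSum_wk hz t

lemma coeff_wk {z : ℂ} (hz : ‖z‖ < 1) (n : ℤ) :
    fourierCoeff (wk z) n = if n ≤ 0 then z ^ n.natAbs else 0 := by
  have hI : Integrable (fun t : UnitAddCircle => (fourier (-n) t : ℂ)) mu :=
    memLp_one_iff_integrable.1 (memLp_of_top 1 (memLp_fourier (-n)))
  have h := hasSum_integral_wk hI hz
  have e : fourierCoeff (wk z) n = ∫ t, fourier (-n) t * wk z t ∂mu := by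
    rw [fourierCoeff]; rfl
  rw [e]
  refine h.unique ?_
  simp only [coeff_fourier]
  split_ifs with hn
  · have : (fun k : ℕ => z ^ k * (if (k : ℤ) = -n then (1 : ℂ) else 0)) =
        fun k : ℕ => if k = n.natAbs then z ^ n.natAbs else 0 := by
      funext k
      by_cases hk : k = n.natAbs
      · rw [if_pos (by omega), if_pos hk, hk, mul_one]
      · rw [if_neg (by omega), if_neg hk, mul_zero]
    rw [this]
    exact hasSum_ite_eq _ _
  · have : (fun k : ℕ => z ^ k * (if (k : ℤ) = -n then (1 : ℂ) else 0)) = fun _ => 0 := by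
      funext k
      rw [if_neg (by omega), mul_zero]
    rw [this]
    exact hasSum_zero

lemma HI.conj_wk {z : ℂ} (hz : ‖z‖ < 1) : HI (fun t => conj (wk z t)) := by
  refine ⟨(memLp_wk hz).star, fun n hn => ?_⟩
  rw [coeff_conj, coeff_wk hz, if_neg (by omega), map_zero]

/-- The part of the Poisson kernel with positive frequencies. -/
noncomputable def pk (z : ℂ) (t : UnitAddCircle) : ℂ := conj z * (conj (wk z t) * fourier 1 t)

lemma memLp_pk {z : ℂ} (hz : ‖z‖ < 1) : MemLp (pk z) ⊤ mu := by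
  have h1 : MemLp (fun t => conj (wk z t)) ⊤ mu := (memLp_wk hz).star
  exact ((memLp_mul_top h1 (memLp_fourier 1)).const_mul _)

lemma coeff_pk {z : ℂ} (hz : ‖z‖ < 1) (n : ℤ) (hn : n < 1) : fourierCoeff (pk z) n = 0 := by
  unfold pk
  rw [fourierCoeff.const_mul, coeff_mul_fourier, (HI.conj_wk hz).2 _ (by omega), mul_zero]

lemma poisson_eq {z : ℂ} (hz : ‖z‖ < 1) (t : UnitAddCircle) :
    (((1 - ‖z‖ ^ 2) * ‖wk z t‖ ^ 2 : ℝ) : ℂ) = wk z t + pk z t := by
  have h1 := one_sub_ne hz (-1) t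
  have h2 : 1 - conj z * fourier 1 t ≠ 0 := one_sub_ne (by simpa using hz) 1 t
  have e1 : conj (wk z t) = (1 - conj z * fourier 1 t)⁻¹ := by
    unfold wk
    rw [map_inv₀, map_sub, map_one, map_mul, fourier_neg', Complex.conj_conj]
  have e2 : ((‖wk z t‖ ^ 2 : ℝ) : ℂ) = wk z t * conj (wk z t) := by
    rw [Complex.mul_conj, Complex.normSq_eq_norm_sq]
  have e3 : ((‖z‖ ^ 2 : ℝ) : ℂ) = z * conj z := by
    rw [Complex.mul_conj, Complex.normSq_eq_norm_sq]
  have e4 : (fourier (-1) t : ℂ) * fourier 1 t = 1 := by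
    rw [← fourier_add']; simp
  rw [Complex.ofReal_mul, e2, Complex.ofReal_sub, e3, Complex.ofReal_one]
  unfold pk
  rw [e1]
  unfold wk
  field_simp
  linear_combination (z * conj z) * e4

lemma integral_wk {z : ℂ} (hz : ‖z‖ < 1) : ∫ t, wk z t ∂mu = 1 := by
  rw [← coeff_zero_eq, coeff_wk hz]; simp

lemma integral_poisson {z : ℂ} (hz : ‖z‖ < 1) :
    ∫ t, (1 - ‖z‖ ^ 2) * ‖wk z t‖ ^ 2 ∂mu = 1 := by
  have h : ((∫ t, (1 - ‖z‖ ^ 2) * ‖wk z t‖ ^ 2 ∂mu : ℝ) : ℂ) = 1 := by
    rw [← integral_complex_ofReal]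
    have : ∀ t, (((1 - ‖z‖ ^ 2) * ‖wk z t‖ ^ 2 : ℝ) : ℂ) = wk z t + pk z t := poisson_eq hz
    simp_rw [this]
    rw [integral_add (memLp_one_iff_integrable.1 (memLp_of_top 1 (memLp_wk hz)))
      (memLp_one_iff_integrable.1 (memLp_of_top 1 (memLp_pk hz))), integral_wk hz,
      ← coeff_zero_eq, coeff_pk hz 0 (by norm_num), add_zero]
  exact_mod_cast h

/-- Evaluation at a point of the disc is bounded by the sup norm. -/
lemma ev_bound {h : UnitAddCircle → ℂ} (hh : HI h) {M : ℝ} (hb : ∀ᵐ t ∂mu, ‖h t‖ ≤ M)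
    {z : ℂ} (hz : ‖z‖ < 1) : ‖∫ t, h t * wk z t ∂mu‖ ≤ M := by
  have h0 : ∫ t, h t * pk z t ∂mu = 0 := by
    rw [← coeff_zero_eq]
    exact coeff_mul_an (memLp_of_top 2 hh.1) (memLp_of_top 2 (memLp_pk hz)) 0 1 0 hh.2
      (coeff_pk hz) (by norm_num)
  have h1 : ∫ t, h t * wk z t ∂mu =
      ∫ t, h t * (((1 - ‖z‖ ^ 2) * ‖wk z t‖ ^ 2 : ℝ) : ℂ) ∂mu := by
    have : ∀ t, h t * (((1 - ‖z‖ ^ 2) * ‖wk z t‖ ^ 2 : ℝ) : ℂ) = h t * wk z t + h t * pk z t := by
      intro t; rw [poisson_eq hz]; ring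
    simp_rw [this]
    rw [integral_add (memLp_one_iff_integrable.1 (memLp_of_top 1 (memLp_mul_top hh.1 (memLp_wk hz))))
      (memLp_one_iff_integrable.1 (memLp_of_top 1 (memLp_mul_top hh.1 (memLp_pk hz)))), h0, add_zero]
  have hP0 : ∀ t, 0 ≤ (1 - ‖z‖ ^ 2) * ‖wk z t‖ ^ 2 := by
    intro t
    have : ‖z‖ ^ 2 ≤ 1 := pow_le_one₀ (norm_nonneg _) hz.le
    have : 0 ≤ 1 - ‖z‖ ^ 2 := by linarith
    positivity
  have hPc : Continuous (fun t => (1 - ‖z‖ ^ 2) * ‖wk z t‖ ^ 2) := by
    have := continuous_wk hz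
    fun_prop
  have hPi : Integrable (fun t => (1 - ‖z‖ ^ 2) * ‖wk z t‖ ^ 2) mu :=
    hPc.integrable_of_hasCompactSupport (HasCompactSupport.of_compactSpace _)
  rw [h1]
  calc ‖∫ t, h t * (((1 - ‖z‖ ^ 2) * ‖wk z t‖ ^ 2 : ℝ) : ℂ) ∂mu‖
      ≤ ∫ t, M * ((1 - ‖z‖ ^ 2) * ‖wk z t‖ ^ 2) ∂mu := by
        apply norm_integral_le_of_norm_le (hPi.const_mul M)
        filter_upwards [hb] with t ht
        rw [norm_mul, Complex.norm_real, Real.norm_of_nonneg (hP0 t)]
        exact mul_le_mul_of_nonneg_right ht (hP0 t)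
    _ = M := by rw [integral_const_mul, integral_poisson hz, mul_one]

lemma norm_coeff_le {q : UnitAddCircle → ℂ} (n : ℤ) :
    ‖fourierCoeff q n‖ ≤ ∫ t, ‖q t‖ ∂mu := by
  rw [fourierCoeff]
  refine le_trans (norm_integral_le_integral_norm _) (le_of_eq ?_)
  apply integral_congr_ae
  refine Filter.Eventually.of_forall fun t => ?_
  simp only [smul_eq_mul]
  rw [norm_mul, norm_fourier, one_mul]

/-- Recovery of a bounded analytic function from bounds on the disc. -/
lemma recover {q : UnitAddCircle → ℂ} (hq : MemLp q ⊤ mu) {M : ℝ}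
    (hb : ∀ z : ℂ, ‖z‖ < 1 → ‖∫ t, q t * wk z t ∂mu‖ ≤ M) :
    ∃ h : UnitAddCircle → ℂ, HI h ∧ (∀ᵐ t ∂mu, ‖h t‖ ≤ M) ∧
      ∀ n : ℤ, 0 ≤ n → fourierCoeff h n = fourierCoeff q n := by
  set a : ℤ → ℂ := fun n => if 0 ≤ n then fourierCoeff q n else 0 with ha
  have hqs := hasSum_sq (memLp_of_top 2 hq)
  have has : Summable fun n => ‖a n‖ ^ 2 := by
    refine Summable.of_nonneg_of_le (fun n => by positivity) (fun n => ?_) hqs.summable
    simp only [ha]
    split_ifs
    · exact le_rfl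
    · simp
  obtain ⟨Q, hQ, hQa⟩ := exists_of_coeff a has
  have hqi : Integrable q mu := memLp_one_iff_integrable.1 (memLp_of_top 1 hq)
  -- the dilates
  have hur : ∀ r : ℝ, 0 ≤ r → r < 1 → ∃ u : UnitAddCircle → ℂ, MemLp u 2 mu ∧
      (∀ᵐ t ∂mu, ‖u t‖ ≤ M) ∧ ∀ n, fourierCoeff u n = (r : ℂ) ^ n.natAbs * a n := by
    intro r hr0 hr1
    have hnz : ∀ t : UnitAddCircle, ‖(r : ℂ) * fourier 1 t‖ < 1 := by
      intro t
      rw [norm_mul_fourier, Complex.norm_real, Real.norm_of_nonneg hr0]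
      exact hr1
    set u : UnitAddCircle → ℂ := fun s => ∫ t, q t * wk ((r : ℂ) * fourier 1 s) t ∂mu with hu
    have hsum : ∀ s, HasSum (fun k : ℕ => ((r : ℂ) ^ k * fourierCoeff q k) * fourier k s) (u s) := by
      intro s
      have := hasSum_integral_wk hqi (hnz s)
      convert this using 2 with k
      rw [mul_pow, fourier_pow, one_mul]
      ring
    have hub : ∀ s, ‖u s‖ ≤ M := fun s => hb _ (hnz s)
    have hcb : ∀ (k : ℕ), ∀ᵐ s ∂mu, ‖((r : ℂ) ^ k * fourierCoeff q k) * fourier k s‖ ≤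
        r ^ k * ∫ t, ‖q t‖ ∂mu := by
      intro k
      refine Filter.Eventually.of_forall fun s => ?_
      rw [norm_mul_fourier, norm_mul, norm_pow, Complex.norm_real, Real.norm_of_nonneg hr0]
      gcongr
      exact norm_coeff_le _
    have hcs : Summable fun k : ℕ => r ^ k * ∫ t, ‖q t‖ ∂mu :=
      (summable_geometric_of_lt_one hr0 hr1).mul_right _
    have hkm : ∀ k : ℕ, AEStronglyMeasurable
        (fun s : UnitAddCircle => ((r : ℂ) ^ k * fourierCoeff q k) * fourier k s) mu := by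
      intro k
      exact (by fun_prop : Continuous fun s : UnitAddCircle =>
        ((r : ℂ) ^ k * fourierCoeff q k) * fourier k s).aestronglyMeasurable
    have hum : AEStronglyMeasurable u mu := by
      refine aestronglyMeasurable_of_tendsto_ae
        (f := fun (N : ℕ) s => ∑ k ∈ Finset.range N, ((r : ℂ) ^ k * fourierCoeff q k) * fourier k s)
        Filter.atTop (fun N => ?_) ?_
      · exact Finset.aestronglyMeasurable_fun_sum _ (fun m _ => hkm m)
      · exact Filter.Eventually.of_forall fun s => (hsum s).tendsto_sum_nat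
    refine ⟨u, memLp_of_top 2 (memLp_of_ae_bound hum M (Filter.Eventually.of_forall hub)),
      Filter.Eventually.of_forall hub, fun n => ?_⟩
    have hco := hasSum_coeff hkm hcb hcs (Filter.Eventually.of_forall hsum) n
    refine hco.unique ?_
    have e : ∀ k : ℕ, fourierCoeff (fun s : UnitAddCircle =>
        ((r : ℂ) ^ k * fourierCoeff q k) * fourier k s) n =
        if (k : ℤ) = n then (r : ℂ) ^ k * fourierCoeff q k else 0 := by
      intro k
      rw [fourierCoeff.const_mul, coeff_fourier]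
      by_cases h : n = (k : ℤ)
      · rw [if_pos h, if_pos h.symm, mul_one]
      · rw [if_neg h, if_neg (Ne.symm h), mul_zero]
    simp only [e]
    by_cases hn : 0 ≤ n
    · obtain ⟨m, rfl⟩ := Int.eq_ofNat_of_zero_le hn
      have : ∀ k : ℕ, (if (k : ℤ) = (m : ℤ) then (r : ℂ) ^ k * fourierCoeff q k else 0) =
          if k = m then (r : ℂ) ^ m * fourierCoeff q m else 0 := by
        intro k
        by_cases h : k = m
        · rw [if_pos (by omega), if_pos h, h]
        · rw [if_neg (by omega), if_neg h]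
      simp only [this]
      have h2 : a (m : ℤ) = fourierCoeff q m := by simp [ha]
      rw [h2, Int.natAbs_natCast]
      exact hasSum_ite_eq _ _
    · have : ∀ k : ℕ, (if (k : ℤ) = n then (r : ℂ) ^ k * fourierCoeff q k else 0) = 0 := by
        intro k
        rw [if_neg (by omega)]
      simp only [this]
      have h2 : a n = 0 := by simp only [ha]; rw [if_neg hn]
      rw [h2, mul_zero]
      exact hasSum_zero
  have hQM : ∀ᵐ t ∂mu, ‖Q t‖ ≤ M := by
    apply bound_of_approx hQ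
    intro δ hδ
    have htend : Filter.Tendsto (fun r : ℝ => ∑' n, ‖(r : ℂ) ^ n.natAbs * a n - a n‖ ^ 2)
        (𝓝[<] 1) (𝓝 (∑' _n : ℤ, (0:ℝ))) := by
      apply tendsto_tsum_of_dominated_convergence (bound := fun n => ‖a n‖ ^ 2) has
      · intro n
        have hc : Continuous fun r : ℝ => ‖(r : ℂ) ^ n.natAbs * a n - a n‖ ^ 2 := by fun_prop
        have := hc.tendsto 1
        simp only [Complex.ofReal_one, one_pow, one_mul, sub_self, norm_zero, ne_eq,
          OfNat.ofNat_ne_zero, not_false_eq_true, zero_pow] at this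
        exact this.mono_left nhdsWithin_le_nhds
      · have h1 : ∀ᶠ r : ℝ in 𝓝[<] 1, r < 1 := self_mem_nhdsWithin
        have h2 : ∀ᶠ r : ℝ in 𝓝[<] 1, 0 < r := nhdsWithin_le_nhds (Ioi_mem_nhds one_pos)
        filter_upwards [h1, h2] with r hr1 hr0 n
        rw [Real.norm_of_nonneg (by positivity)]
        have : (r : ℂ) ^ n.natAbs * a n - a n = ((r ^ n.natAbs - 1 : ℝ) : ℂ) * a n := by
          push_cast; ring
        rw [this, norm_mul, Complex.norm_real]
        have hp : r ^ n.natAbs ≤ 1 := pow_le_one₀ hr0.le hr1.le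
        have hp0 : 0 ≤ r ^ n.natAbs := by positivity
        have : ‖r ^ n.natAbs - 1‖ ≤ 1 := by
          rw [Real.norm_eq_abs, abs_le]; constructor <;> linarith
        have h5 : ‖r ^ n.natAbs - 1‖ * ‖a n‖ ≤ 1 * ‖a n‖ :=
          mul_le_mul_of_nonneg_right this (norm_nonneg _)
        rw [one_mul] at h5
        exact pow_le_pow_left₀ (by positivity) h5 2
    rw [tsum_zero] at htend
    have h1 : ∀ᶠ r : ℝ in 𝓝[<] 1, r < 1 := self_mem_nhdsWithin
    have h2 : ∀ᶠ r : ℝ in 𝓝[<] 1, 0 < r := nhdsWithin_le_nhds (Ioi_mem_nhds one_pos)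
    have h3 := htend.eventually (gt_mem_nhds hδ)
    obtain ⟨r, hr1, hr0, hr⟩ := (h1.and (h2.and h3)).exists
    obtain ⟨u, hu2, hub, huc⟩ := hur r hr0.le hr1
    refine ⟨u, hu2, hub, ?_⟩
    have hs := hasSum_sq (hu2.sub hQ)
    have hc : ∀ n, fourierCoeff (u - Q) n = (r : ℂ) ^ n.natAbs * a n - a n := by
      intro n
      have := coeff_sub (hu2.mono_exponent (p := 1) (by norm_num))
        (hQ.mono_exponent (p := 1) (by norm_num)) n
      rw [huc, hQa] at this
      exact this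
    simp only [hc] at hs
    have := hs.tsum_eq
    simp only [Pi.sub_apply] at this
    rw [← this]
    exact hr.le
  refine ⟨Q, ⟨memLp_of_ae_bound hQ.1 M hQM, fun n hn => ?_⟩, hQM, fun n hn => ?_⟩
  · rw [hQa]; simp only [ha]; rw [if_neg (by omega)]
  · rw [hQa]; simp only [ha]; rw [if_pos hn]

end Pool.Agent.Helper546.Toep
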