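import Pool.Agent.Helper546.TWH

set_option autoImplicit false
open MeasureTheory AddCircle Complex Filter
open scoped ENNReal ComplexConjugate InnerProductSpace Topology

namespace Pool.Agent.Helper546.Toep

lemma ae_norm_le_norm (f : Lp ℂ ⊤ mu) : ∀ᵐ t ∂mu, ‖f t‖ ≤ ‖f‖ := by
  rw [Lp.norm_def]
  exact ae_norm_le_of_memLp (Lp.memLp f)

lemma continuous_coeff_mul {φ : UnitAddCircle → ℂ} (hφ : MemLp φ ⊤ mu) (n : ℤ) :
    Continuous (fun f : Lp ℂ ⊤ mu => fourierCoeff (fun t => φ t * f t) n) := by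
  obtain ⟨R, hR, hφR⟩ := exists_bound hφ
  apply LipschitzWith.continuous (K := ⟨R, hR.le⟩)
  apply LipschitzWith.of_dist_le_mul
  intro x y
  rw [dist_eq_norm, dist_eq_norm]
  have h1 : MemLp (fun t => φ t * x t) ⊤ mu := memLp_mul_top hφ (Lp.memLp x)
  have h2 : MemLp (fun t => φ t * y t) ⊤ mu := memLp_mul_top hφ (Lp.memLp y)
  have h3 := coeff_sub (memLp_of_top 1 h1) (memLp_of_top 1 h2) n
  rw [← h3]
  refine (norm_coeff_le n).trans ?_
  have h4 : ∀ᵐ t ∂mu, ‖φ t * x t - φ t * y t‖ ≤ R * ‖x - y‖ := by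
    filter_upwards [hφR, ae_norm_le_norm (x - y), Lp.coeFn_sub x y] with t a b c
    rw [← mul_sub, norm_mul]
    rw [c, Pi.sub_apply] at b
    gcongr
  have h5 := integral_mono_of_nonneg (μ := mu)
    (f := fun t => ‖φ t * x t - φ t * y t‖) (g := fun _ => R * ‖x - y‖)
    (Eventually.of_forall fun t => norm_nonneg _) (integrable_const _) h4
  have h6 : ∫ t, ‖φ t * x t - φ t * y t‖ ∂mu ≤ R * ‖x - y‖ := by simpa using h5
  exact h6

lemma continuous_coeff (n : ℤ) :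
    Continuous (fun f : Lp ℂ ⊤ mu => fourierCoeff f n) := by
  have := continuous_coeff_mul (memLp_const (1:ℂ)) n
  simpa only [one_mul] using this

/-- The Banach space `H^∞`. -/
noncomputable def Hinf : Submodule ℂ (Lp ℂ ⊤ mu) where
  carrier := {f | ∀ n : ℤ, n < 0 → fourierCoeff f n = 0}
  add_mem' := by
    intro x y hx hy n hn
    rw [fourierCoeff_congr_ae (Lp.coeFn_add x y)]
    have := coeff_add (memLp_of_top 1 (Lp.memLp x)) (memLp_of_top 1 (Lp.memLp y)) n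
    rw [hx n hn, hy n hn, add_zero] at this
    exact this
  zero_mem' := by
    intro n hn
    rw [fourierCoeff_congr_ae (Lp.coeFn_zero ℂ ⊤ mu)]
    have := coeff_const 0 n
    simp only [ite_self] at this
    exact this
  smul_mem' := by
    intro c x hx n hn
    rw [fourierCoeff_congr_ae (Lp.coeFn_smul c x)]
    have := fourierCoeff.const_mul (T := 1) (x : UnitAddCircle → ℂ) c n
    rw [hx n hn, mul_zero] at this
    exact this

lemma mem_Hinf {f : Lp ℂ ⊤ mu} : f ∈ Hinf ↔ ∀ n : ℤ, n < 0 → fourierCoeff f n = 0 := Iff.rfl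

lemma isClosed_Hinf : IsClosed (Hinf : Set (Lp ℂ ⊤ mu)) := by
  have : (Hinf : Set (Lp ℂ ⊤ mu)) = ⋂ n : ℤ, ⋂ _ : n < 0,
      {f : Lp ℂ ⊤ mu | fourierCoeff (f : UnitAddCircle → ℂ) n = 0} := by
    ext f
    simp only [Set.mem_iInter]
    rfl
  rw [this]
  refine isClosed_iInter fun n => isClosed_iInter fun _ => ?_
  exact isClosed_eq (continuous_coeff n) continuous_const

noncomputable instance : CompleteSpace Hinf := isClosed_Hinf.completeSpace_coe

lemma Hinf_HI (x : Hinf) : HI (x : Lp ℂ ⊤ mu) := ⟨Lp.memLp _, x.2⟩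

/-- The element of the Banach space attached to a bounded analytic function. -/
noncomputable def toH (f : UnitAddCircle → ℂ) (hf : HI f) : Hinf :=
  ⟨hf.1.toLp f, fun n hn => by rw [fourierCoeff_congr_ae hf.1.coeFn_toLp]; exact hf.2 n hn⟩

lemma coe_toH (f : UnitAddCircle → ℂ) (hf : HI f) : ((toH f hf : Lp ℂ ⊤ mu) : UnitAddCircle → ℂ) =ᵐ[mu] f :=
  hf.1.coeFn_toLp

lemma Hinf_ext {x y : Hinf} (h : ∀ n : ℤ, 0 ≤ n → fourierCoeff (x : Lp ℂ ⊤ mu) n =
    fourierCoeff (y : Lp ℂ ⊤ mu) n) : x = y := by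
  apply Subtype.ext
  apply Lp.ext
  apply ae_eq_of_coeff (memLp_of_top 2 (Lp.memLp _)) (memLp_of_top 2 (Lp.memLp _))
  intro n
  by_cases hn : 0 ≤ n
  · exact h n hn
  · rw [x.2 n (by omega), y.2 n (by omega)]

/-- The Toeplitz operator is well defined on `H^∞`. -/
def Acts (φ : UnitAddCircle → ℂ) : Prop :=
  ∀ f : UnitAddCircle → ℂ, HI f → ∃ g : UnitAddCircle → ℂ, HI g ∧
    ∀ n : ℤ, 0 ≤ n → fourierCoeff g n = fourierCoeff (fun t => φ t * f t) n

/-- Existence of the bounded Toeplitz operator. -/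
lemma exists_op {φ : UnitAddCircle → ℂ} (hφ : MemLp φ ⊤ mu) (h : Acts φ) :
    ∃ T : Hinf →L[ℂ] Hinf, ∀ (x : Hinf) (n : ℤ), 0 ≤ n →
      fourierCoeff (T x : Lp ℂ ⊤ mu) n =
        fourierCoeff (fun t => φ t * (x : Lp ℂ ⊤ mu) t) n := by
  choose g hg hgc using fun x : Hinf => h _ (Hinf_HI x)
  have hT : ∀ (x : Hinf) (n : ℤ), 0 ≤ n → fourierCoeff (toH (g x) (hg x) : Lp ℂ ⊤ mu) n =
      fourierCoeff (fun t => φ t * (x : Lp ℂ ⊤ mu) t) n := by
    intro x n hn
    rw [fourierCoeff_congr_ae (coe_toH _ _), hgc x n hn]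
  have hm : ∀ x : Hinf, MemLp (fun t => φ t * (x : Lp ℂ ⊤ mu) t) ⊤ mu := fun x =>
    memLp_mul_top hφ (Lp.memLp _)
  let T₀ : Hinf →ₗ[ℂ] Hinf :=
    { toFun := fun x => toH (g x) (hg x)
      map_add' := by
        intro x y
        apply Hinf_ext
        intro n hn
        rw [hT _ n hn, Submodule.coe_add, Submodule.coe_add,
          fourierCoeff_congr_ae (Lp.coeFn_add (toH (g x) (hg x) : Lp ℂ ⊤ mu) _)]
        have h1 := coeff_add (memLp_of_top 1 (Hinf_HI (toH (g x) (hg x))).1)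
          (memLp_of_top 1 (Hinf_HI (toH (g y) (hg y))).1) n
        rw [hT _ n hn, hT _ n hn, ← coeff_add (memLp_of_top 1 (hm x)) (memLp_of_top 1 (hm y))] at h1
        refine Eq.trans ?_ h1.symm
        refine congrFun (fourierCoeff_congr_ae ?_) n
        filter_upwards [Lp.coeFn_add (x : Lp ℂ ⊤ mu) (y : Lp ℂ ⊤ mu)] with t ht
        rw [ht, Pi.add_apply]; ring
      map_smul' := by
        intro c x
        apply Hinf_ext
        intro n hn
        rw [hT _ n hn, RingHom.id_apply, Submodule.coe_smul, Submodule.coe_smul,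
          fourierCoeff_congr_ae (Lp.coeFn_smul c (toH (g x) (hg x) : Lp ℂ ⊤ mu))]
        have h1 := fourierCoeff.const_mul (T := 1)
          ((toH (g x) (hg x) : Lp ℂ ⊤ mu) : UnitAddCircle → ℂ) c n
        rw [hT _ n hn, ← fourierCoeff.const_mul] at h1
        refine Eq.trans ?_ h1.symm
        refine congrFun (fourierCoeff_congr_ae ?_) n
        filter_upwards [Lp.coeFn_smul c (x : Lp ℂ ⊤ mu)] with t ht
        rw [ht, Pi.smul_apply, smul_eq_mul]; ring }
  have hT₀ : ∀ (x : Hinf) (n : ℤ), 0 ≤ n → fourierCoeff (T₀ x : Lp ℂ ⊤ mu) n =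
      fourierCoeff (fun t => φ t * (x : Lp ℂ ⊤ mu) t) n := hT
  have hcl : ∀ (u : ℕ → Hinf) (x y : Hinf), Tendsto u atTop (𝓝 x) →
      Tendsto (T₀ ∘ u) atTop (𝓝 y) → y = T₀ x := by
    intro u x y hu hTu
    apply Hinf_ext
    intro n hn
    rw [hT₀ x n hn]
    have h1 : Tendsto (fun k => fourierCoeff (T₀ (u k) : Lp ℂ ⊤ mu) n) atTop
        (𝓝 (fourierCoeff (y : Lp ℂ ⊤ mu) n)) :=
      ((continuous_coeff n).comp continuous_subtype_val).continuousAt.tendsto.comp hTu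
    have h2 : Tendsto (fun k => fourierCoeff (fun t => φ t * (u k : Lp ℂ ⊤ mu) t) n) atTop
        (𝓝 (fourierCoeff (fun t => φ t * (x : Lp ℂ ⊤ mu) t) n)) :=
      ((continuous_coeff_mul hφ n).comp continuous_subtype_val).continuousAt.tendsto.comp hu
    refine tendsto_nhds_unique h1 (h2.congr fun k => ?_)
    rw [hT₀ (u k) n hn]
  exact ⟨ContinuousLinearMap.ofSeqClosedGraph hcl, hT₀⟩

lemma norm_toH_le {f : UnitAddCircle → ℂ} (hf : HI f) {M : ℝ} (hM : 0 ≤ M)
    (h : ∀ᵐ t ∂mu, ‖f t‖ ≤ M) : ‖toH f hf‖ ≤ M := by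
  change ‖hf.1.toLp f‖ ≤ M
  rw [Lp.norm_toLp]
  apply ENNReal.toReal_le_of_le_ofReal hM
  exact eLpNormEssSup_le_of_ae_bound h

lemma bdd_of_op {φ : UnitAddCircle → ℂ} (hφ : MemLp φ ⊤ mu) (T : Hinf →L[ℂ] Hinf)
    (hT : ∀ (x : Hinf) (n : ℤ), 0 ≤ n → fourierCoeff (T x : Lp ℂ ⊤ mu) n =
        fourierCoeff (fun t => φ t * (x : Lp ℂ ⊤ mu) t) n) : Bdd φ ‖T‖ := by
  intro g hg hg1 z hz
  set x := toH g hg with hx
  have hTx := Hinf_HI (T x)
  have h1 := hasSum_integral_wk (memLp_one_iff_integrable.1 (memLp_of_top 1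
    (memLp_mul_top hφ hg.1))) hz
  have h2 := hasSum_integral_wk (memLp_one_iff_integrable.1 (memLp_of_top 1 hTx.1)) hz
  have e : ∀ k : ℕ, fourierCoeff (T x : Lp ℂ ⊤ mu) k = fourierCoeff (fun t => φ t * g t) k := by
    intro k
    rw [hT x k (by omega)]
    refine congrFun (fourierCoeff_congr_ae ?_) _
    filter_upwards [coe_toH g hg] with t ht
    rw [ht]
  simp only [e] at h2
  rw [h1.unique h2]
  apply ev_bound hTx _ hz
  filter_upwards [ae_norm_le_norm (T x : Lp ℂ ⊤ mu)] with t ht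
  refine ht.trans ?_
  calc ‖(T x : Lp ℂ ⊤ mu)‖ = ‖T x‖ := rfl
    _ ≤ ‖T‖ * ‖x‖ := T.le_opNorm x
    _ ≤ ‖T‖ * 1 := by
        gcongr
        exact norm_toH_le hg zero_le_one hg1
    _ = ‖T‖ := mul_one _

/-- The analytic monomials. -/
noncomputable def eN (N : ℕ) : Hinf := toH (fun t => fourier (N : ℤ) t) (HI.fourier (by omega))

lemma norm_eN_le (N : ℕ) : ‖eN N‖ ≤ 1 :=
  norm_toH_le _ zero_le_one (Eventually.of_forall fun t => (norm_fourier _ t).le)

/-- Shifted powers converge to the powers of the symbol. -/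
lemma tendsto_pow {φ : UnitAddCircle → ℂ} (hφ : MemLp φ ⊤ mu) (T : Hinf →L[ℂ] Hinf)
    (hT : ∀ (x : Hinf) (n : ℤ), 0 ≤ n → fourierCoeff (T x : Lp ℂ ⊤ mu) n =
        fourierCoeff (fun t => φ t * (x : Lp ℂ ⊤ mu) t) n) (n : ℕ) :
    Tendsto (fun N : ℕ => ∫ t, ‖((T ^ n) (eN N) : Lp ℂ ⊤ mu) t * fourier (-(N : ℤ)) t - φ t ^ n‖ ^ 2 ∂mu)
      atTop (𝓝 0) := by
  obtain ⟨R, hR, hφR⟩ := exists_bound hφ
  induction n with
  | zero =>
    refine tendsto_const_nhds.congr fun N => ?_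
    symm
    have : (fun t => ‖((T ^ 0) (eN N) : Lp ℂ ⊤ mu) t * fourier (-(N : ℤ)) t - φ t ^ 0‖ ^ 2) =ᵐ[mu]
        fun _ => (0:ℝ) := by
      filter_upwards [coe_toH (fun t => (fourier (N : ℤ) t : ℂ)) (HI.fourier (by omega))] with t ht
      have h1 : ((T ^ 0) (eN N) : Lp ℂ ⊤ mu) t = fourier (N : ℤ) t := ht
      rw [h1, ← fourier_add', add_neg_cancel, fourier_zero, pow_zero, sub_self, norm_zero]
      norm_num
    rw [integral_congr_ae this, integral_zero]
  | succ n ih =>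
    have hd := hasSum_sq (memLp_of_top 2 (memLp_pow hφ (n + 1)))
    have htail : Tendsto (fun N : ℕ => ∑' k : ℤ, (if k < -(N : ℤ) then
        ‖fourierCoeff (fun t => φ t ^ (n + 1)) k‖ ^ 2 else 0)) atTop (𝓝 (∑' _k : ℤ, (0:ℝ))) := by
      apply tendsto_tsum_of_dominated_convergence
        (bound := fun k => ‖fourierCoeff (fun t => φ t ^ (n + 1)) k‖ ^ 2) hd.summable
      · intro k
        apply tendsto_const_nhds.congr'
        filter_upwards [eventually_ge_atTop k.natAbs] with N hN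
        rw [if_neg (by omega)]
      · refine Eventually.of_forall fun N k => ?_
        split_ifs
        · rw [Real.norm_of_nonneg (by positivity)]
        · rw [norm_zero]; positivity
    rw [tsum_zero] at htail
    have hlim : Tendsto (fun N : ℕ => R ^ 2 *
        (∫ t, ‖((T ^ n) (eN N) : Lp ℂ ⊤ mu) t * fourier (-(N : ℤ)) t - φ t ^ n‖ ^ 2 ∂mu) +
        ∑' k : ℤ, (if k < -(N : ℤ) then
        ‖fourierCoeff (fun t => φ t ^ (n + 1)) k‖ ^ 2 else 0)) atTop (𝓝 0) := by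
      have := (ih.const_mul (R ^ 2)).add htail
      simpa using this
    refine squeeze_zero (fun N => integral_nonneg fun t => by positivity) (fun N => ?_) hlim
    set x : Hinf := (T ^ n) (eN N) with hx
    have hTx : (T ^ (n + 1)) (eN N) = T x := by
      rw [pow_succ']; rfl
    rw [hTx]
    have hxm : MemLp (fun t => (x : Lp ℂ ⊤ mu) t * fourier (-(N : ℤ)) t) ⊤ mu :=
      memLp_mul_top (Lp.memLp _) (memLp_fourier _)
    have hTxm : MemLp (fun t => (T x : Lp ℂ ⊤ mu) t * fourier (-(N : ℤ)) t) ⊤ mu :=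
      memLp_mul_top (Lp.memLp _) (memLp_fourier _)
    have hn := memLp_pow hφ n
    have hn1 := memLp_pow hφ (n + 1)
    have hdm : MemLp (fun t => φ t * ((x : Lp ℂ ⊤ mu) t * fourier (-(N : ℤ)) t - φ t ^ n)) ⊤ mu :=
      memLp_mul_top hφ (hxm.sub hn)
    have s1 := hasSum_sq (memLp_of_top 2 (hTxm.sub hn1))
    have s2 := hasSum_sq (memLp_of_top 2 hdm)
    have s3 : Summable fun k : ℤ => (if k < -(N : ℤ) then
        ‖fourierCoeff (fun t => φ t ^ (n + 1)) k‖ ^ 2 else 0) := by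
      refine Summable.of_nonneg_of_le (fun k => ?_) (fun k => ?_) hd.summable
      · split_ifs <;> positivity
      · split_ifs
        · exact le_rfl
        · positivity
    have hle : ∀ k : ℤ, ‖fourierCoeff ((fun t => (T x : Lp ℂ ⊤ mu) t * fourier (-(N : ℤ)) t) -
        fun t => φ t ^ (n + 1)) k‖ ^ 2 ≤
        ‖fourierCoeff (fun t => φ t * ((x : Lp ℂ ⊤ mu) t * fourier (-(N : ℤ)) t - φ t ^ n)) k‖ ^ 2 +
        (if k < -(N : ℤ) then ‖fourierCoeff (fun t => φ t ^ (n + 1)) k‖ ^ 2 else 0) := by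
      intro k
      have h1 := coeff_sub (memLp_of_top 1 hTxm) (memLp_of_top 1 hn1) k
      rw [coeff_mul_fourier] at h1
      have h1' : fourierCoeff ((fun t => (T x : Lp ℂ ⊤ mu) t * fourier (-(N : ℤ)) t) -
        fun t => φ t ^ (n + 1)) k = fourierCoeff (T x : Lp ℂ ⊤ mu) (k - -(N : ℤ)) -
          fourierCoeff (fun t => φ t ^ (n + 1)) k := h1
      rw [h1']
      by_cases hk : k < -(N : ℤ)
      · rw [if_pos hk, (T x).2 _ (by omega), zero_sub, norm_neg]
        have : 0 ≤ ‖fourierCoeff (fun t => φ t * ((x : Lp ℂ ⊤ mu) t * fourier (-(N : ℤ)) t -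
          φ t ^ n)) k‖ ^ 2 := by positivity
        linarith
      · rw [if_neg hk, add_zero, hT x _ (by omega), ← coeff_mul_fourier]
        have hm2 : MemLp (fun t => φ t * (x : Lp ℂ ⊤ mu) t * fourier (-(N : ℤ)) t) ⊤ mu :=
          memLp_mul_top (memLp_mul_top hφ (Lp.memLp _)) (memLp_fourier _)
        rw [← coeff_sub (memLp_of_top 1 hm2) (memLp_of_top 1 hn1)]
        apply le_of_eq
        congr 3
        funext t
        rw [pow_succ]; ring
    have h5 := (s1.tsum_eq).symm.trans_le (s1.summable.tsum_le_tsum hle (s2.summable.add s3))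
    rw [s2.summable.tsum_add s3, s2.tsum_eq] at h5
    refine h5.trans (add_le_add ?_ le_rfl)
    rw [← integral_const_mul]
    apply integral_mono_of_nonneg (Eventually.of_forall fun t => by positivity)
    · exact (integrable_sq (memLp_of_top 2 (hxm.sub hn))).const_mul _
    · filter_upwards [hφR] with t ht
      rw [norm_mul, mul_pow]
      gcongr

/-- The norm of the powers dominates the powers of the symbol. -/
lemma pow_le_norm_pow {φ : UnitAddCircle → ℂ} (hφ : MemLp φ ⊤ mu) (T : Hinf →L[ℂ] Hinf)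
    (hT : ∀ (x : Hinf) (n : ℤ), 0 ≤ n → fourierCoeff (T x : Lp ℂ ⊤ mu) n =
        fourierCoeff (fun t => φ t * (x : Lp ℂ ⊤ mu) t) n) (n : ℕ) :
    ∀ᵐ t ∂mu, ‖φ t ^ n‖ ≤ ‖T ^ n‖ := by
  apply bound_of_approx (memLp_of_top 2 (memLp_pow hφ n))
  intro δ hδ
  have h := (tendsto_pow hφ T hT n).eventually (gt_mem_nhds hδ)
  obtain ⟨N, hN⟩ := h.exists
  refine ⟨fun t => ((T ^ n) (eN N) : Lp ℂ ⊤ mu) t * fourier (-(N : ℤ)) t,
    memLp_of_top 2 (memLp_mul_top (Lp.memLp _) (memLp_fourier _)), ?_, hN.le⟩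
  filter_upwards [ae_norm_le_norm ((T ^ n) (eN N) : Lp ℂ ⊤ mu)] with t ht
  rw [norm_mul, norm_fourier, mul_one]
  refine ht.trans ?_
  calc ‖((T ^ n) (eN N) : Lp ℂ ⊤ mu)‖ = ‖(T ^ n) (eN N)‖ := rfl
    _ ≤ ‖T ^ n‖ * ‖eN N‖ := (T ^ n).le_opNorm _
    _ ≤ ‖T ^ n‖ * 1 := by
        gcongr
        exact norm_eN_le N
    _ = ‖T ^ n‖ := mul_one _

end Pool.Agent.Helper546.Toep
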