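import Pool.Agent.Helper546.TTrunc2

set_option autoImplicit false
open MeasureTheory AddCircle Complex
open scoped ENNReal ComplexConjugate InnerProductSpace Topology

namespace Pool.Agent.Helper546.Toep

/-- The Toeplitz operator with symbol `f` is bounded by `C` on `H^∞`. -/
def Bdd (f : UnitAddCircle → ℂ) (C : ℝ) : Prop :=
  ∀ g : UnitAddCircle → ℂ, HI g → (∀ᵐ t ∂mu, ‖g t‖ ≤ 1) → ∀ z : ℂ, ‖z‖ < 1 →
    ‖∫ t, f t * g t * wk z t ∂mu‖ ≤ C

lemma Bdd.mono {f : UnitAddCircle → ℂ} {C D : ℝ} (h : Bdd f C) (hCD : C ≤ D) : Bdd f D :=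
  fun g hg hg1 z hz => (h g hg hg1 z hz).trans hCD

lemma Bdd.nonneg {f : UnitAddCircle → ℂ} {C : ℝ} (h : Bdd f C) : 0 ≤ C :=
  (norm_nonneg _).trans (h (fun _ => 0) (HI.const 0) (Filter.Eventually.of_forall fun t => by simp)
    0 (by simp))

lemma Bdd.one : Bdd (fun _ => 1) 1 := by
  intro g hg hg1 z hz
  simp only [one_mul]
  exact ev_bound hg hg1 hz

lemma Bdd.scale {f : UnitAddCircle → ℂ} {C : ℝ} (h : Bdd f C) {g : UnitAddCircle → ℂ} (hg : HI g)
    {R : ℝ} (hR : 0 < R) (hgR : ∀ᵐ t ∂mu, ‖g t‖ ≤ R) {z : ℂ} (hz : ‖z‖ < 1) :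
    ‖∫ t, f t * g t * wk z t ∂mu‖ ≤ C * R := by
  have h1 := h (fun t => (R : ℂ)⁻¹ * g t) (hg.const_mul _) (by
    filter_upwards [hgR] with t ht
    rw [norm_mul, norm_inv, Complex.norm_real, Real.norm_of_nonneg hR.le]
    rw [inv_mul_le_iff₀ hR]; linarith) z hz
  have h2 : ∫ t, f t * ((R : ℂ)⁻¹ * g t) * wk z t ∂mu =
      (R : ℂ)⁻¹ * ∫ t, f t * g t * wk z t ∂mu := by
    rw [← integral_const_mul]
    congr 1; funext t; ring
  rw [h2, norm_mul, norm_inv, Complex.norm_real, Real.norm_of_nonneg hR.le,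
    inv_mul_le_iff₀ hR] at h1
  linarith

lemma norm_pow_sub_pow_le {a b : ℂ} {L : ℝ} (ha : ‖a‖ ≤ L) (hb : ‖b‖ ≤ L) (n : ℕ) :
    ‖a ^ n - b ^ n‖ ≤ n * L ^ (n - 1) * ‖a - b‖ := by
  have hL : 0 ≤ L := (norm_nonneg _).trans ha
  induction n with
  | zero => simp
  | succ n ih =>
    have e : a ^ (n + 1) - b ^ (n + 1) = a * (a ^ n - b ^ n) + (a - b) * b ^ n := by ring
    rw [e]
    have h1 : ‖b ^ n‖ ≤ L ^ n := by rw [norm_pow]; gcongr
    have h2 : L * (n * L ^ (n - 1)) = n * L ^ n := by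
      rcases Nat.eq_zero_or_pos n with h | h
      · subst h; simp
      · have : L ^ n = L * L ^ (n - 1) := by
          rw [← pow_succ']; congr 1; omega
        rw [this]; ring
    calc ‖a * (a ^ n - b ^ n) + (a - b) * b ^ n‖
        ≤ ‖a‖ * ‖a ^ n - b ^ n‖ + ‖a - b‖ * ‖b ^ n‖ := by
          rw [← norm_mul, ← norm_mul]; exact norm_add_le _ _
      _ ≤ L * (n * L ^ (n - 1) * ‖a - b‖) + ‖a - b‖ * L ^ n := by gcongr
      _ = ((n + 1 : ℕ) : ℝ) * L ^ (n + 1 - 1) * ‖a - b‖ := by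
          rw [Nat.add_sub_cancel, ← mul_assoc, h2]; push_cast; ring

lemma memLp_pow {f : UnitAddCircle → ℂ} (hf : MemLp f ⊤ mu) (n : ℕ) :
    MemLp (fun t => f t ^ n) ⊤ mu := by
  induction n with
  | zero => simpa using memLp_const (1:ℂ)
  | succ n ih =>
    have := memLp_mul_top ih hf
    simpa only [pow_succ] using this

/-- The basic power estimate. -/
lemma pow_bound {f J : UnitAddCircle → ℂ} (hf : MemLp f ⊤ mu) (hJ : MemLp J ⊤ mu) {ρ C A : ℝ}
    (hρ : 0 < ρ) (hfρ : ∀ᵐ t ∂mu, ‖f t‖ ≤ ρ) (hJ1 : ∀ᵐ t ∂mu, ‖J t‖ ≤ 1)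
    (hfC : Bdd f C) (hJA : Bdd J A) (n : ℕ) :
    Bdd (fun t => J t * f t ^ n)
      (n * (16 * ρ) ^ (n - 1) * (115 * (C + 1) + 96 * ρ) + A * (16 * ρ) ^ n) := by
  intro g hg hg1 z hz
  obtain ⟨E, hE, hEb, -, hEint⟩ := trunc hf hρ hfρ hz (fun g hg hg1 => hfC g hg hg1 z hz)
  have hw := memLp_wk hz
  have hEn : MemLp (fun t => E t ^ n) ⊤ mu := memLp_pow hE.1 n
  have hfn : MemLp (fun t => f t ^ n) ⊤ mu := memLp_pow hf n
  have hi1 : Integrable (fun t => J t * (f t ^ n - E t ^ n) * g t * wk z t) mu :=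
    memLp_one_iff_integrable.1 (memLp_of_top 1 (memLp_mul_top (memLp_mul_top
      (memLp_mul_top hJ (hfn.sub hEn)) hg.1) hw))
  have hi2 : Integrable (fun t => J t * (E t ^ n * g t) * wk z t) mu :=
    memLp_one_iff_integrable.1 (memLp_of_top 1 (memLp_mul_top (memLp_mul_top hJ
      (memLp_mul_top hEn hg.1)) hw))
  have e : ∫ t, J t * f t ^ n * g t * wk z t ∂mu =
      ∫ t, J t * (f t ^ n - E t ^ n) * g t * wk z t ∂mu +
        ∫ t, J t * (E t ^ n * g t) * wk z t ∂mu := by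
    rw [← integral_add hi1 hi2]
    congr 1; funext t; ring
  have hdi : Integrable (fun t => ‖f t - E t‖ * ‖wk z t‖) mu := by
    have : MemLp (fun t => (f t - E t) * wk z t) ⊤ mu := memLp_mul_top (hf.sub hE.1) hw
    have := (memLp_one_iff_integrable.1 (memLp_of_top 1 this)).norm
    simpa only [norm_mul] using this
  rw [e]
  refine (norm_add_le _ _).trans (add_le_add ?_ ?_)
  · calc ‖∫ t, J t * (f t ^ n - E t ^ n) * g t * wk z t ∂mu‖
        ≤ ∫ t, n * (16 * ρ) ^ (n - 1) * (‖f t - E t‖ * ‖wk z t‖) ∂mu := by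
          apply norm_integral_le_of_norm_le (hdi.const_mul _)
          filter_upwards [hfρ, hEb, hJ1, hg1] with t h1 h2 h3 h4
          rw [norm_mul, norm_mul, norm_mul]
          have h5 := norm_pow_sub_pow_le (h1.trans (by linarith : ρ ≤ 16 * ρ)) h2 n
          calc ‖J t‖ * ‖f t ^ n - E t ^ n‖ * ‖g t‖ * ‖wk z t‖
              ≤ 1 * (n * (16 * ρ) ^ (n - 1) * ‖f t - E t‖) * 1 * ‖wk z t‖ := by gcongr
            _ = n * (16 * ρ) ^ (n - 1) * (‖f t - E t‖ * ‖wk z t‖) := by ring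
      _ = n * (16 * ρ) ^ (n - 1) * ∫ t, ‖f t - E t‖ * ‖wk z t‖ ∂mu := integral_const_mul _ _
      _ ≤ n * (16 * ρ) ^ (n - 1) * (115 * (C + 1) + 96 * ρ) := by gcongr
  · apply hJA.scale ((hE.pow n).mul hg) (by positivity) _ hz
    filter_upwards [hEb, hg1] with t h1 h2
    rw [norm_mul, norm_pow]
    calc ‖E t‖ ^ n * ‖g t‖ ≤ (16 * ρ) ^ n * 1 := by gcongr
      _ = (16 * ρ) ^ n := mul_one _

lemma pow_bdd {f : UnitAddCircle → ℂ} (hf : MemLp f ⊤ mu) {ρ C : ℝ}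
    (hρ : 0 < ρ) (hfρ : ∀ᵐ t ∂mu, ‖f t‖ ≤ ρ) (hfC : Bdd f C) (m : ℕ) :
    ∃ A, Bdd (fun t => f t ^ m) A := by
  have h := pow_bound hf (memLp_const 1) hρ hfρ (Filter.Eventually.of_forall fun t => by simp)
    hfC Bdd.one m
  simp only [one_mul] at h
  exact ⟨_, h⟩

/-- Power bounds are summable for strict contractions in the sup norm. -/
lemma exists_summable {f : UnitAddCircle → ℂ} (hf : MemLp f ⊤ mu) {ρ C : ℝ}
    (hρ : 0 < ρ) (hρ1 : ρ < 1) (hfρ : ∀ᵐ t ∂mu, ‖f t‖ ≤ ρ) (hfC : Bdd f C) :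
    ∃ A : ℕ → ℝ, Summable A ∧ ∀ m, Bdd (fun t => f t ^ m) (A m) := by
  choose A hA using pow_bdd hf hρ hfρ hfC
  obtain ⟨q, hq1, hq2⟩ := exists_between hρ1
  have hq0 : 0 < q := hρ.trans hq1
  have hM : ∃ M : ℕ, 0 < M ∧ 16 * ρ ^ M ≤ q ^ M := by
    have h1 : 1 < q / ρ := by rw [one_lt_div hρ]; exact hq1
    obtain ⟨M, hM⟩ := pow_unbounded_of_one_lt 16 h1
    refine ⟨M, ?_, ?_⟩
    · rcases Nat.eq_zero_or_pos M with h | h
      · subst h; norm_num at hM
      · exact h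
    · rw [div_pow, lt_div_iff₀ (by positivity)] at hM
      exact hM.le
  obtain ⟨M, hM0, hM⟩ := hM
  set C' : ℝ := 115 * (A M + 1) + 96 * ρ ^ M with hC'
  have hAM := (hA M).nonneg
  have hC'0 : 0 ≤ C' := by positivity
  set K : ℝ := ∑ j ∈ Finset.range M, A j with hK
  have hAK : ∀ j < M, A j ≤ K := fun j hj =>
    Finset.single_le_sum (f := A) (fun i _ => (hA i).nonneg) (Finset.mem_range.2 hj)
  have hK0 : 0 ≤ K := Finset.sum_nonneg fun i _ => (hA i).nonneg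
  refine ⟨fun m => (m * C' + K) * q ^ m / q ^ (2 * M), ?_, fun m => ?_⟩
  · have h1 : Summable fun m : ℕ => (m : ℝ) * q ^ m := by
      have := summable_pow_mul_geometric_of_norm_lt_one 1 (r := q)
        (by rw [Real.norm_of_nonneg hq0.le]; exact hq2)
      simpa using this
    have h2 : Summable fun m : ℕ => q ^ m := summable_geometric_of_lt_one hq0.le hq2
    have h3 := ((h1.mul_left C').add (h2.mul_left K)).div_const (q ^ (2 * M))
    refine h3.congr fun m => ?_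
    ring
  · set n := m / M with hn
    set j := m % M with hj
    have hjM : j < M := Nat.mod_lt _ hM0
    have hmn : M * n + j = m := Nat.div_add_mod m M
    have hfM : ∀ᵐ t ∂mu, ‖f t ^ M‖ ≤ ρ ^ M := by
      filter_upwards [hfρ] with t ht
      rw [norm_pow]; gcongr
    have hfj : ∀ᵐ t ∂mu, ‖f t ^ j‖ ≤ 1 := by
      filter_upwards [hfρ] with t ht
      rw [norm_pow]
      exact pow_le_one₀ (norm_nonneg _) (ht.trans hρ1.le)
    have h := pow_bound (memLp_pow hf M) (memLp_pow hf j) (by positivity) hfM hfj (hA M) (hA j) n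
    have e : (fun t => f t ^ j * (f t ^ M) ^ n) = fun t => f t ^ m := by
      funext t
      rw [← pow_mul, ← pow_add, add_comm, hmn]
    rw [e] at h
    refine h.mono ?_
    rw [le_div_iff₀ (by positivity), ← hC']
    have hθ : 0 ≤ 16 * ρ ^ M := by positivity
    have h1 : (16 * ρ ^ M) ^ n ≤ q ^ (M * n) := by
      rw [pow_mul]; gcongr
    have h2 : n * (16 * ρ ^ M) ^ (n - 1) * q ^ (2 * M) ≤ m * q ^ m := by
      rcases Nat.eq_zero_or_pos n with h0 | h0
      · rw [h0]; simp only [CharP.cast_eq_zero, zero_mul]; positivity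
      · have h3 : (16 * ρ ^ M) ^ (n - 1) ≤ q ^ (M * (n - 1)) := by
          rw [pow_mul]; gcongr
        have h4 : (n : ℝ) ≤ m := by
          exact_mod_cast Nat.div_le_self m M
        have h5 : q ^ (M * (n - 1)) * q ^ (2 * M) ≤ q ^ m := by
          rw [← pow_add]
          apply pow_le_pow_of_le_one hq0.le hq2.le
          obtain ⟨k, hk⟩ : ∃ k, n = k + 1 := ⟨n - 1, by omega⟩
          rw [hk] at hmn ⊢
          rw [Nat.add_sub_cancel]
          nlinarith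
        calc n * (16 * ρ ^ M) ^ (n - 1) * q ^ (2 * M)
            ≤ m * q ^ (M * (n - 1)) * q ^ (2 * M) := by gcongr
          _ = m * (q ^ (M * (n - 1)) * q ^ (2 * M)) := by ring
          _ ≤ m * q ^ m := by gcongr
    have h3 : A j * (16 * ρ ^ M) ^ n * q ^ (2 * M) ≤ K * q ^ m := by
      have h4 : q ^ (M * n) * q ^ (2 * M) ≤ q ^ m := by
        rw [← pow_add]
        apply pow_le_pow_of_le_one hq0.le hq2.le
        nlinarith
      calc A j * (16 * ρ ^ M) ^ n * q ^ (2 * M)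
          ≤ K * q ^ (M * n) * q ^ (2 * M) := by
            have := hAK j hjM
            gcongr
        _ = K * (q ^ (M * n) * q ^ (2 * M)) := by ring
        _ ≤ K * q ^ m := by gcongr
    calc (n * (16 * ρ ^ M) ^ (n - 1) * C' + A j * (16 * ρ ^ M) ^ n) * q ^ (2 * M)
        = (n * (16 * ρ ^ M) ^ (n - 1) * q ^ (2 * M)) * C' +
          A j * (16 * ρ ^ M) ^ n * q ^ (2 * M) := by ring
      _ ≤ (m * q ^ m) * C' + K * q ^ m := by gcongr
      _ = (m * C' + K) * q ^ m := by ring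

/-- A bounded symbol gives an operator on `H^∞`. -/
lemma acts_of_bdd {G : UnitAddCircle → ℂ} (hG : MemLp G ⊤ mu) {C : ℝ} (hC : Bdd G C)
    {g : UnitAddCircle → ℂ} (hg : HI g) :
    ∃ h : UnitAddCircle → ℂ, HI h ∧
      ∀ n : ℤ, 0 ≤ n → fourierCoeff h n = fourierCoeff (fun t => G t * g t) n := by
  obtain ⟨R, hR, hgR⟩ := exists_bound hg.1
  obtain ⟨h, hh, -, hc⟩ := recover (q := fun t => G t * g t) (memLp_mul_top hG hg.1)
    (M := C * R) (fun z hz => hC.scale hg hR hgR hz)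
  exact ⟨h, hh, hc⟩

/-- Power series in `f` with bounded coefficients act. -/
lemma series_bdd {f G : UnitAddCircle → ℂ} (hf : MemLp f ⊤ mu) {ρ : ℝ}
    (hρ : 0 < ρ) (hρ1 : ρ < 1) (hfρ : ∀ᵐ t ∂mu, ‖f t‖ ≤ ρ)
    {A : ℕ → ℝ} (hAs : Summable A) (hA : ∀ m, Bdd (fun t => f t ^ m) (A m))
    {c : ℕ → ℂ} (hc : ∀ m, ‖c m‖ ≤ 1)
    (hG : ∀ᵐ t ∂mu, HasSum (fun m => c m * f t ^ m) (G t)) : Bdd G (∑' m, A m) := by
  intro g hg hg1 z hz
  have hgw : Integrable (fun t => g t * wk z t) mu :=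
    memLp_one_iff_integrable.1 (memLp_of_top 1 (memLp_mul_top hg.1 (memLp_wk hz)))
  have h := hasSum_integral (u := fun m t => c m * f t ^ m) (U := G) (c := fun m => ρ ^ m) hgw
    (fun m => ((memLp_pow hf m).const_mul (c m)).1) (fun m => by
      filter_upwards [hfρ] with t ht
      rw [norm_mul, norm_pow]
      calc ‖c m‖ * ‖f t‖ ^ m ≤ 1 * ρ ^ m := by
            have := hc m
            gcongr
        _ = ρ ^ m := one_mul _) (summable_geometric_of_lt_one hρ.le hρ1) hG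
  have e : ∫ t, G t * g t * wk z t ∂mu = ∫ t, g t * wk z t * G t ∂mu := by
    congr 1; funext t; ring
  rw [e, ← h.tsum_eq]
  apply tsum_of_norm_bounded hAs.hasSum
  intro m
  have e2 : ∫ t, g t * wk z t * (c m * f t ^ m) ∂mu =
      c m * ∫ t, f t ^ m * g t * wk z t ∂mu := by
    rw [← integral_const_mul]
    congr 1; funext t; ring
  rw [e2, norm_mul]
  have h1 := hA m g hg hg1 z hz
  calc ‖c m‖ * ‖∫ t, f t ^ m * g t * wk z t ∂mu‖ ≤ 1 * A m :=
        mul_le_mul (hc m) h1 (norm_nonneg _) zero_le_one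
    _ = A m := one_mul _

end Pool.Agent.Helper546.Toep
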