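import Pool.Agent.Helper546.TDual

set_option autoImplicit false
open MeasureTheory AddCircle Complex
open scoped ENNReal ComplexConjugate InnerProductSpace Topology

namespace Pool.Agent.Helper546.Toep

/-- Every trigonometric polynomial splits in an analytic and a co-analytic part. -/
lemma split_trig (P : C(UnitAddCircle, ℂ))
    (hP : P ∈ Submodule.span ℂ (Set.range (fourier (T := 1)))) :
    ∃ A₁ A₂ : UnitAddCircle → ℂ, Continuous A₁ ∧ Continuous A₂ ∧ HI A₁ ∧ HI A₂ ∧
      ∀ t, P t = A₁ t + conj (A₂ t) := by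
  refine Submodule.span_induction (p := fun (P : C(UnitAddCircle, ℂ)) _ =>
    ∃ A₁ A₂ : UnitAddCircle → ℂ, Continuous A₁ ∧ Continuous A₂ ∧ HI A₁ ∧ HI A₂ ∧
      ∀ t, P t = A₁ t + conj (A₂ t)) ?_ ?_ ?_ ?_ hP
  · rintro x ⟨k, rfl⟩
    by_cases hk : 0 ≤ k
    · refine ⟨fun t => fourier k t, fun _ => 0, by fun_prop, by fun_prop, HI.fourier hk,
        HI.const 0, fun t => by simp⟩
    · refine ⟨fun _ => 0, fun t => fourier (-k) t, by fun_prop, by fun_prop, HI.const 0,
        HI.fourier (by omega), fun t => ?_⟩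
      rw [← fourier_neg', neg_neg, zero_add]
  · exact ⟨fun _ => 0, fun _ => 0, by fun_prop, by fun_prop, HI.const 0, HI.const 0,
      fun t => by simp⟩
  · rintro x y _ _ ⟨A₁, A₂, a1, a2, a3, a4, a5⟩ ⟨B₁, B₂, b1, b2, b3, b4, b5⟩
    refine ⟨fun t => A₁ t + B₁ t, fun t => A₂ t + B₂ t, a1.add b1, a2.add b2, a3.add b3,
      a4.add b4, fun t => ?_⟩
    rw [ContinuousMap.add_apply, a5, b5, map_add]; ring
  · rintro c x _ ⟨A₁, A₂, a1, a2, a3, a4, a5⟩
    refine ⟨fun t => c * A₁ t, fun t => conj c * A₂ t, continuous_const.mul a1,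
      continuous_const.mul a2, a3.const_mul _, a4.const_mul _, fun t => ?_⟩
    rw [ContinuousMap.smul_apply, a5, map_mul, Complex.conj_conj, smul_eq_mul]; ring

/-- Analytic functions with prescribed real part, approximately. -/
lemma exists_realpart {b : UnitAddCircle → ℝ} (hb : Continuous b) :
    ∃ B : UnitAddCircle → ℂ, Continuous B ∧ HI B ∧ (∫ t, B t ∂mu).im = 0 ∧
      ∀ t, b t ≤ (B t).re ∧ (B t).re ≤ b t + 1 := by
  let b' : C(UnitAddCircle, ℂ) := ⟨fun t => ((b t + 1 / 2 : ℝ) : ℂ), by fun_prop⟩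
  have hmem : b' ∈ closure ((Submodule.span ℂ (Set.range (fourier (T := 1))) :
      Submodule ℂ C(UnitAddCircle, ℂ)) : Set C(UnitAddCircle, ℂ)) := by
    have := span_fourier_closure_eq_top (T := (1:ℝ))
    have h2 : b' ∈ (Submodule.span ℂ (Set.range (fourier (T := 1)))).topologicalClosure := by
      rw [this]; trivial
    exact h2
  obtain ⟨P, hP, hd⟩ := Metric.mem_closure_iff.1 hmem (1 / 2) (by norm_num)
  obtain ⟨A₁, A₂, a1, a2, a3, a4, a5⟩ := split_trig P hP
  set B₀ : UnitAddCircle → ℂ := fun t => A₁ t + A₂ t with hB₀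
  have hB₀HI : HI B₀ := a3.add a4
  set c : ℝ := (∫ t, B₀ t ∂mu).im with hc
  refine ⟨fun t => B₀ t - (c : ℂ) * I, by fun_prop, hB₀HI.sub (HI.const _), ?_, ?_⟩
  · rw [integral_sub (memLp_one_iff_integrable.1 (memLp_of_top 1 hB₀HI.1)) (integrable_const _),
      integral_const, Complex.sub_im]
    simp [← hc]
  · intro t
    have h1 : (B₀ t - (c : ℂ) * I).re = (P t).re := by
      rw [a5]; simp [hB₀]
    have h2 : ‖b' t - P t‖ < 1 / 2 := by
      have := ContinuousMap.norm_coe_le_norm (b' - P) t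
      rw [← dist_eq_norm] at this
      exact lt_of_le_of_lt (by simpa using this) hd
    have h3 : |(b' t - P t).re| < 1 / 2 := lt_of_le_of_lt (Complex.abs_re_le_norm _) h2
    have h4 : (b' t).re = b t + 1 / 2 := by
      change ((b t + 1 / 2 : ℝ) : ℂ).re = _
      rw [Complex.ofReal_re]
    rw [Complex.sub_re, h4, abs_lt] at h3
    rw [h1]
    constructor <;> linarith [h3.1, h3.2]

/-- The imaginary part of an analytic function is controlled by the real part. -/
lemma sq_le_two_re {B : UnitAddCircle → ℂ} (hc : Continuous B) (hB : HI B)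
    (him : (∫ t, B t ∂mu).im = 0) :
    ∫ t, ‖B t‖ ^ 2 ∂mu ≤ 2 * ∫ t, (B t).re ^ 2 ∂mu := by
  have h1 := coeff_zero_mul (memLp_of_top 2 hB.1) (memLp_of_top 2 hB.1) hB.2 hB.2
  rw [coeff_zero_eq, coeff_zero_eq] at h1
  have hi1 : Integrable (fun t => B t * B t) mu := integrable_of_continuous (by fun_prop)
  have hre : Integrable (fun t => (B t).re ^ 2) mu := by
    have : Continuous fun t => (B t).re ^ 2 := by fun_prop
    exact this.integrable_of_hasCompactSupport (HasCompactSupport.of_compactSpace _)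
  have him' : Integrable (fun t => (B t).im ^ 2) mu := by
    have : Continuous fun t => (B t).im ^ 2 := by fun_prop
    exact this.integrable_of_hasCompactSupport (HasCompactSupport.of_compactSpace _)
  have h2 : (∫ t, B t * B t ∂mu).re = ∫ t, (B t).re ^ 2 ∂mu - ∫ t, (B t).im ^ 2 ∂mu := by
    have := integral_re (𝕜 := ℂ) hi1
    rw [← integral_sub hre him']
    have e : (∫ t, B t * B t ∂mu).re = RCLike.re (∫ t, B t * B t ∂mu) := rfl
    rw [e, ← this]
    apply integral_congr_ae
    refine Filter.Eventually.of_forall fun t => ?_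
    simp only [RCLike.re_to_complex, Complex.mul_re]
    ring
  have h3 : 0 ≤ (∫ t, B t * B t ∂mu).re := by
    rw [h1, Complex.mul_re, him, mul_zero, sub_zero]
    exact mul_self_nonneg _
  have h4 : ∫ t, ‖B t‖ ^ 2 ∂mu = ∫ t, (B t).re ^ 2 ∂mu + ∫ t, (B t).im ^ 2 ∂mu := by
    rw [← integral_add hre him']
    apply integral_congr_ae
    refine Filter.Eventually.of_forall fun t => ?_
    simp only
    rw [← Complex.normSq_eq_norm_sq, Complex.normSq_apply]
    ring
  linarith

lemma conj_kernel (z : ℂ) (t : UnitAddCircle) :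
    conj (1 - z * fourier (-1) t) = 1 - conj z * fourier 1 t := by
  rw [map_sub, map_one, map_mul, fourier_neg', Complex.conj_conj]

/-- The square root of the (conjugate) Cauchy kernel. -/
lemma exists_kappa {z : ℂ} (hz : ‖z‖ < 1) :
    ∃ κ : UnitAddCircle → ℂ, HI κ ∧ (∀ t, ‖κ t‖ ^ 2 = ‖wk z t‖) ∧
      (∀ t, √2 / 2 * ‖κ t‖ ≤ (κ t).re) := by
  have hz' : ‖conj z‖ < 1 := by simpa using hz
  have hL : HI (fun t => -Complex.log (1 - conj z * fourier 1 t)) := by
    refine HI.series (u := fun m t => (conj z * fourier 1 t) ^ m / m)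
      (c := fun m => ‖z‖ ^ m) (fun m => ?_) (fun m => ?_)
      (summable_geometric_of_lt_one (norm_nonneg _) hz) ?_
    · have := (((HI.fourier (n := 1) (by norm_num)).const_mul (conj z)).pow m).const_mul ((m : ℂ)⁻¹)
      simpa only [div_eq_inv_mul] using this
    · refine Filter.Eventually.of_forall fun t => ?_
      rw [norm_div, norm_pow, norm_mul_fourier, RCLike.norm_conj, Complex.norm_natCast]
      rcases Nat.eq_zero_or_pos m with h | h
      · subst h; simp
      · have : (1:ℝ) ≤ m := by exact_mod_cast h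
        exact div_le_self (by positivity) this
    · refine Filter.Eventually.of_forall fun t => ?_
      exact Complex.hasSum_taylorSeries_neg_log (by rw [norm_mul_fourier]; exact hz')
  refine ⟨fun t => Complex.exp ((1 / 2 : ℂ) * (-Complex.log (1 - conj z * fourier 1 t))),
    (hL.const_mul _).exp, fun t => ?_, fun t => ?_⟩
  · have hne := one_sub_ne hz' 1 t
    rw [← norm_pow, ← Complex.exp_nat_mul]
    have e : ((2 : ℕ) : ℂ) * ((1 / 2 : ℂ) * (-Complex.log (1 - conj z * fourier 1 t))) =
        -Complex.log (1 - conj z * fourier 1 t) := by push_cast; ring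
    rw [e, Complex.exp_neg, Complex.exp_log hne, wk, norm_inv, norm_inv, ← conj_kernel,
      RCLike.norm_conj]
  · set x : ℂ := (1 / 2 : ℂ) * (-Complex.log (1 - conj z * fourier 1 t)) with hx
    rw [Complex.exp_re, Complex.norm_exp]
    have him : x.im = -(1 / 2) * (1 - conj z * fourier 1 t).arg := by
      rw [hx]
      rw [show (1 / 2 : ℂ) = ((1 / 2 : ℝ) : ℂ) by push_cast; ring, Complex.im_ofReal_mul,
        Complex.neg_im, Complex.log_im]
      ring
    have hre0 : 0 ≤ (1 - conj z * fourier 1 t).re := by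
      rw [Complex.sub_re, Complex.one_re]
      have := Complex.re_le_norm (conj z * fourier 1 t)
      rw [norm_mul_fourier] at this
      linarith
    have harg := Complex.abs_arg_le_pi_div_two_iff.2 hre0
    have hab : |x.im| ≤ Real.pi / 4 := by
      rw [him, abs_mul, abs_neg, abs_of_pos (by norm_num : (0:ℝ) < 1 / 2)]
      linarith
    have hcos : √2 / 2 ≤ Real.cos x.im := by
      rw [← Real.cos_abs, ← Real.cos_pi_div_four]
      apply Real.cos_le_cos_of_nonneg_of_le_pi (abs_nonneg _) _ hab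
      linarith [Real.pi_pos]
    rw [mul_comm (√2 / 2)]
    exact mul_le_mul_of_nonneg_left hcos (Real.exp_pos _).le

lemma half_le_norm_wk {z : ℂ} (hz : ‖z‖ < 1) (t : UnitAddCircle) : 1 / 2 ≤ ‖wk z t‖ := by
  have hne := one_sub_ne hz (-1) t
  rw [wk, norm_inv, one_div]
  apply inv_anti₀ (norm_pos_iff.2 hne)
  calc ‖1 - z * fourier (-1) t‖ ≤ ‖(1:ℂ)‖ + ‖z * fourier (-1) t‖ := norm_sub_le _ _
    _ ≤ 2 := by rw [norm_mul_fourier, norm_one]; linarith

end Pool.Agent.Helper546.Toep
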