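import Pool.Agent.Helper546.TTrunc

set_option autoImplicit false
open MeasureTheory AddCircle Complex
open scoped ENNReal ComplexConjugate InnerProductSpace Topology

namespace Pool.Agent.Helper546.Toep

lemma pointwise {E κ B f : ℂ} {ρ β : ℝ} (hρ : 0 < ρ) (hκ0 : 0 < ‖κ‖)
    (hκ : √2 / 2 * ‖κ‖ ≤ κ.re) (hβ : β = max (√(‖E‖ / (2 * ρ)) - 1) 0)
    (hB : β * ‖κ‖ ≤ B.re) (hf : ‖f‖ ≤ ρ) :
    ‖E * ((κ * (κ + B)⁻¹) ^ 2 * (2 - (κ * (κ + B)⁻¹) ^ 2))‖ ≤ 16 * ρ ∧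
    ‖f - E * ((κ * (κ + B)⁻¹) ^ 2 * (2 - (κ * (κ + B)⁻¹) ^ 2))‖ * ‖κ‖ ^ 2 ≤
      19 * (‖f - E‖ * ‖κ‖ ^ 2) + 24 * ρ * ‖B‖ ^ 2 ∧
    (β * ‖κ‖) ^ 2 ≤ (1 / ρ) * (‖f - E‖ * ‖κ‖ ^ 2) := by
  set s : ℝ := √2 / 2 with hs
  have hs2 : s ^ 2 = 1 / 2 := by
    rw [hs, div_pow, Real.sq_sqrt (by norm_num)]; norm_num
  have hs0 : 0 < s := by positivity
  have hs1 : s ≤ 1 := by nlinarith
  set K : ℝ := ‖κ‖ with hK
  have hβ0 : 0 ≤ β := by rw [hβ]; exact le_max_right _ _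
  have hβ1 : √(‖E‖ / (2 * ρ)) ≤ 1 + β := by
    have := le_max_left (√(‖E‖ / (2 * ρ)) - 1) 0
    rw [← hβ] at this; linarith
  have hN : s * (1 + β) * K ≤ ‖κ + B‖ := by
    refine le_trans ?_ (Complex.re_le_norm (κ + B))
    rw [Complex.add_re]
    have : s * (β * K) ≤ β * K := by
      have : 0 ≤ β * K := by positivity
      nlinarith
    nlinarith
  set N : ℝ := ‖κ + B‖ with hNdef
  have hNpos : 0 < N := lt_of_lt_of_le (by positivity) hN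
  have hne : κ + B ≠ 0 := norm_pos_iff.1 hNpos
  set χ : ℂ := κ * (κ + B)⁻¹ with hχ
  have hχN : ‖χ‖ * N = K := by
    rw [hχ, norm_mul, norm_inv, ← hNdef, ← hK]
    field_simp
  have hDN : ‖1 - χ‖ * N = ‖B‖ := by
    rw [hNdef, ← norm_mul]
    congr 1
    rw [hχ]
    field_simp
    ring
  set X : ℝ := ‖χ‖ with hX
  set D : ℝ := ‖1 - χ‖ with hD
  have hX0 : 0 ≤ X := norm_nonneg _
  have hD0 : 0 ≤ D := norm_nonneg _
  have hX1 : X * (s * (1 + β)) ≤ 1 := by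
    have h1 : X * (s * (1 + β) * K) ≤ X * N := mul_le_mul_of_nonneg_left hN hX0
    rw [hχN] at h1
    have h2 : (X * (s * (1 + β))) * K ≤ 1 * K := by linarith
    exact le_of_mul_le_mul_right h2 hκ0
  have hX2 : X ^ 2 * (1 + β) ^ 2 ≤ 2 := by
    have h1 : (X * (s * (1 + β))) ^ 2 ≤ 1 ^ 2 := pow_le_pow_left₀ (by positivity) hX1 2
    have h2 : (X * (s * (1 + β))) ^ 2 = X ^ 2 * (1 + β) ^ 2 * s ^ 2 := by ring
    rw [h2, hs2] at h1
    linarith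
  have hX3 : X ^ 2 ≤ 2 := by
    have h1 : 1 ≤ (1 + β) ^ 2 := by nlinarith
    have h2 : 0 ≤ X ^ 2 := by positivity
    nlinarith
  have hD1 : D ^ 2 * K ^ 2 ≤ 2 * ‖B‖ ^ 2 := by
    have h1 : D * (s * K) ≤ ‖B‖ := by
      rw [← hDN]
      apply mul_le_mul_of_nonneg_left _ hD0
      refine le_trans ?_ hN
      have : 0 ≤ s * β * K := by positivity
      nlinarith
    have h2 : (D * (s * K)) ^ 2 ≤ ‖B‖ ^ 2 := pow_le_pow_left₀ (by positivity) h1 2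
    have h3 : (D * (s * K)) ^ 2 = D ^ 2 * K ^ 2 * s ^ 2 := by ring
    rw [h3, hs2] at h2
    linarith
  set ψ : ℂ := χ ^ 2 * (2 - χ ^ 2) with hψ
  have hψ1 : ‖ψ‖ ≤ 4 * X ^ 2 := by
    rw [hψ, norm_mul, norm_pow, ← hX]
    have h1 : ‖2 - χ ^ 2‖ ≤ 4 := by
      calc ‖2 - χ ^ 2‖ ≤ ‖(2:ℂ)‖ + ‖χ ^ 2‖ := norm_sub_le _ _
        _ ≤ 4 := by rw [norm_pow, ← hX]; norm_num; linarith
    have h2 : 0 ≤ X ^ 2 := by positivity
    nlinarith
  have hψ9 : ‖1 - ψ‖ ≤ 9 := by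
    calc ‖1 - ψ‖ ≤ ‖(1:ℂ)‖ + ‖ψ‖ := norm_sub_le _ _
      _ ≤ 9 := by rw [norm_one]; linarith
  have hψ2 : ‖1 - ψ‖ ≤ 6 * D ^ 2 := by
    have h1 : 1 - ψ = (1 - χ) ^ 2 * (1 + χ) ^ 2 := by rw [hψ]; ring
    rw [h1, norm_mul, norm_pow, norm_pow, ← hD]
    have h2 : ‖1 + χ‖ ≤ 1 + X := by
      calc ‖1 + χ‖ ≤ ‖(1:ℂ)‖ + ‖χ‖ := norm_add_le _ _
        _ = 1 + X := by rw [norm_one]
    have h3 : ‖1 + χ‖ ^ 2 ≤ 6 := by
      have := pow_le_pow_left₀ (norm_nonneg _) h2 2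
      nlinarith [sq_nonneg (1 - X)]
    have h4 : 0 ≤ D ^ 2 := by positivity
    nlinarith
  have hE : ‖E‖ ≤ 2 * ρ * (1 + β) ^ 2 := by
    have h1 : ‖E‖ / (2 * ρ) ≤ (1 + β) ^ 2 := by
      rw [← Real.sqrt_le_left (by positivity)]
      exact hβ1
    rw [div_le_iff₀ (by positivity)] at h1
    linarith
  have hfE : ‖f - E * ψ‖ ≤ ‖f - E‖ + ‖E‖ * ‖1 - ψ‖ := by
    have : f - E * ψ = (f - E) + E * (1 - ψ) := by ring
    rw [this, ← norm_mul]
    exact norm_add_le _ _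
  have hbig : 2 * ρ < ‖E‖ → ‖E‖ ≤ 2 * ‖f - E‖ := by
    intro h
    have := norm_sub_le f (f - E)
    rw [sub_sub_cancel] at this
    linarith
  refine ⟨?_, ?_, ?_⟩
  · rw [norm_mul]
    calc ‖E‖ * ‖ψ‖ ≤ (2 * ρ * (1 + β) ^ 2) * (4 * X ^ 2) := by gcongr
      _ = 8 * ρ * (X ^ 2 * (1 + β) ^ 2) := by ring
      _ ≤ 8 * ρ * 2 := by gcongr
      _ = 16 * ρ := by ring
  · have hK2 : 0 ≤ K ^ 2 := by positivity
    have h1 : ‖f - E * ψ‖ * K ^ 2 ≤ ‖f - E‖ * K ^ 2 + ‖E‖ * ‖1 - ψ‖ * K ^ 2 := by nlinarith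
    refine h1.trans ?_
    by_cases hc : ‖E‖ ≤ 2 * ρ
    · have h2 : ‖E‖ * ‖1 - ψ‖ * K ^ 2 ≤ (2 * ρ) * (6 * D ^ 2) * K ^ 2 := by gcongr
      have h3 : (2 * ρ) * (6 * D ^ 2) * K ^ 2 ≤ 24 * ρ * ‖B‖ ^ 2 := by
        have : (2 * ρ) * (6 * D ^ 2) * K ^ 2 = 12 * ρ * (D ^ 2 * K ^ 2) := by ring
        rw [this]
        have h4 : 12 * ρ * (D ^ 2 * K ^ 2) ≤ 12 * ρ * (2 * ‖B‖ ^ 2) := by gcongr
        linarith
      have h5 : 0 ≤ ‖f - E‖ * K ^ 2 := by positivity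
      linarith
    · push Not at hc
      have h2 := hbig hc
      have h3 : ‖E‖ * ‖1 - ψ‖ * K ^ 2 ≤ (2 * ‖f - E‖) * 9 * K ^ 2 := by gcongr
      have h4 : 0 ≤ 24 * ρ * ‖B‖ ^ 2 := by positivity
      linarith
  · by_cases hc : ‖E‖ ≤ 2 * ρ
    · have : β = 0 := by
        rw [hβ]
        apply max_eq_right
        rw [sub_nonpos, Real.sqrt_le_iff]
        refine ⟨zero_le_one, ?_⟩
        rw [div_le_iff₀ (by positivity)]
        linarith
      rw [this]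
      simp only [zero_mul, ne_eq, OfNat.ofNat_ne_zero, not_false_eq_true, zero_pow]
      positivity
    · push Not at hc
      have h2 := hbig hc
      have h3 : β ≤ √(‖E‖ / (2 * ρ)) := by
        rw [hβ]
        apply max_le
        · linarith
        · positivity
      have h4 : β ^ 2 ≤ ‖E‖ / (2 * ρ) := by
        calc β ^ 2 ≤ √(‖E‖ / (2 * ρ)) ^ 2 := pow_le_pow_left₀ hβ0 h3 2
          _ = ‖E‖ / (2 * ρ) := Real.sq_sqrt (by positivity)
      have h5 : ‖E‖ / (2 * ρ) ≤ 1 / ρ * ‖f - E‖ := by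
        rw [div_le_iff₀ (by positivity)]
        have : 1 / ρ * ‖f - E‖ * (2 * ρ) = 2 * ‖f - E‖ := by field_simp
        rw [this]; exact h2
      calc (β * K) ^ 2 = β ^ 2 * K ^ 2 := by ring
        _ ≤ (1 / ρ * ‖f - E‖) * K ^ 2 := by
          apply mul_le_mul_of_nonneg_right (h4.trans h5) (by positivity)
        _ = 1 / ρ * (‖f - E‖ * K ^ 2) := by ring

/-- The truncation lemma. -/
lemma trunc {f : UnitAddCircle → ℂ} (hf : MemLp f ⊤ mu) {ρ C : ℝ} (hρ : 0 < ρ)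
    (hfρ : ∀ᵐ t ∂mu, ‖f t‖ ≤ ρ) {z : ℂ} (hz : ‖z‖ < 1)
    (hb : ∀ g : UnitAddCircle → ℂ, HI g → (∀ᵐ t ∂mu, ‖g t‖ ≤ 1) →
      ‖∫ t, f t * g t * wk z t ∂mu‖ ≤ C) :
    ∃ E' : UnitAddCircle → ℂ, HI E' ∧ (∀ᵐ t ∂mu, ‖E' t‖ ≤ 16 * ρ) ∧
      (∀ n : ℤ, n < 1 → fourierCoeff (fun t => E' t * wk z t) n = 0) ∧
      ∫ t, ‖f t - E' t‖ * ‖wk z t‖ ∂mu ≤ 115 * (C + 1) + 96 * ρ := by
  have hw := memLp_wk hz
  obtain ⟨e, he1, he2⟩ := duality (F := fun t => f t * wk z t) (memLp_mul_top hf hw) (C := C) (by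
    intro g hg hg1
    have := hb g hg hg1
    have e : (fun t => f t * wk z t * g t) = fun t => f t * g t * wk z t := by funext t; ring
    rw [e]; exact this) one_pos
  set E : UnitAddCircle → ℂ := fun t => e t * (1 - z * fourier (-1) t) with hE
  have hEc : Continuous E := by fun_prop
  have hne : ∀ t : UnitAddCircle, 1 - z * fourier (-1) t ≠ 0 := one_sub_ne hz (-1)
  have hEw : ∀ t, E t * wk z t = e t := by
    intro t
    simp only [hE, wk]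
    rw [mul_assoc, mul_inv_cancel₀ (hne t), mul_one]
  have hEHI : HI E := by
    refine ⟨memLp_of_continuous hEc, fun n hn => ?_⟩
    have h1 : E = fun t => e t - z * (e t * fourier (-1) t) := by
      funext t; simp only [hE]; ring
    rw [h1, coeff_sub (memLp_of_top 1 (memLp_of_continuous e.continuous))
      (memLp_of_top 1 (memLp_of_continuous (by fun_prop))), fourierCoeff.const_mul,
      coeff_mul_fourier, he1 n (by omega), he1 _ (by omega), mul_zero, sub_zero]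
  obtain ⟨κ, hκHI, hκw, hκre⟩ := exists_kappa hz
  have hκn : ∀ t, ‖κ t‖ = √‖wk z t‖ := by
    intro t; rw [← hκw, Real.sqrt_sq (norm_nonneg _)]
  set b : UnitAddCircle → ℝ := fun t => max (√(‖E t‖ / (2 * ρ)) - 1) 0 * √‖wk z t‖ with hbdef
  have hwc := continuous_wk hz
  have hbc : Continuous b := by fun_prop
  obtain ⟨B, hBc, hBHI, hBim, hBre⟩ := exists_realpart hbc
  have hκpos : ∀ t, 0 < ‖κ t‖ := by
    intro t
    rw [hκn]
    have := half_le_norm_wk hz t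
    positivity
  have hpw : ∀ᵐ t ∂mu,
      ‖E t * ((κ t * (κ t + B t)⁻¹) ^ 2 * (2 - (κ t * (κ t + B t)⁻¹) ^ 2))‖ ≤ 16 * ρ ∧
      ‖f t - E t * ((κ t * (κ t + B t)⁻¹) ^ 2 * (2 - (κ t * (κ t + B t)⁻¹) ^ 2))‖ * ‖κ t‖ ^ 2 ≤
        19 * (‖f t - E t‖ * ‖κ t‖ ^ 2) + 24 * ρ * ‖B t‖ ^ 2 ∧
      (max (√(‖E t‖ / (2 * ρ)) - 1) 0 * ‖κ t‖) ^ 2 ≤ (1 / ρ) * (‖f t - E t‖ * ‖κ t‖ ^ 2) := by
    filter_upwards [hfρ] with t ht
    exact pointwise (E := E t) (κ := κ t) (B := B t) (f := f t) hρ (hκpos t) (hκre t) rfl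
      (by rw [hκn]; exact (hBre t).1) ht
  have hYre : ∀ t, (1 / 2 : ℝ) ≤ (κ t + B t).re := by
    intro t
    rw [Complex.add_re]
    have h1 : 0 ≤ (B t).re := by
      refine le_trans ?_ (hBre t).1
      exact mul_nonneg (le_max_right _ _) (Real.sqrt_nonneg _)
    have h2 := hκre t
    have h3 : √2 / 2 ≤ ‖κ t‖ := by
      rw [hκn]
      apply Real.le_sqrt_of_sq_le
      rw [div_pow, Real.sq_sqrt (by norm_num)]
      have := half_le_norm_wk hz t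
      linarith
    have h4 : √2 / 2 * (√2 / 2) ≤ √2 / 2 * ‖κ t‖ := by gcongr
    have h5 : √2 / 2 * (√2 / 2) = 1 / 2 := by
      have := Real.mul_self_sqrt (show (0:ℝ) ≤ 2 by norm_num)
      nlinarith
    linarith
  have hinv : HI (fun t => (κ t + B t)⁻¹) :=
    (hκHI.add hBHI).inv (δ := 1 / 2) (by norm_num) (Filter.Eventually.of_forall hYre)
  have hχ : HI (fun t => κ t * (κ t + B t)⁻¹) := hκHI.mul hinv
  have hψ : HI (fun t => (κ t * (κ t + B t)⁻¹) ^ 2 * (2 - (κ t * (κ t + B t)⁻¹) ^ 2)) :=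
    (hχ.pow 2).mul ((HI.const 2).sub (hχ.pow 2))
  set ψ : UnitAddCircle → ℂ :=
    fun t => (κ t * (κ t + B t)⁻¹) ^ 2 * (2 - (κ t * (κ t + B t)⁻¹) ^ 2) with hψdef
  have hDeq : ∀ t, ‖f t - E t‖ * ‖wk z t‖ = ‖f t * wk z t - e t‖ := by
    intro t
    rw [← norm_mul, sub_mul, hEw]
  have hDi : Integrable (fun t => ‖f t - E t‖ * ‖wk z t‖) mu := by
    simp_rw [hDeq]
    exact ((memLp_one_iff_integrable.1 (memLp_of_top 1 (memLp_mul_top hf hw))).sub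
      (integrable_of_continuous e.continuous)).norm
  have hD : ∫ t, ‖f t - E t‖ * ‖wk z t‖ ∂mu ≤ C + 1 := by
    simp_rw [hDeq]; exact he2
  have hBi : Integrable (fun t => ‖B t‖ ^ 2) mu := integrable_sq (memLp_of_top 2 hBHI.1)
  have hBrei : Integrable (fun t => (B t).re ^ 2) mu := by
    have : Continuous fun t => (B t).re ^ 2 := by fun_prop
    exact this.integrable_of_hasCompactSupport (HasCompactSupport.of_compactSpace _)
  have hB2 : ∫ t, ‖B t‖ ^ 2 ∂mu ≤ 4 / ρ * (C + 1) + 4 := by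
    have h1 := sq_le_two_re hBc hBHI hBim
    have h2 : ∫ t, (B t).re ^ 2 ∂mu ≤
        ∫ t, (2 / ρ * (‖f t - E t‖ * ‖wk z t‖) + 2) ∂mu := by
      apply integral_mono_ae hBrei ((hDi.const_mul _).add (integrable_const _))
      filter_upwards [hpw] with t ht
      have h3 := ht.2.2
      rw [hκw] at h3
      have h4 := (hBre t).2
      have h5 : 0 ≤ (B t).re := by
        refine le_trans ?_ (hBre t).1
        exact mul_nonneg (le_max_right _ _) (Real.sqrt_nonneg _)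
      have h6 : b t ^ 2 ≤ 1 / ρ * (‖f t - E t‖ * ‖wk z t‖) := by
        refine le_trans (le_of_eq ?_) h3
        simp only [hbdef]
        rw [hκn]
      have h7 : (B t).re ^ 2 ≤ (b t + 1) ^ 2 := pow_le_pow_left₀ h5 h4 2
      have h8 : 2 / ρ * (‖f t - E t‖ * ‖wk z t‖) = 2 * (1 / ρ * (‖f t - E t‖ * ‖wk z t‖)) := by
        ring
      have h9 : (B t).re ^ 2 ≤ 2 / ρ * (‖f t - E t‖ * ‖wk z t‖) + 2 := by
        rw [h8]
        nlinarith [sq_nonneg (b t - 1)]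
      exact h9
    have h3 : ∫ t, (2 / ρ * (‖f t - E t‖ * ‖wk z t‖) + 2) ∂mu ≤ 2 / ρ * (C + 1) + 2 := by
      rw [integral_add (hDi.const_mul _) (integrable_const _), integral_const_mul,
        integral_const]
      simp only [probReal_univ, smul_eq_mul, one_mul]
      gcongr
    have h4 : 4 / ρ * (C + 1) + 4 = 2 * (2 / ρ * (C + 1) + 2) := by ring
    rw [h4]
    linarith
  refine ⟨fun t => E t * ψ t, hEHI.mul hψ, ?_, ?_, ?_⟩
  · filter_upwards [hpw] with t ht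
    exact ht.1
  · intro n hn
    have h1 : (fun t => E t * ψ t * wk z t) = fun t => e t * ψ t := by
      funext t
      rw [← hEw]; ring
    rw [h1]
    exact coeff_mul_an (memLp_of_top 2 (memLp_of_continuous e.continuous)) (memLp_of_top 2 hψ.1)
      1 0 n he1 hψ.2 (by omega)
  · have h1 : ∫ t, ‖f t - E t * ψ t‖ * ‖wk z t‖ ∂mu ≤
        ∫ t, (19 * (‖f t - E t‖ * ‖wk z t‖) + 24 * ρ * ‖B t‖ ^ 2) ∂mu := by
      apply integral_mono_of_nonneg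
      · exact Filter.Eventually.of_forall fun t => by positivity
      · exact (hDi.const_mul _).add (hBi.const_mul _)
      · filter_upwards [hpw] with t ht
        have h2 := ht.2.1
        rw [hκw] at h2
        exact h2
    rw [integral_add (hDi.const_mul _) (hBi.const_mul _), integral_const_mul,
      integral_const_mul] at h1
    have h3 : 24 * ρ * ∫ t, ‖B t‖ ^ 2 ∂mu ≤ 24 * ρ * (4 / ρ * (C + 1) + 4) := by gcongr
    have h4 : 24 * ρ * (4 / ρ * (C + 1) + 4) = 96 * (C + 1) + 96 * ρ := by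
      field_simp; ring
    linarith

end Pool.Agent.Helper546.Toep
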