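import Pool.Agent.Helper546.TPow

set_option autoImplicit false
open MeasureTheory AddCircle Complex
open scoped ENNReal ComplexConjugate InnerProductSpace Topology

namespace Pool.Agent.Helper546.Toep

lemma memLp_series {U : UnitAddCircle → ℂ} {u : ℕ → UnitAddCircle → ℂ} {c : ℕ → ℝ}
    (hu : ∀ m, MemLp (u m) ⊤ mu) (hb : ∀ m, ∀ᵐ t ∂mu, ‖u m t‖ ≤ c m) (hc : Summable c)
    (hU : ∀ᵐ t ∂mu, HasSum (fun m => u m t) (U t)) : MemLp U ⊤ mu := by
  have hm : AEStronglyMeasurable U mu := by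
    refine aestronglyMeasurable_of_tendsto_ae (f := fun (N : ℕ) t => ∑ m ∈ Finset.range N, u m t)
      Filter.atTop (fun N => ?_) ?_
    · exact Finset.aestronglyMeasurable_fun_sum _ (fun m _ => (hu m).1)
    · filter_upwards [hU] with t ht
      exact ht.tendsto_sum_nat
  refine memLp_of_ae_bound hm (∑' m, c m) ?_
  filter_upwards [hU, ae_all_iff.2 hb] with t ht hb'
  rw [← ht.tsum_eq]
  exact tsum_of_norm_bounded hc.hasSum hb'

/-- Wiener-Hopf factorisation gives surjectivity of `1 - T_f`. -/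
lemma surj_one_sub {f : UnitAddCircle → ℂ} (hf : MemLp f ⊤ mu) {ρ C : ℝ}
    (hρ : 0 < ρ) (hρ1 : ρ < 1) (hfρ : ∀ᵐ t ∂mu, ‖f t‖ ≤ ρ) (hfC : Bdd f C)
    {k : UnitAddCircle → ℂ} (hk : HI k) :
    ∃ g : UnitAddCircle → ℂ, HI g ∧
      ∀ n : ℤ, 0 ≤ n → fourierCoeff (fun t => (1 - f t) * g t) n = fourierCoeff k n := by
  obtain ⟨A, hAs, hA⟩ := exists_summable hf hρ hρ1 hfρ hfC
  have hgs : Summable fun m : ℕ => ρ ^ m := summable_geometric_of_lt_one hρ.le hρ1
  have hterm : ∀ c : ℕ → ℂ, (∀ m, ‖c m‖ ≤ 1) → ∀ m, ∀ᵐ t ∂mu, ‖c m * f t ^ m‖ ≤ ρ ^ m := by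
    intro c hc m
    filter_upwards [hfρ] with t ht
    rw [norm_mul, norm_pow]
    calc ‖c m‖ * ‖f t‖ ^ m ≤ 1 * ρ ^ m := by
          have := hc m
          gcongr
      _ = ρ ^ m := one_mul _
  -- the inverse
  set G : UnitAddCircle → ℂ := fun t => (1 - f t)⁻¹ with hGdef
  have hGs : ∀ᵐ t ∂mu, HasSum (fun m : ℕ => (1:ℂ) * f t ^ m) (G t) := by
    filter_upwards [hfρ] with t ht
    simp only [one_mul]
    exact hasSum_geometric_of_norm_lt_one (lt_of_le_of_lt ht hρ1)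
  have hGc : ∀ m : ℕ, ‖(fun _ : ℕ => (1:ℂ)) m‖ ≤ 1 := fun m => by simp
  have hG : MemLp G ⊤ mu := memLp_series (u := fun m t => (1:ℂ) * f t ^ m)
    (fun m => (memLp_pow hf m).const_mul 1) (hterm _ hGc) hgs hGs
  have hGB : Bdd G (∑' m, A m) := series_bdd hf hρ hρ1 hfρ hAs hA (c := fun _ => 1) hGc hGs
  -- the logarithm
  set L : UnitAddCircle → ℂ := fun t => -Complex.log (1 - f t) with hLdef
  have hLs : ∀ᵐ t ∂mu, HasSum (fun m : ℕ => ((m : ℂ)⁻¹) * f t ^ m) (L t) := by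
    filter_upwards [hfρ] with t ht
    have := Complex.hasSum_taylorSeries_neg_log (lt_of_le_of_lt ht hρ1)
    simpa only [div_eq_inv_mul] using this
  have hLc : ∀ m : ℕ, ‖(fun m : ℕ => ((m : ℂ)⁻¹)) m‖ ≤ 1 := fun m => by
    simp only [norm_inv, Complex.norm_natCast]
    rcases Nat.eq_zero_or_pos m with h | h
    · subst h; simp
    · exact inv_le_one_of_one_le₀ (by exact_mod_cast h)
  have hL : MemLp L ⊤ mu := memLp_series (u := fun m t => ((m : ℂ)⁻¹) * f t ^ m)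
    (fun m => (memLp_pow hf m).const_mul _) (hterm _ hLc) hgs hLs
  have hLB : Bdd L (∑' m, A m) :=
    series_bdd hf hρ hρ1 hfρ hAs hA (c := fun m => ((m : ℂ)⁻¹)) hLc hLs
  obtain ⟨a, ha, hac⟩ := acts_of_bdd hL hLB (HI.const 1)
  simp only [mul_one] at hac
  set ℓ : UnitAddCircle → ℂ := fun t => L t - a t with hℓdef
  have hℓ : MemLp ℓ ⊤ mu := hL.sub ha.1
  have hℓc : ∀ n : ℤ, 0 ≤ n → fourierCoeff ℓ n = 0 := by
    intro n hn
    rw [hℓdef, coeff_sub (memLp_of_top 1 hL) (memLp_of_top 1 ha.1), hac n hn, sub_self]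
  have hcl : HI (fun t => -conj (ℓ t)) := by
    apply HI.neg
    refine ⟨hℓ.star, fun n hn => ?_⟩
    rw [coeff_conj, hℓc _ (by omega), map_zero]
  have hce := hcl.exp
  set X : UnitAddCircle → ℂ := fun t => Complex.exp (-ℓ t) with hXdef
  have hXconj : X = fun t => conj (Complex.exp (-conj (ℓ t))) := by
    funext t
    rw [← Complex.exp_conj, map_neg, Complex.conj_conj]
  have hX : MemLp X ⊤ mu := by rw [hXconj]; exact hce.1.star
  have hXc : ∀ n : ℤ, n > 0 → fourierCoeff X n = 0 := by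
    intro n hn
    rw [hXconj, coeff_conj, hce.2 _ (by omega), map_zero]
  have hea : HI (fun t => Complex.exp (a t)) := ha.exp
  have hea' : HI (fun t => Complex.exp (-a t)) := ha.neg.exp
  have hw : HI (fun t => Complex.exp (-a t) * k t) := hea'.mul hk
  obtain ⟨h, hh, hhc⟩ := acts_of_bdd hG hGB hw
  set q : UnitAddCircle → ℂ := fun t => G t * (Complex.exp (-a t) * k t) - h t with hqdef
  have hGw : MemLp (fun t => G t * (Complex.exp (-a t) * k t)) ⊤ mu := memLp_mul_top hG hw.1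
  have hq : MemLp q ⊤ mu := hGw.sub hh.1
  have hqc : ∀ n : ℤ, n > -1 → fourierCoeff q n = 0 := by
    intro n hn
    rw [hqdef, coeff_sub (memLp_of_top 1 hGw) (memLp_of_top 1 hh.1), hhc n (by omega), sub_self]
  refine ⟨fun t => Complex.exp (a t) * h t, hea.mul hh, fun n hn => ?_⟩
  have e : (fun t => (1 - f t) * (Complex.exp (a t) * h t)) =ᵐ[mu] fun t => k t - X t * q t := by
    filter_upwards [hfρ] with t ht
    have hne : 1 - f t ≠ 0 := by
      intro h0
      have : f t = 1 := (sub_eq_zero.1 h0).symm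
      rw [this, norm_one] at ht
      linarith
    have e1 : X t = (1 - f t) * Complex.exp (a t) := by
      simp only [hXdef, hℓdef, hLdef]
      rw [show -(-Complex.log (1 - f t) - a t) = Complex.log (1 - f t) + a t by ring,
        Complex.exp_add, Complex.exp_log hne]
    have e2 : Complex.exp (a t) * Complex.exp (-a t) = 1 := by
      rw [← Complex.exp_add, add_neg_cancel, Complex.exp_zero]
    have e3 : (1 - f t) * G t = 1 := mul_inv_cancel₀ hne
    rw [e1]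
    simp only [hqdef]
    linear_combination (k t) * e2 + (Complex.exp (a t) * Complex.exp (-a t) * k t) * e3
  rw [fourierCoeff_congr_ae e, coeff_sub (memLp_of_top 1 hk.1)
    (memLp_of_top 1 (memLp_mul_top hX hq)),
    coeff_mul_coan (memLp_of_top 2 hX) (memLp_of_top 2 hq) 0 (-1) n hXc hqc (by omega), sub_zero]

lemma Bdd.const_mul {f : UnitAddCircle → ℂ} {C : ℝ} (h : Bdd f C) (c : ℂ) :
    Bdd (fun t => c * f t) (‖c‖ * C) := by
  intro g hg hg1 z hz
  have e : ∫ t, c * f t * g t * wk z t ∂mu = c * ∫ t, f t * g t * wk z t ∂mu := by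
    rw [← integral_const_mul]
    congr 1; funext t; ring
  rw [e, norm_mul]
  exact mul_le_mul_of_nonneg_left (h g hg hg1 z hz) (norm_nonneg _)

/-- Surjectivity of `T_φ - c` for `|c| > ‖φ‖_∞`. -/
lemma surj_sub {φ : UnitAddCircle → ℂ} (hφ : MemLp φ ⊤ mu) {R C : ℝ} (hR : 0 < R)
    (hφR : ∀ᵐ t ∂mu, ‖φ t‖ ≤ R) (hφC : Bdd φ C) {c : ℂ} (hc : R < ‖c‖)
    {k : UnitAddCircle → ℂ} (hk : HI k) :
    ∃ g : UnitAddCircle → ℂ, HI g ∧
      ∀ n : ℤ, 0 ≤ n → fourierCoeff (fun t => (φ t - c) * g t) n = fourierCoeff k n := by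
  have hc0 : c ≠ 0 := norm_pos_iff.1 (hR.trans hc)
  have hcn : 0 < ‖c‖ := hR.trans hc
  obtain ⟨g, hg, hgc⟩ := surj_one_sub (f := fun t => c⁻¹ * φ t) (hφ.const_mul _)
    (ρ := R / ‖c‖) (by positivity) ((div_lt_one hcn).2 hc) (by
      filter_upwards [hφR] with t ht
      rw [norm_mul, norm_inv, div_eq_inv_mul]
      gcongr) (hφC.const_mul c⁻¹) (hk.const_mul (-c⁻¹))
  refine ⟨g, hg, fun n hn => ?_⟩
  have h1 := hgc n hn
  rw [fourierCoeff.const_mul] at h1
  have e : (fun t => (φ t - c) * g t) = fun t => (-c) * ((1 - c⁻¹ * φ t) * g t) := by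
    funext t
    have : c * c⁻¹ = 1 := mul_inv_cancel₀ hc0
    linear_combination (-(φ t * g t)) * this
  rw [e, fourierCoeff.const_mul, h1]
  field_simp

/-- Injectivity of `T_φ - c` for `|c| > ‖φ‖_∞`. -/
lemma inj_sub {φ : UnitAddCircle → ℂ} (hφ : MemLp φ ⊤ mu) {R : ℝ}
    (hφR : ∀ᵐ t ∂mu, ‖φ t‖ ≤ R) {c : ℂ} (hc : R < ‖c‖)
    {f : UnitAddCircle → ℂ} (hf : HI f)
    (h : ∀ n : ℤ, 0 ≤ n → fourierCoeff (fun t => (φ t - c) * f t) n = 0) : f =ᵐ[mu] 0 := by
  have hm1 : MemLp (fun t => (φ t - c) * f t) ⊤ mu :=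
    memLp_mul_top (hφ.sub (memLp_const c)) hf.1
  have hm2 : MemLp (fun t => conj (f t)) ⊤ mu := hf.1.star
  have h0 : fourierCoeff (fun t => (φ t - c) * f t * conj (f t)) 0 = 0 := by
    apply coeff_mul_zero (memLp_of_top 2 hm1) (memLp_of_top 2 hm2)
    intro k
    by_cases hk : k ≤ 0
    · rw [h _ (by omega), zero_mul]
    · rw [coeff_conj, hf.2 _ (by omega), map_zero, mul_zero]
  rw [coeff_zero_eq] at h0
  have hsq : Integrable (fun t => ‖f t‖ ^ 2) mu := integrable_sq (memLp_of_top 2 hf.1)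
  have hff : MemLp (fun t => f t * conj (f t)) ⊤ mu := memLp_mul_top hf.1 hm2
  have hi1 : Integrable (fun t => φ t * (f t * conj (f t))) mu :=
    memLp_one_iff_integrable.1 (memLp_of_top 1 (memLp_mul_top hφ hff))
  have hi2 : Integrable (fun t => c * (f t * conj (f t))) mu :=
    memLp_one_iff_integrable.1 (memLp_of_top 1 (hff.const_mul c))
  have h1 : ∫ t, φ t * (f t * conj (f t)) ∂mu = c * ∫ t, f t * conj (f t) ∂mu := by
    rw [← integral_const_mul, ← sub_eq_zero, ← integral_sub hi1 hi2, ← h0]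
    congr 1; funext t; ring
  have h2 : ∫ t, f t * conj (f t) ∂mu = ((∫ t, ‖f t‖ ^ 2 ∂mu : ℝ) : ℂ) := by
    rw [← integral_complex_ofReal]
    congr 1; funext t
    rw [Complex.mul_conj, Complex.normSq_eq_norm_sq]
  have h3 : ‖∫ t, φ t * (f t * conj (f t)) ∂mu‖ ≤ R * ∫ t, ‖f t‖ ^ 2 ∂mu := by
    rw [← integral_const_mul]
    apply norm_integral_le_of_norm_le (hsq.const_mul R)
    filter_upwards [hφR] with t ht
    rw [norm_mul, norm_mul, RCLike.norm_conj]
    have : 0 ≤ ‖f t‖ * ‖f t‖ := by positivity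
    calc ‖φ t‖ * (‖f t‖ * ‖f t‖) ≤ R * (‖f t‖ * ‖f t‖) := by gcongr
      _ = R * ‖f t‖ ^ 2 := by ring
  rw [h1, h2, norm_mul, Complex.norm_real] at h3
  have hI0 : 0 ≤ ∫ t, ‖f t‖ ^ 2 ∂mu := integral_nonneg fun t => by positivity
  rw [Real.norm_of_nonneg hI0] at h3
  have hI : ∫ t, ‖f t‖ ^ 2 ∂mu = 0 := by
    by_contra hne
    have : 0 < ∫ t, ‖f t‖ ^ 2 ∂mu := lt_of_le_of_ne hI0 (Ne.symm hne)
    have := mul_lt_mul_of_pos_right hc this
    linarith
  rw [integral_eq_zero_iff_of_nonneg (fun t => by positivity) hsq] at hI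
  filter_upwards [hI] with t ht
  simpa using ht

end Pool.Agent.Helper546.Toep
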