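import Mathlib

/-!
A family with the unconditional (lattice type) inequality and dense span is an unconditional
basis: every vector has a unique unconditionally convergent expansion.
-/

set_option autoImplicit false

namespace Pool.Agent.Helper546.UncExp

open Filter Topology

variable {X : Type*} [NormedAddCommGroup X] [NormedSpace ℝ X] {J : Type*}

/-- the inequality in terms of finitely supported families -/
theorem finsupp_ineq (x : J → X) (M : ℝ)
    (hM : ∀ (d : Finset J) (a b : J → ℝ), (∀ i, |b i| ≤ |a i|) →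
      ‖∑ i ∈ d, b i • x i‖ ≤ M * ‖∑ i ∈ d, a i • x i‖)
    (d : Finset J) (c : J →₀ ℝ) :
    ‖∑ i ∈ d, c i • x i‖ ≤ |M| * ‖Finsupp.linearCombination ℝ x c‖ := by
  classical
  have h1 := hM (d ∪ c.support) (fun i => c i) (fun i => if i ∈ d then c i else 0) (by
    intro i
    by_cases h : i ∈ d
    · rw [if_pos h]
    · rw [if_neg h, abs_zero]; exact abs_nonneg _)
  have h2 : ∑ i ∈ d ∪ c.support, (if i ∈ d then c i else 0) • x i = ∑ i ∈ d, c i • x i := by
    have h3 : ∑ i ∈ d, c i • x i = ∑ i ∈ d, (if i ∈ d then c i else 0) • x i :=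
      Finset.sum_congr rfl fun i hi => by rw [if_pos hi]
    rw [h3]
    symm
    apply Finset.sum_subset Finset.subset_union_left
    intro i _ hi
    rw [if_neg hi, zero_smul]
  have h4 : ∑ i ∈ d ∪ c.support, c i • x i = Finsupp.linearCombination ℝ x c := by
    rw [Finsupp.linearCombination_apply, Finsupp.sum]
    symm
    apply Finset.sum_subset Finset.subset_union_right
    intro i _ hi
    rw [Finsupp.notMem_support_iff.1 hi, zero_smul]
  rw [h2, h4] at h1
  exact h1.trans (mul_le_mul_of_nonneg_right (le_abs_self M) (norm_nonneg _))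

theorem uncond_expansion (x : J → X) (hx : ∀ i, x i ≠ 0)
    (hspan : (Submodule.span ℝ (Set.range x)).topologicalClosure = ⊤) (M : ℝ)
    (hM : ∀ (d : Finset J) (a b : J → ℝ), (∀ i, |b i| ≤ |a i|) →
      ‖∑ i ∈ d, b i • x i‖ ≤ M * ‖∑ i ∈ d, a i • x i‖) :
    ∀ y : X, ∃! a : J → ℝ, HasSum (fun i => a i • x i) y := by
  classical
  intro y
  have hM' : ∀ (d : Finset J) (c : J →₀ ℝ),
      ‖∑ i ∈ d, c i • x i‖ ≤ |M| * ‖Finsupp.linearCombination ℝ x c‖ :=
    finsupp_ineq x M hM
  -- approximations
  have hy : y ∈ closure (Submodule.span ℝ (Set.range x) : Set X) := by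
    have : y ∈ (Submodule.span ℝ (Set.range x)).topologicalClosure := by rw [hspan]; trivial
    exact this
  obtain ⟨u, hu1, hu2⟩ := mem_closure_iff_seq_limit.1 hy
  have hu3 : ∀ n, ∃ c : J →₀ ℝ, Finsupp.linearCombination ℝ x c = u n := by
    intro n
    exact (Finsupp.mem_span_range_iff_exists_finsupp.1 (hu1 n)).imp fun c hc => by
      rw [Finsupp.linearCombination_apply]; exact hc
  choose c hc using hu3
  have hcd : ∀ (d : Finset J) (n m : ℕ), ‖∑ i ∈ d, (c m i - c n i) • x i‖ ≤
      |M| * ‖u m - u n‖ := by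
    intro d n m
    have h := hM' d (c m - c n)
    rw [map_sub, hc, hc] at h
    simpa using h
  have hucauchy : CauchySeq u := hu2.cauchySeq
  -- coordinates converge
  have hlim : ∀ i, ∃ a : ℝ, Tendsto (fun n => c n i) atTop (𝓝 a) := by
    intro i
    apply cauchySeq_tendsto_of_complete
    have hxi : 0 < ‖x i‖ := norm_pos_iff.2 (hx i)
    rw [Metric.cauchySeq_iff'] at hucauchy ⊢
    intro ε hε
    obtain ⟨N, hN⟩ := hucauchy (ε * ‖x i‖ / (|M| + 1)) (by positivity)
    refine ⟨N, fun n hn => ?_⟩
    have h1 := hcd {i} N n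
    rw [Finset.sum_singleton, norm_smul] at h1
    have h2 := hN n hn
    rw [dist_eq_norm] at h2 ⊢
    have h3 : ‖c n i - c N i‖ * ‖x i‖ < ε * ‖x i‖ := by
      calc ‖c n i - c N i‖ * ‖x i‖ ≤ |M| * ‖u n - u N‖ := h1
        _ ≤ (|M| + 1) * ‖u n - u N‖ := by
            apply mul_le_mul_of_nonneg_right _ (norm_nonneg _); linarith
        _ < (|M| + 1) * (ε * ‖x i‖ / (|M| + 1)) := by
            apply mul_lt_mul_of_pos_left h2; positivity
        _ = ε * ‖x i‖ := by field_simp
    exact lt_of_mul_lt_mul_right h3 hxi.le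
  choose a ha using hlim
  have hexist : HasSum (fun i => a i • x i) y := by
    rw [HasSum, SummationFilter.unconditional_filter, Metric.tendsto_atTop]
    intro ε hε
    have h1 := (Metric.tendsto_atTop.1 hu2) (ε / (|M| + 1)) (by positivity)
    obtain ⟨N, hN⟩ := h1
    refine ⟨(c N).support, fun F hF => ?_⟩
    have h2 : ‖∑ i ∈ F, (a i - c N i) • x i‖ ≤ |M| * ‖y - u N‖ := by
      have h3 : Tendsto (fun m => ‖∑ i ∈ F, (c m i - c N i) • x i‖) atTop
          (𝓝 ‖∑ i ∈ F, (a i - c N i) • x i‖) := by
        apply Tendsto.norm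
        apply tendsto_finsetSum
        intro i _
        exact ((ha i).sub_const _).smul_const _
      have h4 : Tendsto (fun m => |M| * ‖u m - u N‖) atTop (𝓝 (|M| * ‖y - u N‖)) :=
        ((hu2.sub_const _).norm).const_mul _
      exact le_of_tendsto_of_tendsto' h3 h4 fun m => hcd F N m
    have h5 : ∑ i ∈ F, c N i • x i = u N := by
      rw [← hc N, Finsupp.linearCombination_apply, Finsupp.sum]
      symm
      apply Finset.sum_subset hF
      intro i _ hi
      rw [Finsupp.notMem_support_iff.1 hi, zero_smul]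
    have h6 : ∑ i ∈ F, a i • x i - y = ∑ i ∈ F, (a i - c N i) • x i - (y - u N) := by
      have : ∑ i ∈ F, (a i - c N i) • x i = ∑ i ∈ F, a i • x i - u N := by
        rw [← h5, ← Finset.sum_sub_distrib]
        exact Finset.sum_congr rfl fun i _ => sub_smul _ _ _
      rw [this]; abel
    have h7 : ‖y - u N‖ < ε / (|M| + 1) := by
      have := hN N le_rfl
      rwa [dist_comm, dist_eq_norm] at this
    rw [dist_eq_norm, h6]
    calc ‖∑ i ∈ F, (a i - c N i) • x i - (y - u N)‖ ≤ |M| * ‖y - u N‖ + ‖y - u N‖ :=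
          (norm_sub_le _ _).trans (by linarith)
      _ = (|M| + 1) * ‖y - u N‖ := by ring
      _ < (|M| + 1) * (ε / (|M| + 1)) := by apply mul_lt_mul_of_pos_left h7; positivity
      _ = ε := by field_simp
  refine ⟨a, hexist, ?_⟩
  intro b hb
  have hdiff : HasSum (fun i => (b i - a i) • x i) 0 := by
    have h := hb.sub hexist
    rw [sub_self] at h
    have h2 : (fun i => (b i - a i) • x i) = fun i => b i • x i - a i • x i := by
      funext i; exact sub_smul _ _ _
    rw [h2]; exact h
  funext i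
  by_contra hne
  have hxi : 0 < ‖x i‖ := norm_pos_iff.2 (hx i)
  have hbi : 0 < |b i - a i| := abs_pos.2 (sub_ne_zero.2 hne)
  rw [HasSum, SummationFilter.unconditional_filter, Metric.tendsto_atTop] at hdiff
  obtain ⟨F, hF⟩ := hdiff (|b i - a i| * ‖x i‖ / (|M| + 1)) (by positivity)
  have h1 := hF (insert i F) (Finset.subset_insert _ _)
  rw [dist_zero_right] at h1
  have h2 := hM (insert i F) (fun j => b j - a j) (fun j => if j = i then b j - a j else 0) (by
    intro j
    by_cases h : j = i
    · rw [if_pos h]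
    · rw [if_neg h, abs_zero]; exact abs_nonneg _)
  have h3 : ∑ j ∈ insert i F, (if j = i then b j - a j else 0) • x j = (b i - a i) • x i := by
    rw [Finset.sum_eq_single i]
    · rw [if_pos rfl]
    · intro j _ hj
      rw [if_neg hj, zero_smul]
    · intro h
      exact absurd (Finset.mem_insert_self i F) h
  rw [h3, norm_smul, Real.norm_eq_abs] at h2
  have h4 : |b i - a i| * ‖x i‖ < |b i - a i| * ‖x i‖ := by
    calc |b i - a i| * ‖x i‖ ≤ M * ‖∑ j ∈ insert i F, (b j - a j) • x j‖ := h2
      _ ≤ (|M| + 1) * ‖∑ j ∈ insert i F, (b j - a j) • x j‖ := by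
          apply mul_le_mul_of_nonneg_right _ (norm_nonneg _)
          linarith [le_abs_self M]
      _ < (|M| + 1) * (|b i - a i| * ‖x i‖ / (|M| + 1)) := by
          apply mul_lt_mul_of_pos_left h1; positivity
      _ = |b i - a i| * ‖x i‖ := by field_simp
  exact lt_irrefl _ h4

end Pool.Agent.Helper546.UncExp
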