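import Pool.Agent.Helper546.MeanValue
set_option autoImplicit false
open MeasureTheory Metric Set Filter Topology
open scoped ContDiff InnerProductSpace Convolution

namespace Pool.Agent.Helper546

/-- convolution with a kernel on the right -/
noncomputable def cv (k u : V → ℝ) : V → ℝ :=
  convolution u k (ContinuousLinearMap.lsmul ℝ ℝ) volume

theorem cv_apply (k u : V → ℝ) (x : V) : cv k u x = ∫ t, u t * k (x - t) := rfl

theorem contDiff_cv {k u : V → ℝ} (hk : Tst Set.univ k) (hu : LocallyIntegrable u) :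
    ContDiff ℝ ∞ (cv k u) :=
  hk.2.1.contDiff_convolution_right _ hu hk.1

theorem dd_cv {k u : V → ℝ} (hk : Tst Set.univ k) (hu : LocallyIntegrable u) (i : Fin 2) :
    dd i (cv k u) = cv (dd i k) u := by
  funext x
  have h1 := hk.2.1.hasFDerivAt_convolution_right (ContinuousLinearMap.lsmul ℝ ℝ) hu
    (hk.1.of_le (by simp)) x (μ := volume)
  rw [dd, cv, h1.fderiv, convolution_precompR_apply _ hu (hk.2.1.fderiv ℝ)
    (hk.1.continuous_fderiv (by simp))]
  rfl

theorem lap_cv {k u : V → ℝ} (hk : Tst Set.univ k) (hu : LocallyIntegrable u) (x : V) :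
    lap (cv k u) x = ∫ t, u t * lap k (x - t) := by
  rw [lap, dd_cv hk hu, dd_cv hk hu, dd_cv (hk.dd 0) hu, dd_cv (hk.dd 1) hu, cv_apply, cv_apply]
  have hi : ∀ i : Fin 2, Integrable (fun t => u t * dd i (dd i k) (x - t)) := by
    intro i
    have := ((hk.dd i).dd i).2.1.convolutionExists_right (ContinuousLinearMap.lsmul ℝ ℝ) hu
      ((hk.dd i).dd i).1.continuous x (μ := volume)
    exact this
  rw [← integral_add (hi 0) (hi 1)]
  congr 1
  funext t
  rw [lap]; ring

theorem lap_comp_affine {f : V → ℝ} (hf : ContDiff ℝ ∞ f) (z : V) (t : ℝ) (x : V) :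
    lap (fun y => f (z + t • y)) x = t ^ 2 * lap f (z + t • x) := by
  have h : ∀ i : Fin 2, dd i (dd i (fun y => f (z + t • y))) x =
      t ^ 2 * dd i (dd i f) (z + t • x) := by
    intro i
    have h1 : dd i (fun y => f (z + t • y)) = fun y => t * dd i f (z + t • y) := by
      funext y; exact dd_comp_affine hf i z t y
    rw [h1]
    have h2 := (contDiff_comp_affine (contDiff_dd i hf) z t)
    have h3 : dd i (fun y => t * dd i f (z + t • y)) x =
        t * dd i (fun y => dd i f (z + t • y)) x := by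
      rw [dd, ((h2.differentiable (by simp) x).hasFDerivAt.const_mul t).fderiv]
      simp [dd]
    rw [h3, dd_comp_affine (contDiff_dd i hf)]
    ring
  rw [lap, h, h, lap]; ring

theorem helm_cv {Ω : Set V} {Λ : ℝ} {u : V → ℝ} (hu : LocallyIntegrable u)
    (hw : ∀ ψ, Tst Ω ψ → ∫ x, u x * (lap ψ x + Λ * ψ x) = 0) {k : V → ℝ} (hk : Tst Set.univ k)
    {δ : ℝ} (hδ : tsupport k ⊆ closedBall 0 δ) {x : V} (hx : closedBall x δ ⊆ Ω) :
    lap (cv k u) x = -Λ * cv k u x := by
  have hψ : Tst Ω (fun t => k (x - t)) := by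
    have hsub : tsupport (fun t => k (x - t)) ⊆ closedBall x δ := by
      refine closure_minimal (fun t ht => ?_) isClosed_closedBall
      have h1 : x - t ∈ closedBall (0 : V) δ := hδ (subset_tsupport _ ht)
      rw [mem_closedBall, dist_zero_right] at h1
      rw [mem_closedBall, dist_comm, dist_eq_norm]
      exact h1
    refine ⟨hk.1.comp (contDiff_const.sub contDiff_id), ?_, hsub.trans hx⟩
    exact (isCompact_closedBall x δ).of_isClosed_subset (isClosed_tsupport _) hsub
  have h1 := hw _ hψ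
  have h2 : ∀ t, lap (fun t => k (x - t)) t = lap k (x - t) := by
    intro t
    have h3 := lap_comp_affine hk.1 x (-1) t
    have e1 : (fun y => k (x + (-1 : ℝ) • y)) = fun y => k (x - y) := by
      funext y; congr 1; simp [sub_eq_add_neg]
    rw [e1] at h3
    rw [h3]
    simp [sub_eq_add_neg]
  simp only [h2] at h1
  rw [lap_cv hk hu, cv_apply]
  have i1 : Integrable (fun t => u t * lap k (x - t)) := by
    have hc : HasCompactSupport (lap k) :=
      (hasCompactSupport_dd 0 (hasCompactSupport_dd 0 hk.2.1)).add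
        (hasCompactSupport_dd 1 (hasCompactSupport_dd 1 hk.2.1))
    exact hc.convolutionExists_right (ContinuousLinearMap.lsmul ℝ ℝ) hu
      (contDiff_lap hk.1).continuous x (μ := volume)
  have i2 : Integrable (fun t => u t * k (x - t)) :=
    hk.2.1.convolutionExists_right (ContinuousLinearMap.lsmul ℝ ℝ) hu hk.1.continuous x (μ := volume)
  have h3 : ∫ t, u t * (lap k (x - t) + Λ * k (x - t)) =
      (∫ t, u t * lap k (x - t)) + Λ * ∫ t, u t * k (x - t) := by
    rw [← integral_const_mul, ← integral_add i1 (i2.const_mul Λ)]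
    congr 1; funext t; ring
  rw [h3] at h1
  linarith

/-- scaled radial kernel -/
noncomputable def kk (e : ℝ → ℝ) (t : ℝ) (y : V) : ℝ := rad e (t⁻¹ • y)

theorem kk_eq_zero {e : ℝ → ℝ} (he : Ek e) {t : ℝ} (ht : 0 < t) {y : V} (hy : t ≤ ‖y‖) :
    kk e t y = 0 := by
  apply rad_eq_zero he
  rw [norm_smul, norm_inv, Real.norm_eq_abs, abs_of_pos ht, le_inv_mul_iff₀ ht]
  linarith

theorem tsupport_kk {e : ℝ → ℝ} (he : Ek e) {t : ℝ} (ht : 0 < t) :
    tsupport (kk e t) ⊆ closedBall 0 t := by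
  refine closure_minimal (fun x hx => ?_) isClosed_closedBall
  by_contra h
  simp only [mem_closedBall, dist_zero_right, not_le] at h
  exact hx (kk_eq_zero he ht h.le)

theorem tst_kk {e : ℝ → ℝ} (he : Ek e) {t : ℝ} (ht : 0 < t) : Tst Set.univ (kk e t) := by
  refine ⟨?_, ?_, subset_univ _⟩
  · exact (contDiff_rad he).comp (contDiff_id.const_smul t⁻¹)
  · exact (isCompact_closedBall (0 : V) t).of_isClosed_subset (isClosed_tsupport _)
      (tsupport_kk he ht)

theorem GG_eq_cv (w : V → ℝ) {e : ℝ → ℝ} (z : V) {t : ℝ} (ht : 0 < t) :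
    cv (kk e t) w z = t ^ 2 * GG w e z t := by
  have h1 := Measure.integral_comp_smul (volume : Measure V)
    (fun y => w (z + y) * rad e (t⁻¹ • y)) t
  have h2 : (fun x : V => w (z + t • x) * rad e (t⁻¹ • t • x)) =
      fun x : V => w (z + t • x) * rad e x := by
    funext x
    rw [inv_smul_smul₀ ht.ne']
  rw [h2] at h1
  have hf : Module.finrank ℝ V = 2 := by simp
  rw [hf] at h1
  rw [GG, h1, cv_apply, smul_eq_mul, abs_of_pos (by positivity), ← mul_assoc,
    mul_inv_cancel₀ (by positivity), one_mul]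
  rw [← integral_sub_right_eq_self (fun y => w (z + y) * rad e (t⁻¹ • y)) z]
  congr 1
  funext y
  rw [add_sub_cancel, kk]
  congr 1
  rw [rad, rad, norm_smul, norm_smul, norm_sub_rev]

/-- basic profile -/
noncomputable def e0 (s : ℝ) : ℝ := Real.smoothTransition (1 - s)

theorem ek_e0 : Ek e0 := by
  refine ⟨Real.smoothTransition.contDiff.comp (contDiff_const.sub contDiff_id), fun s hs => ?_⟩
  exact Real.smoothTransition.zero_of_nonpos (by linarith)

theorem rad_e0_nonneg (x : V) : 0 ≤ rad e0 x := Real.smoothTransition.nonneg _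

theorem rad_e0_le (x : V) : rad e0 x ≤ 1 := Real.smoothTransition.le_one _

theorem integrable_rad_e0 : Integrable (rad e0) :=
  (contDiff_rad ek_e0).continuous.integrable_of_hasCompactSupport (hasCompactSupport_rad ek_e0)

theorem integral_rad_e0_pos : 0 < ∫ x, rad e0 x := by
  have h : 0 < rad e0 0 := Real.smoothTransition.pos_of_pos (by simp)
  exact (contDiff_rad ek_e0).continuous.integral_pos_of_hasCompactSupport_nonneg_nonzero
    (hasCompactSupport_rad ek_e0) (fun x => rad_e0_nonneg x) h.ne'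

theorem cc_lower {Λ : ℝ} {t : ℝ} (ht : 0 ≤ t) (h : Real.sqrt Λ * t ≤ 1) :
    (1 / 2) * (∫ x, rad e0 x) ≤ cc Λ e0 t := by
  rw [cc, ← integral_const_mul]
  refine integral_mono (integrable_rad_e0.const_mul _) ?_ (fun x => ?_)
  · refine integrable_mul_rad ek_e0 ?_
    fun_prop
  · show 1 / 2 * rad e0 x ≤ Real.cos (Real.sqrt Λ * (t * x 0)) * rad e0 x
    by_cases hx : 1 ≤ ‖x‖
    · rw [rad_eq_zero ek_e0 hx]; simp
    · push Not at hx
      refine mul_le_mul_of_nonneg_right ?_ (rad_e0_nonneg x)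
      have h1 := Real.one_sub_sq_div_two_le_cos (x := Real.sqrt Λ * (t * x 0))
      have h2 : (x 0) ^ 2 ≤ 1 := by
        have := norm_sq_V x
        nlinarith [norm_nonneg x, sq_nonneg (x 1)]
      have h3 : (Real.sqrt Λ * (t * x 0)) ^ 2 ≤ 1 := by
        have h4 : (Real.sqrt Λ * t) ^ 2 ≤ 1 := by
          have := Real.sqrt_nonneg Λ
          have : 0 ≤ Real.sqrt Λ * t := by positivity
          nlinarith
        calc (Real.sqrt Λ * (t * x 0)) ^ 2 = (Real.sqrt Λ * t) ^ 2 * (x 0) ^ 2 := by ring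
          _ ≤ 1 * 1 := by gcongr
          _ = 1 := one_mul 1
      linarith

theorem assoc_cv {u : V → ℝ} (hu : LocallyIntegrable u) {k ρ : V → ℝ} (hk : Tst Set.univ k)
    (hρ : Tst Set.univ ρ) (z : V) :
    cv k (convolution ρ u (ContinuousLinearMap.lsmul ℝ ℝ) volume) z =
      convolution ρ (cv k u) (ContinuousLinearMap.lsmul ℝ ℝ) volume z := by
  have hnu : LocallyIntegrable (fun x => ‖u x‖) := fun x => by
    obtain ⟨s, hs, h⟩ := hu x
    exact ⟨s, hs, h.norm⟩
  refine convolution_assoc (ContinuousLinearMap.lsmul ℝ ℝ) (ContinuousLinearMap.lsmul ℝ ℝ)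
    (ContinuousLinearMap.lsmul ℝ ℝ) (ContinuousLinearMap.lsmul ℝ ℝ) ?_ ?_ ?_ ?_ ?_ ?_ ?_
  · intro x y z
    simp [mul_assoc]
  · exact hρ.1.continuous.aestronglyMeasurable
  · exact hu.aestronglyMeasurable
  · exact hk.1.continuous.aestronglyMeasurable
  · exact Eventually.of_forall fun y => hρ.2.1.convolutionExists_left _ hρ.1.continuous hu y
  · exact Eventually.of_forall fun y =>
      (hk.2.1.norm).convolutionExists_right _ hnu hk.1.continuous.norm y
  · refine (hρ.2.1.norm).convolutionExists_left _ hρ.1.continuous.norm ?_ z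
    exact ((hk.2.1.norm).continuous_convolution_right _ hnu hk.1.continuous.norm).locallyIntegrable

/-- shrinking bumps -/
noncomputable def bmp (n : ℕ) : ContDiffBump (0 : V) where
  rIn := 1 / (2 * ((n : ℝ) + 1))
  rOut := 1 / ((n : ℝ) + 1)
  rIn_pos := by positivity
  rIn_lt_rOut := by
    have : (0 : ℝ) < (n : ℝ) + 1 := by positivity
    apply one_div_lt_one_div_of_lt this
    linarith

theorem tendsto_bmp : Tendsto (fun n => (bmp n).rOut) atTop (𝓝 0) :=
  tendsto_one_div_add_atTop_nhds_zero_nat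

theorem tst_bmp (n : ℕ) : Tst Set.univ ((bmp n).normed volume) :=
  ⟨(bmp n).contDiff_normed, (bmp n).hasCompactSupport_normed, subset_univ _⟩

/-- mollified function -/
noncomputable def moll (u : V → ℝ) (n : ℕ) : V → ℝ := cv ((bmp n).normed volume) u

theorem moll_eq (u : V → ℝ) (n : ℕ) :
    moll u n = convolution ((bmp n).normed volume) u (ContinuousLinearMap.lsmul ℝ ℝ) volume := by
  funext x
  rw [moll, cv_apply, convolution_eq_swap]
  congr 1; funext t
  simp [mul_comm]

theorem moll_ae {u : V → ℝ} (hu : LocallyIntegrable u) :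
    ∀ᵐ x, Tendsto (fun n => moll u n x) atTop (𝓝 (u x)) := by
  have := ContDiffBump.ae_convolution_tendsto_right_of_locallyIntegrable (φ := bmp)
    (l := atTop) (K := 2) (μ := (volume : Measure V)) (g := u) tendsto_bmp
    (Eventually.of_forall fun n => by
      show 1 / ((n : ℝ) + 1) ≤ 2 * (1 / (2 * ((n : ℝ) + 1)))
      have : (0 : ℝ) < (n : ℝ) + 1 := by positivity
      apply le_of_eq; field_simp) hu
  filter_upwards [this] with x hx
  simp only [moll_eq]
  exact hx

/-- Weyl lemma for the Helmholtz operator together with an interior estimate -/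
theorem weyl {Ω : Set V} (hΩ : IsOpen Ω) {Λ : ℝ} (hΛ : 0 ≤ Λ) {u : V → ℝ} (hu : MemLp u 2)
    (hw : ∀ ψ, Tst Ω ψ → ∫ x, u x * (lap ψ x + Λ * ψ x) = 0) :
    ∃ v : V → ℝ, ContDiffOn ℝ ∞ v Ω ∧ (∀ᵐ x, x ∈ Ω → v x = u x) ∧ Helm Λ v Ω ∧
      ∃ C : ℝ, ∃ t0 : ℝ, 0 < t0 ∧ ∀ z t, 0 < t → t ≤ t0 → closedBall z (2 * t) ⊆ Ω →
        (v z) ^ 2 ≤ C / t ^ 2 * ∫ y in ball z t, (u y) ^ 2 := by
  have hul : LocallyIntegrable u := hu.locallyIntegrable (by norm_num)
  set t0 : ℝ := 1 / (2 * (Real.sqrt Λ + 1)) with ht0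
  have hs0 := Real.sqrt_nonneg Λ
  have ht0p : 0 < t0 := by positivity
  have hst0 : Real.sqrt Λ * t0 ≤ 1 / 2 := by
    rw [ht0, mul_one_div, div_le_div_iff₀ (by positivity) (by norm_num)]
    linarith
  have hst : ∀ t, 0 < t → t ≤ t0 → Real.sqrt Λ * t ≤ 1 := fun t h1 h2 =>
    (mul_le_mul_of_nonneg_left h2 hs0).trans (hst0.trans (by norm_num))
  have hΛt : ∀ t, 0 < t → t ≤ t0 → Λ * (3 / 2 * t) ^ 2 ≤ 1 := by
    intro t h1 h2
    have h3 : Real.sqrt Λ * t ≤ 1 / 2 := (mul_le_mul_of_nonneg_left h2 hs0).trans hst0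
    have h4 : 0 ≤ Real.sqrt Λ * t := by positivity
    have h5 : Λ = Real.sqrt Λ ^ 2 := (Real.sq_sqrt hΛ).symm
    have h6 : Λ * (3 / 2 * t) ^ 2 = 9 / 4 * (Real.sqrt Λ * t) ^ 2 := by
      rw [h5, Real.sqrt_sq hs0]; ring
    rw [h6]; nlinarith
  set I0 := ∫ x, rad e0 x with hI0
  have hI0p : 0 < I0 := integral_rad_e0_pos
  set A : ℝ → V → ℝ := fun t z => (t ^ 2 * cc Λ e0 t)⁻¹ * cv (kk e0 t) u z with hA
  have hccp : ∀ t, 0 < t → t ≤ t0 → 0 < cc Λ e0 t := fun t h1 h2 =>
    lt_of_lt_of_le (by positivity) (cc_lower h1.le (hst t h1 h2))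
  -- pointwise limit of mollifications
  have hlim : ∀ z t, 0 < t → t ≤ t0 → closedBall z (2 * t) ⊆ Ω →
      Tendsto (fun n => moll u n z) atTop (𝓝 (A t z)) := by
    intro z t h1 h2 h3
    have hk := tst_kk ek_e0 h1
    have hev : ∀ᶠ n in atTop, moll u n z = (t ^ 2 * cc Λ e0 t)⁻¹ *
        convolution ((bmp n).normed volume) (cv (kk e0 t) u)
          (ContinuousLinearMap.lsmul ℝ ℝ) volume z := by
      have hsm : ∀ᶠ n in atTop, (bmp n).rOut < t / 2 :=
        (tendsto_order.1 tendsto_bmp).2 _ (by positivity)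
      filter_upwards [hsm] with n hn
      have hb := tst_bmp n
      have hhelm : Helm Λ (moll u n) (ball z (3 / 2 * t)) := by
        intro x hx
        refine helm_cv hul hw hb (δ := (bmp n).rOut) ?_ ?_
        · exact (bmp n).tsupport_normed_eq.subset
        · refine Subset.trans ?_ h3
          apply closedBall_subset_closedBall'
          rw [mem_ball] at hx
          linarith
      have hmv := GG_mean_value (contDiff_cv hb hul) hΛ hhelm (hΛt t h1 h2) ek_e0 h1.le
        (by linarith)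
      have h4 : cv (kk e0 t) (moll u n) z = t ^ 2 * GG (moll u n) e0 z t := GG_eq_cv _ z h1
      rw [← assoc_cv hul hk hb, ← moll_eq, h4]
      have h5 : GG (moll u n) e0 z t = cc Λ e0 t * moll u n z := hmv
      rw [h5]
      have := (hccp t h1 h2).ne'
      field_simp
    have hl2 : Tendsto (fun n => (t ^ 2 * cc Λ e0 t)⁻¹ *
        convolution ((bmp n).normed volume) (cv (kk e0 t) u)
          (ContinuousLinearMap.lsmul ℝ ℝ) volume z) atTop (𝓝 (A t z)) := by
      refine Tendsto.const_mul _ ?_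
      exact ContDiffBump.convolution_tendsto_right_of_continuous tendsto_bmp
        (contDiff_cv hk hul).continuous z
    exact hl2.congr' (hev.mono fun n hn => hn.symm)
  set v : V → ℝ := fun z => limUnder atTop (fun n => moll u n z) with hv
  have hvA : ∀ z t, 0 < t → t ≤ t0 → closedBall z (2 * t) ⊆ Ω → v z = A t z :=
    fun z t h1 h2 h3 => (hlim z t h1 h2 h3).limUnder_eq
  have hrad : ∀ z ∈ Ω, ∃ t, 0 < t ∧ t ≤ t0 ∧ closedBall z (3 * t) ⊆ Ω := by
    intro z hz
    obtain ⟨r, hr, hr2⟩ := Metric.isOpen_iff.1 hΩ z hz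
    refine ⟨min t0 (r / 6), by positivity, min_le_left _ _, Subset.trans ?_ hr2⟩
    apply closedBall_subset_ball
    have : min t0 (r / 6) ≤ r / 6 := min_le_right _ _
    linarith
  have hloc : ∀ z ∈ Ω, ∃ t, 0 < t ∧ t ≤ t0 ∧ closedBall z (3 * t) ⊆ Ω ∧ v =ᶠ[𝓝 z] A t := by
    intro z hz
    obtain ⟨t, h1, h2, h3⟩ := hrad z hz
    refine ⟨t, h1, h2, h3, ?_⟩
    filter_upwards [ball_mem_nhds z h1] with y hy
    refine hvA y t h1 h2 (Subset.trans ?_ h3)
    apply closedBall_subset_closedBall'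
    rw [mem_ball] at hy
    linarith
  have hAc : ∀ t, 0 < t → ContDiff ℝ ∞ (A t) := fun t h1 =>
    contDiff_const.mul (contDiff_cv (tst_kk ek_e0 h1) hul)
  refine ⟨v, ?_, ?_, ?_, ?_⟩
  · intro z hz
    obtain ⟨t, h1, h2, h3, h4⟩ := hloc z hz
    exact ((hAc t h1).contDiffAt.congr_of_eventuallyEq h4).contDiffWithinAt
  · filter_upwards [moll_ae hul] with z hz hzΩ
    obtain ⟨t, h1, h2, h3⟩ := hrad z hzΩ
    have h4 : closedBall z (2 * t) ⊆ Ω :=
      (closedBall_subset_closedBall (by linarith)).trans h3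
    rw [hvA z t h1 h2 h4]
    exact tendsto_nhds_unique (hlim z t h1 h2 h4) hz
  · intro z hz
    obtain ⟨t, h1, h2, h3, h4⟩ := hloc z hz
    have hk := tst_kk ek_e0 h1
    have hd : ∀ i : Fin 2, ∀ {f g : V → ℝ}, f =ᶠ[𝓝 z] g → dd i f =ᶠ[𝓝 z] dd i g := by
      intro i f g hfg
      filter_upwards [hfg.fderiv (𝕜 := ℝ)] with y hy
      rw [dd, dd, hy]
    have h5 : lap v z = lap (A t) z := by
      rw [lap, lap, (hd 0 (hd 0 h4)).self_of_nhds, (hd 1 (hd 1 h4)).self_of_nhds]
    have h6 : lap (A t) z = (t ^ 2 * cc Λ e0 t)⁻¹ * lap (cv (kk e0 t) u) z := by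
      have h7 := lap_sub (f := fun _ => (0 : ℝ)) contDiff_const (contDiff_cv hk hul)
        (-(t ^ 2 * cc Λ e0 t)⁻¹) z
      have h8 : (fun y => (0 : ℝ) - -(t ^ 2 * cc Λ e0 t)⁻¹ * cv (kk e0 t) u y) = A t := by
        funext y; simp [hA]
      have h9 : lap (fun _ : V => (0 : ℝ)) z = 0 := by
        have : ∀ i : Fin 2, dd i (fun _ : V => (0 : ℝ)) = fun _ => 0 := by
          intro i; funext y; simp [dd]
        rw [lap, this, this, this, this]; simp
      rw [h8, h9] at h7
      rw [h7]; ring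
    have h10 := helm_cv hul hw hk (tsupport_kk ek_e0 h1) (x := z)
      ((closedBall_subset_closedBall (by linarith)).trans h3)
    rw [h5, h6, h10, h4.self_of_nhds]
    simp only [hA]; ring
  · set κ : ℝ := (volume : Measure V).real (ball (0 : V) 1) with hκ
    refine ⟨4 * κ / I0 ^ 2, t0, ht0p, fun z t h1 h2 h3 => ?_⟩
    rw [hvA z t h1 h2 h3]
    have hcc := cc_lower h1.le (hst t h1 h2)
    have hu2 : IntegrableOn (fun y => (u y) ^ 2) (ball z t) := hu.integrable_sq.integrableOn
    -- Cauchy-Schwarz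
    have hcs : (cv (kk e0 t) u z) ^ 2 ≤ (κ * t ^ 2) * ∫ y in ball z t, (u y) ^ 2 := by
      have e1 : cv (kk e0 t) u z = ∫ y in ball z t, u y * kk e0 t (z - y) := by
        rw [cv_apply, ← integral_indicator measurableSet_ball]
        congr 1; funext y
        by_cases hy : y ∈ ball z t
        · rw [indicator_of_mem hy]
        · rw [indicator_of_notMem hy, kk_eq_zero ek_e0 h1, mul_zero]
          rw [mem_ball, dist_comm, dist_eq_norm, not_lt] at hy
          exact hy
      have hvol : (volume : Measure V).real (ball z t) = κ * t ^ 2 := by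
        rw [Measure.real, Measure.addHaar_ball_of_pos _ _ h1, ENNReal.toReal_mul,
          ENNReal.toReal_ofReal (by positivity)]
        have hf : Module.finrank ℝ V = 2 := by simp
        rw [hf, hκ, Measure.real]; ring
      have hmeas : AEStronglyMeasurable (fun y => kk e0 t (z - y))
          (volume.restrict (ball z t)) := by
        have : Continuous (fun y => kk e0 t (z - y)) :=
          (tst_kk ek_e0 h1).1.continuous.comp (by fun_prop)
        exact this.aestronglyMeasurable
      have hb1 : ∀ y, |kk e0 t (z - y)| ≤ 1 := fun y => by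
        rw [kk, abs_of_nonneg (rad_e0_nonneg _)]; exact rad_e0_le _
      have hint : IntegrableOn (fun y => u y * kk e0 t (z - y)) (ball z t) := by
        have hu1 : IntegrableOn u (ball z t) :=
          (hul.integrableOn_isCompact (isCompact_closedBall z t)).mono_set ball_subset_closedBall
        exact hu1.mul_bdd (c := 1) hmeas (Eventually.of_forall fun y => hb1 y)
      set m := ∫ y in ball z t, u y * kk e0 t (z - y) with hm
      have hvolp : 0 < κ * t ^ 2 := by
        rw [← hvol]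
        exact ENNReal.toReal_pos (measure_ball_pos _ _ h1).ne' measure_ball_lt_top.ne
      -- expand a square
      have hsq : 0 ≤ ∫ y in ball z t, (κ * t ^ 2 * u y * kk e0 t (z - y) - m) ^ 2 :=
        integral_nonneg fun y => sq_nonneg _
      have hi1 : IntegrableOn (fun y => (u y * kk e0 t (z - y)) ^ 2) (ball z t) := by
        refine Integrable.mono' hu2 ?_ (Eventually.of_forall fun y => ?_)
        · exact (hint.aestronglyMeasurable).pow 2
        · rw [Real.norm_eq_abs, abs_of_nonneg (sq_nonneg _), mul_pow]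
          have : kk e0 t (z - y) ^ 2 ≤ 1 := by
            rw [← sq_abs]; have := hb1 y; nlinarith [abs_nonneg (kk e0 t (z - y))]
          nlinarith [sq_nonneg (u y)]
      have hexp : ∫ y in ball z t, (κ * t ^ 2 * u y * kk e0 t (z - y) - m) ^ 2 =
          (κ * t ^ 2) ^ 2 * (∫ y in ball z t, (u y * kk e0 t (z - y)) ^ 2) -
            κ * t ^ 2 * m ^ 2 := by
        have h7 : ∀ y, (κ * t ^ 2 * u y * kk e0 t (z - y) - m) ^ 2 =
            (κ * t ^ 2) ^ 2 * (u y * kk e0 t (z - y)) ^ 2 -
              (2 * κ * t ^ 2 * m) * (u y * kk e0 t (z - y)) + m ^ 2 := fun y => by ring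
        simp only [h7]
        rw [integral_add, integral_sub, integral_const_mul, integral_const_mul,
          setIntegral_const, hvol, ← hm, smul_eq_mul]
        · ring
        · exact hi1.const_mul _
        · exact hint.const_mul _
        · exact (hi1.const_mul _).sub (hint.const_mul _)
        · exact integrableOn_const measure_ball_lt_top.ne
      rw [hexp] at hsq
      have h8 : ∫ y in ball z t, (u y * kk e0 t (z - y)) ^ 2 ≤ ∫ y in ball z t, (u y) ^ 2 := by
        refine integral_mono hi1 hu2 (fun y => ?_)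
        show (u y * kk e0 t (z - y)) ^ 2 ≤ (u y) ^ 2
        rw [mul_pow]
        have : kk e0 t (z - y) ^ 2 ≤ 1 := by
          rw [← sq_abs]; have := hb1 y; nlinarith [abs_nonneg (kk e0 t (z - y))]
        nlinarith [sq_nonneg (u y)]
      rw [e1]
      have h9 : m ^ 2 ≤ κ * t ^ 2 * ∫ y in ball z t, (u y * kk e0 t (z - y)) ^ 2 := by
        have h10 : 0 ≤ κ * t ^ 2 * (κ * t ^ 2 * (∫ y in ball z t, (u y * kk e0 t (z - y)) ^ 2) -
          m ^ 2) := by linarith
        have := nonneg_of_mul_nonneg_right h10 hvolp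
        linarith
      exact h9.trans (mul_le_mul_of_nonneg_left h8 hvolp.le)
    have hI : 0 ≤ ∫ y in ball z t, (u y) ^ 2 := integral_nonneg fun y => sq_nonneg _
    have hκ0 : 0 ≤ κ := measureReal_nonneg
    simp only [hA]
    rw [mul_pow, inv_pow]
    have hcp := hccp t h1 h2
    have h11 : (t ^ 2 * (1 / 2 * I0)) ^ 2 ≤ (t ^ 2 * cc Λ e0 t) ^ 2 := by gcongr
    calc ((t ^ 2 * cc Λ e0 t) ^ 2)⁻¹ * cv (kk e0 t) u z ^ 2
        ≤ ((t ^ 2 * (1 / 2 * I0)) ^ 2)⁻¹ * ((κ * t ^ 2) * ∫ y in ball z t, (u y) ^ 2) := by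
          gcongr
      _ = 4 * κ / I0 ^ 2 / t ^ 2 * ∫ y in ball z t, (u y) ^ 2 := by
          field_simp
          ring

end Pool.Agent.Helper546
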